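import Pool.Agent.Work.EurHuh.Defs

/-!
Basic facts on products of finite dimensional subspaces (proved; free to use everywhere).
-/

namespace EurHuh

open Module Submodule

section Fin

variable {K V V' : Type*} [Field K] [AddCommGroup V] [Module K V] [AddCommGroup V'] [Module K V']

lemma fg_of_le {S T : Submodule K V} (hT : T.FG) (h : S ≤ T) : S.FG := by
  have : FiniteDimensional K T := Module.Finite.iff_fg.mpr hT
  have := Submodule.finiteDimensional_of_le h
  exact Module.Finite.iff_fg.mp this

lemma finrank_le_of_le {S T : Submodule K V} (hT : T.FG) (h : S ≤ T) :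
    finrank K S ≤ finrank K T := by
  have : FiniteDimensional K T := Module.Finite.iff_fg.mpr hT
  exact Submodule.finrank_mono h

lemma finrank_map_of_inj (f : V →ₗ[K] V') (hf : Function.Injective f) (S : Submodule K V) :
    finrank K (S.map f) = finrank K S :=
  (Submodule.equivMapOfInjective f hf S).finrank_eq.symm

lemma finrank_map_le_of_fg (f : V →ₗ[K] V') {S : Submodule K V} (hS : S.FG) :
    finrank K (S.map f) ≤ finrank K S := by
  have : FiniteDimensional K S := Module.Finite.iff_fg.mpr hS
  exact Submodule.finrank_map_le f S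

end Fin

variable {K F : Type*} [Field K] [Field F] [Algebra K F]

lemma fg_prod {ι : Type*} (s : Finset ι) (f : ι → Submodule K F) (h : ∀ i ∈ s, (f i).FG) :
    (∏ i ∈ s, f i).FG := by
  classical
  induction s using Finset.induction_on with
  | empty =>
    rw [Finset.prod_empty, Submodule.one_eq_span]
    exact Submodule.fg_span (Set.finite_singleton (1 : F))
  | insert a s ha ih =>
    rw [Finset.prod_insert ha]
    exact (h a (by simp)).mul (ih fun i hi => h i (by simp [hi]))

variable {ι : Type*} [Fintype ι]

lemma prd_fg {V : ι → Submodule K F} (hV : ∀ i, (V i).FG) (m : ι → ℕ) : (prd V m).FG :=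
  fg_prod _ _ fun i _ => (hV i).pow _

lemma prd_add (V : ι → Submodule K F) (m m' : ι → ℕ) : prd V (m + m') = prd V m * prd V m' := by
  simp [prd, pow_add, Finset.prod_mul_distrib]

lemma prd_zero (V : ι → Submodule K F) : prd V 0 = 1 := by simp [prd]

lemma prd_nsmul (V : ι → Submodule K F) (m : ι → ℕ) (l : ℕ) : prd V (l • m) = prd V m ^ l := by
  simp [prd, mul_comm l, pow_mul, Finset.prod_pow]

lemma one_mem_pow' {S : Submodule K F} (h : (1 : F) ∈ S) (n : ℕ) : (1 : F) ∈ S ^ n := by
  have : (1 : Submodule K F) ≤ S := Submodule.one_le.mpr h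
  exact Submodule.one_le.mp (one_le_pow_of_one_le' this n)

lemma one_mem_prd {V : ι → Submodule K F} (hV : Adm K V) (m : ι → ℕ) : (1 : F) ∈ prd V m := by
  have : (1 : Submodule K F) ≤ prd V m := by
    unfold prd
    exact Finset.one_le_prod' fun i _ => Submodule.one_le.mpr (one_mem_pow' (hV i).2 _)
  exact Submodule.one_le.mp this

lemma prd_mono {V : ι → Submodule K F} (hV : Adm K V) {m m' : ι → ℕ} (h : m ≤ m') :
    prd V m ≤ prd V m' := by
  obtain ⟨k, rfl⟩ := exists_add_of_le h
  rw [prd_add]
  calc prd V m = prd V m * 1 := (mul_one _).symm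
    _ ≤ prd V m * prd V k := by
      gcongr
      exact Submodule.one_le.mpr (one_mem_prd hV k)

lemma le_prd {V : ι → Submodule K F} (hV : Adm K V) {m : ι → ℕ} {i : ι} (h : 1 ≤ m i) :
    V i ≤ prd V m := by
  classical
  have h1 : prd V (Pi.single i 1) ≤ prd V m := by
    apply prd_mono hV
    intro j
    by_cases hj : j = i
    · subst hj; simpa using h
    · simp [Pi.single_eq_of_ne hj]
  refine le_trans (le_of_eq ?_) h1
  unfold prd
  rw [Finset.prod_eq_single i]
  · simp
  · intro j _ hj; simp [Pi.single_eq_of_ne hj]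
  · simp

/-- multiplication by a nonzero element preserves the dimension -/
lemma finrank_map_mulLeft {g : F} (hg : g ≠ 0) (S : Submodule K F) :
    finrank K (S.map (LinearMap.mulLeft K g)) = finrank K S :=
  finrank_map_of_inj _ (by
    intro a b h
    simpa [hg] using h) S

lemma finrank_le_mul_right {S T : Submodule K F} (hS : S.FG) (hT : T.FG) {t : F} (ht : t ∈ T)
    (h0 : t ≠ 0) : finrank K S ≤ finrank K (S * T : Submodule K F) := by
  rw [← finrank_map_mulLeft h0 S]
  refine finrank_le_of_le (hS.mul hT) ?_
  rintro _ ⟨s, hs, rfl⟩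
  rw [LinearMap.mulLeft_apply, mul_comm t s]
  exact Submodule.mul_mem_mul hs ht

lemma pen_fg (x : F) : (pen K x).FG := Submodule.fg_span (Set.toFinite _)

lemma one_mem_pen (x : F) : (1 : F) ∈ pen K x := subset_span (by simp)

lemma mem_pen (x : F) : x ∈ pen K x := subset_span (by simp)

lemma pen_le {x : F} {S : Submodule K F} (h1 : (1 : F) ∈ S) (hx : x ∈ S) : pen K x ≤ S := by
  rw [pen, span_le]
  rintro y (rfl | rfl)
  · exact h1
  · exact hx

end EurHuh
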