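import Pool.Agent.Work.EurHuh.Rank

/-!
M3: growth of dimensions.

Upper bound: `dim (V^l W) ≤ dim (V^l) * dim W`, and `V^l` is estimated with the Noether
normalization of the algebra generated by `V`.

Lower bound. By `exists_basis_extend` there are `x_1, …, x_r ∈ ⋃_J V_i` and
`y_1, …, y_(n-r) ∈ ⋃_(J^c) V_i`, all algebraically independent. The monomials `x^α y^β` with
`|α| ≤ a`, `|β| ≤ b` lie in `prd V m` (as `1 ∈ V_i`) and are linearly independent; their number is
`choose (a + r) r * choose (b + n - r) (n - r) ≥ (a ^ r / r!) * (b ^ (n - r) / (n - r)!)`.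
-/

namespace EurHuh

open Module Submodule

variable {K F : Type*} [Field K] [Field F] [Algebra K F]

theorem finrank_mul_le (A B : Submodule K F) (hA : A.FG) (hB : B.FG) :
    finrank K (A * B : Submodule K F) ≤ finrank K A * finrank K B := by
  have : Module.Finite K A := Module.Finite.iff_fg.mpr hA
  have : Module.Finite K B := Module.Finite.iff_fg.mpr hB
  rw [← Submodule.mulMap_range, ← Module.finrank_tensorProduct]
  exact LinearMap.finrank_range_le _

theorem finrank_restrictTotalDegree_le (s e : ℕ) :
    finrank K (MvPolynomial.restrictTotalDegree (Fin s) K e) ≤ (e + 1) ^ s := by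
  classical
  set S : Set (Fin s →₀ ℕ) := {n | (n.sum fun _ e => e) ≤ e} with hS
  have hb := MvPolynomial.basisRestrictSupport (σ := Fin s) K S
  let φ : S → (Fin s → Fin (e + 1)) := fun n i => ⟨n.1 i, by
    have h1 : n.1 i ≤ n.1.sum fun _ e => e := by
      by_cases h : i ∈ n.1.support
      · exact Finset.single_le_sum (f := fun i => n.1 i) (fun _ _ => Nat.zero_le _) h
      · rw [Finsupp.notMem_support_iff.mp h]; exact Nat.zero_le _
    have h2 : (n.1.sum fun _ e => e) ≤ e := n.2
    omega⟩
  have hφ : Function.Injective φ := by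
    intro n n' h
    apply Subtype.ext
    ext i
    have := congrFun h i
    exact congrArg Fin.val this
  have : Finite S := Finite.of_injective φ hφ
  have := Fintype.ofFinite S
  have h1 : finrank K (MvPolynomial.restrictTotalDegree (Fin s) K e) = Fintype.card S :=
    Module.finrank_eq_card_basis hb
  rw [h1]
  calc Fintype.card S ≤ Fintype.card (Fin s → Fin (e + 1)) := Fintype.card_le_of_injective φ hφ
    _ = (e + 1) ^ s := by simp

theorem pow_bound (V : Submodule K F) (hV : V.FG) {r : ℕ} (hr : rk K (V : Set F) ≤ r) :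
    ∃ C : ℕ, ∀ l : ℕ, finrank K (V ^ l : Submodule K F) ≤ C * (l + 1) ^ r := by
  classical
  obtain ⟨S, hS⟩ := hV
  let A : Subalgebra K F := Algebra.adjoin K (S : Set F)
  have hVA : V ≤ Subalgebra.toSubmodule A := by
    rw [← hS]; exact Submodule.span_le.mpr Algebra.subset_adjoin
  have : Algebra.FiniteType K A :=
    (Subalgebra.fg_iff_finiteType A).mp ⟨S, rfl⟩
  obtain ⟨s, g, hg, hfin⟩ := exists_finite_inj_algHom_of_fg K A
  let φ : MvPolynomial (Fin s) K →ₐ[K] F := A.val.comp g
  have hφ : Function.Injective φ := Subtype.val_injective.comp hg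
  -- the number of variables
  have hs : s ≤ r := by
    have hind : AlgebraicIndependent K (fun i : Fin s => φ (MvPolynomial.X i)) := by
      have : MvPolynomial.aeval (fun i : Fin s => φ (MvPolynomial.X i)) = φ := by
        apply MvPolynomial.algHom_ext; intro i; simp
      rw [AlgebraicIndependent, this]; exact hφ
    have h1 : (AlgebraicIndependent.matroid K F).Indep
        (Set.range (fun i : Fin s => φ (MvPolynomial.X i))) := by
      rw [AlgebraicIndependent.matroid_indep_iff]
      exact (algebraicIndependent_subtype_range hind.injective).mpr hind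
    have h2 : Set.range (fun i : Fin s => φ (MvPolynomial.X i)) ⊆ (A : Set F) := by
      rintro _ ⟨i, rfl⟩; exact (g (MvPolynomial.X i)).2
    have h3 := h1.encard_le_eRk_of_subset h2
    have h4 : rk K (A : Set F) = rk K (V : Set F) := by
      apply rk_eq_of_algebraic hVA
      intro y hy
      have : y ∈ IntermediateField.adjoin K (V : Set F) := by
        have h5 : A ≤ (IntermediateField.adjoin K (V : Set F)).toSubalgebra := by
          apply Algebra.adjoin_le
          intro z hz
          apply IntermediateField.subset_adjoin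
          rw [← hS]; exact Submodule.subset_span hz
        exact h5 hy
      exact isAlgebraic_algebraMap (⟨y, this⟩ : IntermediateField.adjoin K (V : Set F))
    have h5 : (Set.range (fun i : Fin s => φ (MvPolynomial.X i))).encard = s := by
      rw [← Set.image_univ, hind.injective.encard_image]; simp
    have h6 : (s : ℕ∞) ≤ r := by
      rw [← h5]; exact h3.trans (le_of_eq_of_le h4 hr)
    exact_mod_cast h6
  -- the module generators
  have hmod : ∃ T : Finset F, (∀ t ∈ T, t ∈ A) ∧ ∀ f ∈ A, ∃ c : F → MvPolynomial (Fin s) K,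
      f = ∑ t ∈ T, φ (c t) * t := by
    let := g.toRingHom.toAlgebra
    have : Module.Finite (MvPolynomial (Fin s) K) A := hfin
    obtain ⟨T, hT⟩ := (Module.finite_def (R := MvPolynomial (Fin s) K) (M := A)).mp inferInstance
    refine ⟨T.image (fun a : A => (a : F)), ?_, ?_⟩
    · intro t ht
      obtain ⟨a, _, rfl⟩ := Finset.mem_image.mp ht
      exact a.2
    intro f hf
    have h1 : (⟨f, hf⟩ : A) ∈ Submodule.span (MvPolynomial (Fin s) K) (T : Set A) := by
      rw [hT]; trivial
    obtain ⟨c, hc⟩ := Submodule.mem_span_finset.mp h1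
    refine ⟨fun t => if ht : t ∈ A then c ⟨t, ht⟩ else 0, ?_⟩
    have h2 := congrArg (fun a : A => (a : F)) hc.2
    simp only at h2
    rw [Finset.sum_image (fun a _ b _ h => Subtype.ext h)]
    rw [← h2]
    rw [AddSubmonoidClass.coe_finsetSum]
    apply Finset.sum_congr rfl
    intro a _
    have h3 : (fun t => if ht : t ∈ A then c ⟨t, ht⟩ else 0) (a : F) = c a := by
      simp only [SetLike.coe_mem, dite_true, Subtype.coe_eta]
    rw [h3]
    rfl
  obtain ⟨T, hTA, hT⟩ := hmod
  let P : ℕ → Submodule K F := fun e =>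
    (MvPolynomial.restrictTotalDegree (Fin s) K e).map φ.toLinearMap
  let N : Submodule K F := Submodule.span K (T : Set F)
  have hPmono : ∀ e e', e ≤ e' → P e ≤ P e' := by
    intro e e' h
    apply Submodule.map_mono
    intro p hp
    rw [MvPolynomial.mem_restrictTotalDegree] at hp ⊢
    omega
  have hPmul : ∀ e e', P e * P e' ≤ P (e + e') := by
    intro e e'
    rw [Submodule.mul_le]
    rintro _ ⟨p, hp, rfl⟩ _ ⟨q, hq, rfl⟩
    refine ⟨p * q, ?_, by simp⟩
    have hp' := (MvPolynomial.mem_restrictTotalDegree _ _ _).mp hp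
    have hq' := (MvPolynomial.mem_restrictTotalDegree _ _ _).mp hq
    apply (MvPolynomial.mem_restrictTotalDegree _ _ _).mpr
    exact (MvPolynomial.totalDegree_mul p q).trans (Nat.add_le_add hp' hq')
  have hcover : ∀ f ∈ A, ∃ e, f ∈ P e * N := by
    intro f hf
    obtain ⟨c, hc⟩ := hT f hf
    refine ⟨T.sup (fun t => (c t).totalDegree), ?_⟩
    rw [hc]
    apply Submodule.sum_mem
    intro t ht
    apply Submodule.mul_mem_mul
    · refine ⟨c t, ?_, rfl⟩
      apply (MvPolynomial.mem_restrictTotalDegree _ _ _).mpr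
      exact Finset.le_sup (f := fun t => (c t).totalDegree) ht
    · exact Submodule.subset_span ht
  have hcoverFG : ∀ Y : Submodule K F, Y.FG → Y ≤ Subalgebra.toSubmodule A → ∃ e, Y ≤ P e * N := by
    rintro Y ⟨Z, rfl⟩ hY
    have h1 : ∀ z : F, ∃ e, z ∈ Z → z ∈ P e * N := by
      intro z
      by_cases hz : z ∈ Z
      · obtain ⟨e, he⟩ := hcover z (hY (Submodule.subset_span hz))
        exact ⟨e, fun _ => he⟩
      · exact ⟨0, fun h => absurd h hz⟩
    choose e he using h1
    refine ⟨Z.sup e, ?_⟩
    rw [Submodule.span_le]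
    intro z hz
    exact mul_le_mul' (hPmono _ _ (Finset.le_sup (f := e) hz)) le_rfl (he z hz)
  have hNA : N ≤ Subalgebra.toSubmodule A := Submodule.span_le.mpr (fun t ht => hTA t ht)
  have hNFG : N.FG := ⟨T, rfl⟩
  have hVFG : V.FG := ⟨S, hS⟩
  obtain ⟨d, hd⟩ := hcoverFG (N * V) (hNFG.mul hVFG) (by
    rw [Submodule.mul_le]
    intro a ha b hb
    exact A.mul_mem (hNA ha) (hVA hb))
  obtain ⟨d', hd'⟩ := hcoverFG (Submodule.span K {1}) ⟨{1}, by simp⟩ (by
    rw [Submodule.span_le]
    rintro _ rfl
    exact A.one_mem)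
  have hNV : ∀ l : ℕ, N * V ^ l ≤ P (l * d) * N := by
    intro l
    induction l with
    | zero =>
      rw [pow_zero, mul_one]
      intro x hx
      have h1 : (1 : F) ∈ P (0 * d) := ⟨1, by
        apply (MvPolynomial.mem_restrictTotalDegree _ _ _).mpr
        simp, by simp⟩
      have := Submodule.mul_mem_mul h1 hx
      rwa [one_mul] at this
    | succ l ih =>
      calc N * V ^ (l + 1) = (N * V ^ l) * V := by rw [pow_succ, mul_assoc]
        _ ≤ (P (l * d) * N) * V := mul_le_mul' ih le_rfl
        _ = P (l * d) * (N * V) := by rw [mul_assoc]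
        _ ≤ P (l * d) * (P d * N) := mul_le_mul' le_rfl hd
        _ = (P (l * d) * P d) * N := by rw [mul_assoc]
        _ ≤ P (l * d + d) * N := mul_le_mul' (hPmul _ _) le_rfl
        _ = P ((l + 1) * d) * N := by rw [Nat.succ_mul]
  have hVl : ∀ l : ℕ, V ^ l ≤ P (d' + l * d) * N := by
    intro l
    calc V ^ l ≤ (P d' * N) * V ^ l := by
          intro x hx
          have h1 : (1 : F) ∈ P d' * N := hd' (Submodule.mem_span_singleton_self 1)
          have := Submodule.mul_mem_mul h1 hx
          rwa [one_mul] at this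
      _ = P d' * (N * V ^ l) := by rw [mul_assoc]
      _ ≤ P d' * (P (l * d) * N) := mul_le_mul' le_rfl (hNV l)
      _ = (P d' * P (l * d)) * N := by rw [mul_assoc]
      _ ≤ P (d' + l * d) * N := mul_le_mul' (hPmul _ _) le_rfl
  have hPFG : ∀ e, (P e).FG := by
    intro e
    apply Submodule.FG.map
    exact Module.Finite.iff_fg.mp inferInstance
  have hPdim : ∀ e, finrank K (P e) ≤ (e + 1) ^ s := by
    intro e
    exact (Submodule.finrank_map_le _ _).trans (finrank_restrictTotalDegree_le s e)
  refine ⟨(d + d' + 1) ^ r * finrank K N, fun l => ?_⟩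
  have : Module.Finite K (P (d' + l * d) * N : Submodule K F) :=
    Module.Finite.iff_fg.mpr ((hPFG _).mul hNFG)
  calc finrank K (V ^ l : Submodule K F) ≤ finrank K (P (d' + l * d) * N : Submodule K F) :=
        Submodule.finrank_mono (hVl l)
    _ ≤ finrank K (P (d' + l * d)) * finrank K N := finrank_mul_le _ _ (hPFG _) hNFG
    _ ≤ (d' + l * d + 1) ^ s * finrank K N := Nat.mul_le_mul_right _ (hPdim _)
    _ ≤ ((d + d' + 1) * (l + 1)) ^ r * finrank K N := by
        apply Nat.mul_le_mul_right
        calc (d' + l * d + 1) ^ s ≤ ((d + d' + 1) * (l + 1)) ^ s := by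
              apply Nat.pow_le_pow_left
              nlinarith
          _ ≤ ((d + d' + 1) * (l + 1)) ^ r := by
              apply Nat.pow_le_pow_right _ hs
              positivity
    _ = (d + d' + 1) ^ r * finrank K N * (l + 1) ^ r := by rw [mul_pow]; ring

theorem growth_upper (V W : Submodule K F) (hV : V.FG) (hW : W.FG) {r : ℕ}
    (hr : rk K (V : Set F) ≤ r) :
    ∃ C : ℕ, ∀ l : ℕ, finrank K (V ^ l * W : Submodule K F) ≤ C * (l + 1) ^ r := by
  obtain ⟨C, hC⟩ := pow_bound V hV hr
  refine ⟨C * finrank K W, fun l => ?_⟩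
  calc finrank K (V ^ l * W : Submodule K F) ≤ finrank K (V ^ l : Submodule K F) * finrank K W :=
        finrank_mul_le _ _ (Submodule.FG.pow hV l) hW
    _ ≤ (C * (l + 1) ^ r) * finrank K W := Nat.mul_le_mul_right _ (hC l)
    _ = C * finrank K W * (l + 1) ^ r := by ring

/-- number of exponent vectors of total degree at most `a` in `r` variables -/
theorem count_ge (r a : ℕ) :
    a ^ r ≤ r.factorial * Fintype.card (Sym (Fin (r + 1)) a) := by
  have h1 : Fintype.card (Sym (Fin (r + 1)) a) = (a + r).choose r := by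
    rw [Sym.card_sym_eq_multichoose, Fintype.card_fin, Nat.multichoose_eq]
    have : r + 1 + a - 1 = a + r := by omega
    rw [this]
    exact Nat.choose_symm_add
  rw [h1, ← Nat.ascFactorial_eq_factorial_mul_choose]
  exact (Nat.pow_le_pow_left (Nat.le_succ a) r).trans (Nat.pow_succ_le_ascFactorial (a + 1) r)

/-- the exponent vector attached to an element of `Sym (Fin (r + 1)) a` -/
noncomputable def expo (r a : ℕ) (P : Sym (Fin (r + 1)) a) : Fin r → ℕ :=
  fun i => (P : Multiset (Fin (r + 1))).count i.castSucc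

theorem expo_sum (r a : ℕ) (P : Sym (Fin (r + 1)) a) :
    ∑ i, expo r a P i + (P : Multiset (Fin (r + 1))).count (Fin.last r) = a := by
  have h := (Multiset.sum_count_eq_card (s := Finset.univ) (m := (P : Multiset (Fin (r + 1))))
    (fun _ _ => Finset.mem_univ _))
  rw [Fin.sum_univ_castSucc] at h
  exact h.trans P.2

theorem expo_injective (r a : ℕ) : Function.Injective (expo r a) := by
  intro P Q h
  apply Subtype.ext
  apply Multiset.ext.mpr
  intro i
  have h1 := expo_sum r a P
  have h2 := expo_sum r a Q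
  rw [h] at h1
  induction i using Fin.lastCases with
  | last => exact Nat.add_left_cancel (h1.trans h2.symm)
  | cast i => exact congrFun h i

theorem mono_mem {k : ℕ} (x : Fin k → F) (U : Submodule K F) (hU : (1 : F) ∈ U)
    (hx : ∀ i, x i ∈ U) (α : Fin k → ℕ) (a : ℕ) (ha : ∑ i, α i ≤ a) :
    ∏ i, x i ^ α i ∈ U ^ a := by
  have h1 : (1 : Submodule K F) ≤ U := Submodule.one_le.mpr hU
  have h2 : ∀ s : Finset (Fin k), ∏ i ∈ s, x i ^ α i ∈ U ^ (∑ i ∈ s, α i) := by
    intro s
    classical
    induction s using Finset.induction_on with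
    | empty => simp
    | insert i s hi ih =>
      rw [Finset.prod_insert hi, Finset.sum_insert hi, pow_add]
      exact Submodule.mul_mem_mul (Submodule.pow_mem_pow U (hx i) _) ih
  exact (pow_le_pow_right' h1 ha) (h2 Finset.univ)

theorem growth_lower {ι : Type*} [Fintype ι] (V : ι → Submodule K F) (hV : Adm K V)
    (J : Finset ι) {r n : ℕ} (hr : rk K (⋃ i ∈ J, (V i : Set F)) = r)
    (hn : rk K (⋃ i, (V i : Set F)) = n) (m : ι → ℕ) (a b : ℕ) (ha : ∀ i ∈ J, a ≤ m i)
    (hb : ∀ i ∉ J, b ≤ m i) :
    a ^ r * b ^ (n - r) ≤ (r.factorial * (n - r).factorial) * finrank K (prd V m) := by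
  classical
  have hsub : (⋃ i ∈ J, (V i : Set F)) ⊆ ⋃ i, (V i : Set F) := by
    intro z hz
    simp only [Set.mem_iUnion] at hz ⊢
    obtain ⟨i, _, hi⟩ := hz
    exact ⟨i, hi⟩
  obtain ⟨_, x, y, hx, hy, hxy⟩ := exists_basis_extend hsub hr hn
  have h1 : ∀ i, (1 : Submodule K F) ≤ V i := fun i => Submodule.one_le.mpr (hV i).2
  set UJ : Submodule K F := ∏ i ∈ J, V i with hUJ
  set UC : Submodule K F := ∏ i ∈ Jᶜ, V i with hUC
  have hUJ1 : (1 : F) ∈ UJ := Submodule.one_le.mp (Finset.one_le_prod' (fun i _ => h1 i))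
  have hUC1 : (1 : F) ∈ UC := Submodule.one_le.mp (Finset.one_le_prod' (fun i _ => h1 i))
  have hxU : ∀ k, x k ∈ UJ := by
    intro k
    have := hx k
    simp only [Set.mem_iUnion] at this
    obtain ⟨i, hi, hk⟩ := this
    exact (Finset.single_le_prod' (f := V) (fun i _ => h1 i) hi) hk
  have hyU : ∀ k, y k ∈ UC := by
    intro k
    have := hy k
    obtain ⟨h2, h3⟩ := this
    simp only [Set.mem_iUnion] at h2 h3
    obtain ⟨i, hk⟩ := h2
    have hi : i ∈ Jᶜ := by
      rw [Finset.mem_compl]
      intro hi
      exact h3 ⟨i, hi, hk⟩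
    exact (Finset.single_le_prod' (f := V) (fun i _ => h1 i) hi) hk
  have hprd : UJ ^ a * UC ^ b ≤ prd V m := by
    have e1 : UJ ^ a ≤ ∏ i ∈ J, V i ^ m i := by
      rw [hUJ, ← Finset.prod_pow]
      exact Finset.prod_le_prod' (fun i hi => pow_le_pow_right' (h1 i) (ha i hi))
    have e2 : UC ^ b ≤ ∏ i ∈ Jᶜ, V i ^ m i := by
      rw [hUC, ← Finset.prod_pow]
      exact Finset.prod_le_prod' (fun i hi =>
        pow_le_pow_right' (h1 i) (hb i (Finset.mem_compl.mp hi)))
    have e3 : prd V m = (∏ i ∈ J, V i ^ m i) * ∏ i ∈ Jᶜ, V i ^ m i := by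
      rw [prd, Finset.prod_mul_prod_compl]
    rw [e3]
    exact mul_le_mul' e1 e2
  have hFG : (prd V m).FG := by
    rw [prd]
    have : ∀ s : Finset ι, (∏ i ∈ s, V i ^ m i).FG := by
      intro s
      induction s using Finset.induction_on with
      | empty => rw [Finset.prod_empty]; exact ⟨{1}, by simp [Submodule.one_eq_span]⟩
      | insert i s hi ih =>
        rw [Finset.prod_insert hi]
        exact ((hV i).1.pow _).mul ih
    exact this _
  have : Module.Finite K (prd V m) := Module.Finite.iff_fg.mpr hFG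
  -- the linearly independent family
  let I := Sym (Fin (r + 1)) a × Sym (Fin (n - r + 1)) b
  let e : I → (Fin r ⊕ Fin (n - r) →₀ ℕ) := fun p =>
    Finsupp.equivFunOnFinite.symm (Sum.elim (expo r a p.1) (expo (n - r) b p.2))
  have he : Function.Injective e := by
    intro p q h
    have h2 := Finsupp.equivFunOnFinite.symm.injective h
    have h3 : expo r a p.1 = expo r a q.1 := by
      funext i; exact congrFun h2 (Sum.inl i)
    have h4 : expo (n - r) b p.2 = expo (n - r) b q.2 := by
      funext i; exact congrFun h2 (Sum.inr i)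
    exact Prod.ext (expo_injective _ _ h3) (expo_injective _ _ h4)
  have hli : LinearIndependent K (fun p : I => (MvPolynomial.aeval (Sum.elim x y))
      (MvPolynomial.monomial (e p) (1 : K))) := by
    have h2 := (MvPolynomial.basisMonomials (Fin r ⊕ Fin (n - r)) K).linearIndependent
    have h3 := h2.map' (MvPolynomial.aeval (R := K) (Sum.elim x y)).toLinearMap (by
      rw [LinearMap.ker_eq_bot]; exact hxy)
    have h4 := h3.comp e he
    have h5 : (fun p : I => (MvPolynomial.aeval (Sum.elim x y))
        (MvPolynomial.monomial (e p) (1 : K))) =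
        ((MvPolynomial.aeval (R := K) (Sum.elim x y)).toLinearMap ∘
          (MvPolynomial.basisMonomials (Fin r ⊕ Fin (n - r)) K)) ∘ e := by
      funext p
      simp [MvPolynomial.coe_basisMonomials]
    rw [h5]
    exact h4
  have hmem : ∀ p : I, (MvPolynomial.aeval (Sum.elim x y))
      (MvPolynomial.monomial (e p) (1 : K)) ∈ prd V m := by
    intro p
    rw [MvPolynomial.aeval_monomial, map_one, one_mul]
    rw [Finsupp.prod_fintype _ _ (fun _ => pow_zero _)]
    rw [Fintype.prod_sum_type]
    apply hprd
    apply Submodule.mul_mem_mul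
    · have := mono_mem x UJ hUJ1 hxU (expo r a p.1) a (by
        have := expo_sum r a p.1; omega)
      simpa [e] using this
    · have := mono_mem y UC hUC1 hyU (expo (n - r) b p.2) b (by
        have := expo_sum (n - r) b p.2; omega)
      simpa [e] using this
  have hcard : Fintype.card I ≤ finrank K (prd V m) := by
    have h5 : LinearIndependent K (fun p : I => (⟨_, hmem p⟩ : prd V m)) := by
      apply LinearIndependent.of_comp (prd V m).subtype
      exact hli
    exact h5.fintype_card_le_finrank
  calc a ^ r * b ^ (n - r) ≤ (r.factorial * Fintype.card (Sym (Fin (r + 1)) a)) *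
        ((n - r).factorial * Fintype.card (Sym (Fin (n - r + 1)) b)) :=
        Nat.mul_le_mul (count_ge r a) (count_ge (n - r) b)
    _ = (r.factorial * (n - r).factorial) * Fintype.card I := by
        rw [Fintype.card_prod]; ring
    _ ≤ _ := Nat.mul_le_mul_left _ hcard

end EurHuh
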