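import Pool.Agent.Work.EurHuh.Hilb
import Pool.Agent.Work.EurHuh.Growth
import Pool.Agent.Work.EurHuh.Basic

/-!
M4: the volume polynomial of a family and its degrees.

`hilb_degree`: fix the exponents outside `J` at a large value (the same for all, or generic) and let
the exponents in `J` be `l * w`, `w ≥ 1`: `dim (prd V m) ≤ dim ((∑_J V_i)^(l |w|) * W) ≤ C (l+1)^r` by
`growth_upper` (the rank of the sum of the `V_i`, `i ∈ J`, is that of their union), hence the
`J`-degree of `H` is at most `r` (a nonzero top `J`-homogeneous part does not vanish at some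
point `(w, v)` with positive large integer coordinates).
`exists_vol`: `exists_hilb` and `hilb_degree` with `J = univ`.
`IsVol.rank`: upper bound from `hilb_degree`; if all `J`-degrees of `P` were `< r`, then
`P(a on J, b off J) = O(a^(r-1))` for fixed `b`, against `growth_lower`, which gives
`P(a, b) ≥ a^r b^(n-r) / (r! (n-r)!)` after scaling.
-/

namespace EurHuh

open Module Submodule MvPolynomial Filter Topology

variable {K F : Type*} [Field K] [Field F] [Algebra K F]

theorem infinite_ge (N : ℕ) : {x : ℝ | ∃ k : ℕ, N ≤ k ∧ (k : ℝ) = x}.Infinite := by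
  have h : Function.Injective (fun k : ℕ => ((N + k : ℕ) : ℝ)) := by
    intro a b hab
    have h2 : ((N + a : ℕ) : ℝ) = ((N + b : ℕ) : ℝ) := hab
    have : N + a = N + b := by exact_mod_cast h2
    omega
  refine (Set.infinite_range_of_injective h).mono ?_
  rintro _ ⟨k, rfl⟩
  exact ⟨N + k, by omega, rfl⟩

/-- a real polynomial which vanishes at all integer points with large coordinates is zero -/
theorem eq_of_eval_large {ι : Type*} [Finite ι] (H H' : MvPolynomial ι ℝ) (N : ℕ)
    (h : ∀ m : ι → ℕ, (∀ i, N ≤ m i) → eval (fun i => (m i : ℝ)) H = eval (fun i => (m i : ℝ)) H') :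
    H = H' := by
  refine MvPolynomial.funext_set (fun _ => {x : ℝ | ∃ k : ℕ, N ≤ k ∧ (k : ℝ) = x})
    (fun _ => infinite_ge N) ?_
  intro x hx
  have h1 : ∀ i, ∃ k : ℕ, N ≤ k ∧ (k : ℝ) = x i := fun i => hx i (Set.mem_univ i)
  choose m hm hm' using h1
  have : x = fun i => (m i : ℝ) := by
    funext i
    exact (hm' i).symm
  rw [this]
  exact h m hm

theorem IsVol.unique {ι : Type*} [Fintype ι] {n : ℕ} {V : ι → Submodule K F}
    {P P' : MvPolynomial ι ℝ} (h : IsVol K n V P) (h' : IsVol K n V P') : P = P' := by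
  obtain ⟨H, N, _, rfl, h3⟩ := h
  obtain ⟨H', N', _, rfl, h3'⟩ := h'
  have : H = H' := by
    apply eq_of_eval_large H H' (max N N')
    intro m hm
    rw [← h3 m fun i => (le_max_left _ _).trans (hm i), ← h3' m fun i => (le_max_right _ _).trans (hm i)]
  rw [this]

theorem IsVol.isHomogeneous {ι : Type*} [Fintype ι] {n : ℕ} {V : ι → Submodule K F}
    {P : MvPolynomial ι ℝ} (h : IsVol K n V P) : P.IsHomogeneous n := by
  obtain ⟨H, N, _, rfl, _⟩ := h
  exact homogeneousComponent_isHomogeneous n H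

/-- restriction of a polynomial to the ray `X * v` on `J`, `v` off `J` -/
noncomputable def ray {ι : Type*} (J : Finset ι) (H : MvPolynomial ι ℝ) (v : ι → ℝ) :
    Polynomial ℝ :=
  ∑ s ∈ H.support, Polynomial.C (coeff s H * s.prod fun i e => v i ^ e) *
    Polynomial.X ^ (∑ i ∈ J, s i)

theorem ray_eval {ι : Type*} [Fintype ι] [DecidableEq ι] (J : Finset ι) (H : MvPolynomial ι ℝ)
    (v : ι → ℝ) (x : ℝ) :
    (ray J H v).eval x = eval (fun i => if i ∈ J then x * v i else v i) H := by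
  unfold ray
  rw [Polynomial.eval_finsetSum, MvPolynomial.eval_eq']
  apply Finset.sum_congr rfl
  intro s _
  rw [Polynomial.eval_mul, Polynomial.eval_C, Polynomial.eval_pow, Polynomial.eval_X, mul_assoc]
  congr 1
  rw [Finsupp.prod_fintype _ _ (fun _ => pow_zero _)]
  have h1 : ∏ i, (if i ∈ J then x * v i else v i) ^ s i =
      ∏ i, (if i ∈ J then x ^ s i else 1) * v i ^ s i := by
    apply Finset.prod_congr rfl
    intro i _
    by_cases hi : i ∈ J
    · simp [hi, mul_pow]
    · simp [hi]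
  rw [h1, Finset.prod_mul_distrib, mul_comm, Finset.prod_ite_mem, Finset.univ_inter,
    Finset.prod_pow_eq_pow_sum]

theorem ray_coeff {ι : Type*} [Fintype ι] (J : Finset ι) (H : MvPolynomial ι ℝ)
    (v : ι → ℝ) (D : ℕ) :
    (ray J H v).coeff D =
      eval v (∑ s ∈ H.support with ∑ i ∈ J, s i = D, monomial s (coeff s H)) := by
  unfold ray
  rw [Polynomial.finsetSum_coeff, map_sum, Finset.sum_filter]
  apply Finset.sum_congr rfl
  intro s _
  rw [Polynomial.coeff_C_mul, Polynomial.coeff_X_pow]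
  by_cases h : ∑ i ∈ J, s i = D
  · simp [h, eval_monomial]
  · have h' : ¬ D = ∑ i ∈ J, s i := fun h' => h h'.symm
    simp [h, h']

theorem ray_natDegree_le {ι : Type*} (J : Finset ι) (H : MvPolynomial ι ℝ)
    (v : ι → ℝ) (D : ℕ) (h : ∀ s ∈ H.support, ∑ i ∈ J, s i ≤ D) :
    (ray J H v).natDegree ≤ D := by
  unfold ray
  apply Polynomial.natDegree_sum_le_of_forall_le
  intro s hs
  exact (Polynomial.natDegree_C_mul_X_pow_le _ _).trans (h s hs)

/-- the coefficient of the ray polynomial is the limit -/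
theorem upoly_limit (q : Polynomial ℝ) (n : ℕ) (h : q.natDegree ≤ n) :
    Tendsto (fun x : ℝ => q.eval x / x ^ n) atTop (𝓝 (q.coeff n)) := by
  set q' := q - Polynomial.C (q.coeff n) * Polynomial.X ^ n with hq'
  have hdeg : q'.degree < (Polynomial.X ^ n : Polynomial ℝ).degree := by
    rw [Polynomial.degree_X_pow, Polynomial.degree_lt_iff_coeff_zero]
    intro k hk
    rw [hq', Polynomial.coeff_sub, Polynomial.coeff_C_mul, Polynomial.coeff_X_pow]
    rcases Nat.lt_or_ge n k with h1 | h1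
    · rw [Polynomial.coeff_eq_zero_of_natDegree_lt (h.trans_lt h1)]
      have : ¬ k = n := by omega
      simp [this]
    · have : k = n := le_antisymm h1 hk
      simp [this]
  have h1 := Polynomial.div_tendsto_atTop_zero_of_degree_lt q' (Polynomial.X ^ n) hdeg
  have h2 : Tendsto (fun x : ℝ => q'.eval x / (Polynomial.X ^ n : Polynomial ℝ).eval x + q.coeff n)
      atTop (𝓝 (0 + q.coeff n)) := h1.add_const _
  rw [zero_add] at h2
  refine h2.congr' ?_
  filter_upwards [eventually_gt_atTop 0] with x hx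
  rw [hq']
  simp only [Polynomial.eval_sub, Polynomial.eval_mul, Polynomial.eval_C, Polynomial.eval_pow,
    Polynomial.eval_X]
  have : x ^ n ≠ 0 := (pow_pos hx n).ne'
  field_simp
  ring

theorem upoly_limit_nat (q : Polynomial ℝ) (n : ℕ) (h : q.natDegree ≤ n) :
    Tendsto (fun l : ℕ => q.eval (l : ℝ) / (l : ℝ) ^ n) atTop (𝓝 (q.coeff n)) :=
  (upoly_limit q n h).comp tendsto_natCast_atTop_atTop

/-- a polynomial with growth `O((l+1)^r)` has degree at most `r` -/
theorem natDegree_le_of_bound (q : Polynomial ℝ) (r : ℕ) (C : ℝ)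
    (h : ∀ l : ℕ, 1 ≤ l → |q.eval (l : ℝ)| ≤ C * ((l : ℝ) + 1) ^ r) : q.natDegree ≤ r := by
  by_contra hlt
  rw [not_le] at hlt
  have hQ : ((Polynomial.X + 1) ^ r : Polynomial ℝ) ≠ 0 := by
    apply pow_ne_zero
    exact Polynomial.X_add_C_ne_zero 1
  have hdeg : ((Polynomial.X + 1) ^ r : Polynomial ℝ).degree < q.degree := by
    have h1 : ((Polynomial.X + 1) ^ r : Polynomial ℝ).degree = r := by
      rw [Polynomial.degree_pow]
      have : (Polynomial.X + 1 : Polynomial ℝ).degree = 1 := Polynomial.degree_X_add_C 1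
      rw [this]
      simp
    rw [h1]
    exact Polynomial.coe_lt_degree.2 hlt
  have h2 := (Polynomial.abs_div_tendsto_atTop_atTop_of_degree_gt q _ hdeg hQ).comp
    (tendsto_natCast_atTop_atTop (R := ℝ))
  have h3 := (h2.eventually (eventually_gt_atTop C)).and (eventually_ge_atTop 1)
  obtain ⟨l, hl, hl1⟩ := h3.exists
  have h4 := h l hl1
  simp only [Function.comp, Polynomial.eval_pow, Polynomial.eval_add, Polynomial.eval_X,
    Polynomial.eval_one] at hl
  rw [abs_div] at hl
  have h5 : |((l : ℝ) + 1) ^ r| = ((l : ℝ) + 1) ^ r := abs_of_nonneg (by positivity)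
  rw [h5, lt_div_iff₀ (by positivity)] at hl
  exact absurd h4 (not_le.2 hl)

/-- the rank of a product of powers of the `V i`, `i ∈ J` -/
theorem rk_prod_le {ι : Type*} [Fintype ι] (V : ι → Submodule K F) (J : Finset ι) (m : ι → ℕ) :
    rk K ((∏ i ∈ J, V i ^ m i : Submodule K F) : Set F) ≤ rk K (⋃ i ∈ J, (V i : Set F)) := by
  classical
  set U : Set F := ⋃ i ∈ J, (V i : Set F) with hU
  set E := IntermediateField.adjoin K U with hE
  have h1 : ∀ i ∈ J, V i ≤ Subalgebra.toSubmodule E.toSubalgebra := by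
    intro i hi y hy
    exact IntermediateField.subset_adjoin K U (Set.mem_biUnion hi hy)
  have hmul : ∀ A B : Submodule K F, A ≤ Subalgebra.toSubmodule E.toSubalgebra →
      B ≤ Subalgebra.toSubmodule E.toSubalgebra → A * B ≤ Subalgebra.toSubmodule E.toSubalgebra := by
    intro A B hA hB
    rw [Submodule.mul_le]
    intro a ha b hb
    exact E.mul_mem (hA ha) (hB hb)
  have hone : (1 : Submodule K F) ≤ Subalgebra.toSubmodule E.toSubalgebra :=
    Submodule.one_le.2 E.one_mem
  have hpow : ∀ A : Submodule K F, A ≤ Subalgebra.toSubmodule E.toSubalgebra → ∀ k : ℕ,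
      A ^ k ≤ Subalgebra.toSubmodule E.toSubalgebra := by
    intro A hA k
    induction k with
    | zero => rw [pow_zero]; exact hone
    | succ k ih => rw [pow_succ]; exact hmul _ _ ih hA
  have h2 : ∀ s : Finset ι, s ⊆ J →
      (∏ i ∈ s, V i ^ m i : Submodule K F) ≤ Subalgebra.toSubmodule E.toSubalgebra := by
    intro s
    induction s using Finset.induction_on with
    | empty =>
      intro _
      rw [Finset.prod_empty]
      exact hone
    | insert i s hi ih =>
      intro hs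
      rw [Finset.prod_insert hi]
      exact hmul _ _ (hpow _ (h1 i (hs (Finset.mem_insert_self i s))) _)
        (ih fun j hj => hs (Finset.mem_insert_of_mem hj))
  have h3 := h2 J (Finset.Subset.refl J)
  have h4 : rk K (U ∪ ((∏ i ∈ J, V i ^ m i : Submodule K F) : Set F)) = rk K U := by
    apply rk_eq_of_algebraic Set.subset_union_left
    intro y hy
    have hyE : y ∈ E := by
      rcases hy with hy | hy
      · exact IntermediateField.subset_adjoin K U hy
      · exact h3 hy
    exact isAlgebraic_algebraMap (⟨y, hyE⟩ : E)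
  calc rk K ((∏ i ∈ J, V i ^ m i : Submodule K F) : Set F)
      ≤ rk K (U ∪ ((∏ i ∈ J, V i ^ m i : Submodule K F) : Set F)) := rk_mono Set.subset_union_right
    _ = rk K U := h4

theorem hilb_degree {ι : Type*} [Fintype ι] (V : ι → Submodule K F) (hV : Adm K V)
    (H : MvPolynomial ι ℝ) (N : ℕ)
    (hH : ∀ m : ι → ℕ, (∀ i, N ≤ m i) → (finrank K (prd V m) : ℝ) = eval (fun i => (m i : ℝ)) H)
    (J : Finset ι) {r : ℕ} (hr : rk K (⋃ i ∈ J, (V i : Set F)) ≤ r) :
    ∀ s ∈ H.support, ∑ i ∈ J, s i ≤ r := by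
  classical
  intro s hs
  by_contra hlt
  rw [not_le] at hlt
  set D := ∑ i ∈ J, s i with hD
  set HD : MvPolynomial ι ℝ := ∑ s ∈ H.support with ∑ i ∈ J, s i = D, monomial s (coeff s H)
    with hHD
  have hne : HD ≠ 0 := by
    intro h0
    have h1 : coeff s HD = coeff s H := by
      rw [hHD, MvPolynomial.coeff_sum]
      rw [Finset.sum_eq_single s]
      · simp
      · intro t _ ht
        rw [coeff_monomial, if_neg ht]
      · intro hns
        exact absurd (Finset.mem_filter.2 ⟨hs, hD.symm⟩) hns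
    rw [h0, coeff_zero] at h1
    exact (mem_support_iff.1 hs) h1.symm
  obtain ⟨m₀, hm₀, hne₀⟩ : ∃ m : ι → ℕ, (∀ i, N ≤ m i) ∧ eval (fun i => (m i : ℝ)) HD ≠ 0 := by
    by_contra hcon
    push Not at hcon
    exact hne (eq_of_eval_large HD 0 N fun m hm => by rw [hcon m hm, map_zero])
  set v : ι → ℝ := fun i => (m₀ i : ℝ) with hv
  have hc : (ray J H v).coeff D ≠ 0 := by
    rw [ray_coeff]
    exact hne₀
  -- the bound
  set A : Submodule K F := ∏ i ∈ J, V i ^ m₀ i with hA
  set W : Submodule K F := ∏ i ∈ Jᶜ, V i ^ m₀ i with hW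
  have hAfg : A.FG := fg_prod _ _ fun i _ => (hV i).1.pow _
  have hWfg : W.FG := fg_prod _ _ fun i _ => (hV i).1.pow _
  obtain ⟨C, hC⟩ := growth_upper A W hAfg hWfg (r := r) ((rk_prod_le V J m₀).trans hr)
  have hb : ∀ l : ℕ, 1 ≤ l → |(ray J H v).eval (l : ℝ)| ≤ (C : ℝ) * ((l : ℝ) + 1) ^ r := by
    intro l hl
    have h1 : (ray J H v).eval (l : ℝ) =
        (finrank K (A ^ l * W : Submodule K F) : ℝ) := by
      rw [ray_eval]
      have h2 : (fun i => if i ∈ J then (l : ℝ) * v i else v i) =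
          fun i => ((if i ∈ J then l * m₀ i else m₀ i : ℕ) : ℝ) := by
        funext i
        by_cases hi : i ∈ J
        · simp [hi, hv]
        · simp [hi, hv]
      rw [h2, ← hH _ ?_]
      · congr 1
        have h3 : prd V (fun i => if i ∈ J then l * m₀ i else m₀ i) = A ^ l * W := by
          unfold prd
          rw [← Finset.prod_mul_prod_compl J, hA, hW, ← Finset.prod_pow]
          congr 1
          · apply Finset.prod_congr rfl
            intro i hi
            simp only [if_pos hi]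
            rw [mul_comm, pow_mul]
          · apply Finset.prod_congr rfl
            intro i hi
            simp only [if_neg (Finset.mem_compl.1 hi)]
        rw [h3]
      · intro i
        by_cases hi : i ∈ J
        · rw [if_pos hi]
          exact (hm₀ i).trans (Nat.le_mul_of_pos_left _ hl)
        · rw [if_neg hi]
          exact hm₀ i
    rw [h1, abs_of_nonneg (Nat.cast_nonneg _)]
    exact_mod_cast hC l
  have h5 := natDegree_le_of_bound _ r C hb
  have h6 := Polynomial.le_natDegree_of_ne_zero hc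
  omega

theorem exists_vol {ι : Type*} [Fintype ι] (V : ι → Submodule K F) (hV : Adm K V) {n : ℕ}
    (hn : rk K (⋃ i, (V i : Set F)) = n) : ∃ P, IsVol K n V P := by
  obtain ⟨H, N, hH⟩ := exists_hilb V fun i => (hV i).1
  refine ⟨homogeneousComponent n H, H, N, ?_, rfl, hH⟩
  have h := hilb_degree V hV H N hH Finset.univ (r := n) (by simp [hn])
  rw [totalDegree, Finset.sup_le_iff]
  intro s hs
  rw [Finsupp.sum_fintype _ _ (fun _ => rfl)]
  exact h s hs

theorem IsVol.tendsto {ι : Type*} [Fintype ι] {n : ℕ} {V : ι → Submodule K F}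
    {P : MvPolynomial ι ℝ} (hP : IsVol K n V P) (w : ι → ℕ) (hw : ∀ i, 0 < w i) :
    Tendsto (fun l : ℕ => (finrank K (prd V (fun i => l * w i)) : ℝ) / (l : ℝ) ^ n) atTop
      (𝓝 (eval (fun i => (w i : ℝ)) P)) := by
  classical
  obtain ⟨H, N, h1, rfl, h3⟩ := hP
  set v : ι → ℝ := fun i => (w i : ℝ) with hv
  have h2 : ∀ s ∈ H.support, ∑ i, s i ≤ n := by
    intro s hs
    have := MvPolynomial.le_totalDegree hs
    rw [Finsupp.sum_fintype _ _ (fun _ => rfl)] at this
    exact this.trans h1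
  have h4 := upoly_limit_nat (ray Finset.univ H v) n (ray_natDegree_le _ _ _ _ h2)
  have h5 : (ray Finset.univ H v).coeff n = eval v (homogeneousComponent n H) := by
    rw [ray_coeff, homogeneousComponent_apply]
    congr 1
    apply Finset.sum_congr _ (fun _ _ => rfl)
    apply Finset.filter_congr
    intro s _
    rw [Finsupp.degree_eq_sum]
  rw [← h5]
  refine h4.congr' ?_
  filter_upwards [eventually_ge_atTop N] with l hl
  congr 1
  rw [h3 _ (fun i => hl.trans (Nat.le_mul_of_pos_right _ (hw i))), ray_eval]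
  congr 2
  funext i
  simp [hv]

theorem IsVol.lower {ι : Type*} [Fintype ι] {n : ℕ} {V : ι → Submodule K F} (hV : Adm K V)
    (hn : rk K (⋃ i, (V i : Set F)) = n) {P : MvPolynomial ι ℝ} (hP : IsVol K n V P)
    (J : Finset ι) {r : ℕ} (hr : rk K (⋃ i ∈ J, (V i : Set F)) = r) (w : ι → ℕ)
    (hw : ∀ i, 0 < w i) (a b : ℕ) (ha : ∀ i ∈ J, a ≤ w i) (hb : ∀ i ∉ J, b ≤ w i) (hrn : r ≤ n) :
    (a : ℝ) ^ r * (b : ℝ) ^ (n - r) ≤
      (r.factorial * (n - r).factorial : ℕ) * eval (fun i => (w i : ℝ)) P := by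
  have h1 := (hP.tendsto w hw).const_mul (((r.factorial * (n - r).factorial : ℕ) : ℝ))
  refine ge_of_tendsto h1 ?_
  filter_upwards [eventually_ge_atTop 1] with l hl
  have h2 := growth_lower V hV J hr hn (fun i => l * w i) (l * a) (l * b)
    (fun i hi => Nat.mul_le_mul_left _ (ha i hi)) (fun i hi => Nat.mul_le_mul_left _ (hb i hi))
  have h3 : (l : ℝ) ^ n * ((a : ℝ) ^ r * (b : ℝ) ^ (n - r)) ≤
      ((r.factorial * (n - r).factorial : ℕ) : ℝ) * (finrank K (prd V (fun i => l * w i)) : ℝ) := by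
    have h4 : (l * a) ^ r * (l * b) ^ (n - r) = l ^ n * (a ^ r * b ^ (n - r)) := by
      have : l ^ n = l ^ r * l ^ (n - r) := by rw [← pow_add]; congr 1; omega
      rw [this, mul_pow, mul_pow]
      ring
    rw [h4] at h2
    exact_mod_cast h2
  have hl0 : (0 : ℝ) < (l : ℝ) ^ n := by
    have : (0 : ℝ) < l := by exact_mod_cast hl
    positivity
  rw [← mul_div_assoc, le_div_iff₀ hl0]
  linarith

theorem rk_le_of_subfamily {ι : Type*} (V : ι → Submodule K F) (J : Finset ι) {r n : ℕ}
    (hn : rk K (⋃ i, (V i : Set F)) = n) (hr : rk K (⋃ i ∈ J, (V i : Set F)) = r) : r ≤ n := by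
  have h : rk K (⋃ i ∈ J, (V i : Set F)) ≤ rk K (⋃ i, (V i : Set F)) := by
    apply rk_mono
    exact Set.iUnion₂_subset fun i _ => Set.subset_iUnion (fun i => (V i : Set F)) i
  rw [hn, hr] at h
  exact_mod_cast h

theorem IsVol.rank {ι : Type*} [Fintype ι] {n : ℕ} {V : ι → Submodule K F} (hV : Adm K V)
    (hn : rk K (⋃ i, (V i : Set F)) = n) {P : MvPolynomial ι ℝ} (hP : IsVol K n V P)
    (J : Finset ι) {r : ℕ} (hr : rk K (⋃ i ∈ J, (V i : Set F)) = r) :
    (∀ s ∈ P.support, ∑ i ∈ J, s i ≤ r) ∧ ∃ s ∈ P.support, ∑ i ∈ J, s i = r := by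
  classical
  have hrn := rk_le_of_subfamily V J hn hr
  have hle : ∀ s ∈ P.support, ∑ i ∈ J, s i ≤ r := by
    obtain ⟨H, N, h1, rfl, h3⟩ := id hP
    intro s hs
    apply hilb_degree V hV H N h3 J hr.le s
    rw [MvPolynomial.mem_support_iff, coeff_homogeneousComponent] at hs
    rw [MvPolynomial.mem_support_iff]
    intro h0
    apply hs
    rw [h0]
    simp
  refine ⟨hle, ?_⟩
  by_contra hcon
  push Not at hcon
  set v : ι → ℝ := fun _ => 1 with hv
  set q := ray J P v with hq
  have hd : q.natDegree ≤ r := ray_natDegree_le _ _ _ _ hle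
  have hc : q.coeff r = 0 := by
    rw [hq, ray_coeff]
    have : (P.support.filter fun s => ∑ i ∈ J, s i = r) = ∅ := by
      rw [Finset.filter_eq_empty_iff]
      intro s hs h
      exact hcon s hs h
    rw [this]
    simp
  have h1 := upoly_limit_nat q r hd
  rw [hc] at h1
  have h2 : ∀ᶠ l : ℕ in atTop, 1 / ((r.factorial * (n - r).factorial : ℕ) : ℝ) ≤
      q.eval (l : ℝ) / (l : ℝ) ^ r := by
    filter_upwards [eventually_ge_atTop 1] with l hl
    have h3 := hP.lower hV hn J hr (fun i => if i ∈ J then l else 1)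
      (fun i => by by_cases hi : i ∈ J <;> simp [hi]; omega) l 1
      (fun i hi => by simp [hi]) (fun i hi => by simp [hi]) hrn
    have h4 : (fun i => (((if i ∈ J then l else 1 : ℕ)) : ℝ)) =
        fun i => if i ∈ J then (l : ℝ) * v i else v i := by
      funext i
      by_cases hi : i ∈ J <;> simp [hi, hv]
    rw [h4, ← ray_eval] at h3
    have hfac : (0 : ℝ) < ((r.factorial * (n - r).factorial : ℕ) : ℝ) := by
      exact_mod_cast Nat.mul_pos (Nat.factorial_pos _) (Nat.factorial_pos _)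
    have hl0 : (0 : ℝ) < (l : ℝ) ^ r := by
      have : (0 : ℝ) < l := by exact_mod_cast hl
      positivity
    rw [div_le_div_iff₀ hfac hl0]
    simp only [Nat.cast_one, one_pow, mul_one] at h3
    rw [one_mul, mul_comm]
    exact h3
  have h3 := ge_of_tendsto h1 h2
  have hfac : (0 : ℝ) < 1 / ((r.factorial * (n - r).factorial : ℕ) : ℝ) := by
    apply one_div_pos.2
    exact_mod_cast Nat.mul_pos (Nat.factorial_pos _) (Nat.factorial_pos _)
  linarith

theorem floor_limit (c : ℝ) (hc : 0 ≤ c) :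
    Tendsto (fun l : ℕ => ((⌊(l : ℝ) * c⌋₊ : ℕ) : ℝ) / (l : ℝ)) atTop (𝓝 c) := by
  have h := tendsto_nat_floor_mul_div_atTop (R := ℝ) hc
  have h2 := h.comp (tendsto_natCast_atTop_atTop (R := ℝ))
  refine h2.congr ?_
  intro l
  simp [mul_comm]

theorem floor_limit' (c : ℝ) (hc : 0 ≤ c) :
    Tendsto (fun l : ℕ => ((⌊(l : ℝ) * c⌋₊ + 1 : ℕ) : ℝ) / (l : ℝ)) atTop (𝓝 c) := by
  have h := (floor_limit c hc).add (tendsto_one_div_atTop_nhds_zero_nat (𝕜 := ℝ))
  rw [add_zero] at h
  refine h.congr ?_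
  intro l
  push_cast
  ring

theorem eval_scale {ι : Type*} [Fintype ι] {n : ℕ} {P : MvPolynomial ι ℝ} (hP : P.IsHomogeneous n)
    (c : ℝ) (v : ι → ℝ) : eval (fun i => c * v i) P = c ^ n * eval v P := by
  rw [MvPolynomial.eval_eq', MvPolynomial.eval_eq', Finset.mul_sum]
  apply Finset.sum_congr rfl
  intro s hs
  have h1 : ∑ i, s i = n := by
    rw [← Finsupp.degree_eq_sum]
    exact (hP.degree_eq_sum_deg_support hs).symm
  rw [← h1]
  simp only [mul_pow]
  rw [Finset.prod_mul_distrib, Finset.prod_pow_eq_pow_sum]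
  ring

/-- real points as limits of integer points -/
theorem eval_limit {ι : Type*} [Fintype ι] {n : ℕ} {P : MvPolynomial ι ℝ} (hP : P.IsHomogeneous n)
    (w : ι → ℝ) (hw : ∀ i, 0 ≤ w i) :
    Tendsto (fun l : ℕ => eval (fun i => ((⌊(l : ℝ) * w i⌋₊ + 1 : ℕ) : ℝ)) P / (l : ℝ) ^ n) atTop
      (𝓝 (eval w P)) := by
  have h1 : Tendsto (fun l : ℕ => fun i => ((⌊(l : ℝ) * w i⌋₊ + 1 : ℕ) : ℝ) / (l : ℝ)) atTop
      (𝓝 w) := by
    rw [tendsto_pi_nhds]
    intro i
    exact floor_limit' (w i) (hw i)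
  have h2 := (MvPolynomial.continuous_eval P).tendsto w
  have h3 := h2.comp h1
  refine h3.congr' ?_
  filter_upwards [eventually_ge_atTop 1] with l hl
  have hl0 : (l : ℝ) ≠ 0 := by
    have : (0 : ℝ) < l := by exact_mod_cast hl
    exact this.ne'
  simp only [Function.comp]
  have h4 : (fun i => ((⌊(l : ℝ) * w i⌋₊ + 1 : ℕ) : ℝ)) =
      (fun i => (l : ℝ) * (((⌊(l : ℝ) * w i⌋₊ + 1 : ℕ) : ℝ) / (l : ℝ))) := by
    funext i
    field_simp
  have h5 : eval (fun i => ((⌊(l : ℝ) * w i⌋₊ + 1 : ℕ) : ℝ)) P =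
      (l : ℝ) ^ n * eval (fun i => ((⌊(l : ℝ) * w i⌋₊ + 1 : ℕ) : ℝ) / (l : ℝ)) P := by
    rw [h4]
    exact eval_scale hP _ _
  rw [h5]
  field_simp

theorem IsVol.nonneg {ι : Type*} [Fintype ι] {n : ℕ} {V : ι → Submodule K F}
    {P : MvPolynomial ι ℝ} (hP : IsVol K n V P) (w : ι → ℝ) (hw : ∀ i, 0 ≤ w i) :
    0 ≤ eval w P := by
  refine ge_of_tendsto' (eval_limit hP.isHomogeneous w hw) ?_
  intro l
  apply div_nonneg _ (by positivity)
  refine ge_of_tendsto' (hP.tendsto (fun i => ⌊(l : ℝ) * w i⌋₊ + 1) fun i => Nat.succ_pos _) ?_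
  intro l'
  positivity

theorem IsVol.pos {ι : Type*} [Fintype ι] {n : ℕ} {V : ι → Submodule K F} (hV : Adm K V)
    (hn : rk K (⋃ i, (V i : Set F)) = n)
    {P : MvPolynomial ι ℝ} (hP : IsVol K n V P) (w : ι → ℝ) (hw : ∀ i, 0 < w i) :
    0 < eval w P := by
  classical
  obtain ⟨c, hc, hcw⟩ : ∃ c : ℝ, 0 < c ∧ ∀ i, c ≤ w i := by
    rcases isEmpty_or_nonempty ι with h | h
    · exact ⟨1, one_pos, fun i => (h.false i).elim⟩
    · obtain ⟨i, hi⟩ := Finite.exists_min w
      exact ⟨w i, hw i, hi⟩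
  have hfac : (0 : ℝ) < (n.factorial : ℝ) := by exact_mod_cast Nat.factorial_pos _
  have h1 := (eval_limit hP.isHomogeneous w fun i => (hw i).le).const_mul (n.factorial : ℝ)
  have h2 : Tendsto (fun l : ℕ => (((⌊(l : ℝ) * c⌋₊ : ℕ) : ℝ) / (l : ℝ)) ^ n) atTop (𝓝 (c ^ n)) :=
    (floor_limit c hc.le).pow n
  have h3 : c ^ n ≤ (n.factorial : ℝ) * eval w P := by
    refine le_of_tendsto_of_tendsto h2 h1 ?_
    filter_upwards [eventually_ge_atTop 1] with l hl
    have hl0 : (0 : ℝ) < (l : ℝ) := by exact_mod_cast hl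
    have h4 := hP.lower hV hn Finset.univ (r := n) (by simp [hn])
      (fun i => ⌊(l : ℝ) * w i⌋₊ + 1) (fun i => Nat.succ_pos _) ⌊(l : ℝ) * c⌋₊ 0
      (fun i _ => (Nat.floor_mono (mul_le_mul_of_nonneg_left (hcw i) hl0.le)).trans (Nat.le_succ _))
      (fun i hi => absurd (Finset.mem_univ i) hi) le_rfl
    simp only [Nat.sub_self, pow_zero, mul_one, Nat.factorial_zero] at h4
    rw [div_pow, ← mul_div_assoc]
    exact div_le_div_of_nonneg_right h4 (by positivity)
  have h5 : 0 < c ^ n := by positivity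
  have h6 : 0 < (n.factorial : ℝ) * eval w P := lt_of_lt_of_le h5 h3
  exact (mul_pos_iff_of_pos_left hfac).1 h6

end EurHuh
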