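import Pool.Agent.Work.EurHuh.Basic
import Pool.Agent.Work.EurHuh.Vol

/-!
M5: common denominators, the slice lemma, faces of the volume polynomial.

`common_denom`: `K(⋃ U_k)` is the fraction field of `K[⋃ U_k] = ⋃_m prd U (m, …, m)`.

`slice_tendsto`: let `E = K(⋃ U_k)` and `e = dim_E (E B)`. Choose `b_1, …, b_e ∈ B` a basis of `E B`
over `E`. The sum of the `prd U m * b_j` is direct, so `dim (prd U m * B) ≥ e * dim (prd U m)`.
Conversely `B ⊆ ∑ A b_j` with `A ⊆ E` finite dimensional, and by `common_denom` there is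
`g ≠ 0` with `g A ⊆ prd U (m0, …, m0)`; so `dim (prd U m * B) ≤ e * dim (prd U m * A) ≤
e * dim (prd U (m + m0))`. With `m = l w` divide by `l ^ r` and use `IsVol.tendsto` (the second bound:
the Hilbert polynomial at `l w + m0` divided by `l ^ r` tends to `P(w)`).

`vol_face`: let `H` be the Hilbert polynomial of `V` (total degree at most `n`), `N` large, and
`B = ∏_{i not in range j} V_i ^ N`. For `w : κ → ℕ` positive and `l` large,
`H(l w on range j, N off) = dim (prd (V ∘ j) (l w) * B)`; divide by `l ^ n`: the left side tends to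
`P(w on range j, 0 off)` and the right side to `e * P'(w)`, `e = dim_E (E B) ≥ 1`,
`E = K(⋃_κ V_(j k))`. Both sides are polynomials in `w`.
-/

namespace EurHuh

open Module Submodule MvPolynomial Filter Topology

variable {K F : Type*} [Field K] [Field F] [Algebra K F]

theorem eval_smul_hom {σ : Type*} {f : MvPolynomial σ ℝ} {n : ℕ}
    (hf : f.IsHomogeneous n) (c : ℝ) (q : σ → ℝ) : eval (c • q) f = c ^ n * eval q f := by
  rw [eval_eq, eval_eq, Finset.mul_sum]
  refine Finset.sum_congr rfl fun α hα => ?_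
  have h1 : α.degree = n := by
    by_contra hne
    exact (mem_support_iff.mp hα) (hf.coeff_eq_zero hne)
  have h2 : ∏ i ∈ α.support, (c • q) i ^ α i = c ^ n * ∏ i ∈ α.support, q i ^ α i := by
    have h3 : ∏ i ∈ α.support, (c • q) i ^ α i =
        ∏ i ∈ α.support, (c ^ α i * q i ^ α i) :=
      Finset.prod_congr rfl fun i _ => by rw [Pi.smul_apply, smul_eq_mul, mul_pow]
    rw [h3, Finset.prod_mul_distrib, Finset.prod_pow_eq_pow_sum, ← h1]
    rfl
  rw [h2]
  ring

/-- growth of a polynomial along a ray -/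
theorem poly_limit {ι : Type*} (H : MvPolynomial ι ℝ) {n : ℕ} (hn : H.totalDegree ≤ n)
    (c b : ι → ℝ) :
    Tendsto (fun l : ℕ => eval (fun i => (l : ℝ) * c i + b i) H / (l : ℝ) ^ n) atTop
      (𝓝 (eval c (homogeneousComponent n H))) := by
  have hH : H = ∑ d ∈ Finset.range (n + 1), homogeneousComponent d H := by
    conv_lhs => rw [← sum_homogeneousComponent H]
    refine Finset.sum_subset (Finset.range_subset_range.mpr (by omega)) fun d _ hd => ?_
    apply homogeneousComponent_eq_zero
    rw [Finset.mem_range] at hd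
    omega
  have hlim : ∀ d : ℕ, Tendsto (fun l : ℕ => eval (fun i => c i + b i / (l : ℝ))
      (homogeneousComponent d H)) atTop (𝓝 (eval c (homogeneousComponent d H))) := by
    intro d
    have h1 : Tendsto (fun l : ℕ => (fun i => c i + b i / (l : ℝ))) atTop (𝓝 c) := by
      rw [tendsto_pi_nhds]
      intro i
      have := (tendsto_const_nhds (x := c i)).add (tendsto_const_div_atTop_nhds_zero_nat (b i))
      simpa using this
    exact ((MvPolynomial.continuous_eval (homogeneousComponent d H)).tendsto c).comp h1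
  have hterm : ∀ d ∈ Finset.range (n + 1), Tendsto (fun l : ℕ =>
      (l : ℝ) ^ d / (l : ℝ) ^ n * eval (fun i => c i + b i / (l : ℝ))
        (homogeneousComponent d H)) atTop
      (𝓝 (if d = n then eval c (homogeneousComponent d H) else 0)) := by
    intro d hd
    have hdn : d ≤ n := by
      have := Finset.mem_range.mp hd
      omega
    by_cases h : d = n
    · rw [if_pos h]
      subst h
      have h1 : Tendsto (fun l : ℕ => (l : ℝ) ^ d / (l : ℝ) ^ d) atTop (𝓝 1) := by
        apply tendsto_const_nhds.congr'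
        filter_upwards [eventually_gt_atTop 0] with l hl
        have : (l : ℝ) ≠ 0 := by exact_mod_cast hl.ne'
        rw [div_self (pow_ne_zero _ this)]
      have := h1.mul (hlim d)
      rwa [one_mul] at this
    · rw [if_neg h]
      have h1 : Tendsto (fun l : ℕ => (l : ℝ) ^ d / (l : ℝ) ^ n) atTop (𝓝 0) := by
        have h2 := (tendsto_pow_div_pow_atTop_zero (𝕜 := ℝ) (p := d) (q := n) (by omega)).comp
          (tendsto_natCast_atTop_atTop (R := ℝ))
        exact h2
      have := h1.mul (hlim d)
      rwa [zero_mul] at this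
  have hsum := tendsto_finsetSum _ hterm
  rw [Finset.sum_ite_eq' (Finset.range (n + 1)) n, if_pos (Finset.mem_range.mpr (by omega))] at hsum
  refine hsum.congr' ?_
  filter_upwards [eventually_gt_atTop 0] with l hl
  have hl0 : (l : ℝ) ≠ 0 := by exact_mod_cast hl.ne'
  conv_rhs => rw [hH]
  rw [map_sum, Finset.sum_div]
  refine Finset.sum_congr rfl fun d _ => ?_
  have h3 : (fun i => (l : ℝ) * c i + b i) = (l : ℝ) • (fun i => c i + b i / (l : ℝ)) := by
    funext i
    rw [Pi.smul_apply, smul_eq_mul, mul_add, mul_div_cancel₀ _ hl0]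
  rw [h3, eval_smul_hom (homogeneousComponent_isHomogeneous d H)]
  ring

/-- the algebra generated by the spaces `U k` is the union of the `prd U (m, …, m)` -/
theorem mem_prd_of_mem_adjoin {κ : Type*} [Fintype κ] (U : κ → Submodule K F) (hU : Adm K U)
    {x : F} (hx : x ∈ Algebra.adjoin K (⋃ k, (U k : Set F))) :
    ∃ m : ℕ, x ∈ prd U (fun _ => m) := by
  have hmono : ∀ {m m' : ℕ}, m ≤ m' → prd U (fun _ => m) ≤ prd U (fun _ => m') := fun h =>
    prd_mono hU (fun _ => h)
  induction hx using Algebra.adjoin_induction with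
  | mem x hx =>
    obtain ⟨k, hk⟩ := Set.mem_iUnion.mp hx
    exact ⟨1, le_prd hU (m := fun _ => 1) (i := k) le_rfl hk⟩
  | algebraMap r =>
    refine ⟨0, ?_⟩
    rw [Algebra.algebraMap_eq_smul_one]
    exact Submodule.smul_mem _ _ (one_mem_prd hU _)
  | add x y _ _ hx hy =>
    obtain ⟨m, hm⟩ := hx
    obtain ⟨m', hm'⟩ := hy
    exact ⟨max m m', Submodule.add_mem _ (hmono (le_max_left _ _) hm)
      (hmono (le_max_right _ _) hm')⟩
  | mul x y _ _ hx hy =>
    obtain ⟨m, hm⟩ := hx
    obtain ⟨m', hm'⟩ := hy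
    refine ⟨m + m', ?_⟩
    have h1 : (fun _ : κ => m + m') = (fun _ => m) + (fun _ => m') := rfl
    rw [h1, prd_add]
    exact Submodule.mul_mem_mul hm hm'

theorem common_denom {κ : Type*} [Fintype κ] (U : κ → Submodule K F) (hU : Adm K U)
    (B : Submodule K F) (hB : B.FG)
    (h : ∀ b ∈ B, b ∈ IntermediateField.adjoin K (⋃ k, (U k : Set F))) :
    ∃ (g : F) (m0 : ℕ), g ≠ 0 ∧ g ∈ prd U (fun _ => m0) ∧
      ∀ b ∈ B, g * b ∈ prd U (fun _ => m0) := by
  have hmono : ∀ {m m' : ℕ}, m ≤ m' → prd U (fun _ => m) ≤ prd U (fun _ => m') := fun h =>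
    prd_mono hU (fun _ => h)
  induction B, hB using Submodule.fg_induction with
  | singleton x =>
    have hx := h x (Submodule.mem_span_singleton_self x)
    rw [IntermediateField.mem_adjoin_iff_div] at hx
    obtain ⟨r, hr, s, hs, hrs⟩ := hx
    by_cases hs0 : s = 0
    · refine ⟨1, 0, one_ne_zero, one_mem_prd hU _, fun b hb => ?_⟩
      rw [hs0, div_zero] at hrs
      rw [hrs, Submodule.span_zero_singleton, Submodule.mem_bot] at hb
      rw [hb, mul_zero]
      exact Submodule.zero_mem _
    · obtain ⟨m, hm⟩ := mem_prd_of_mem_adjoin U hU hr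
      obtain ⟨m', hm'⟩ := mem_prd_of_mem_adjoin U hU hs
      refine ⟨s, max m m', hs0, hmono (le_max_right _ _) hm', fun b hb => ?_⟩
      obtain ⟨c, rfl⟩ := Submodule.mem_span_singleton.mp hb
      rw [mul_smul_comm, hrs, mul_div_cancel₀ _ hs0]
      exact Submodule.smul_mem _ _ (hmono (le_max_left _ _) hm)
  | sup N₁ N₂ hN₁ hN₂ ih₁ ih₂ =>
    obtain ⟨g, m, hg0, hg, hb⟩ := ih₁ (fun b hb => h b (Submodule.mem_sup_left hb))
    obtain ⟨g', m', hg0', hg', hb'⟩ := ih₂ (fun b hb => h b (Submodule.mem_sup_right hb))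
    have h1 : (fun _ : κ => m + m') = (fun _ => m) + (fun _ => m') := rfl
    refine ⟨g * g', m + m', mul_ne_zero hg0 hg0', ?_, fun b hb2 => ?_⟩
    · rw [h1, prd_add]
      exact Submodule.mul_mem_mul hg hg'
    · obtain ⟨b₁, hb₁, b₂, hb₂, rfl⟩ := Submodule.mem_sup.mp hb2
      rw [h1, prd_add]
      have h2 : g * g' * (b₁ + b₂) = (g * b₁) * g' + g * (g' * b₂) := by ring
      rw [h2]
      exact Submodule.add_mem _ (Submodule.mul_mem_mul (hb b₁ hb₁) hg')
        (Submodule.mul_mem_mul hg (hb' b₂ hb₂))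

/-- `∑ a_j b_j` -/
noncomputable def comb {e : ℕ} (A : Submodule K F) (b : Fin e → F) : (Fin e → A) →ₗ[K] F :=
  ∑ j, (LinearMap.mulRight K (b j)).comp (A.subtype.comp (LinearMap.proj j))

theorem comb_apply {e : ℕ} (A : Submodule K F) (b : Fin e → F) (a : Fin e → A) :
    comb A b a = ∑ j, (a j : F) * b j := by
  simp [comb]

theorem lin_lower (E : IntermediateField K F) {A B : Submodule K F} (hA : A.FG) (hB : B.FG)
    (hAE : ∀ a ∈ A, a ∈ E) {e : ℕ} (b : Fin e → F) (hb : ∀ j, b j ∈ B)
    (hli : LinearIndependent E b) :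
    e * finrank K A ≤ finrank K (A * B : Submodule K F) := by
  have hfA : FiniteDimensional K A := Module.Finite.iff_fg.mpr hA
  have hinj : Function.Injective (comb A b) := by
    rw [← LinearMap.ker_eq_bot, LinearMap.ker_eq_bot']
    intro a ha
    rw [comb_apply] at ha
    have h1 : ∑ j, (⟨(a j : F), hAE _ (a j).2⟩ : E) • b j = 0 := by
      rw [← ha]
      refine Finset.sum_congr rfl fun j _ => ?_
      rw [Algebra.smul_def]
      rfl
    have h2 := Fintype.linearIndependent_iff.mp hli _ h1
    funext j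
    apply Subtype.ext
    exact congrArg (fun z : E => (z : F)) (h2 j)
  have h1 : LinearMap.range (comb A b) ≤ A * B := by
    rintro _ ⟨a, rfl⟩
    rw [comb_apply]
    exact Submodule.sum_mem _ fun j _ => Submodule.mul_mem_mul (a j).2 (hb j)
  have h2 := finrank_le_of_le (hA.mul hB) h1
  rw [LinearMap.finrank_range_of_inj hinj, Module.finrank_pi_fintype] at h2
  simpa using h2

theorem lin_upper {M A B : Submodule K F} (hM : M.FG) (hA : A.FG) {e : ℕ} (b : Fin e → F)
    (hb : ∀ x ∈ B, ∃ a : Fin e → F, (∀ j, a j ∈ A) ∧ x = ∑ j, a j * b j) :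
    finrank K (M * B : Submodule K F) ≤ e * finrank K (M * A : Submodule K F) := by
  have hfA : FiniteDimensional K (M * A : Submodule K F) :=
    Module.Finite.iff_fg.mpr (hM.mul hA)
  have h1 : M * B ≤ LinearMap.range (comb (M * A) b) := by
    rw [Submodule.mul_le]
    intro y hy x hx
    obtain ⟨a, ha, rfl⟩ := hb x hx
    refine ⟨fun j => ⟨y * a j, Submodule.mul_mem_mul hy (ha j)⟩, ?_⟩
    rw [comb_apply, Finset.mul_sum]
    refine Finset.sum_congr rfl fun j _ => ?_
    change y * a j * b j = y * (a j * b j)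
    ring
  have h2 : (LinearMap.range (comb (M * A) b)).FG := Module.Finite.iff_fg.mp inferInstance
  refine (finrank_le_of_le h2 h1).trans ((LinearMap.finrank_range_le _).trans ?_)
  rw [Module.finrank_pi_fintype]
  simp

theorem exists_coeff (E : IntermediateField K F) {e : ℕ} (b : Fin e → F) {B : Submodule K F}
    (hB : B.FG) (h : ∀ x ∈ B, x ∈ span E (Set.range b)) :
    ∃ A : Submodule K F, A.FG ∧ (∀ a ∈ A, a ∈ E) ∧
      ∀ x ∈ B, ∃ a : Fin e → F, (∀ j, a j ∈ A) ∧ x = ∑ j, a j * b j := by
  induction B, hB using Submodule.fg_induction with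
  | singleton x =>
    obtain ⟨c, hc⟩ := (Submodule.mem_span_range_iff_exists_fun E).mp
      (h x (Submodule.mem_span_singleton_self x))
    refine ⟨span K (Set.range fun j => ((c j : E) : F)), fg_span (Set.finite_range _), ?_, ?_⟩
    · intro a ha
      induction ha using Submodule.span_induction with
      | mem y hy =>
        obtain ⟨j, rfl⟩ := hy
        exact (c j).2
      | zero => exact zero_mem _
      | add y z _ _ hy hz => exact add_mem hy hz
      | smul k y _ hy => exact E.smul_mem hy
    · intro y hy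
      obtain ⟨k, rfl⟩ := Submodule.mem_span_singleton.mp hy
      refine ⟨fun j => k • ((c j : E) : F), fun j => Submodule.smul_mem _ _
        (subset_span ⟨j, rfl⟩), ?_⟩
      rw [← hc, Finset.smul_sum]
      refine Finset.sum_congr rfl fun j _ => ?_
      rw [Algebra.smul_def (c j) (b j), smul_mul_assoc]
      rfl
  | sup N₁ N₂ hN₁ hN₂ ih₁ ih₂ =>
    obtain ⟨A₁, h₁, h₁', h₁''⟩ := ih₁ (fun b hb => h b (Submodule.mem_sup_left hb))
    obtain ⟨A₂, h₂, h₂', h₂''⟩ := ih₂ (fun b hb => h b (Submodule.mem_sup_right hb))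
    refine ⟨A₁ ⊔ A₂, h₁.sup h₂, ?_, ?_⟩
    · intro a ha
      obtain ⟨x, hx, y, hy, rfl⟩ := Submodule.mem_sup.mp ha
      exact add_mem (h₁' x hx) (h₂' y hy)
    · intro x hx
      obtain ⟨x₁, hx₁, x₂, hx₂, rfl⟩ := Submodule.mem_sup.mp hx
      obtain ⟨a₁, ha₁, rfl⟩ := h₁'' x₁ hx₁
      obtain ⟨a₂, ha₂, rfl⟩ := h₂'' x₂ hx₂
      refine ⟨fun j => a₁ j + a₂ j, fun j => Submodule.add_mem _
        (Submodule.mem_sup_left (ha₁ j)) (Submodule.mem_sup_right (ha₂ j)), ?_⟩
      rw [← Finset.sum_add_distrib]
      refine Finset.sum_congr rfl fun j _ => ?_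
      ring

theorem span_finite (E : IntermediateField K F) {B : Submodule K F} (hB : B.FG) :
    Module.Finite E (span E (B : Set F)) := by
  obtain ⟨s, rfl⟩ := hB
  rw [Module.Finite.iff_fg]
  have h1 : span E ((span K (s : Set F) : Submodule K F) : Set F) = span E (s : Set F) :=
    Submodule.span_span_of_tower K E (s : Set F)
  rw [h1]
  exact ⟨s, rfl⟩

theorem prd_mem_adjoin {κ : Type*} [Fintype κ] (U : κ → Submodule K F) (m : κ → ℕ) :
    ∀ a ∈ prd U m, a ∈ IntermediateField.adjoin K (⋃ k, (U k : Set F)) := by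
  have h1 : prd U m ≤ Subalgebra.toSubmodule
      (IntermediateField.adjoin K (⋃ k, (U k : Set F))).toSubalgebra := by
    have hU : ∀ k, U k ≤ Subalgebra.toSubmodule
        (IntermediateField.adjoin K (⋃ k, (U k : Set F))).toSubalgebra := fun k x hx =>
      IntermediateField.subset_adjoin K _ (Set.mem_iUnion.mpr ⟨k, hx⟩)
    set S := (IntermediateField.adjoin K (⋃ k, (U k : Set F))).toSubalgebra
    have hpow : ∀ k (n : ℕ), U k ^ n ≤ Subalgebra.toSubmodule S := by
      intro k n
      induction n with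
      | zero =>
        rw [pow_zero, Submodule.one_le]
        exact S.one_mem
      | succ n ih =>
        rw [pow_succ, Submodule.mul_le]
        intro x hx y hy
        exact S.mul_mem (ih hx) (hU k hy)
    have hprod : ∀ s : Finset κ, ∏ k ∈ s, U k ^ m k ≤ Subalgebra.toSubmodule S := by
      classical
      intro s
      induction s using Finset.induction_on with
      | empty =>
        rw [Finset.prod_empty, Submodule.one_le]
        exact S.one_mem
      | insert a s ha ih =>
        rw [Finset.prod_insert ha, Submodule.mul_le]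
        intro x hx y hy
        exact S.mul_mem (hpow _ _ hx) (ih hy)
    exact hprod _
  exact h1

theorem slice_bounds {κ : Type*} [Fintype κ] (U : κ → Submodule K F) (hU : Adm K U)
    (B : Submodule K F) (hB : B.FG) :
    ∃ m0 : ℕ, ∀ m : κ → ℕ,
      finrank (IntermediateField.adjoin K (⋃ k, (U k : Set F)))
        (span (IntermediateField.adjoin K (⋃ k, (U k : Set F))) (B : Set F)) *
          finrank K (prd U m) ≤ finrank K (prd U m * B : Submodule K F) ∧
      finrank K (prd U m * B : Submodule K F) ≤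
        finrank (IntermediateField.adjoin K (⋃ k, (U k : Set F)))
        (span (IntermediateField.adjoin K (⋃ k, (U k : Set F))) (B : Set F)) *
          finrank K (prd U (m + fun _ => m0)) := by
  set E := IntermediateField.adjoin K (⋃ k, (U k : Set F)) with hE
  have hfin := span_finite E hB
  obtain ⟨b, hbB, hbs, hli⟩ := Submodule.exists_fun_fin_finrank_span_eq E (B : Set F)
  obtain ⟨A, hA, hAE, hAB⟩ := exists_coeff E b hB (fun x hx => by
    rw [hbs]
    exact subset_span hx)
  obtain ⟨g, m0, hg0, hg, hgA⟩ := common_denom U hU A hA hAE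
  have hUfg : ∀ i, (U i).FG := fun i => (hU i).1
  refine ⟨m0, fun m => ⟨?_, ?_⟩⟩
  · exact lin_lower E (prd_fg hUfg m) hB (prd_mem_adjoin U m) b hbB hli
  · refine (lin_upper (prd_fg hUfg m) hA b hAB).trans (Nat.mul_le_mul_left _ ?_)
    rw [← finrank_map_mulLeft hg0, prd_add]
    apply finrank_le_of_le ((prd_fg hUfg m).mul (prd_fg hUfg _))
    rintro _ ⟨y, hy, rfl⟩
    rw [LinearMap.mulLeft_apply]
    have h1 : ∀ y ∈ prd U m * A, g * y ∈ prd U m * prd U (fun _ => m0) := by
      intro y hy
      induction hy using Submodule.mul_induction_on' with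
      | mem_mul_mem x hx a ha =>
        have h2 : g * (x * a) = x * (g * a) := by ring
        rw [h2]
        exact Submodule.mul_mem_mul hx (hgA a ha)
      | add x _ y _ hx hy =>
        rw [mul_add]
        exact Submodule.add_mem _ hx hy
    exact h1 y hy

theorem slice_tendsto {κ : Type*} [Fintype κ] (U : κ → Submodule K F) (hU : Adm K U) {r : ℕ}
    (hr : rk K (⋃ k, (U k : Set F)) = r) {P : MvPolynomial κ ℝ} (hP : IsVol K r U P)
    (B : Submodule K F) (hB : B.FG) (w : κ → ℕ) (hw : ∀ k, 0 < w k) :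
    Tendsto (fun l : ℕ =>
        (finrank K (prd U (fun k => l * w k) * B : Submodule K F) : ℝ) / (l : ℝ) ^ r) atTop
      (𝓝 ((finrank (IntermediateField.adjoin K (⋃ k, (U k : Set F)))
        (span (IntermediateField.adjoin K (⋃ k, (U k : Set F))) (B : Set F)) : ℝ) *
          eval (fun k => (w k : ℝ)) P)) := by
  obtain ⟨m0, hm0⟩ := slice_bounds U hU B hB
  set e := finrank (IntermediateField.adjoin K (⋃ k, (U k : Set F)))
        (span (IntermediateField.adjoin K (⋃ k, (U k : Set F))) (B : Set F)) with he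
  have hUfg : ∀ i, (U i).FG := fun i => (hU i).1
  have h1 := hP.tendsto w hw
  have hlow : Tendsto (fun l : ℕ => (e : ℝ) *
      ((finrank K (prd U (fun k => l * w k)) : ℝ) / (l : ℝ) ^ r)) atTop
      (𝓝 ((e : ℝ) * eval (fun k => (w k : ℝ)) P)) := h1.const_mul _
  have hshift : Tendsto (fun l : ℕ => l + m0) atTop atTop := tendsto_add_atTop_nat m0
  have hratio : Tendsto (fun l : ℕ => (((l + m0 : ℕ) : ℝ) / (l : ℝ)) ^ r) atTop (𝓝 1) := by
    have h2 : Tendsto (fun l : ℕ => 1 + (m0 : ℝ) / (l : ℝ)) atTop (𝓝 (1 + 0)) :=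
      tendsto_const_nhds.add (tendsto_const_div_atTop_nhds_zero_nat _)
    rw [add_zero] at h2
    have h3 := h2.pow r
    rw [one_pow] at h3
    refine h3.congr' ?_
    filter_upwards [eventually_gt_atTop 0] with l hl
    have : (l : ℝ) ≠ 0 := by exact_mod_cast hl.ne'
    rw [Nat.cast_add, add_div, div_self this]
  have hup : Tendsto (fun l : ℕ => (e : ℝ) *
      ((finrank K (prd U (fun k => (l + m0) * w k)) : ℝ) / ((l + m0 : ℕ) : ℝ) ^ r) *
        (((l + m0 : ℕ) : ℝ) / (l : ℝ)) ^ r) atTop
      (𝓝 ((e : ℝ) * eval (fun k => (w k : ℝ)) P)) := by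
    have h2 := (hlow.comp hshift).mul hratio
    rw [mul_one] at h2
    exact h2
  refine tendsto_of_tendsto_of_tendsto_of_le_of_le' hlow hup ?_ ?_
  · filter_upwards [eventually_gt_atTop 0] with l hl
    have hl0 : (0 : ℝ) < l := by exact_mod_cast hl
    rw [← mul_div_assoc]
    apply div_le_div_of_nonneg_right _ (by positivity)
    exact_mod_cast (hm0 (fun k => l * w k)).1
  · filter_upwards [eventually_gt_atTop 0] with l hl
    have hl0 : (0 : ℝ) < l := by exact_mod_cast hl
    have h2 : (0 : ℝ) < ((l + m0 : ℕ) : ℝ) := by exact_mod_cast (by omega : 0 < l + m0)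
    have h3 : (e : ℝ) * ((finrank K (prd U (fun k => (l + m0) * w k)) : ℝ) /
        ((l + m0 : ℕ) : ℝ) ^ r) * (((l + m0 : ℕ) : ℝ) / (l : ℝ)) ^ r =
        (e : ℝ) * (finrank K (prd U (fun k => (l + m0) * w k)) : ℝ) / (l : ℝ) ^ r := by
      rw [div_pow]
      field_simp
    rw [h3]
    apply div_le_div_of_nonneg_right _ (by positivity)
    have h4 : finrank K (prd U ((fun k => l * w k) + fun _ => m0)) ≤
        finrank K (prd U (fun k => (l + m0) * w k)) := by
      apply finrank_le_of_le (prd_fg hUfg _)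
      apply prd_mono hU
      intro k
      have := hw k
      change l * w k + m0 ≤ (l + m0) * w k
      nlinarith
    exact_mod_cast (hm0 (fun k => l * w k)).2.trans (Nat.mul_le_mul_left _ h4)

theorem prd_extend {ι κ : Type*} [Fintype ι] [Fintype κ] (V : ι → Submodule K F)
    (j : κ → ι) (hj : Function.Injective j) (m : κ → ℕ) (N : ℕ) :
    prd V (Function.extend j m (fun _ => N)) = prd (fun k => V (j k)) m *
      prd V (Function.extend j (fun _ => 0) (fun _ => N)) := by
  have h1 : Function.extend j m (fun _ => N) = Function.extend j m (fun _ => 0) +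
      Function.extend j (fun _ => 0) (fun _ => N) := by
    funext i
    rw [Pi.add_apply]
    by_cases h : ∃ k, j k = i
    · obtain ⟨k, rfl⟩ := h
      rw [hj.extend_apply, hj.extend_apply, hj.extend_apply, add_zero]
    · rw [Function.extend_apply' _ _ _ h, Function.extend_apply' _ _ _ h,
        Function.extend_apply' _ _ _ h, zero_add]
  rw [h1, prd_add]
  congr 1
  unfold prd
  symm
  apply Fintype.prod_of_injective j hj
  · intro i hi
    have h : ¬ ∃ k, j k = i := fun ⟨k, hk⟩ => hi ⟨k, hk⟩
    rw [Function.extend_apply' _ _ _ h, pow_zero]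
  · intro k
    rw [hj.extend_apply]

theorem eval_aeval_gen {σ τ : Type*} (g : σ → MvPolynomial τ ℝ) (y : τ → ℝ)
    (G : MvPolynomial σ ℝ) : eval y (aeval g G) = eval (fun i => eval y (g i)) G := by
  induction G using MvPolynomial.induction_on with
  | C a => rw [algHom_C, algebraMap_eq, eval_C, eval_C]
  | add p q hp hq => rw [map_add, map_add, hp, hq, map_add]
  | mul_X p i hp => rw [map_mul, map_mul, hp, aeval_X, map_mul, eval_X]

set_option synthInstance.maxHeartbeats 400000 in
theorem slice_pos (E : IntermediateField K F) {B : Submodule K F} (hB : B.FG)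
    (h1 : (1 : F) ∈ B) : 0 < finrank E (span E (B : Set F)) := by
  have := span_finite E hB
  have : Nontrivial (span E (B : Set F)) :=
    ⟨⟨⟨1, subset_span h1⟩, 0, fun h => one_ne_zero (congrArg Subtype.val h)⟩⟩
  exact Module.finrank_pos

theorem vol_face {ι κ : Type*} [Fintype ι] [Fintype κ] (V : ι → Submodule K F) (hV : Adm K V)
    (j : κ → ι) (hj : Function.Injective j) {n : ℕ} (hn : rk K (⋃ i, (V i : Set F)) = n)
    (hn' : rk K (⋃ k, (V (j k) : Set F)) = n) {P : MvPolynomial ι ℝ} {P' : MvPolynomial κ ℝ}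
    (hP : IsVol K n V P) (hP' : IsVol K n (fun k => V (j k)) P') :
    ∃ e : ℝ, 0 < e ∧ ∀ w : ι → ℝ, (∀ i, i ∉ Set.range j → w i = 0) →
      eval w P = e * eval (fun k => w (j k)) P' := by
  classical
  obtain ⟨H, N, hdeg, hcomp, hH⟩ := hP
  have hU : Adm K (fun k => V (j k)) := fun k => hV (j k)
  set B := prd V (Function.extend j (fun _ => 0) (fun _ => N)) with hBdef
  have hB : B.FG := prd_fg (fun i => (hV i).1) _
  have h1B : (1 : F) ∈ B := one_mem_prd hV _
  set E := IntermediateField.adjoin K (⋃ k, (V (j k) : Set F)) with hE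
  have he := slice_pos E hB h1B
  set e := finrank E (span E (B : Set F)) with hedef
  have hint : ∀ w : κ → ℕ, (∀ k, 0 < w k) →
      eval (Function.extend j (fun k => (w k : ℝ)) (fun _ => 0)) P =
        (e : ℝ) * eval (fun k => (w k : ℝ)) P' := by
    intro w hw
    have h1 := slice_tendsto (fun k => V (j k)) hU hn' hP' B hB w hw
    have h2 := poly_limit H hdeg (Function.extend j (fun k => (w k : ℝ)) (fun _ => 0))
      (Function.extend j (fun _ => 0) (fun _ => (N : ℝ)))
    rw [hcomp] at h2
    refine tendsto_nhds_unique (h2.congr' ?_) h1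
    filter_upwards [eventually_ge_atTop N] with l hl
    rw [← prd_extend V j hj, hH]
    · congr 3
      funext i
      by_cases h : ∃ k, j k = i
      · obtain ⟨k, rfl⟩ := h
        rw [hj.extend_apply, hj.extend_apply, hj.extend_apply, add_zero, Nat.cast_mul]
      · rw [Function.extend_apply' _ _ _ h, Function.extend_apply' _ _ _ h,
          Function.extend_apply' _ _ _ h, mul_zero, zero_add]
    · intro i
      by_cases h : ∃ k, j k = i
      · obtain ⟨k, rfl⟩ := h
        rw [hj.extend_apply]
        have := hw k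
        nlinarith
      · rw [Function.extend_apply' _ _ _ h]
  set Q : MvPolynomial κ ℝ := aeval (Function.extend j (fun k => (X k : MvPolynomial κ ℝ))
    (fun _ => 0)) P with hQ
  have hQe : ∀ w : κ → ℝ, eval w Q = eval (Function.extend j w (fun _ => 0)) P := by
    intro w
    rw [hQ]
    rw [eval_aeval_gen]
    congr 2
    funext i
    by_cases h : ∃ k, j k = i
    · obtain ⟨k, rfl⟩ := h
      rw [hj.extend_apply, hj.extend_apply, eval_X]
    · rw [Function.extend_apply' _ _ _ h, Function.extend_apply' _ _ _ h, map_zero]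
  have hQP : Q = C (e : ℝ) * P' := by
    apply eq_of_eval_large Q (C (e : ℝ) * P') 1
    intro m hm
    rw [hQe, map_mul, eval_C, hint m (fun k => hm k)]
  refine ⟨e, by exact_mod_cast he, fun w hw => ?_⟩
  have h1 : w = Function.extend j (fun k => w (j k)) (fun _ => 0) := by
    funext i
    by_cases h : ∃ k, j k = i
    · obtain ⟨k, rfl⟩ := h
      rw [hj.extend_apply]
    · rw [Function.extend_apply' _ _ _ h]
      exact hw i (fun ⟨k, hk⟩ => h ⟨k, hk⟩)
  conv_lhs => rw [h1]
  rw [← hQe, hQP, map_mul, eval_C]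

end EurHuh
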