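import Pool.Agent.Work.EurHuh.Statement
import Pool.Agent.Work.EurHuh.Vol

/-!
From `IsSemiampleVolumePolynomial` to `IsVol`.
-/

namespace EurHuh

open Module Submodule MvPolynomial Filter Topology

universe u v

/-- the transcendence degree of a finite extension of `K(X_1, …, X_d)` -/
lemma rk_univ {K : Type u} {L : Type v} [Field K] [Field L] [Algebra K L] {d : ℕ}
    [Algebra (FractionRing (MvPolynomial (Fin d) K)) L]
    [IsScalarTower K (FractionRing (MvPolynomial (Fin d) K)) L]
    [FiniteDimensional (FractionRing (MvPolynomial (Fin d) K)) L] :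
    rk K (Set.univ : Set L) = d := by
  let A := MvPolynomial (Fin d) K
  let Kd := FractionRing A
  let ψ : A →ₐ[K] L := (IsScalarTower.toAlgHom K Kd L).comp (IsScalarTower.toAlgHom K A Kd)
  have hψ : Function.Injective ψ := by
    have h1 : Function.Injective (algebraMap Kd L) := (algebraMap Kd L).injective
    have h2 : Function.Injective (algebraMap A Kd) := IsFractionRing.injective A Kd
    exact h1.comp h2
  let x : Fin d → L := fun i => ψ (X i)
  have hax : (aeval x : A →ₐ[K] L) = ψ := by
    apply MvPolynomial.algHom_ext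
    intro i
    simp [x]
  refine rk_eq_of_basis x (fun _ => Set.mem_univ _) ?_ ?_
  · change Function.Injective (aeval x)
    rw [hax]
    exact hψ
  · intro y _
    have h1 : IsAlgebraic Kd y := Algebra.IsAlgebraic.isAlgebraic y
    -- algebraic over `A`
    let E := IntermediateField.adjoin K (Set.range x)
    have hmem : ∀ q : Kd, algebraMap Kd L q ∈ E := by
      intro q
      obtain ⟨a, b, hb, rfl⟩ := IsFractionRing.div_surjective (A := A) q
      rw [map_div₀]
      have hA : ∀ a : A, algebraMap Kd L (algebraMap A Kd a) ∈ E := by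
        intro a
        have : algebraMap Kd L (algebraMap A Kd a) = aeval x a := by
          rw [hax]; rfl
        rw [this]
        have h3 : (aeval x a : L) ∈ Algebra.adjoin K (Set.range x) := by
          rw [Algebra.adjoin_range_eq_range_aeval]
          exact ⟨a, rfl⟩
        exact IntermediateField.algebra_adjoin_le_adjoin K _ h3
      exact div_mem (hA a) (hA b)
    let j : Kd →+* E :=
      { toFun := fun q => ⟨algebraMap Kd L q, hmem q⟩
        map_one' := by ext; simp
        map_mul' := by intro a b; ext; simp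
        map_zero' := by ext; simp
        map_add' := by intro a b; ext; simp }
    obtain ⟨p, hp, hp0⟩ := h1
    refine ⟨p.map j, ?_, ?_⟩
    · rwa [Polynomial.map_ne_zero_iff j.injective]
    · rw [← hp0, Polynomial.aeval_def, Polynomial.aeval_def, Polynomial.eval₂_map]
      rfl

theorem semiample_vol {K : Type u} [Field K] {σ : Type v} [Fintype σ] {p : MvPolynomial σ ℚ}
    (h : IsSemiampleVolumePolynomial K p) {D : ℕ} (hp : p.IsHomogeneous D) (hp0 : p ≠ 0) :
    ∃ (L : Type u) (_ : Field L) (_ : Algebra K L) (V : σ → Submodule K L)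
      (P : MvPolynomial σ ℝ) (C : ℝ), Adm K V ∧ rk K (⋃ i, (V i : Set L)) = D ∧
        IsVol K D V P ∧ 0 < C ∧ ∀ w : σ → ℝ, eval w P = C * aeval w p := by
  obtain ⟨d, L, _, _, _, _, _, V, b, hb, hV, hfin, hlim⟩ := h
  have hAdm : Adm K V := hV
  have hrk : rk K (⋃ i, (V i : Set L)) = d := by
    have h1 : rk K (Set.univ : Set L) = d := rk_univ
    rw [← h1]
    refine (rk_eq_of_algebraic (Set.subset_univ _) fun y _ => ?_).symm
    exact Algebra.IsAlgebraic.isAlgebraic y
  obtain ⟨P, hP⟩ := exists_vol V hAdm hrk
  set e := finrank (IntermediateField.adjoin K (⋃ i, (V i : Set L))) L with he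
  have he0 : 0 < e := finrank_pos
  have hbR : (0 : ℝ) < (b : ℝ) := by exact_mod_cast hb
  set c : ℝ := (d.factorial : ℝ) * e / (b : ℝ) ^ d with hc
  have hc0 : 0 < c := by
    have : (0 : ℝ) < (d.factorial : ℝ) := by exact_mod_cast Nat.factorial_pos d
    have : (0 : ℝ) < (e : ℝ) := by exact_mod_cast he0
    positivity
  have key : ∀ w : σ → ℕ, (∀ i, 0 < w i) →
      c * eval (fun i => (w i : ℝ)) P = aeval (fun i => (w i : ℝ)) p := by
    intro w hw
    have h1 := (hP.tendsto w hw).const_mul c
    have h2 := hlim w hw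
    have h3 : ((MvPolynomial.eval (fun i => (w i : ℚ)) p : ℚ) : ℝ) =
        aeval (fun i => (w i : ℝ)) p := by
      have h4 := MvPolynomial.eval₂_comp_left (algebraMap ℚ ℝ) (RingHom.id ℚ)
        (fun i => (w i : ℚ)) p
      have h5 : (algebraMap ℚ ℝ) (MvPolynomial.eval (fun i => (w i : ℚ)) p) =
          MvPolynomial.eval₂ (algebraMap ℚ ℝ) (fun i => (w i : ℝ)) p := by
        rw [MvPolynomial.eval, MvPolynomial.coe_eval₂Hom, h4]
        congr 1
      rw [MvPolynomial.aeval_def, ← h5]
      rfl
    rw [← h3]
    refine tendsto_nhds_unique h1 (h2.congr fun m => ?_)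
    have h6 : (∏ i, (V i) ^ (m * w i) : Submodule K L) = prd V (fun i => m * w i) := rfl
    rw [h6]
    push_cast
    rw [hc, mul_pow]
    ring
  -- the polynomial identity
  have hpoly : C c * P = MvPolynomial.map (algebraMap ℚ ℝ) p := by
    refine eq_of_eval_large _ _ 1 fun m hm => ?_
    rw [map_mul, eval_C, key m (fun i => hm i), MvPolynomial.eval_map, MvPolynomial.aeval_def]
  have hPd := hP.isHomogeneous
  have hmap0 : MvPolynomial.map (algebraMap ℚ ℝ) p ≠ 0 := by
    intro h0
    exact hp0 (MvPolynomial.map_injective _ (algebraMap ℚ ℝ).injective (by rw [h0, map_zero]))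
  have hdD : d = D := by
    have h1 : (C c * P).IsHomogeneous d := by
      have := (MvPolynomial.isHomogeneous_C σ c).mul hPd
      simpa using this
    have h2 : (MvPolynomial.map (algebraMap ℚ ℝ) p).IsHomogeneous D := hp.map _
    rw [hpoly] at h1
    exact h1.inj_right h2 hmap0
  subst hdD
  refine ⟨L, inferInstance, inferInstance, V, P, c⁻¹, hAdm, hrk, hP, inv_pos.mpr hc0, ?_⟩
  intro w
  have := congrArg (eval w) hpoly
  rw [map_mul, eval_C, MvPolynomial.eval_map] at this
  rw [MvPolynomial.aeval_def, ← this]
  field_simp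

end EurHuh
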