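import Pool.Agent.Work.EurHuh.Basic
import Pool.Agent.Work.EurHuh.Vol

/-!
M9: the volume polynomial of `(A, ⟨1, x⟩)`, `x` transcendental over `K(A)`:
`dim (prd A m * ⟨1,x⟩^l) = (l+1) * dim (prd A m)`.
-/

namespace EurHuh

open Module Submodule

variable {K F : Type*} [Field K] [Field F] [Algebra K F]

theorem pen_pow (x : F) (l : ℕ) :
    pen K x ^ l = span K (Set.range fun j : Fin (l + 1) => x ^ (j : ℕ)) := by
  apply le_antisymm
  · induction l with
    | zero =>
      rw [pow_zero, Submodule.one_le]
      exact subset_span ⟨0, by simp⟩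
    | succ l ih =>
      rw [pow_succ]
      refine (mul_le_mul' ih le_rfl).trans ?_
      rw [pen, span_mul_span, span_le]
      rintro _ ⟨_, ⟨j, rfl⟩, y, hy, rfl⟩
      rcases hy with rfl | rfl
      · refine subset_span ⟨j.castSucc, ?_⟩
        simp
      · refine subset_span ⟨j.succ, ?_⟩
        simp [pow_succ]
  · rw [span_le]
    rintro _ ⟨j, rfl⟩
    obtain ⟨k, hk⟩ := Nat.exists_eq_add_of_le (Nat.lt_succ_iff.1 j.2)
    have h1 : x ^ (j : ℕ) * 1 ∈ pen K x ^ (j : ℕ) * pen K x ^ k :=
      Submodule.mul_mem_mul (Submodule.pow_mem_pow _ (mem_pen x) _) (one_mem_pow' (one_mem_pen x) k)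
    rw [mul_one, ← pow_add, ← hk] at h1
    exact h1

theorem prd_le_adjoin {ι : Type*} [Fintype ι] (A : ι → Submodule K F) (m : ι → ℕ) :
    prd A m ≤ Subalgebra.toSubmodule
      (IntermediateField.adjoin K (⋃ i, (A i : Set F))).toSubalgebra := by
  classical
  set U : Set F := ⋃ i, (A i : Set F) with hU
  set E := IntermediateField.adjoin K U with hE
  have h1 : ∀ i, A i ≤ Subalgebra.toSubmodule E.toSubalgebra := by
    intro i y hy
    exact IntermediateField.subset_adjoin K U (Set.mem_iUnion.2 ⟨i, hy⟩)
  have hmul : ∀ A B : Submodule K F, A ≤ Subalgebra.toSubmodule E.toSubalgebra →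
      B ≤ Subalgebra.toSubmodule E.toSubalgebra → A * B ≤ Subalgebra.toSubmodule E.toSubalgebra := by
    intro A B hA hB
    rw [Submodule.mul_le]
    intro a ha b hb
    exact E.mul_mem (hA ha) (hB hb)
  have hone : (1 : Submodule K F) ≤ Subalgebra.toSubmodule E.toSubalgebra :=
    Submodule.one_le.2 E.one_mem
  have hpow : ∀ A : Submodule K F, A ≤ Subalgebra.toSubmodule E.toSubalgebra → ∀ k : ℕ,
      A ^ k ≤ Subalgebra.toSubmodule E.toSubalgebra := by
    intro A hA k
    induction k with
    | zero => rw [pow_zero]; exact hone
    | succ k ih => rw [pow_succ]; exact hmul _ _ ih hA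
  unfold prd
  have h2 : ∀ s : Finset ι, (∏ i ∈ s, A i ^ m i : Submodule K F) ≤
      Subalgebra.toSubmodule E.toSubalgebra := by
    intro s
    induction s using Finset.induction_on with
    | empty =>
      rw [Finset.prod_empty]
      exact hone
    | insert i s hi ih =>
      rw [Finset.prod_insert hi]
      exact hmul _ _ (hpow _ (h1 i) _) ih
  exact h2 _

/-- `dim (W * ⟨1,x⟩^l) = (l+1) dim W` for `W` in a field over which `x` is transcendental -/
theorem finrank_mul_pen_pow (E : IntermediateField K F) (W : Submodule K F) (hW : W.FG)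
    (hWE : W ≤ Subalgebra.toSubmodule E.toSubalgebra) (x : F) (hx : Transcendental E x) (l : ℕ) :
    finrank K (W * pen K x ^ l : Submodule K F) = (l + 1) * finrank K W := by
  have : FiniteDimensional K W := Module.Finite.iff_fg.mpr hW
  let b := Module.finBasis K W
  let b' : Fin (finrank K W) → E := fun i => ⟨(b i : F), hWE (b i).2⟩
  have hb' : LinearIndependent K b' := by
    have h1 : LinearIndependent K (fun i => (b i : F)) :=
      b.linearIndependent.map' W.subtype (by simp)
    have h2 : LinearIndependent K (E.val.toLinearMap ∘ b') := h1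
    exact h2.of_comp
  have hx' : LinearIndependent E (fun j : Fin (l + 1) => x ^ (j : ℕ)) := by
    have h1 : LinearIndependent E (fun j : ℕ => x ^ j) := by
      have h2 := (Polynomial.basisMonomials E).linearIndependent
      have h3 := h2.map' (Polynomial.aeval (R := E) x).toLinearMap (by
        rw [LinearMap.ker_eq_bot]
        exact transcendental_iff_injective.1 hx)
      have h4 : (fun j : ℕ => x ^ j) = ((Polynomial.aeval (R := E) x).toLinearMap ∘
          (Polynomial.basisMonomials E)) := by
        funext j
        simp [Polynomial.aeval_monomial]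
      rw [h4]
      exact h3
    exact h1.comp _ Fin.val_injective
  have hbx := linearIndependent_smul hb' hx'
  have hspan : W * pen K x ^ l =
      span K (Set.range fun p : Fin (finrank K W) × Fin (l + 1) => b' p.1 • x ^ (p.2 : ℕ)) := by
    have h1 : W = span K (Set.range fun i => (b i : F)) := by
      have h2 := b.span_eq
      have h3 := congrArg (Submodule.map W.subtype) h2
      rw [Submodule.map_span, Submodule.map_top, Submodule.range_subtype, ← Set.range_comp] at h3
      exact h3.symm
    rw [pen_pow]
    conv_lhs => rw [h1]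
    rw [span_mul_span]
    congr 1
    ext y
    constructor
    · rintro ⟨_, ⟨i, rfl⟩, _, ⟨j, rfl⟩, rfl⟩
      exact ⟨(i, j), rfl⟩
    · rintro ⟨⟨i, j⟩, rfl⟩
      exact ⟨_, ⟨i, rfl⟩, _, ⟨j, rfl⟩, rfl⟩
  rw [hspan, finrank_span_eq_card hbx, Fintype.card_prod, Fintype.card_fin, Fintype.card_fin,
    mul_comm]

open MvPolynomial

theorem homogeneousComponent_mul_of_isHomogeneous {σ : Type*} {Q R : MvPolynomial σ ℝ} {k : ℕ}
    (hQ : Q.IsHomogeneous k) (n : ℕ) :
    homogeneousComponent (k + n) (Q * R) = Q * homogeneousComponent n R := by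
  conv_lhs => rw [← sum_homogeneousComponent R, Finset.mul_sum, map_sum]
  by_cases hn : n ∈ Finset.range (R.totalDegree + 1)
  · rw [Finset.sum_eq_single_of_mem n hn]
    · rw [homogeneousComponent_of_mem
        (hQ.mul (homogeneousComponent_isHomogeneous n R)), if_pos rfl]
    · intro d _ hd
      rw [homogeneousComponent_of_mem
        (hQ.mul (homogeneousComponent_isHomogeneous d R)), if_neg (by omega)]
  · rw [homogeneousComponent_eq_zero n R (by simpa using hn), mul_zero]
    apply Finset.sum_eq_zero
    intro d hd
    rw [homogeneousComponent_of_mem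
      (hQ.mul (homogeneousComponent_isHomogeneous d R)), if_neg]
    intro h
    have : n = d := by omega
    exact hn (this ▸ hd)

theorem homogeneousComponent_rename {σ τ : Type*} (f : σ → τ) (R : MvPolynomial σ ℝ) (n : ℕ) :
    homogeneousComponent n (rename f R) = rename f (homogeneousComponent n R) := by
  conv_lhs => rw [← sum_homogeneousComponent R, map_sum, map_sum]
  by_cases hn : n ∈ Finset.range (R.totalDegree + 1)
  · rw [Finset.sum_eq_single_of_mem n hn]
    · rw [homogeneousComponent_of_mem
        ((homogeneousComponent_isHomogeneous n R).rename_isHomogeneous), if_pos rfl]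
    · intro d _ hd
      rw [homogeneousComponent_of_mem
        ((homogeneousComponent_isHomogeneous d R).rename_isHomogeneous), if_neg (Ne.symm hd)]
  · rw [homogeneousComponent_eq_zero n R (by simpa using hn), map_zero]
    apply Finset.sum_eq_zero
    intro d hd
    rw [homogeneousComponent_of_mem
      ((homogeneousComponent_isHomogeneous d R).rename_isHomogeneous), if_neg]
    intro h
    exact hn (h ▸ hd)

theorem vol_mult {ι : Type*} [Fintype ι] (A : ι → Submodule K F) (hA : Adm K A) (x : F)
    (hx : Transcendental (IntermediateField.adjoin K (⋃ i, (A i : Set F))) x) {n : ℕ}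
    {G : MvPolynomial ι ℝ} (hG : IsVol K n A G) :
    IsVol K (n + 1) (fun o : Option ι => o.elim (pen K x) A) (X none * rename some G) := by
  obtain ⟨H, N, h1, rfl, h3⟩ := hG
  refine ⟨(X none + 1) * rename some H, N, ?_, ?_, ?_⟩
  · refine (totalDegree_mul _ _).trans ?_
    have h4 : (X none + 1 : MvPolynomial (Option ι) ℝ).totalDegree ≤ 1 := by
      refine (totalDegree_add _ _).trans ?_
      simp
    have h5 := (totalDegree_rename_le (some : ι → Option ι) H).trans h1
    omega
  · have h4 : ((X none + 1) * rename some H : MvPolynomial (Option ι) ℝ) =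
        X none * rename some H + rename some H := by ring
    rw [h4, map_add]
    have h5 : homogeneousComponent (n + 1) (rename some H : MvPolynomial (Option ι) ℝ) = 0 := by
      apply homogeneousComponent_eq_zero
      have := (totalDegree_rename_le (some : ι → Option ι) H).trans h1
      omega
    rw [h5, add_zero, add_comm n 1, homogeneousComponent_mul_of_isHomogeneous (isHomogeneous_X ℝ _),
      homogeneousComponent_rename]
  · intro m hm
    have h4 : prd (fun o : Option ι => o.elim (pen K x) A) m =
        prd A (fun i => m (some i)) * pen K x ^ m none := by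
      unfold prd
      rw [Fintype.prod_option, mul_comm]
      rfl
    rw [h4, finrank_mul_pen_pow _ _ (prd_fg (fun i => (hA i).1) _) (prd_le_adjoin A _) x hx,
      map_mul, eval_rename]
    push_cast
    rw [h3 _ (fun i => hm (some i))]
    simp only [map_add, eval_X, map_one]
    rfl

end EurHuh
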