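import Pool.Agent.Work.EurHuh.SatDiv
import Pool.Agent.Work.EurHuh.VolMult

/-!
Spaces of polynomials of bounded bidegree with coefficients in a given space, and the counting
formula behind `vol_sat`.
-/

namespace EurHuh

open Module Submodule Polynomial

variable {K F : Type*} [Field K] [Field F] [Algebra K F]

/-- polynomials of bidegree at most `(p, q)` with coefficients in `W` -/
def Pol (p q : ℕ) (W : Submodule K F) : Submodule K F[X][X] where
  carrier := {G | ∀ i j, (G.coeff i).coeff j ∈ W ∧ ((q < i ∨ p < j) → (G.coeff i).coeff j = 0)}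
  add_mem' := by
    intro a b ha hb i j
    rw [coeff_add, coeff_add]
    refine ⟨W.add_mem (ha i j).1 (hb i j).1, fun h => ?_⟩
    rw [(ha i j).2 h, (hb i j).2 h, add_zero]
  zero_mem' := by
    intro i j
    simp
  smul_mem' := by
    intro a G hG i j
    rw [coeff_smul, coeff_smul]
    refine ⟨W.smul_mem a (hG i j).1, fun h => ?_⟩
    rw [(hG i j).2 h, smul_zero]

theorem mem_Pol {p q : ℕ} {W : Submodule K F} {G : F[X][X]} :
    G ∈ Pol p q W ↔ ∀ i j, (G.coeff i).coeff j ∈ W ∧
      ((q < i ∨ p < j) → (G.coeff i).coeff j = 0) := Iff.rfl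

/-- the polynomial with given coefficients -/
noncomputable def mk2 (p q : ℕ) (w : ℕ → ℕ → F) : F[X][X] :=
  ∑ i ∈ Finset.range (q + 1), monomial i (∑ j ∈ Finset.range (p + 1), monomial j (w i j))

theorem coeff_mk2 (p q : ℕ) (w : ℕ → ℕ → F) (i j : ℕ) :
    ((mk2 p q w).coeff i).coeff j = if i ≤ q ∧ j ≤ p then w i j else 0 := by
  rw [mk2, finsetSum_coeff, finsetSum_coeff]
  by_cases hi : i ≤ q
  · rw [Finset.sum_eq_single_of_mem i (Finset.mem_range.mpr (by omega))]
    · rw [coeff_monomial_same, finsetSum_coeff]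
      by_cases hj : j ≤ p
      · rw [Finset.sum_eq_single_of_mem j (Finset.mem_range.mpr (by omega)), coeff_monomial_same,
          if_pos ⟨hi, hj⟩]
        intro b _ hb
        rw [coeff_monomial_of_ne _ (Ne.symm hb)]
      · rw [if_neg (fun h => hj h.2)]
        apply Finset.sum_eq_zero
        intro b hb
        rw [coeff_monomial_of_ne]
        rintro rfl
        exact hj (Nat.lt_succ_iff.mp (Finset.mem_range.mp hb))
    · intro b _ hb
      rw [coeff_monomial_of_ne _ (Ne.symm hb), coeff_zero]
  · rw [if_neg (fun h => hi h.1)]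
    apply Finset.sum_eq_zero
    intro b hb
    rw [coeff_monomial_of_ne, coeff_zero]
    rintro rfl
    exact hi (Nat.lt_succ_iff.mp (Finset.mem_range.mp hb))

theorem eq_mk2 {p q : ℕ} {W : Submodule K F} {G : F[X][X]} (hG : G ∈ Pol p q W) :
    G = mk2 p q (fun i j => (G.coeff i).coeff j) := by
  ext i j
  rw [coeff_mk2]
  split_ifs with h
  · rfl
  · rw [(hG i j).2]
    by_contra hcon
    push Not at hcon
    exact h ⟨hcon.1, hcon.2⟩

theorem finrank_Pol (p q : ℕ) (W : Submodule K F) (hW : W.FG) :
    finrank K (Pol p q W) = (p + 1) * (q + 1) * finrank K W := by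
  have : Module.Finite K W := Module.Finite.iff_fg.mpr hW
  let Θ : Pol p q W →ₗ[K] (Fin (q + 1) → Fin (p + 1) → W) :=
    { toFun := fun G i j => ⟨((G : F[X][X]).coeff i).coeff j, (G.2 i j).1⟩
      map_add' := by
        intro G G'; funext i j; apply Subtype.ext; simp
      map_smul' := by
        intro a G; funext i j; apply Subtype.ext; simp }
  have hinj : Function.Injective Θ := by
    intro G G' h
    apply Subtype.ext
    rw [eq_mk2 G.2, eq_mk2 G'.2]
    ext i j
    rw [coeff_mk2, coeff_mk2]
    split_ifs with hij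
    · have h1 := congrFun (congrFun h ⟨i, by omega⟩) ⟨j, by omega⟩
      exact congrArg Subtype.val h1
    · rfl
  have hsurj : Function.Surjective Θ := by
    intro w
    let w' : ℕ → ℕ → F := fun i j => if h : i < q + 1 ∧ j < p + 1 then (w ⟨i, h.1⟩ ⟨j, h.2⟩ : F)
      else 0
    refine ⟨⟨mk2 p q w', ?_⟩, ?_⟩
    · intro i j
      rw [coeff_mk2]
      constructor
      · split_ifs with hij
        · simp only [w']
          rw [dif_pos ⟨by omega, by omega⟩]
          exact (w _ _).2
        · exact W.zero_mem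
      · intro h
        rw [if_neg]
        omega
    · funext i j
      apply Subtype.ext
      change ((mk2 p q w').coeff i).coeff j = _
      rw [coeff_mk2, if_pos ⟨by omega, by omega⟩]
      simp only [w']
      rw [dif_pos ⟨i.2, j.2⟩]
  have h1 := (LinearEquiv.ofBijective Θ ⟨hinj, hsurj⟩).finrank_eq
  rw [h1, Module.finrank_pi_fintype]
  simp only [Module.finrank_pi_fintype, Finset.sum_const, Finset.card_univ, Fintype.card_fin,
    smul_eq_mul]
  ring

instance finite_Pol (p q : ℕ) (W : Submodule K F) [Module.Finite K W] :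
    Module.Finite K (Pol p q W) := by
  let Θ : Pol p q W →ₗ[K] (Fin (q + 1) → Fin (p + 1) → W) :=
    { toFun := fun G i j => ⟨((G : F[X][X]).coeff i).coeff j, (G.2 i j).1⟩
      map_add' := by
        intro G G'; funext i j; apply Subtype.ext; simp
      map_smul' := by
        intro a G; funext i j; apply Subtype.ext; simp }
  have hinj : Function.Injective Θ := by
    intro G G' h
    apply Subtype.ext
    rw [eq_mk2 G.2, eq_mk2 G'.2]
    ext i j
    rw [coeff_mk2, coeff_mk2]
    split_ifs with hij
    · have h1 := congrFun (congrFun h ⟨i, by omega⟩) ⟨j, by omega⟩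
      exact congrArg Subtype.val h1
    · rfl
  exact Module.Finite.of_injective Θ hinj

/-- evaluation as a `K`-linear map -/
noncomputable def evL (K : Type*) {F : Type*} [Field K] [Field F] [Algebra K F] (c d : F) :
    F[X][X] →ₗ[K] F where
  toFun G := evalEval c d G
  map_add' G G' := by simp
  map_smul' a G := by
    have h1 : a • G = C (C (algebraMap K F a)) * G := by
      ext i j
      simp [Algebra.smul_def]
    rw [h1, evalEval_mul]
    simp [Algebra.smul_def]

theorem evL_apply (c d : F) (G : F[X][X]) : evL K c d G = evalEval c d G := rfl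

theorem pow_mem_pen_pow {x : F} {j p : ℕ} (h : j ≤ p) : x ^ j ∈ pen K x ^ p := by
  rw [pen_pow]
  exact subset_span ⟨⟨j, by omega⟩, rfl⟩

theorem map_evL_Pol (p q : ℕ) (W : Submodule K F) (c d : F) :
    (Pol p q W).map (evL K c d) = W * pen K c ^ p * pen K d ^ q := by
  apply le_antisymm
  · rintro _ ⟨G, hG, rfl⟩
    rw [eq_mk2 hG, evL_apply, mk2, evalEval_finsetSum]
    apply Submodule.sum_mem
    intro i hi
    rw [← C_mul_X_pow_eq_monomial, evalEval_mul, evalEval_pow, evalEval_X, evalEval_C,
      eval_finsetSum, Finset.sum_mul]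
    apply Submodule.sum_mem
    intro j hj
    rw [eval_monomial]
    exact Submodule.mul_mem_mul (Submodule.mul_mem_mul (hG i j).1
      (pow_mem_pen_pow (Nat.lt_succ_iff.mp (Finset.mem_range.mp hj))))
      (pow_mem_pen_pow (Nat.lt_succ_iff.mp (Finset.mem_range.mp hi)))
  · rw [pen_pow, pen_pow]
    nth_rewrite 1 [← Submodule.span_eq W]
    rw [span_mul_span, span_mul_span, span_le]
    rintro _ ⟨_, ⟨w, hw, _, ⟨j, rfl⟩, rfl⟩, _, ⟨i, rfl⟩, rfl⟩
    refine ⟨mk2 p q (fun i' j' => if i' = i ∧ j' = j then w else 0), ?_, ?_⟩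
    · intro i' j'
      rw [coeff_mk2]
      constructor
      · split_ifs
        · exact hw
        · exact W.zero_mem
        · exact W.zero_mem
      · intro h
        rw [if_neg]
        omega
    · have h1 : mk2 p q (fun i' j' => if i' = (i : ℕ) ∧ j' = (j : ℕ) then w else 0) =
          monomial (i : ℕ) (monomial (j : ℕ) w) := by
        ext i' j'
        rw [coeff_mk2, coeff_monomial]
        by_cases h2 : (i : ℕ) = i'
        · rw [if_pos h2, coeff_monomial]
          by_cases h3 : (j : ℕ) = j'
          · rw [if_pos h3, if_pos ⟨by omega, by omega⟩, if_pos ⟨h2.symm, h3.symm⟩]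
          · rw [if_neg h3]
            split_ifs with h4 h5
            · exact absurd h5.2.symm h3
            · rfl
            · rfl
        · rw [if_neg h2, coeff_zero]
          split_ifs with h4 h5
          · exact absurd h5.1.symm h2
          · rfl
          · rfl
      rw [h1, evL_apply, ← C_mul_X_pow_eq_monomial, evalEval_mul, evalEval_pow, evalEval_X,
        evalEval_C, eval_monomial]

theorem coeff_swap (G : F[X][X]) (i j : ℕ) :
    ((Bivariate.swap G).coeff j).coeff i = (G.coeff i).coeff j := by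
  induction G using Polynomial.induction_on' with
  | add p q hp hq => rw [map_add, coeff_add, coeff_add, coeff_add, coeff_add, hp, hq]
  | monomial n f =>
    induction f using Polynomial.induction_on' with
    | add p q hp hq =>
      rw [map_add, map_add, coeff_add, coeff_add, coeff_add, coeff_add, hp, hq]
    | monomial k r =>
      rw [Bivariate.swap_monomial_monomial, coeff_monomial, coeff_monomial]
      by_cases h1 : k = j
      · rw [if_pos h1, coeff_monomial]
        by_cases h2 : n = i
        · rw [if_pos h2, if_pos h2, coeff_monomial, if_pos h1]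
        · rw [if_neg h2, if_neg h2, coeff_zero]
      · rw [if_neg h1, coeff_zero]
        by_cases h2 : n = i
        · rw [if_pos h2, coeff_monomial, if_neg h1]
        · rw [if_neg h2, coeff_zero]

theorem mem_Pol_iff {p q : ℕ} {W : Submodule K F} {G : F[X][X]} :
    G ∈ Pol p q W ↔ (∀ i j, (G.coeff i).coeff j ∈ W) ∧ G.natDegree ≤ q ∧
      (Bivariate.swap G).natDegree ≤ p := by
  constructor
  · intro h
    refine ⟨fun i j => (h i j).1, ?_, ?_⟩
    · rw [natDegree_le_iff_coeff_eq_zero]
      intro i hi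
      ext j
      rw [(h i j).2 (Or.inl hi), coeff_zero]
    · rw [natDegree_le_iff_coeff_eq_zero]
      intro j hj
      ext i
      rw [coeff_swap, (h i j).2 (Or.inr hj), coeff_zero]
  · rintro ⟨h1, h2, h3⟩ i j
    refine ⟨h1 i j, ?_⟩
    rintro (h | h)
    · rw [coeff_eq_zero_of_natDegree_lt (lt_of_le_of_lt h2 h), coeff_zero]
    · rw [← coeff_swap, coeff_eq_zero_of_natDegree_lt (lt_of_le_of_lt h3 h), coeff_zero]

theorem coeff_mul_mem {W1 W2 : Submodule K F} {G1 G2 : F[X][X]}
    (h1 : ∀ i j, (G1.coeff i).coeff j ∈ W1) (h2 : ∀ i j, (G2.coeff i).coeff j ∈ W2) (i j : ℕ) :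
    ((G1 * G2).coeff i).coeff j ∈ W1 * W2 := by
  rw [coeff_mul, finsetSum_coeff]
  apply Submodule.sum_mem
  rintro ⟨a, b⟩ _
  rw [coeff_mul]
  apply Submodule.sum_mem
  rintro ⟨a', b'⟩ _
  exact Submodule.mul_mem_mul (h1 _ _) (h2 _ _)

theorem mem_cont (Q : F[X][X]) (i j : ℕ) : (Q.coeff i).coeff j ∈ cont K Q :=
  subset_span ⟨i, j, rfl⟩

theorem prd_single_one {ι : Type*} [Fintype ι] [DecidableEq ι] (A : ι → Submodule K F) (i0 : ι) :
    prd A (Pi.single i0 1) = A i0 := by
  unfold prd
  rw [Finset.prod_eq_single i0]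
  · simp
  · intro j _ hj; simp [Pi.single_eq_of_ne hj]
  · simp

theorem ker_Pol {ι : Type*} [Fintype ι] [DecidableEq ι] (A : ι → Submodule K F) (i0 : ι)
    (Q : F[X][X]) (hQ : Q ≠ 0) (hW : A i0 = cont K Q) (c d : F) (hQ0 : evalEval c d Q = 0)
    (m : ι → ℕ)
    (hdiv : ∀ G : F[X][X], (∀ i j, (G.coeff i).coeff j ∈ prd A (m + Pi.single i0 1)) →
      evalEval c d G = 0 → ∃ g : F[X][X], (∀ i j, (g.coeff i).coeff j ∈ prd A m) ∧ G = Q * g)
    (p q : ℕ) (hp : (Bivariate.swap Q).natDegree ≤ p) (hq : Q.natDegree ≤ q) :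
    Pol p q (prd A (m + Pi.single i0 1)) ⊓ LinearMap.ker (evL K c d) =
      (Pol (p - (Bivariate.swap Q).natDegree) (q - Q.natDegree) (prd A m)).map
        (LinearMap.mulLeft K Q) := by
  have hsQ : Bivariate.swap Q ≠ 0 := by
    intro h
    apply hQ
    exact (map_eq_zero_iff _ (Bivariate.swap (R := F)).injective).mp h
  apply le_antisymm
  · rintro G ⟨hG, hG0⟩
    obtain ⟨g, hg, rfl⟩ := hdiv G (fun i j => (hG i j).1) hG0
    refine ⟨g, ?_, rfl⟩
    rw [SetLike.mem_coe, mem_Pol_iff] at hG
    rw [SetLike.mem_coe, mem_Pol_iff]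
    refine ⟨hg, ?_, ?_⟩
    · by_cases h0 : g = 0
      · rw [h0]; simp
      · have := hG.2.1
        rw [natDegree_mul hQ h0] at this
        omega
    · by_cases h0 : g = 0
      · rw [h0]; simp
      · have h0' : Bivariate.swap g ≠ 0 := by
          intro h
          exact h0 ((map_eq_zero_iff _ (Bivariate.swap (R := F)).injective).mp h)
        have := hG.2.2
        rw [map_mul, natDegree_mul hsQ h0'] at this
        omega
  · rintro _ ⟨g, hg, rfl⟩
    rw [SetLike.mem_coe, mem_Pol_iff] at hg
    rw [LinearMap.mulLeft_apply]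
    refine ⟨?_, ?_⟩
    · rw [SetLike.mem_coe, mem_Pol_iff]
      refine ⟨?_, ?_, ?_⟩
      · intro i j
        rw [prd_add, prd_single_one, hW, mul_comm (prd A m)]
        exact coeff_mul_mem (mem_cont Q) hg.1 i j
      · refine (natDegree_mul_le).trans ?_
        have := hg.2.1
        omega
      · rw [map_mul]
        refine (natDegree_mul_le).trans ?_
        have := hg.2.2
        omega
    · rw [SetLike.mem_coe, LinearMap.mem_ker, evL_apply, evalEval_mul, hQ0, zero_mul]

theorem finrank_map_add_inf {V V' : Type*} [AddCommGroup V] [Module K V] [AddCommGroup V']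
    [Module K V'] (f : V →ₗ[K] V') (S : Submodule K V) [Module.Finite K S] :
    finrank K (S.map f) + finrank K (S ⊓ LinearMap.ker f : Submodule K V) = finrank K S := by
  have h1 := LinearMap.finrank_range_add_finrank_ker (f.comp S.subtype)
  rw [LinearMap.range_comp, Submodule.range_subtype] at h1
  have h4 : (LinearMap.ker (f.comp S.subtype)).map S.subtype = S ⊓ LinearMap.ker f := by
    rw [LinearMap.ker_comp, Submodule.map_comap_subtype]
  have h5 : finrank K ((LinearMap.ker (f.comp S.subtype)).map S.subtype) =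
      finrank K (LinearMap.ker (f.comp S.subtype)) :=
    finrank_map_of_inj _ (Submodule.subtype_injective _) _
  rw [← h4, h5]
  exact h1

/-- the counting formula -/
theorem count_formula {ι : Type*} [Fintype ι] [DecidableEq ι] (A : ι → Submodule K F)
    (hA : Adm K A) (i0 : ι)
    (Q : F[X][X]) (hQ : Q ≠ 0) (hW : A i0 = cont K Q) (c d : F) (hQ0 : evalEval c d Q = 0)
    (m : ι → ℕ)
    (hdiv : ∀ G : F[X][X], (∀ i j, (G.coeff i).coeff j ∈ prd A (m + Pi.single i0 1)) →
      evalEval c d G = 0 → ∃ g : F[X][X], (∀ i j, (g.coeff i).coeff j ∈ prd A m) ∧ G = Q * g)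
    (p q : ℕ) (hp : (Bivariate.swap Q).natDegree ≤ p) (hq : Q.natDegree ≤ q) :
    finrank K (prd A (m + Pi.single i0 1) * pen K c ^ p * pen K d ^ q : Submodule K F) +
      (p - (Bivariate.swap Q).natDegree + 1) * (q - Q.natDegree + 1) * finrank K (prd A m) =
      (p + 1) * (q + 1) * finrank K (prd A (m + Pi.single i0 1)) := by
  have hfg1 : (prd A (m + Pi.single i0 1)).FG := prd_fg (fun i => (hA i).1) _
  have hfg2 : (prd A m).FG := prd_fg (fun i => (hA i).1) _
  have : Module.Finite K (prd A (m + Pi.single i0 1)) := Module.Finite.iff_fg.mpr hfg1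
  have h1 := finrank_map_add_inf (evL K c d) (Pol p q (prd A (m + Pi.single i0 1)))
  rw [ker_Pol A i0 Q hQ hW c d hQ0 m hdiv p q hp hq, map_evL_Pol, finrank_Pol p q _ hfg1] at h1
  have h2 : finrank K ((Pol (p - (Bivariate.swap Q).natDegree) (q - Q.natDegree)
      (prd A m)).map (LinearMap.mulLeft K Q)) =
      finrank K (Pol (p - (Bivariate.swap Q).natDegree) (q - Q.natDegree) (prd A m)) :=
    finrank_map_of_inj _ (fun a b hab => mul_left_cancel₀ hQ hab) _
  rw [h2, finrank_Pol _ _ _ hfg2] at h1
  exact h1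

end EurHuh
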