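import Pool.Agent.Work.EurHuh.Rank

/-!
Relative algebraic closures.
-/

namespace EurHuh

open Module Submodule IntermediateField

variable {K L : Type*} [Field K] [Field L] [Algebra K L]

/-- the relative algebraic closure of `K(S)` in `L` -/
noncomputable def cl (K : Type*) {L : Type*} [Field K] [Field L] [Algebra K L] (S : Set L) :
    IntermediateField K L :=
  (algebraicClosure (IntermediateField.adjoin K S) L).restrictScalars K

lemma mem_cl {S : Set L} {y : L} : y ∈ cl K S ↔ IsAlgebraic (IntermediateField.adjoin K S) y := by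
  rw [cl, mem_restrictScalars, mem_algebraicClosure_iff]

lemma mem_cl_iff_closure {S : Set L} {y : L} :
    y ∈ cl K S ↔ y ∈ (AlgebraicIndependent.matroid K L).closure S := by
  rw [mem_cl, mem_closure_iff]

lemma coe_cl (S : Set L) : (cl K S : Set L) = (AlgebraicIndependent.matroid K L).closure S := by
  ext y
  exact mem_cl_iff_closure

lemma subset_cl (S : Set L) : S ⊆ cl K S := by
  rw [coe_cl]
  exact Matroid.subset_closure _ _ (by simp)

lemma cl_le {S T : Set L} (h : S ⊆ cl K T) : cl K S ≤ cl K T := by
  rw [← SetLike.coe_subset_coe, coe_cl, coe_cl]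
  rw [coe_cl] at h
  exact Matroid.closure_subset_closure_of_subset_closure h

lemma cl_mono {S T : Set L} (h : S ⊆ T) : cl K S ≤ cl K T :=
  cl_le (h.trans (subset_cl T))

lemma adjoin_le_cl (S : Set L) : IntermediateField.adjoin K S ≤ cl K S :=
  adjoin_le_iff.mpr (subset_cl S)

lemma isAlgebraic_mono {E E' : IntermediateField K L} (h : E ≤ E') {y : L} (hy : IsAlgebraic E y) :
    IsAlgebraic E' y := by
  obtain ⟨p, hp, hp0⟩ := hy
  refine ⟨p.map (IntermediateField.inclusion h).toRingHom, ?_, ?_⟩
  · exact (Polynomial.map_ne_zero_iff (IntermediateField.inclusion h).toRingHom.injective).mpr hp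
  · rw [← hp0, Polynomial.aeval_def, Polynomial.aeval_def, Polynomial.eval₂_map]
    rfl

lemma mem_cl_of_isAlgebraic {S : Set L} {y : L} (hy : IsAlgebraic (cl K S) y) : y ∈ cl K S := by
  have h1 : IsAlgebraic (algebraicClosure (IntermediateField.adjoin K S) L) y := hy
  have h2 : IsAlgebraic (IntermediateField.adjoin K S) y := h1.restrictScalars _
  exact mem_cl.mpr h2

lemma rk_eq_of_subset_cl {S T : Set L} (h : S ⊆ T) (h' : T ⊆ cl K S) : rk K T = rk K S :=
  rk_eq_of_algebraic h fun _ hy => mem_cl.mp (h' hy)

lemma subset_cl_of_rk_eq {S T : Set L} (h : S ⊆ T) {r : ℕ} (hS : rk K S = r) (hT : rk K T = r) :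
    T ⊆ cl K S := fun _ hy => mem_cl.mpr (algebraic_of_rk_eq h hS hT _ hy)

/-- sets with the same closure have the same rank -/
lemma rk_eq_of_cl {S T : Set L} (h : S ⊆ cl K T) (h' : T ⊆ cl K S) : rk K S = rk K T := by
  have h1 : rk K (S ∪ T) = rk K S :=
    rk_eq_of_subset_cl Set.subset_union_left (Set.union_subset (subset_cl S) h')
  have h2 : rk K (S ∪ T) = rk K T :=
    rk_eq_of_subset_cl Set.subset_union_right (Set.union_subset h (subset_cl T))
  rw [← h1, h2]

lemma rk_singleton {x : L} (hx : Transcendental K x) : rk K ({x} : Set L) = 1 := by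
  have := rk_eq_of_basis (K := K) (S := ({x} : Set L)) (r := 1) (fun _ => x) (fun _ => rfl)
    ((algebraicIndependent_unique_type_iff).mpr hx) (fun y hy => by
      have h1 : y ∈ IntermediateField.adjoin K (Set.range (fun _ : Fin 1 => x)) := by
        rw [Set.mem_singleton_iff] at hy
        subst hy
        exact subset_adjoin _ _ ⟨0, rfl⟩
      exact isAlgebraic_algebraMap (⟨y, h1⟩ : IntermediateField.adjoin K _))
  simpa using this

lemma exists_transcendental {S : Set L} (h : rk K S = 1) : ∃ x ∈ S, Transcendental K x := by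
  obtain ⟨x, hx, hi, -⟩ := exists_basis (K := K) (r := 1) (by simpa using h)
  exact ⟨x 0, hx 0, algebraicIndependent_unique_type_iff.mp hi⟩

/-- a set of rank one is algebraic over each of its transcendental elements -/
lemma subset_cl_singleton {S : Set L} (h : rk K S = 1) {x : L} (hx : x ∈ S)
    (ht : Transcendental K x) : S ⊆ cl K ({x} : Set L) :=
  subset_cl_of_rk_eq (r := 1) (Set.singleton_subset_iff.mpr hx) (by simpa using rk_singleton ht)
    (by simpa using h)

lemma transcendental_of_notMem {S : Set L} {x : L} (h : x ∉ cl K S) :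
    Transcendental (cl K S) x := fun h' => h (mem_cl_of_isAlgebraic h')

end EurHuh
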