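import Pool.Agent.Work.EurHuh.Basic

/-!
E3: a function field of transcendence degree `n + 1` over a perfect field `K` has a
discrete valuation with residue field a function field of transcendence degree `n`.

Let `x : Fin (n+1) → F` be as in `FnField`, `M = K(x_1, …, x_n)`, `T = x_(n+1)`, so `F` is a finite
separable extension of `M(T)`, the fraction field of the principal ideal domain `A = M[T]`
(`Algebra.adjoin M {T}` or `Polynomial M` acting through `aeval T`). The integral closure `B` of `A` in
`F` is a Dedekind domain, a finite `A`-module, with fraction field `F`. Let `q` be a prime of `B` over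
`(T)` (it exists by integrality and is maximal), `O = B_q` as a subalgebra of `F`, `L = B / q` (or the
residue field of `O`). `O` is a discrete valuation ring; `p` a uniformizer. `L` is finite over
`A / (T) = M = K(x_1, …, x_n)`, and the residues of `x_1, …, x_n` are algebraically independent
over `K` (`M → L` is injective), so `FnField K L n`.
-/

namespace EurHuh.DVE

open Module Submodule

universe u v

/-- transfer of finiteness between fields with comparable images -/
lemma finite_transfer {R S L : Type*} [Field R] [Field S] [Field L] [Algebra R L] [Algebra S L]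
    (h : ∀ r : R, ∃ s : S, algebraMap S L s = algebraMap R L r) [hf : FiniteDimensional R L] :
    FiniteDimensional S L := by
  obtain ⟨s, hs⟩ := Module.finite_def.mp hf
  refine Module.finite_def.mpr ⟨s, ?_⟩
  rw [eq_top_iff]
  intro x _
  have hx : x ∈ span R (s : Set L) := by rw [hs]; trivial
  induction hx using Submodule.span_induction with
  | mem x hx => exact subset_span hx
  | zero => exact zero_mem _
  | add x y _ _ hx hy => exact add_mem (hx trivial) (hy trivial)
  | smul r x _ hx =>
    obtain ⟨t, ht⟩ := h r
    rw [Algebra.smul_def, ← ht, ← Algebra.smul_def]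
    exact Submodule.smul_mem _ _ (hx trivial)

/-- transfer of separability between fields with comparable images -/
lemma sep_transfer {R S L : Type*} [Field R] [Field S] [Field L] [Algebra R L] [Algebra S L]
    (h : ∀ r : R, ∃ s : S, algebraMap S L s = algebraMap R L r) [hf : Algebra.IsSeparable R L] :
    Algebra.IsSeparable S L := by
  refine ⟨fun z => ?_⟩
  have hz : (minpoly R z).Separable := Algebra.IsSeparable.isSeparable R z
  have hl : (minpoly R z).map (algebraMap R L) ∈ Polynomial.lifts (algebraMap S L) := by
    rw [Polynomial.lifts_iff_coeff_lifts]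
    intro k
    obtain ⟨t, ht⟩ := h ((minpoly R z).coeff k)
    exact ⟨t, by rw [ht, Polynomial.coeff_map]⟩
  obtain ⟨q, hq⟩ := (Polynomial.mem_lifts _).mp hl
  have hqs : q.Separable := by
    rw [← Polynomial.separable_map (algebraMap S L), hq]
    exact hz.map
  have hq0 : Polynomial.aeval z q = 0 := by
    rw [Polynomial.aeval_def, ← Polynomial.eval_map, hq, Polynomial.eval_map,
      ← Polynomial.aeval_def, minpoly.aeval]
  exact hqs.of_dvd (minpoly.dvd S z hq0)

/-- a separating transcendence basis -/
lemma exists_sep_basis {K : Type u} {F : Type v} [Field K] [PerfectField K] [Field F] [Algebra K F]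
    {m : ℕ} (h : FnField K F m) : ∃ x : Fin m → F, AlgebraicIndependent K x ∧
      FiniteDimensional (IntermediateField.adjoin K (Set.range x)) F ∧
      Algebra.IsSeparable (IntermediateField.adjoin K (Set.range x)) F := by
  obtain ⟨x, hx, hfin⟩ := h
  have ess1 : Algebra.EssFiniteType K (IntermediateField.adjoin K (Set.range x)) :=
    IntermediateField.essFiniteType_iff.mpr (IntermediateField.fg_adjoin_of_finite
      (Set.finite_range x))
  have ess : Algebra.EssFiniteType K F :=
    Algebra.EssFiniteType.comp K (IntermediateField.adjoin K (Set.range x)) F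
  obtain ⟨s, hs, hsep⟩ := exists_isTranscendenceBasis_and_isSeparable_of_perfectField (k := K)
    (K := F)
  have hxb : IsTranscendenceBasis K x := by
    rw [isTranscendenceBasis_iff_algebraicIndependent_isAlgebraic]
    refine ⟨hx, ?_⟩
    rw [← IntermediateField.isAlgebraic_adjoin_iff_top]
    infer_instance
  have hcard : Fintype.card s = m := by
    have h1 := hxb.lift_cardinalMk_eq hs
    simpa using h1.symm
  let e : Fin m ≃ s := (Fintype.equivFinOfCardEq hcard).symm
  have hrange : Set.range (fun i => (e i : F)) = (s : Set F) := by
    ext z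
    constructor
    · rintro ⟨i, rfl⟩
      exact (e i).2
    · intro hz
      exact ⟨e.symm ⟨z, hz⟩, by simp⟩
  refine ⟨fun i => (e i : F), hs.1.comp e e.injective, ?_, ?_⟩
  · rw [hrange]
    have : Algebra.EssFiniteType (IntermediateField.adjoin K (s : Set F)) F :=
      Algebra.EssFiniteType.of_comp K _ F
    exact Algebra.finite_of_essFiniteType_of_isAlgebraic
  · rw [hrange]
    exact hsep

/-- existence of a discrete valuation over the place `T = 0` -/
theorem exists_val {M : Type u} {F : Type v} [Field M] [Field F] [Algebra M F]
    (T : F) (hT : Transcendental M T) [Algebra (FractionRing (Polynomial M)) F]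
    [Algebra (Polynomial M) F] [IsScalarTower (Polynomial M) (FractionRing (Polynomial M)) F]
    (halg : ∀ q : Polynomial M, algebraMap (Polynomial M) F q = Polynomial.aeval T q)
    [FiniteDimensional (FractionRing (Polynomial M)) F]
    [Algebra.IsSeparable (FractionRing (Polynomial M)) F] :
    ∃ v : Valuation F (WithZero (Multiplicative ℤ)), (∀ m : M, v (algebraMap M F m) ≤ 1) ∧
      v T < 1 ∧ ∃ π : F, v π = WithZero.exp (-1 : ℤ) := by
  have hinj : Function.Injective (algebraMap (Polynomial M) F) := by
    intro a b hab
    rw [halg, halg] at hab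
    exact (transcendental_iff_injective.mp hT) hab
  have hfs : FaithfulSMul (Polynomial M) F := (faithfulSMul_iff_algebraMap_injective _ _).mpr hinj
  let B := integralClosure (Polynomial M) F
  have hB : IsDedekindDomain B :=
    integralClosure.isDedekindDomain (Polynomial M) (FractionRing (Polynomial M)) F
  have hBF : IsFractionRing B F :=
    integralClosure.isFractionRing_of_finite_extension (FractionRing (Polynomial M)) F
  let t : B := algebraMap (Polynomial M) B Polynomial.X
  have ht : (t : F) = T := by
    have h1 : (t : F) = algebraMap (Polynomial M) F Polynomial.X := rfl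
    rw [h1, halg, Polynomial.aeval_X]
  have hT0 : T ≠ 0 := by
    rintro rfl
    exact hT (isAlgebraic_zero)
  have htnu : ¬ IsUnit t := by
    intro hu
    have hfsB : FaithfulSMul (Polynomial M) B := by
      rw [faithfulSMul_iff_algebraMap_injective]
      intro a b hab
      apply hinj
      exact congrArg (Subtype.val) hab
    have h1 : IsUnit (Polynomial.X : Polynomial M) :=
      (isUnit_map_iff (algebraMap (Polynomial M) B) Polynomial.X).mp hu
    exact Polynomial.not_isUnit_X h1
  have hne : Ideal.span {t} ≠ ⊤ := by
    rwa [Ne, Ideal.span_singleton_eq_top]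
  obtain ⟨q, hq, hle⟩ := Ideal.exists_le_maximal _ hne
  have htq : t ∈ q := hle (Ideal.mem_span_singleton_self t)
  have hq0 : q ≠ ⊥ := by
    rintro rfl
    rw [Ideal.mem_bot] at htq
    apply hT0
    rw [← ht, htq]
    rfl
  let w : IsDedekindDomain.HeightOneSpectrum B := ⟨q, hq.isPrime, hq0⟩
  refine ⟨w.valuation F, ?_, ?_, w.valuation_exists_uniformizer F⟩
  · intro m
    have h1 : algebraMap M F m = algebraMap B F (algebraMap (Polynomial M) B (Polynomial.C m)) := by
      have h2 : algebraMap B F (algebraMap (Polynomial M) B (Polynomial.C m)) =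
          algebraMap (Polynomial M) F (Polynomial.C m) := rfl
      rw [h2, halg, Polynomial.aeval_C]
    rw [h1]
    exact w.valuation_le_one _
  · have h1 : T = algebraMap B F t := ht.symm
    rw [h1]
    exact (w.valuation_lt_one_iff_mem t).mpr htq

/-- the inclusion of the constants in the valuation ring -/
def incV {M : Type*} {F : Type v} [Field M] [Field F] [Algebra M F]
    (w : Valuation F (WithZero (Multiplicative ℤ))) (h : ∀ m : M, w (algebraMap M F m) ≤ 1) :
    M →+* w.valuationSubring where
  toFun m := ⟨algebraMap M F m, h m⟩
  map_one' := Subtype.ext (map_one _)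
  map_mul' _ _ := Subtype.ext (map_mul _ _ _)
  map_zero' := Subtype.ext (map_zero _)
  map_add' _ _ := Subtype.ext (map_add _ _ _)

/-- the residue field is finite over the constants -/
theorem residue_finite {M : Type u} {F : Type v} [Field M] [Field F] [Algebra M F]
    (w : Valuation F (WithZero (Multiplicative ℤ))) (h : ∀ m : M, w (algebraMap M F m) ≤ 1)
    (T : F) (hT1 : w T < 1) (hT0 : T ≠ 0) [Algebra (FractionRing (Polynomial M)) F]
    [Algebra (Polynomial M) F] [IsScalarTower (Polynomial M) (FractionRing (Polynomial M)) F]
    (halg : ∀ q : Polynomial M, algebraMap (Polynomial M) F q = Polynomial.aeval T q)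
    [FiniteDimensional (FractionRing (Polynomial M)) F]
    [Algebra M (IsLocalRing.ResidueField w.valuationSubring)]
    (hres : ∀ m : M, algebraMap M (IsLocalRing.ResidueField w.valuationSubring) m =
      IsLocalRing.residue w.valuationSubring (incV w h m)) :
    FiniteDimensional M (IsLocalRing.ResidueField w.valuationSubring) := by
  classical
  set L := IsLocalRing.ResidueField w.valuationSubring with hL
  let TV : w.valuationSubring := ⟨T, hT1.le⟩
  have hTres : IsLocalRing.residue w.valuationSubring TV = 0 := by
    rw [IsLocalRing.residue_eq_zero_iff, IsLocalRing.mem_maximalIdeal, mem_nonunits_iff]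
    intro hu
    obtain ⟨u, hu⟩ := hu
    have h1 : (TV : F) * ((u⁻¹ : (w.valuationSubring)ˣ) : w.valuationSubring) = 1 := by
      have := congrArg Subtype.val (u.mul_inv)
      rw [← hu]
      exact this
    have h2 : w T * w (((u⁻¹ : (w.valuationSubring)ˣ) : w.valuationSubring) : F) = 1 := by
      rw [← map_mul]
      have h3 : T * (((u⁻¹ : (w.valuationSubring)ˣ) : w.valuationSubring) : F) = 1 := h1
      rw [h3, map_one]
    have h3 : w (((u⁻¹ : (w.valuationSubring)ˣ) : w.valuationSubring) : F) ≤ 1 :=
      ((u⁻¹ : (w.valuationSubring)ˣ) : w.valuationSubring).2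
    have h4 : w T * w (((u⁻¹ : (w.valuationSubring)ˣ) : w.valuationSubring) : F) < 1 :=
      mul_lt_one_of_lt_of_le hT1 h3
    exact absurd h2 (ne_of_lt h4)
  let E : Polynomial M →+* w.valuationSubring := Polynomial.eval₂RingHom (incV w h) TV
  have hE : ∀ q, ((E q : w.valuationSubring) : F) = algebraMap (Polynomial M) F q := by
    intro q
    rw [halg, Polynomial.aeval_def]
    have := Polynomial.hom_eval₂ q (incV w h) w.valuationSubring.subtype TV
    exact this
  have hEres : ∀ q, IsLocalRing.residue w.valuationSubring (E q) =
      algebraMap M L (q.coeff 0) := by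
    intro q
    have h1 := Polynomial.hom_eval₂ q (incV w h) (IsLocalRing.residue w.valuationSubring) TV
    rw [hTres] at h1
    have h2 : E q = Polynomial.eval₂ (incV w h) TV q := rfl
    rw [h2, h1, hres, Polynomial.eval₂_eq_sum_range, Finset.sum_eq_single 0]
    · simp
    · intro i _ hi
      rw [zero_pow hi, mul_zero]
    · intro h0
      simp at h0
  have hbound : ∀ s : Finset L, LinearIndependent M (fun i : s => (i : L)) →
      s.card ≤ finrank (FractionRing (Polynomial M)) F := by
    intro s hs
    have hsurj : ∀ l : L, ∃ f : w.valuationSubring, IsLocalRing.residue _ f = l :=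
      IsLocalRing.residue_surjective
    choose f hf using hsurj
    have hlin : LinearIndependent (Polynomial M) (fun i : s => (f i : F)) := by
      rw [linearIndependent_iff']
      have key : ∀ (k : ℕ) (c : s → Polynomial M),
          ∑ i, algebraMap (Polynomial M) F (c i) * (f i : F) = 0 → ∀ i, Polynomial.X ^ k ∣ c i := by
        intro k
        induction k with
        | zero => intro c _ i; simp
        | succ k ih =>
          intro c hc
          have h1 : ∑ i : s, (c i).coeff 0 • (i : L) = 0 := by
            have h2 : ∑ i : s, E (c i) * f i = 0 := by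
              apply Subtype.ext
              rw [ZeroMemClass.coe_zero, ← hc]
              push_cast
              refine Finset.sum_congr rfl fun i _ => ?_
              rw [hE]
            have h3 := congrArg (IsLocalRing.residue w.valuationSubring) h2
            rw [map_sum, map_zero] at h3
            rw [← h3]
            refine Finset.sum_congr rfl fun i _ => ?_
            rw [map_mul, hEres, hf, Algebra.smul_def]
          have h4 := (Fintype.linearIndependent_iff.mp hs) _ h1
          have h5 : ∀ i, Polynomial.X ∣ c i := fun i => Polynomial.X_dvd_iff.mpr (h4 i)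
          choose c' hc' using h5
          have h6 : ∑ i, algebraMap (Polynomial M) F (c' i) * (f i : F) = 0 := by
            have h7 : T * ∑ i, algebraMap (Polynomial M) F (c' i) * (f i : F) = 0 := by
              rw [← hc, Finset.mul_sum]
              refine Finset.sum_congr rfl fun i _ => ?_
              rw [hc' i, map_mul, halg Polynomial.X, Polynomial.aeval_X]
              ring
            exact (mul_eq_zero.mp h7).resolve_left hT0
          intro i
          rw [hc' i, pow_succ']
          exact mul_dvd_mul_left _ (ih c' h6 i)
      intro t c hc i hi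
      -- extend by zero
      have h1 : ∑ i, algebraMap (Polynomial M) F (if i ∈ t then c i else 0) * (f i : F) = 0 := by
        rw [← hc, ← Finset.sum_subset (Finset.subset_univ t)]
        · refine Finset.sum_congr rfl fun j hj => ?_
          rw [if_pos hj, Algebra.smul_def]
        · intro j _ hj
          rw [if_neg hj, map_zero, zero_mul]
      by_contra hne
      have h2 := key ((c i).natDegree + 1) (fun i => if i ∈ t then c i else 0) h1 i
      simp only [if_pos hi] at h2
      have h3 := Polynomial.natDegree_le_of_dvd h2 hne
      rw [Polynomial.natDegree_X_pow] at h3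
      omega
    have hlin' : LinearIndependent (FractionRing (Polynomial M)) (fun i : s => (f i : F)) :=
      (LinearIndependent.iff_fractionRing (Polynomial M) (FractionRing (Polynomial M))).mp hlin
    have h1 := hlin'.fintype_card_le_finrank
    rwa [Fintype.card_coe] at h1
  have hrank := rank_le hbound
  exact Module.rank_lt_aleph0_iff.mp (lt_of_le_of_lt hrank Cardinal.natCast_lt_aleph0)

/-- the discrete valuation ring of a valuation with a uniformizer -/
theorem nonempty_DV {K : Type u} {F : Type v} [Field K] [Field F] [Algebra K F]
    (w : Valuation F (WithZero (Multiplicative ℤ))) (h : ∀ c : K, w (algebraMap K F c) ≤ 1)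
    (π : F) (hπ : w π = WithZero.exp (-1 : ℤ))
    [Algebra K (IsLocalRing.ResidueField w.valuationSubring)]
    (hres : ∀ c : K, algebraMap K (IsLocalRing.ResidueField w.valuationSubring) c =
      IsLocalRing.residue w.valuationSubring (incV w h c)) :
    Nonempty (DV K F (IsLocalRing.ResidueField w.valuationSubring)) := by
  have hπ0 : π ≠ 0 := by
    rintro rfl
    rw [map_zero] at hπ
    exact (WithZero.exp_ne_zero hπ.symm)
  have hunit : ∀ u : w.valuationSubring, w (u : F) = 1 →
      IsLocalRing.residue w.valuationSubring u ≠ 0 := by
    intro u hu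
    rw [IsLocalRing.residue_ne_zero_iff_isUnit]
    have hu0 : (u : F) ≠ 0 := by
      intro h0
      rw [h0, map_zero] at hu
      exact zero_ne_one hu
    have hinv : w (u : F)⁻¹ ≤ 1 := by
      rw [map_inv₀, hu, inv_one]
    refine IsUnit.of_mul_eq_one (⟨(u : F)⁻¹, hinv⟩ : w.valuationSubring) ?_
    apply Subtype.ext
    exact mul_inv_cancel₀ hu0
  have hnu : ∀ u : w.valuationSubring, w (u : F) < 1 →
      IsLocalRing.residue w.valuationSubring u = 0 := by
    intro u hu
    rw [IsLocalRing.residue_eq_zero_iff, IsLocalRing.mem_maximalIdeal, mem_nonunits_iff]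
    rintro ⟨t, rfl⟩
    have h1 : ((t : w.valuationSubring) : F) * ((t⁻¹ : (w.valuationSubring)ˣ) : w.valuationSubring) =
        1 := congrArg Subtype.val t.mul_inv
    have h2 : w ((t : w.valuationSubring) : F) *
        w (((t⁻¹ : (w.valuationSubring)ˣ) : w.valuationSubring) : F) = 1 := by
      rw [← map_mul, h1, map_one]
    have h3 : w (((t⁻¹ : (w.valuationSubring)ˣ) : w.valuationSubring) : F) ≤ 1 :=
      ((t⁻¹ : (w.valuationSubring)ˣ) : w.valuationSubring).2
    exact absurd h2 (ne_of_lt (mul_lt_one_of_lt_of_le hu h3))
  let O : Subalgebra K F :=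
    { w.valuationSubring.toSubring with
      algebraMap_mem' := fun c => h c }
  let toV : O →+* w.valuationSubring :=
    { toFun := fun f => ⟨f.1, f.2⟩
      map_one' := rfl
      map_mul' := fun _ _ => rfl
      map_zero' := rfl
      map_add' := fun _ _ => rfl }
  let res : O →ₐ[K] IsLocalRing.ResidueField w.valuationSubring :=
    { (IsLocalRing.residue w.valuationSubring).comp toV with
      commutes' := fun c => (hres c).symm }
  have hresE : ∀ f : O, res f = IsLocalRing.residue w.valuationSubring (toV f) := fun _ => rfl
  have hπ1 : w π < 1 := by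
    rw [hπ, ← WithZero.exp_zero]
    exact WithZero.exp_lt_exp.mpr (by norm_num)
  refine ⟨⟨O, res, ⟨π, hπ1.le⟩, ?_, ?_, ?_, ?_⟩⟩
  · intro l
    obtain ⟨f, rfl⟩ := IsLocalRing.residue_surjective l
    exact ⟨⟨f.1, f.2⟩, rfl⟩
  · intro h0
    exact hπ0 (congrArg Subtype.val h0)
  · rw [hresE]
    exact hnu _ hπ1
  · intro f hf
    have hf0 : w f ≠ 0 := (Valuation.ne_zero_iff w).mpr hf
    refine ⟨-WithZero.log (w f), ?_⟩
    have h1 : w (π ^ (WithZero.log (w f)) * f) = 1 := by
      rw [map_mul, map_zpow₀, hπ, ← WithZero.exp_log hf0, ← WithZero.exp_zsmul, ← WithZero.exp_add,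
        WithZero.log_exp]
      simp
    refine ⟨⟨π ^ (WithZero.log (w f)) * f, h1.le⟩, ?_, ?_⟩
    · simp only
      rw [← mul_assoc, ← zpow_add₀ hπ0]
      simp
    · rw [hresE]
      exact hunit _ h1

end EurHuh.DVE

namespace EurHuh

open Module Submodule

universe u v

theorem exists_DV {K : Type u} {F : Type v} [Field K] [PerfectField K] [Field F] [Algebra K F]
    {n : ℕ}
    (h : FnField K F (n + 1)) :
    ∃ (L : Type v) (_ : Field L) (_ : Algebra K L), FnField K L n ∧ Nonempty (DV K F L) := by
  classical
  obtain ⟨x, hx, hfin, hsep⟩ := DVE.exists_sep_basis h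
  let x' : Fin n → F := fun i => x i.castSucc
  let T := x (Fin.last n)
  let M := IntermediateField.adjoin K (Set.range x')
  have hT : Transcendental M T := by
    have h1 := hx.transcendental_adjoin (s := Set.range (Fin.castSucc : Fin n → Fin (n + 1)))
      (i := Fin.last n) (by
        rintro ⟨i, hi⟩
        exact (Fin.castSucc_lt_last i).ne hi)
    rw [← Set.range_comp] at h1
    exact IntermediateField.transcendental_adjoin_iff.mpr h1
  let algP : Algebra (Polynomial M) F := (Polynomial.aeval T).toRingHom.toAlgebra
  have halg : ∀ q : Polynomial M, algebraMap (Polynomial M) F q = Polynomial.aeval T q :=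
    fun q => rfl
  have hfs : FaithfulSMul (Polynomial M) F := by
    rw [faithfulSMul_iff_algebraMap_injective]
    intro a b hab
    rw [halg, halg] at hab
    exact (transcendental_iff_injective.mp hT) hab
  let algR : Algebra (FractionRing (Polynomial M)) F :=
    FractionRing.liftAlgebra (Polynomial M) F
  have hst : IsScalarTower (Polynomial M) (FractionRing (Polynomial M)) F :=
    FractionRing.isScalarTower_liftAlgebra (Polynomial M) F
  have himg : ∀ r : IntermediateField.adjoin K (Set.range x), ∃ s : FractionRing (Polynomial M),
      algebraMap (FractionRing (Polynomial M)) F s =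
        algebraMap (IntermediateField.adjoin K (Set.range x)) F r := by
    rintro ⟨z, hz⟩
    have hzz : algebraMap (IntermediateField.adjoin K (Set.range x)) F ⟨z, hz⟩ = z := rfl
    rw [hzz]
    induction hz using IntermediateField.adjoin_induction with
    | mem z hz =>
      obtain ⟨i, rfl⟩ := hz
      refine Fin.lastCases ?_ (fun i => ?_) i
      · refine ⟨algebraMap (Polynomial M) _ Polynomial.X, ?_⟩
        rw [← IsScalarTower.algebraMap_apply, halg, Polynomial.aeval_X]
      · refine ⟨algebraMap (Polynomial M) _ (Polynomial.C
          ⟨x' i, IntermediateField.subset_adjoin K _ ⟨i, rfl⟩⟩), ?_⟩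
        rw [← IsScalarTower.algebraMap_apply, halg, Polynomial.aeval_C]
        rfl
    | algebraMap c =>
      refine ⟨algebraMap (Polynomial M) _ (Polynomial.C (algebraMap K M c)), ?_⟩
      rw [← IsScalarTower.algebraMap_apply, halg, Polynomial.aeval_C]
      rfl
    | add a b _ _ ha hb =>
      obtain ⟨a', ha'⟩ := ha rfl
      obtain ⟨b', hb'⟩ := hb rfl
      exact ⟨a' + b', by rw [map_add, ha', hb']⟩
    | inv a _ ha =>
      obtain ⟨a', ha'⟩ := ha rfl
      exact ⟨a'⁻¹, by rw [map_inv₀, ha']⟩
    | mul a b _ _ ha hb =>
      obtain ⟨a', ha'⟩ := ha rfl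
      obtain ⟨b', hb'⟩ := hb rfl
      exact ⟨a' * b', by rw [map_mul, ha', hb']⟩
  have hfd : FiniteDimensional (FractionRing (Polynomial M)) F := DVE.finite_transfer himg
  have hsp : Algebra.IsSeparable (FractionRing (Polynomial M)) F := DVE.sep_transfer himg
  obtain ⟨w, hw, hwT, π, hπ⟩ := DVE.exists_val (M := M) T hT halg
  have hT0 : T ≠ 0 := by
    intro h0
    rw [h0] at hT
    exact hT isAlgebraic_zero
  have hwK : ∀ c : K, w (algebraMap K F c) ≤ 1 := fun c => hw (algebraMap K M c)
  let algM : Algebra M (IsLocalRing.ResidueField w.valuationSubring) :=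
    ((IsLocalRing.residue w.valuationSubring).comp (DVE.incV w hw)).toAlgebra
  let algK : Algebra K (IsLocalRing.ResidueField w.valuationSubring) :=
    ((IsLocalRing.residue w.valuationSubring).comp (DVE.incV w hwK)).toAlgebra
  have hKM : IsScalarTower K M (IsLocalRing.ResidueField w.valuationSubring) :=
    IsScalarTower.of_algebraMap_eq fun c => rfl
  have hfinL : FiniteDimensional M (IsLocalRing.ResidueField w.valuationSubring) :=
    DVE.residue_finite w hw T hwT hT0 halg (fun m => rfl)
  refine ⟨IsLocalRing.ResidueField w.valuationSubring, inferInstance, algK, ?_,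
    DVE.nonempty_DV w hwK π hπ fun c => rfl⟩
  let xM : Fin n → M := fun i => ⟨x' i, IntermediateField.subset_adjoin K _ ⟨i, rfl⟩⟩
  have hxM : AlgebraicIndependent K xM := by
    apply AlgebraicIndependent.of_comp M.val
    exact hx.comp _ (Fin.castSucc_injective n)
  refine ⟨fun i => algebraMap M _ (xM i), ?_, ?_⟩
  · exact hxM.map' (f := IsScalarTower.toAlgHom K M (IsLocalRing.ResidueField w.valuationSubring))
      (algebraMap M _).injective
  · refine DVE.finite_transfer (R := M) ?_
    rintro ⟨z, hz⟩
    have key : algebraMap M (IsLocalRing.ResidueField w.valuationSubring) ⟨z, hz⟩ ∈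
        IntermediateField.adjoin K (Set.range fun i => algebraMap M
          (IsLocalRing.ResidueField w.valuationSubring) (xM i)) := by
      induction hz using IntermediateField.adjoin_induction with
      | mem z hz =>
        obtain ⟨i, rfl⟩ := hz
        exact IntermediateField.subset_adjoin K _ ⟨i, rfl⟩
      | algebraMap c =>
        exact IntermediateField.algebraMap_mem _ c
      | add a b ha' hb' ha hb =>
        have h1 : (⟨a + b, add_mem ha' hb'⟩ : M) = ⟨a, ha'⟩ + ⟨b, hb'⟩ := rfl
        rw [h1, map_add]
        exact add_mem ha hb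
      | inv a ha' ha =>
        have h1 : (⟨a⁻¹, inv_mem ha'⟩ : M) = (⟨a, ha'⟩ : M)⁻¹ := rfl
        rw [h1, map_inv₀]
        exact inv_mem ha
      | mul a b ha' hb' ha hb =>
        have h1 : (⟨a * b, mul_mem ha' hb'⟩ : M) = ⟨a, ha'⟩ * ⟨b, hb'⟩ := rfl
        rw [h1, map_mul]
        exact mul_mem ha hb
    exact ⟨⟨_, key⟩, rfl⟩

end EurHuh
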