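import Mathlib

/-!
E1: the one-dimensional discrete Prekopa-Leindler lemma.

Proof. If `α = 0` or `β = 0` the left side is zero, and `c = 0` is trivial. Let `A = max α > 0`,
`B = max β > 0`, and for `s = 1, …, A * B` let `L(s) = {i | s ≤ α i * B}`, `L'(s) = {j | s ≤ A * β j}`,
which are nonempty finite sets. For `i ∈ L(s)`, `j ∈ L'(s)` we have
`c * s ^ 2 ≤ c * (α i * B) * (A * β j) ≤ A * B * γ (i + j) ^ 2`, and the same for `γ (i + j + 1)`.
The sumset `L(s) + L'(s) + {0, 1}` has at least `#L(s) + #L'(s)` elements. Hence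
`#{k | c * s ^ 2 ≤ A * B * γ k ^ 2} ≥ #L(s) + #L'(s)`. Sum over `s`: `∑_s #L(s) = B * ∑ α`,
`∑_s #L'(s) = A * ∑ β` and `∑_s #{k | c * s^2 ≤ A*B*γ k^2} ≤ ∑_k √(A*B/c) * γ k`. So
`√(A*B/c) * ∑ γ ≥ B * ∑ α + A * ∑ β ≥ 2 * √(A * B * ∑ α * ∑ β)`.
-/

namespace EurHuh

open scoped Pointwise

lemma card_sumset_pair (S T : Finset ℤ) (hS : S.Nonempty) (hT : T.Nonempty) :
    S.card + T.card ≤ (S + T + {0, 1}).card := by
  have h1 := cauchy_davenport_add_of_linearOrder_isCancelAdd hS hT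
  have h2 := cauchy_davenport_add_of_linearOrder_isCancelAdd (hS.add hT)
    (show ({0, 1} : Finset ℤ).Nonempty by simp)
  have h3 : ({0, 1} : Finset ℤ).card = 2 := by decide
  have h4 : 0 < (S + T).card := Finset.card_pos.mpr (hS.add hT)
  have h5 : 0 < S.card := Finset.card_pos.mpr hS
  omega

lemma sum_card_level {ι : Type*} [DecidableEq ι] (S : Finset ι) (f : ι → ℕ) (M : ℕ)
    (hf : ∀ i ∈ S, f i ≤ M) :
    ∑ s ∈ Finset.Icc 1 M, (S.filter (fun i => s ≤ f i)).card = ∑ i ∈ S, f i := by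
  simp_rw [Finset.card_filter]
  rw [Finset.sum_comm]
  apply Finset.sum_congr rfl
  intro i hi
  rw [← Finset.card_filter]
  have e : (Finset.Icc 1 M).filter (fun s => s ≤ f i) = Finset.Icc 1 (f i) := by
    ext s
    simp only [Finset.mem_filter, Finset.mem_Icc]
    have := hf i hi
    omega
  rw [e, Nat.card_Icc]
  omega

lemma sum_card_level_le {ι : Type*} [DecidableEq ι] (S : Finset ι) (g : ι → ℕ) (M c : ℕ) (r : ℝ)
    (hr : 0 ≤ r) (hc : 0 < c) (hrc : r ^ 2 * c = M) :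
    ((∑ s ∈ Finset.Icc 1 M, (S.filter (fun k => c * s ^ 2 ≤ M * g k ^ 2)).card : ℕ) : ℝ) ≤
      r * ∑ i ∈ S, (g i : ℝ) := by
  simp_rw [Finset.card_filter]
  rw [Finset.sum_comm, Nat.cast_sum, Finset.mul_sum]
  apply Finset.sum_le_sum
  intro k _
  rw [← Finset.card_filter]
  have hrg : 0 ≤ r * (g k : ℝ) := mul_nonneg hr (Nat.cast_nonneg _)
  have hsub : (Finset.Icc 1 M).filter (fun s => c * s ^ 2 ≤ M * g k ^ 2) ⊆
      Finset.Icc 1 ⌊r * (g k : ℝ)⌋₊ := by
    intro s hs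
    rw [Finset.mem_filter, Finset.mem_Icc] at hs
    rw [Finset.mem_Icc]
    refine ⟨hs.1.1, Nat.le_floor ?_⟩
    have h1 : (c : ℝ) * (s : ℝ) ^ 2 ≤ M * (g k : ℝ) ^ 2 := by exact_mod_cast hs.2
    have h2 : (s : ℝ) ^ 2 ≤ (r * (g k : ℝ)) ^ 2 := by
      have hc' : (0 : ℝ) < c := by exact_mod_cast hc
      have h3 : (c : ℝ) * (s : ℝ) ^ 2 ≤ c * (r * (g k : ℝ)) ^ 2 := by
        calc (c : ℝ) * (s : ℝ) ^ 2 ≤ M * (g k : ℝ) ^ 2 := h1
          _ = c * (r * (g k : ℝ)) ^ 2 := by rw [← hrc]; ring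
      exact le_of_mul_le_mul_left h3 hc'
    exact (pow_le_pow_iff_left₀ (Nat.cast_nonneg _) hrg two_ne_zero).mp h2
  have h4 := Finset.card_le_card hsub
  rw [Nat.card_Icc] at h4
  calc (((Finset.Icc 1 M).filter (fun s => c * s ^ 2 ≤ M * g k ^ 2)).card : ℝ)
      ≤ (⌊r * (g k : ℝ)⌋₊ : ℝ) := by
        have : ((Finset.Icc 1 M).filter (fun s => c * s ^ 2 ≤ M * g k ^ 2)).card ≤
          ⌊r * (g k : ℝ)⌋₊ := by omega
        exact_mod_cast this
    _ ≤ r * (g k : ℝ) := Nat.floor_le hrg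

theorem pl_lemma (α β γ : ℤ →₀ ℕ) (c : ℕ)
    (h0 : ∀ i j, c * (α i * β j) ≤ γ (i + j) ^ 2)
    (h1 : ∀ i j, c * (α i * β j) ≤ γ (i + j + 1) ^ 2) :
    4 * c * ((α.sum fun _ a => a) * (β.sum fun _ b => b)) ≤ (γ.sum fun _ g => g) ^ 2 := by
  classical
  rcases Nat.eq_zero_or_pos c with rfl | hc
  · simp
  by_cases hα : α = 0
  · simp [hα]
  by_cases hβ : β = 0
  · simp [hβ]
  have hαs : α.support.Nonempty := Finsupp.support_nonempty_iff.mpr hα
  have hβs : β.support.Nonempty := Finsupp.support_nonempty_iff.mpr hβ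
  obtain ⟨i0, hi0, hA⟩ := α.support.exists_max_image α hαs
  obtain ⟨j0, hj0, hB⟩ := β.support.exists_max_image β hβs
  have hApos : 0 < α i0 := Nat.pos_of_ne_zero (Finsupp.mem_support_iff.mp hi0)
  have hBpos : 0 < β j0 := Nat.pos_of_ne_zero (Finsupp.mem_support_iff.mp hj0)
  generalize hAdef : α i0 = A at *
  generalize hBdef : β j0 = B at *
  have key : ∀ s ∈ Finset.Icc 1 (A * B),
      (α.support.filter (fun i => s ≤ α i * B)).card +
        (β.support.filter (fun j => s ≤ A * β j)).card ≤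
      (γ.support.filter (fun k => c * s ^ 2 ≤ (A * B) * γ k ^ 2)).card := by
    intro s hs
    rw [Finset.mem_Icc] at hs
    have hS : (α.support.filter (fun i => s ≤ α i * B)).Nonempty :=
      ⟨i0, by rw [Finset.mem_filter]; exact ⟨hi0, by rw [hAdef]; exact hs.2⟩⟩
    have hT : (β.support.filter (fun j => s ≤ A * β j)).Nonempty :=
      ⟨j0, by rw [Finset.mem_filter]; exact ⟨hj0, by rw [hBdef]; exact hs.2⟩⟩
    refine (card_sumset_pair _ _ hS hT).trans (Finset.card_le_card ?_)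
    intro k hk
    rw [Finset.mem_add] at hk
    obtain ⟨x, hx, e, he, rfl⟩ := hk
    rw [Finset.mem_add] at hx
    obtain ⟨i, hi, j, hj, rfl⟩ := hx
    rw [Finset.mem_filter] at hi hj
    have hle : c * s ^ 2 ≤ (A * B) * (c * (α i * β j)) := by
      calc c * s ^ 2 = c * (s * s) := by ring
        _ ≤ c * ((α i * B) * (A * β j)) :=
          Nat.mul_le_mul_left c (Nat.mul_le_mul hi.2 hj.2)
        _ = (A * B) * (c * (α i * β j)) := by ring
    have hγ : c * (α i * β j) ≤ γ (i + j + e) ^ 2 := by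
      rw [Finset.mem_insert, Finset.mem_singleton] at he
      rcases he with rfl | rfl
      · rw [add_zero]; exact h0 i j
      · exact h1 i j
    have hle2 : c * s ^ 2 ≤ (A * B) * γ (i + j + e) ^ 2 :=
      hle.trans (Nat.mul_le_mul_left _ hγ)
    rw [Finset.mem_filter]
    refine ⟨?_, hle2⟩
    rw [Finsupp.mem_support_iff]
    intro hz
    rw [hz] at hle2
    have : 0 < c * s ^ 2 := Nat.mul_pos hc (pow_pos (by omega) 2)
    simp at hle2
    omega
  have hsum := Finset.sum_le_sum key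
  rw [Finset.sum_add_distrib] at hsum
  rw [sum_card_level α.support (fun i => α i * B) (A * B)
      (fun i hi => Nat.mul_le_mul_right B (hA i hi)),
    sum_card_level β.support (fun j => A * β j) (A * B)
      (fun j hj => Nat.mul_le_mul_left A (hB j hj)),
    ← Finset.sum_mul, ← Finset.mul_sum] at hsum
  have hcR : (0 : ℝ) < c := by exact_mod_cast hc
  have hABR : (0 : ℝ) < ((A * B : ℕ) : ℝ) := by exact_mod_cast Nat.mul_pos hApos hBpos
  set r : ℝ := Real.sqrt (((A * B : ℕ) : ℝ) / c) with hr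
  have hr2 : r ^ 2 * c = ((A * B : ℕ) : ℝ) := by
    rw [hr, Real.sq_sqrt (by positivity)]
    field_simp
  have hlev := sum_card_level_le γ.support γ (A * B) c r (Real.sqrt_nonneg _) hc hr2
  have hαe : (α.sum fun _ a => a) = ∑ i ∈ α.support, α i := rfl
  have hβe : (β.sum fun _ a => a) = ∑ i ∈ β.support, β i := rfl
  have hγe : (γ.sum fun _ a => a) = ∑ i ∈ γ.support, γ i := rfl
  rw [hαe, hβe, hγe]
  set a : ℕ := ∑ i ∈ α.support, α i
  set b : ℕ := ∑ i ∈ β.support, β i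
  have hγR : (∑ i ∈ γ.support, (γ i : ℝ)) = ((∑ i ∈ γ.support, γ i : ℕ) : ℝ) := by push_cast; rfl
  rw [hγR] at hlev
  set g : ℕ := ∑ i ∈ γ.support, γ i
  have h2 : ((a * B + A * b : ℕ) : ℝ) ≤ r * (g : ℝ) := le_trans (by exact_mod_cast hsum) hlev
  have h3 : ((a * B + A * b : ℕ) : ℝ) ^ 2 ≤ (r * (g : ℝ)) ^ 2 :=
    pow_le_pow_left₀ (Nat.cast_nonneg _) h2 2
  have h4 : (4 : ℝ) * (A * B : ℕ) * (a * b) ≤ (r * (g : ℝ)) ^ 2 := by
    refine le_trans ?_ h3
    push_cast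
    nlinarith [sq_nonneg ((a : ℝ) * B - A * b)]
  have h5 : (A * B : ℕ) * (4 * (c : ℝ) * (a * b)) ≤ (A * B : ℕ) * (g : ℝ) ^ 2 := by
    calc ((A * B : ℕ) : ℝ) * (4 * (c : ℝ) * (a * b)) = c * (4 * (A * B : ℕ) * (a * b)) := by ring
      _ ≤ c * (r * (g : ℝ)) ^ 2 := mul_le_mul_of_nonneg_left h4 hcR.le
      _ = (A * B : ℕ) * (g : ℝ) ^ 2 := by rw [← hr2]; ring
  have h6 := le_of_mul_le_mul_left h5 hABR
  exact_mod_cast h6

end EurHuh
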