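import Pool.Agent.Work.EurHuh.Basic
import Pool.Agent.Work.EurHuh.PL

/-!
E2: log-concavity passes from the residue field of a discrete valuation to the field.

Let `v` be the valuation of the structure `DV` (`f = p^i u`, `u ∈ O`, `res u ≠ 0`; `i = v f` is unique).
For a finite dimensional subspace `V` of `F` and `i : ℤ` put `V_i = {f ∈ V | p^(-i) f ∈ O}` and
`gr_i V = {res (p^(-i) f) | f ∈ V_i}`, a subspace of `L`; the kernel of `V_i → gr_i V` is `V_(i+1)`.
`V_i = V` for `i` very negative and `V_i = 0` for `i` large (finite dimension), so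
`∑_i dim gr_i V = dim V`, a finite sum. Let `Q_L` be the space of `Good K L n` (replace it by
`Q_L + K`, no matter), spanned by `res b_1, …, res b_t`, and let `Q` be the span of
`b_1, …, b_t, p b_1, …, p b_t`. Then `gr_(i+j) (V W Q) ⊇ gr_i V * gr_j W * Q_L` and the same for
`gr_(i+j+1) (V W Q)`. So with `α i = dim gr_i V`, `β j = dim gr_j W`, `γ k = dim gr_k (V W Q)` we have
`4^n * α i * β j ≤ γ (i+j) ^ 2` and `≤ γ (i+j+1) ^ 2`; apply `pl_lemma` with `c = 4^n`.
-/

namespace EurHuh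

open Module Submodule

variable {K F L : Type*} [Field K] [Field F] [Field L] [Algebra K F] [Algebra K L]

namespace DV

variable (D : DV K F L)

lemma coe_p_ne : (D.p : F) ≠ 0 := fun h => D.p_ne (Subtype.ext h)

/-- multiplication by `p^i` -/
noncomputable def mulp (i : ℤ) : D.O →ₗ[K] F :=
  (LinearMap.mulLeft K ((D.p : F) ^ i)) ∘ₗ D.O.val.toLinearMap

lemma mulp_apply (i : ℤ) (u : D.O) : D.mulp i u = (D.p : F) ^ i * (u : F) := rfl

lemma mulp_inj (i : ℤ) : Function.Injective (D.mulp i) := by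
  intro a b h
  rw [mulp_apply, mulp_apply] at h
  exact Subtype.ext (mul_left_cancel₀ (zpow_ne_zero i D.coe_p_ne) h)

lemma mulp_mul_pow (i : ℤ) (k : ℕ) (u : D.O) : D.mulp i (D.p ^ k * u) = D.mulp (i + k) u := by
  rw [mulp_apply, mulp_apply, zpow_add₀ D.coe_p_ne, zpow_natCast]
  push_cast
  ring

/-- the part of `V` of valuation at least `i`, divided by `p^i` -/
noncomputable def T (V : Submodule K F) (i : ℤ) : Submodule K D.O := V.comap (D.mulp i)

/-- the graded piece -/
noncomputable def gr (V : Submodule K F) (i : ℤ) : Submodule K L :=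
  (D.T V i).map D.res.toLinearMap

lemma mem_T {V : Submodule K F} {i : ℤ} {u : D.O} : u ∈ D.T V i ↔ D.mulp i u ∈ V := Iff.rfl

lemma T_fg {V : Submodule K F} (hV : V.FG) (i : ℤ) : (D.T V i).FG := by
  have h1 : ((D.T V i).map (D.mulp i)).FG := fg_of_le hV (Submodule.map_comap_le _ _)
  exact Submodule.fg_of_fg_map_injective (D.mulp i) (D.mulp_inj i) h1

lemma gr_fg {V : Submodule K F} (hV : V.FG) (i : ℤ) : (D.gr V i).FG := (D.T_fg hV i).map _

lemma exists_div {u : D.O} (hu : D.res u = 0) : ∃ w : D.O, u = D.p * w := by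
  by_cases h0 : u = 0
  · exact ⟨0, by rw [h0, mul_zero]⟩
  have hne : (u : F) ≠ 0 := fun h => h0 (Subtype.ext h)
  obtain ⟨i, v, hv, hr⟩ := D.fact u hne
  have hv' : D.mulp 0 u = D.mulp i v := by
    rw [mulp_apply, mulp_apply, ← hv, zpow_zero, one_mul]
  rcases le_or_gt i 0 with hi | hi
  · exfalso
    obtain ⟨k, hk⟩ := Int.eq_ofNat_of_zero_le (show 0 ≤ 0 - i by omega)
    have h2 : D.mulp i (D.p ^ k * u) = D.mulp i v := by
      rw [mulp_mul_pow, ← hv', show i + (k : ℤ) = 0 by omega]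
    have h3 := D.mulp_inj i h2
    apply hr
    rw [← h3, map_mul, hu, mul_zero]
  · obtain ⟨k, hk⟩ := Int.eq_ofNat_of_zero_le (show 0 ≤ i - 1 by omega)
    refine ⟨D.p ^ k * v, ?_⟩
    apply D.mulp_inj 0
    have h2 : D.p * (D.p ^ k * v) = D.p ^ (k + 1) * v := by ring
    rw [h2, mulp_mul_pow, hv', show (0 : ℤ) + ((k + 1 : ℕ) : ℤ) = i by push_cast; omega]

lemma finrank_T {V : Submodule K F} (hV : V.FG) (i : ℤ) :
    finrank K (D.T V i) = finrank K (D.gr V i) + finrank K (D.T V (i + 1)) := by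
  have : FiniteDimensional K (D.T V i) := Module.Finite.iff_fg.mpr (D.T_fg hV i)
  have hrn := LinearMap.finrank_range_add_finrank_ker (D.res.toLinearMap.domRestrict (D.T V i))
  rw [LinearMap.range_domRestrict] at hrn
  have hmem : ∀ w : D.T V (i + 1), ((LinearMap.mulLeft K D.p).comp (D.T V (i + 1)).subtype) w ∈
      D.T V i := by
    intro w
    have h1 : D.mulp (i + 1) (w : D.O) ∈ V := w.2
    rw [mem_T]
    have h2 := D.mulp_mul_pow i 1 (w : D.O)
    rw [pow_one, Nat.cast_one] at h2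
    have h3 : D.mulp i (((LinearMap.mulLeft K D.p).comp (D.T V (i + 1)).subtype) w) =
        D.mulp (i + 1) (w : D.O) := h2
    rw [h3]
    exact h1
  let ψ : D.T V (i + 1) →ₗ[K] D.T V i :=
    ((LinearMap.mulLeft K D.p).comp (D.T V (i + 1)).subtype).codRestrict (D.T V i) hmem
  have hψa : ∀ w, ((ψ w : D.T V i) : D.O) = D.p * (w : D.O) := fun w => rfl
  have hψ : Function.Injective ψ := by
    intro a b h
    have h1 : D.p * (a : D.O) = D.p * (b : D.O) := by rw [← hψa, ← hψa, h]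
    exact Subtype.ext (mul_left_cancel₀ D.p_ne h1)
  have hr : LinearMap.range ψ = LinearMap.ker (D.res.toLinearMap.domRestrict (D.T V i)) := by
    ext u
    rw [LinearMap.mem_range, LinearMap.mem_ker]
    constructor
    · rintro ⟨w, rfl⟩
      show D.res ((ψ w : D.T V i) : D.O) = 0
      rw [hψa, map_mul, D.res_p, zero_mul]
    · intro hu
      have hu' : D.res (u : D.O) = 0 := hu
      obtain ⟨w, hw⟩ := D.exists_div hu'
      have hwm : w ∈ D.T V (i + 1) := by
        rw [mem_T]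
        have h2 := D.mulp_mul_pow i 1 w
        rw [pow_one, Nat.cast_one, ← hw] at h2
        rw [← h2]
        exact u.2
      exact ⟨⟨w, hwm⟩, Subtype.ext (by rw [hψa, hw])⟩
  have h5 := LinearMap.finrank_range_of_inj hψ
  rw [hr] at h5
  rw [← h5]
  exact hrn.symm

/-- the part of `V` of valuation at least `i` -/
noncomputable def filt (V : Submodule K F) (i : ℤ) : Submodule K F := (D.T V i).map (D.mulp i)

lemma mem_filt {V : Submodule K F} {i : ℤ} {f : F} :
    f ∈ D.filt V i ↔ f ∈ V ∧ ∃ u : D.O, D.mulp i u = f := by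
  constructor
  · rintro ⟨u, hu, rfl⟩
    exact ⟨hu, u, rfl⟩
  · rintro ⟨hf, u, rfl⟩
    exact ⟨u, hf, rfl⟩

lemma range_anti {i j : ℤ} (h : i ≤ j) {f : F} (hf : ∃ u : D.O, D.mulp j u = f) :
    ∃ u : D.O, D.mulp i u = f := by
  obtain ⟨u, rfl⟩ := hf
  obtain ⟨k, hk⟩ := Int.eq_ofNat_of_zero_le (show 0 ≤ j - i by omega)
  refine ⟨D.p ^ k * u, ?_⟩
  rw [mulp_mul_pow, show i + (k : ℤ) = j by omega]

lemma filt_anti (V : Submodule K F) {i j : ℤ} (h : i ≤ j) : D.filt V j ≤ D.filt V i := by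
  intro f hf
  rw [mem_filt] at hf ⊢
  exact ⟨hf.1, D.range_anti h hf.2⟩

lemma finrank_filt (V : Submodule K F) (i : ℤ) : finrank K (D.filt V i) = finrank K (D.T V i) :=
  finrank_map_of_inj _ (D.mulp_inj i) _

lemma filt_le (V : Submodule K F) (i : ℤ) : D.filt V i ≤ V := fun _ hf => (D.mem_filt.mp hf).1

lemma exists_range (f : F) : ∃ i : ℤ, ∃ u : D.O, D.mulp i u = f := by
  by_cases h : f = 0
  · exact ⟨0, 0, by rw [map_zero, h]⟩
  · obtain ⟨i, u, hu, -⟩ := D.fact f h
    exact ⟨i, u, hu.symm⟩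

lemma exists_low_finset (S : Finset F) : ∃ N : ℤ, ∀ i ≤ N, ∀ f ∈ S, ∃ u : D.O, D.mulp i u = f := by
  classical
  induction S using Finset.induction_on with
  | empty => exact ⟨0, fun i _ f hf => absurd hf (Finset.notMem_empty f)⟩
  | insert a S ha ih =>
    obtain ⟨N, hN⟩ := ih
    obtain ⟨j, hj⟩ := D.exists_range a
    refine ⟨min N j, fun i hi f hf => ?_⟩
    rw [Finset.mem_insert] at hf
    rcases hf with rfl | hf
    · exact D.range_anti (le_trans hi (min_le_right _ _)) hj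
    · exact hN i (le_trans hi (min_le_left _ _)) f hf

lemma exists_low {V : Submodule K F} (hV : V.FG) :
    ∃ N : ℤ, ∀ i ≤ N, finrank K (D.T V i) = finrank K V := by
  obtain ⟨S, hS⟩ := hV
  obtain ⟨N, hN⟩ := D.exists_low_finset S
  refine ⟨N, fun i hi => ?_⟩
  rw [← finrank_filt]
  have : D.filt V i = V := by
    apply le_antisymm (D.filt_le V i)
    intro f hf
    rw [mem_filt]
    refine ⟨hf, ?_⟩
    have h1 : V ≤ LinearMap.range (D.mulp i) := by
      rw [← hS, span_le]
      intro g hg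
      exact hN i hi g hg
    exact h1 hf
  rw [this]

lemma exists_high {V : Submodule K F} (hV : V.FG) : ∃ N : ℤ, ∀ i, N ≤ i → D.T V i = ⊥ := by
  have hfg : ∀ i, (D.filt V i).FG := fun i => fg_of_le hV (D.filt_le V i)
  obtain ⟨n, hn⟩ := Nat.sInf_mem (Set.range_nonempty (fun n : ℕ => finrank K (D.filt V n)))
  have hmin : ∀ m : ℕ, finrank K (D.filt V n) ≤ finrank K (D.filt V m) := by
    intro m
    have h1 : finrank K (D.filt V n) = sInf (Set.range (fun n : ℕ => finrank K (D.filt V n))) := hn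
    rw [h1]
    exact Nat.sInf_le ⟨m, rfl⟩
  have hbot : D.filt V n = ⊥ := by
    rw [eq_bot_iff]
    intro f hf
    rw [Submodule.mem_bot]
    by_contra hne
    obtain ⟨k, u, hu, hr⟩ := D.fact f hne
    obtain ⟨m, hm⟩ := Int.eq_ofNat_of_zero_le (show 0 ≤ max (n : ℤ) (k + 1) by
      exact le_trans (Int.natCast_nonneg n) (le_max_left _ _))
    have hnm : (n : ℤ) ≤ m := by rw [← hm]; exact le_max_left _ _
    have hkm : k + 1 ≤ (m : ℤ) := by rw [← hm]; exact le_max_right _ _
    have heq : D.filt V m = D.filt V n := by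
      have : FiniteDimensional K (D.filt V n) := Module.Finite.iff_fg.mpr (hfg n)
      exact Submodule.eq_of_le_of_finrank_le (D.filt_anti V hnm) (hmin m)
    rw [← heq, mem_filt] at hf
    obtain ⟨w, hw⟩ := D.range_anti hkm hf.2
    have h2 := D.mulp_mul_pow k 1 w
    rw [pow_one, Nat.cast_one, hw] at h2
    have h3 : D.mulp k (D.p * w) = D.mulp k u := by rw [h2, mulp_apply, ← hu]
    have h4 := D.mulp_inj k h3
    apply hr
    rw [← h4, map_mul, D.res_p, zero_mul]
  refine ⟨n, fun i hi => ?_⟩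
  rw [eq_bot_iff]
  intro u hu
  have h5 : D.mulp i u ∈ D.filt V i := ⟨u, hu, rfl⟩
  have h6 := D.filt_anti V hi h5
  rw [hbot, Submodule.mem_bot] at h6
  rw [Submodule.mem_bot]
  exact D.mulp_inj i (by rw [h6, map_zero])

lemma sum_gr {V : Submodule K F} (hV : V.FG) (i : ℤ) (k : ℕ) :
    finrank K (D.T V i) = ∑ j ∈ Finset.Ico i (i + k), finrank K (D.gr V j) +
      finrank K (D.T V (i + k)) := by
  induction k with
  | zero =>
    rw [show i + ((0 : ℕ) : ℤ) = i by simp, Finset.Ico_self, Finset.sum_empty, zero_add]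
  | succ k ih =>
    have h1 : Finset.Ico i (i + (k + 1 : ℕ)) = insert (i + (k : ℤ)) (Finset.Ico i (i + k)) := by
      ext x
      rw [Finset.mem_insert, Finset.mem_Ico, Finset.mem_Ico]
      push_cast
      omega
    rw [h1, Finset.sum_insert (by rw [Finset.mem_Ico]; omega), ih, D.finrank_T hV (i + k)]
    have h2 : i + ((k + 1 : ℕ) : ℤ) = i + k + 1 := by push_cast; ring
    rw [h2]
    ring

lemma exists_finsupp {V : Submodule K F} (hV : V.FG) :
    ∃ α : ℤ →₀ ℕ, (∀ i, α i = finrank K (D.gr V i)) ∧ (α.sum fun _ a => a) = finrank K V := by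
  obtain ⟨N1, hN1⟩ := D.exists_low hV
  obtain ⟨N2, hN2⟩ := D.exists_high hV
  obtain ⟨k, hk⟩ := Int.eq_ofNat_of_zero_le (show 0 ≤ max N2 N1 - N1 by
    have := le_max_right N2 N1; omega)
  have hk' : N1 + (k : ℤ) = max N2 N1 := by omega
  have hhigh : ∀ i, N2 ≤ i → finrank K (D.gr V i) = 0 := by
    intro i hi
    rw [gr, hN2 i hi, Submodule.map_bot, finrank_bot]
  have hlow : ∀ i, i < N1 → finrank K (D.gr V i) = 0 := by
    intro i hi
    have h1 := D.finrank_T hV i
    rw [hN1 i hi.le, hN1 (i + 1) (by omega)] at h1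
    omega
  have hsupp : ∀ i, finrank K (D.gr V i) ≠ 0 → i ∈ Finset.Ico N1 (N1 + (k : ℤ)) := by
    intro i hi
    rw [Finset.mem_Ico, hk']
    constructor
    · by_contra h
      exact hi (hlow i (by omega))
    · by_contra h
      exact hi (hhigh i (le_trans (le_max_left N2 N1) (by omega)))
  refine ⟨Finsupp.onFinset (Finset.Ico N1 (N1 + (k : ℤ))) (fun i => finrank K (D.gr V i)) hsupp,
    fun i => rfl, ?_⟩
  rw [Finsupp.onFinset_sum _ (fun _ => rfl)]
  have h2 := D.sum_gr hV N1 k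
  rw [hN1 N1 le_rfl, hN2 (N1 + k) (by rw [hk']; exact le_max_left _ _), finrank_bot,
    add_zero] at h2
  exact h2.symm

lemma gr_mul_le (V W : Submodule K F) (i j : ℤ) :
    D.gr V i * D.gr W j ≤ D.gr (V * W) (i + j) := by
  rw [Submodule.mul_le]
  rintro _ ⟨u, hu, rfl⟩ _ ⟨w, hw, rfl⟩
  refine ⟨u * w, ?_, ?_⟩
  · have hu' : D.mulp i u ∈ V := hu
    have hw' : D.mulp j w ∈ W := hw
    show D.mulp (i + j) (u * w) ∈ V * W
    have e : D.mulp (i + j) (u * w) = D.mulp i u * D.mulp j w := by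
      rw [mulp_apply, mulp_apply, mulp_apply, zpow_add₀ D.coe_p_ne]
      push_cast
      ring
    rw [e]
    exact Submodule.mul_mem_mul hu' hw'
  · show D.res (u * w) = D.res u * D.res w
    rw [map_mul]

theorem good (D : DV K F L) {n : ℕ} (h : Good K L n) : Good K F (n + 1) := by
  classical
  obtain ⟨QL, hQL, hgood⟩ := h
  obtain ⟨S, hS⟩ := hQL
  let b : L → D.O := Function.surjInv D.surj
  have hb : ∀ z, D.res (b z) = z := Function.surjInv_eq D.surj
  let G : Finset F := (S.image fun z => (b z : F)) ∪ (S.image fun z => (D.p : F) * (b z : F))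
  let Q : Submodule K F := span K (G : Set F)
  have hQ : Q.FG := ⟨G, rfl⟩
  have hQ0 : QL ≤ D.gr Q 0 := by
    rw [← hS, span_le]
    intro z hz
    refine ⟨b z, ?_, hb z⟩
    show D.mulp 0 (b z) ∈ Q
    rw [mulp_apply, zpow_zero, one_mul]
    exact subset_span (Finset.mem_coe.mpr (Finset.mem_union_left _ (Finset.mem_image_of_mem _ hz)))
  have hQ1 : QL ≤ D.gr Q 1 := by
    rw [← hS, span_le]
    intro z hz
    refine ⟨b z, ?_, hb z⟩
    show D.mulp 1 (b z) ∈ Q
    rw [mulp_apply, zpow_one]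
    exact subset_span (Finset.mem_coe.mpr (Finset.mem_union_right _
      (Finset.mem_image_of_mem (fun z => (D.p : F) * (b z : F)) hz)))
  refine ⟨Q, hQ, fun V W hV hW => ?_⟩
  have hVWQ : (V * W * Q).FG := (hV.mul hW).mul hQ
  obtain ⟨α, hα, hαs⟩ := D.exists_finsupp hV
  obtain ⟨β, hβ, hβs⟩ := D.exists_finsupp hW
  obtain ⟨γ, hγ, hγs⟩ := D.exists_finsupp hVWQ
  have hmain : ∀ i j e : ℤ, QL ≤ D.gr Q e →
      4 ^ n * (α i * β j) ≤ γ (i + j + e) ^ 2 := by
    intro i j e he
    rw [hα, hβ, hγ]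
    refine (hgood (D.gr V i) (D.gr W j) (D.gr_fg hV i) (D.gr_fg hW j)).trans ?_
    apply Nat.pow_le_pow_left
    apply finrank_le_of_le (D.gr_fg hVWQ _)
    calc D.gr V i * D.gr W j * QL ≤ D.gr (V * W) (i + j) * D.gr Q e :=
          mul_le_mul' (D.gr_mul_le V W i j) he
      _ ≤ D.gr (V * W * Q) (i + j + e) := D.gr_mul_le _ _ _ _
  have hpl := pl_lemma α β γ (4 ^ n)
    (fun i j => by have := hmain i j 0 hQ0; rwa [add_zero] at this)
    (fun i j => hmain i j 1 hQ1)
  rw [hαs, hβs, hγs] at hpl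
  calc 4 ^ (n + 1) * (finrank K V * finrank K W) = 4 * 4 ^ n * (finrank K V * finrank K W) := by
        rw [pow_succ]; ring
    _ ≤ _ := hpl

end DV

end EurHuh
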