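import Mathlib

/-!
Definitions for the disproof of the Eur-Huh volume polynomial conjecture (MP_9eee85_co, T2).
-/

namespace EurHuh

open Module MvPolynomial Submodule

/-- every member is finite dimensional and contains one -/
def Adm (K : Type*) {F ι : Type*} [Field K] [Field F] [Algebra K F]
    (V : ι → Submodule K F) : Prop :=
  ∀ i, (V i).FG ∧ (1 : F) ∈ V i

/-- the product `∏ V_i ^ (m_i)` -/
noncomputable def prd {K F ι : Type*} [Field K] [Field F] [Algebra K F] [Fintype ι]
    (V : ι → Submodule K F) (m : ι → ℕ) : Submodule K F :=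
  ∏ i, V i ^ m i

/-- rank (transcendence degree over `K`) of a subset of `F` -/
noncomputable def rk (K : Type*) {F : Type*} [Field K] [Field F] [Algebra K F] (S : Set F) : ℕ∞ :=
  (AlgebraicIndependent.matroid K F).eRk S

/-- `P` is the degree `n` part of the Hilbert polynomial of the family `V`, whose degree is
at most `n`. -/
def IsVol (K : Type*) {F ι : Type*} [Field K] [Field F] [Algebra K F] [Fintype ι] (n : ℕ)
    (V : ι → Submodule K F) (P : MvPolynomial ι ℝ) : Prop :=
  ∃ (H : MvPolynomial ι ℝ) (N : ℕ), H.totalDegree ≤ n ∧ homogeneousComponent n H = P ∧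
    ∀ m : ι → ℕ, (∀ i, N ≤ m i) → (finrank K (prd V m) : ℝ) = eval (fun i => (m i : ℝ)) H

/-- the pencil `⟨1, x⟩` -/
def pen (K : Type*) {F : Type*} [Field K] [Field F] [Algebra K F] (x : F) : Submodule K F :=
  span K {1, x}

/-- `F` is a finite extension of a purely transcendental extension of degree `n` -/
def FnField (K F : Type*) [Field K] [Field F] [Algebra K F] (n : ℕ) : Prop :=
  ∃ x : Fin n → F, AlgebraicIndependent K x ∧
    FiniteDimensional (IntermediateField.adjoin K (Set.range x)) F

/-- midpoint log-concavity of dimensions of products of spaces, up to one fixed factor -/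
def Good (K F : Type*) [Field K] [Field F] [Algebra K F] (n : ℕ) : Prop :=
  ∃ Q : Submodule K F, Q.FG ∧ ∀ V W : Submodule K F, V.FG → W.FG →
    4 ^ n * (finrank K V * finrank K W) ≤ (finrank K (V * W * Q : Submodule K F)) ^ 2

/-- a discrete valuation ring of `F` (containing `K`) with residue field `L` -/
structure DV (K F L : Type*) [Field K] [Field F] [Field L] [Algebra K F] [Algebra K L] where
  /-- the ring -/
  O : Subalgebra K F
  /-- the residue map -/
  res : O →ₐ[K] L
  /-- the uniformizer -/
  p : O
  surj : Function.Surjective res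
  p_ne : p ≠ 0
  res_p : res p = 0
  fact : ∀ f : F, f ≠ 0 → ∃ (i : ℤ) (u : O), f = (p : F) ^ i * (u : F) ∧ res u ≠ 0

end EurHuh
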