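import Mathlib

/-!
M1: counting the points of a down-set of `ℕ^σ` of given multidegree gives an eventually
polynomial function.

Proof. (1) A down-set (lower set) `E` of `ℕ^σ` is a finite disjoint union of sets
`O(τ, a) = {α | α s = a s for s ∉ τ, a s ≤ α s for s ∈ τ}`: induction on the number of
coordinates; the slices `E_k = {α' | (k, α') ∈ E}` form a decreasing sequence of lower sets, which
stabilizes (every lower set of `ℕ^σ` is the complement of a finitely generated upper set; Mathlib:
`WellQuasiOrderedLE`, Dickson), say from `k0` on; then `E` is the disjoint union of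
`{k} × E_k`, `k < k0`, and `[k0, ∞) × E_{k0}`.
(2) For `O(τ, a)` the count of `m` is the product over `i` of the number of
`(α s)_{s ∈ τ, g s = i}` with sum `m i - c_i` (`c_i` constant): a polynomial
`choose (m_i - c_i' + t - 1) (t - 1)` in `m i` for `m i` large when `t = #{s ∈ τ, g s = i} > 0`,
and `0` for `m i > c_i` when `t = 0`.
-/

set_option linter.unusedSectionVars false

namespace EurHuh.HB


open Submodule Module Finset

section Uni

/-- eventually polynomial functions of one variable -/
def EvPoly (φ : ℕ → ℚ) : Prop :=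
  ∃ (P : Polynomial ℚ) (N : ℕ), ∀ m, N ≤ m → φ m = P.eval (m : ℚ)

lemma exists_sum_poly (P : Polynomial ℚ) :
    ∃ R : Polynomial ℚ, ∀ n : ℕ, ∑ j ∈ range n, P.eval (j : ℚ) = R.eval (n : ℚ) := by
  induction P using Polynomial.induction_on' with
  | add p q hp hq =>
    obtain ⟨R, hR⟩ := hp
    obtain ⟨S, hS⟩ := hq
    refine ⟨R + S, fun n => ?_⟩
    simp only [Polynomial.eval_add, Finset.sum_add_distrib, hR, hS]
  | monomial p a =>
    refine ⟨Polynomial.C a * ∑ i ∈ range (p + 1), Polynomial.C (bernoulli i * ((p + 1).choose i) / (p + 1)) *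
      Polynomial.X ^ (p + 1 - i), fun n => ?_⟩
    simp only [Polynomial.eval_monomial, ← Finset.mul_sum, Polynomial.eval_mul, Polynomial.eval_C,
      Polynomial.eval_finsetSum, Polynomial.eval_pow, Polynomial.eval_X]
    rw [sum_range_pow]
    congr 1
    refine Finset.sum_congr rfl fun i _ => ?_
    ring

lemma EvPoly.shift {φ : ℕ → ℚ} (h : EvPoly φ) (k : ℕ) :
    EvPoly (fun m => if k ≤ m then φ (m - k) else 0) := by
  obtain ⟨P, N, hP⟩ := h
  refine ⟨P.comp (Polynomial.X - Polynomial.C (k : ℚ)), N + k, fun m hm => ?_⟩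
  have h1 : k ≤ m := by omega
  simp only [h1, if_true]
  rw [hP (m - k) (by omega), Polynomial.eval_comp]
  simp [Nat.cast_sub h1]

lemma EvPoly.sum {φ : ℕ → ℚ} (h : EvPoly φ) (k₀ : ℕ) :
    EvPoly (fun m => ∑ k ∈ Icc k₀ m, φ (m - k)) := by
  obtain ⟨P, N, hP⟩ := h
  obtain ⟨R, hR⟩ := exists_sum_poly P
  refine ⟨R.comp (Polynomial.X + Polynomial.C (1 - (k₀ : ℚ))) + Polynomial.C (∑ j ∈ range N, φ j - ∑ j ∈ range N, P.eval (j : ℚ)),
    N + k₀, fun m hm => ?_⟩
  have h1 : ∑ k ∈ Icc k₀ m, φ (m - k) = ∑ j ∈ range (m - k₀ + 1), φ j := by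
    refine Finset.sum_bij' (fun k _ => m - k) (fun j _ => m - j) ?_ ?_ ?_ ?_ ?_
    · intro k hk
      simp only [Finset.mem_Icc] at hk
      simp only [Finset.mem_range]
      omega
    · intro k hk
      simp only [Finset.mem_range] at hk
      simp only [Finset.mem_Icc]
      omega
    · intro k hk
      simp only [Finset.mem_Icc] at hk
      omega
    · intro k hk
      simp only [Finset.mem_range] at hk
      omega
    · intro k _
      rfl
  have h2 : ∑ j ∈ range (m - k₀ + 1), φ j =
      ∑ j ∈ range N, φ j + ∑ j ∈ Ico N (m - k₀ + 1), P.eval (j : ℚ) := by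
    rw [← Finset.sum_range_add_sum_Ico _ (show N ≤ m - k₀ + 1 by omega)]
    congr 1
    refine Finset.sum_congr rfl fun j hj => ?_
    exact hP j (Finset.mem_Ico.mp hj).1
  have h3 : ∑ j ∈ range N, P.eval (j : ℚ) + ∑ j ∈ Ico N (m - k₀ + 1), P.eval (j : ℚ) =
      R.eval ((m - k₀ + 1 : ℕ) : ℚ) := by
    rw [Finset.sum_range_add_sum_Ico _ (show N ≤ m - k₀ + 1 by omega), hR]
  have h4 : ((m - k₀ + 1 : ℕ) : ℚ) = (m : ℚ) + (1 - (k₀ : ℚ)) := by
    push_cast [Nat.cast_sub (show k₀ ≤ m by omega)]
    ring
  rw [h4] at h3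
  simp only [h1, h2, Polynomial.eval_add, Polynomial.eval_comp, Polynomial.eval_X,
    Polynomial.eval_C]
  linarith

end Uni

section Multi

variable {ι : Type*} [Fintype ι] [DecidableEq ι]

/-- span of the products of eventually polynomial functions -/
def GFun (ι : Type*) [Fintype ι] : Submodule ℚ ((ι → ℕ) → ℚ) :=
  span ℚ {f | ∃ φ : ι → ℕ → ℚ, (∀ i, EvPoly (φ i)) ∧ f = fun m => ∏ i, φ i (m i)}

lemma prod_upd (φ : ι → ℕ → ℚ) (c : ι) (ψ : ℕ → ℚ) (m : ι → ℕ) :
    ∏ i, (Function.update φ c ψ) i (m i) = ψ (m c) * ∏ i ∈ univ.erase c, φ i (m i) := by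
  rw [← Finset.mul_prod_erase univ _ (Finset.mem_univ c), Function.update_self]
  congr 1
  refine Finset.prod_congr rfl fun i hi => ?_
  rw [Function.update_of_ne (Finset.ne_of_mem_erase hi)]

lemma prod_upd' (φ : ι → ℕ → ℚ) (c : ι) (x : ℕ) (m : ι → ℕ) :
    ∏ i, φ i (Function.update m c x i) = φ c x * ∏ i ∈ univ.erase c, φ i (m i) := by
  rw [← Finset.mul_prod_erase univ _ (Finset.mem_univ c), Function.update_self]
  congr 1
  refine Finset.prod_congr rfl fun i hi => ?_
  rw [Function.update_of_ne (Finset.ne_of_mem_erase hi)]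

lemma GFun_shift (c : ι) (k : ℕ) {f : (ι → ℕ) → ℚ} (hf : f ∈ GFun ι) :
    (fun m => if k ≤ m c then f (Function.update m c (m c - k)) else 0) ∈ GFun ι := by
  induction hf using Submodule.span_induction with
  | mem f hf =>
    obtain ⟨φ, hφ, rfl⟩ := hf
    refine subset_span ⟨Function.update φ c (fun m => if k ≤ m then φ c (m - k) else 0), ?_, ?_⟩
    · intro i
      by_cases hi : i = c
      · subst hi
        rw [Function.update_self]
        exact (hφ i).shift k
      · rw [Function.update_of_ne hi]
        exact hφ i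
    · funext m
      rw [prod_upd]
      simp only [prod_upd', ite_mul, zero_mul]
  | zero =>
    convert (GFun ι).zero_mem using 1
    funext m
    simp
  | add f g _ _ hf hg =>
    convert (GFun ι).add_mem hf hg using 1
    funext m
    simp only [Pi.add_apply]
    split_ifs <;> simp
  | smul a f _ hf =>
    convert (GFun ι).smul_mem a hf using 1
    funext m
    simp only [Pi.smul_apply]
    split_ifs <;> simp

lemma GFun_sum (c : ι) (k₀ : ℕ) {f : (ι → ℕ) → ℚ} (hf : f ∈ GFun ι) :
    (fun m => ∑ k ∈ Icc k₀ (m c), f (Function.update m c (m c - k))) ∈ GFun ι := by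
  induction hf using Submodule.span_induction with
  | mem f hf =>
    obtain ⟨φ, hφ, rfl⟩ := hf
    refine subset_span ⟨Function.update φ c (fun m => ∑ k ∈ Icc k₀ m, φ c (m - k)), ?_, ?_⟩
    · intro i
      by_cases hi : i = c
      · subst hi
        rw [Function.update_self]
        exact (hφ i).sum k₀
      · rw [Function.update_of_ne hi]
        exact hφ i
    · funext m
      rw [prod_upd]
      simp only [prod_upd', Finset.sum_mul]
  | zero =>
    convert (GFun ι).zero_mem using 1
    funext m
    simp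
  | add f g _ _ hf hg =>
    convert (GFun ι).add_mem hf hg using 1
    funext m
    simp only [Pi.add_apply, Finset.sum_add_distrib]
  | smul a f _ hf =>
    convert (GFun ι).smul_mem a hf using 1
    funext m
    simp only [Pi.smul_apply, smul_eq_mul, Finset.mul_sum]

lemma GFun_poly {f : (ι → ℕ) → ℚ} (hf : f ∈ GFun ι) :
    ∃ (P : MvPolynomial ι ℚ) (N : ℕ), ∀ m : ι → ℕ, (∀ i, N ≤ m i) →
      f m = MvPolynomial.eval (fun i => (m i : ℚ)) P := by
  induction hf using Submodule.span_induction with
  | mem f hf =>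
    obtain ⟨φ, hφ, rfl⟩ := hf
    choose P N hP using hφ
    refine ⟨∏ i, Polynomial.aeval (MvPolynomial.X i) (P i), univ.sup N, fun m hm => ?_⟩
    rw [map_prod]
    refine Finset.prod_congr rfl fun i _ => ?_
    rw [hP i (m i) (le_trans (Finset.le_sup (Finset.mem_univ i)) (hm i))]
    rw [Polynomial.aeval_def, Polynomial.eval₂_eq_sum, Polynomial.eval_eq_sum]
    simp [Polynomial.sum_def, MvPolynomial.algebraMap_eq]
  | zero => exact ⟨0, 0, fun m _ => by simp⟩
  | add f g _ _ hf hg =>
    obtain ⟨P, N, hP⟩ := hf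
    obtain ⟨Q, N', hQ⟩ := hg
    refine ⟨P + Q, max N N', fun m hm => ?_⟩
    rw [Pi.add_apply, map_add, hP m fun i => le_trans (le_max_left _ _) (hm i),
      hQ m fun i => le_trans (le_max_right _ _) (hm i)]
  | smul a f _ hf =>
    obtain ⟨P, N, hP⟩ := hf
    refine ⟨MvPolynomial.C a * P, N, fun m hm => ?_⟩
    rw [Pi.smul_apply, map_mul, hP m hm, MvPolynomial.eval_C, smul_eq_mul]

end Multi

section Count

variable {ι : Type*} [Fintype ι] [DecidableEq ι]

/-- the degree of an exponent -/
def mdeg {n : ℕ} (c : Fin n → ι) (a : Fin n → ℕ) (i : ι) : ℕ :=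
  ∑ j, if c j = i then a j else 0

/-- the exponents of degree `m` -/
def expos {n : ℕ} (c : Fin n → ι) (m : ι → ℕ) : Finset (Fin n → ℕ) :=
  (Fintype.piFinset (fun j => range (m (c j) + 1))).filter (fun a => mdeg c a = m)

lemma le_mdeg {n : ℕ} (c : Fin n → ι) (a : Fin n → ℕ) (j : Fin n) : a j ≤ mdeg c a (c j) := by
  have := Finset.single_le_sum (f := fun j' => if c j' = c j then a j' else 0)
    (fun _ _ => Nat.zero_le _) (Finset.mem_univ j)
  simpa [mdeg] using this

lemma mem_expos {n : ℕ} {c : Fin n → ι} {m : ι → ℕ} {a : Fin n → ℕ} :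
    a ∈ expos c m ↔ mdeg c a = m := by
  simp only [expos, Finset.mem_filter, Fintype.mem_piFinset, Finset.mem_range,
    and_iff_right_iff_imp]
  rintro rfl j
  exact Nat.lt_succ_of_le (le_mdeg c a j)

lemma mdeg_cons {n : ℕ} (c : Fin (n + 1) → ι) (k : ℕ) (a : Fin n → ℕ) (i : ι) :
    mdeg c (Fin.cons k a : Fin (n + 1) → ℕ) i =
      (if c 0 = i then k else 0) + mdeg (fun j => c j.succ) a i := by
  simp [mdeg, Fin.sum_univ_succ]

open Classical in
/-- the number of exponents of degree `m` in a set -/
noncomputable def cnt {n : ℕ} (c : Fin n → ι) (D : Set (Fin n → ℕ)) (m : ι → ℕ) : ℕ :=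
  ((expos c m).filter (· ∈ D)).card

lemma cnt_succ {n : ℕ} (c : Fin (n + 1) → ι) (D : Set (Fin (n + 1) → ℕ)) (m : ι → ℕ) :
    cnt c D m = ∑ k ∈ range (m (c 0) + 1),
      cnt (fun j => c j.succ) {a | (Fin.cons k a : Fin (n + 1) → ℕ) ∈ D}
        (Function.update m (c 0) (m (c 0) - k)) := by
  classical
  simp only [cnt]
  rw [← Finset.card_sigma]
  refine Finset.card_bij' (fun a _ => (⟨a 0, fun j => a j.succ⟩ : Σ _ : ℕ, (Fin n → ℕ)))
    (fun p _ => (Fin.cons p.1 p.2 : Fin (n + 1) → ℕ)) ?_ ?_ ?_ ?_
  · intro a ha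
    simp only [Finset.mem_filter, mem_expos] at ha
    simp only [Finset.mem_sigma, Finset.mem_range, Finset.mem_filter, mem_expos, Set.mem_ofPred_eq]
    have hcons : (Fin.cons (a 0) (fun j => a j.succ) : Fin (n + 1) → ℕ) = a :=
      Fin.cons_self_tail a
    have h0 := le_mdeg c a 0
    rw [ha.1] at h0
    refine ⟨Nat.lt_succ_of_le h0, ?_, by rw [hcons]; exact ha.2⟩
    funext i
    have h1 := mdeg_cons c (a 0) (fun j => a j.succ) i
    rw [hcons, ha.1] at h1
    by_cases hi : i = c 0
    · subst hi
      rw [Function.update_self]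
      simp only [if_true] at h1
      omega
    · rw [Function.update_of_ne hi]
      rw [if_neg (Ne.symm hi)] at h1
      omega
  · rintro ⟨k, a⟩ hp
    simp only [Finset.mem_sigma, Finset.mem_range, Finset.mem_filter, mem_expos,
      Set.mem_ofPred_eq] at hp
    simp only [Finset.mem_filter, mem_expos]
    refine ⟨?_, hp.2.2⟩
    funext i
    rw [mdeg_cons, hp.2.1]
    by_cases hi : i = c 0
    · subst hi
      rw [Function.update_self]
      simp only [if_true]
      omega
    · rw [Function.update_of_ne hi, if_neg (Ne.symm hi)]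
      omega
  · intro a _
    exact Fin.cons_self_tail a
  · rintro ⟨k, a⟩ _
    simp

/-- decreasing chains of lower sets of `ℕ^n` stabilise -/
lemma chain_stab {n : ℕ} (D : ℕ → Set (Fin n → ℕ)) (hD : ∀ k, IsLowerSet (D k))
    (hmono : ∀ k l, k ≤ l → D l ⊆ D k) : ∃ K, ∀ k, K ≤ k → D k = D K := by
  by_contra hcon
  push Not at hcon
  have h1 : ∀ K, ∃ k, K < k ∧ ∃ a, a ∈ D K ∧ a ∉ D k := by
    intro K
    obtain ⟨k, hk, hne⟩ := hcon K
    have hsub := hmono K k hk
    refine ⟨k, lt_of_le_of_ne hk ?_, ?_⟩
    · rintro rfl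
      exact hne rfl
    · by_contra hall
      push Not at hall
      exact hne (Set.Subset.antisymm hsub hall)
  choose s hs a ha hna using h1
  -- the sequence of indices
  let t : ℕ → ℕ := fun j => s^[j] 0
  have ht : ∀ j, t (j + 1) = s (t j) := fun j => Function.iterate_succ_apply' s j 0
  have htmono : StrictMono t := strictMono_nat_of_lt_succ fun j => by rw [ht]; exact hs _
  have hwqo : WellQuasiOrdered ((· ≤ ·) : (Fin n → ℕ) → (Fin n → ℕ) → Prop) :=
    wellQuasiOrdered_le
  obtain ⟨i, j, hij, hle⟩ := hwqo (fun j => a (t j))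
  have h2 : a (t j) ∈ D (t (i + 1)) := hmono _ _ (htmono.monotone hij) (ha (t j))
  have h3 : a (t i) ∈ D (t (i + 1)) := hD _ hle h2
  rw [ht] at h3
  exact hna (t i) h3

theorem cnt_mem_GFun {n : ℕ} (c : Fin n → ι) (D : Set (Fin n → ℕ)) (hD : IsLowerSet D) :
    (fun m => (cnt c D m : ℚ)) ∈ GFun ι := by
  classical
  induction n with
  | zero =>
    by_cases h : (fun j => 0 : Fin 0 → ℕ) ∈ D
    · refine subset_span ⟨fun _ m => if m = 0 then 1 else 0, ?_, ?_⟩
      · intro i
        refine ⟨0, 1, fun m hm => ?_⟩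
        have : ¬ m = 0 := by omega
        simp [this]
      · funext m
        have : cnt c D m = if m = 0 then 1 else 0 := by
          rw [cnt]
          split_ifs with hm
          · subst hm
            rw [Finset.card_eq_one]
            refine ⟨fun _ => 0, ?_⟩
            ext a
            simp only [Finset.mem_filter, mem_expos, Finset.mem_singleton]
            constructor
            · intro _
              exact Subsingleton.elim _ _
            · rintro rfl
              refine ⟨?_, h⟩
              funext i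
              simp [mdeg]
          · rw [Finset.card_eq_zero, Finset.filter_eq_empty_iff]
            intro a ha
            rw [mem_expos] at ha
            exfalso
            apply hm
            rw [← ha]
            funext i
            simp [mdeg]
        rw [this]
        by_cases hm : m = 0
        · subst hm
          simp
        · rw [if_neg hm]
          have : ∃ i, m i ≠ 0 := by
            by_contra hall
            push Not at hall
            exact hm (funext hall)
          obtain ⟨i, hi⟩ := this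
          rw [Finset.prod_eq_zero (Finset.mem_univ i) (if_neg hi)]
          simp
    · convert (GFun ι).zero_mem using 1
      funext m
      have : cnt c D m = 0 := by
        rw [cnt, Finset.card_eq_zero, Finset.filter_eq_empty_iff]
        intro a _ ha
        have e : (fun j => 0 : Fin 0 → ℕ) = a := Subsingleton.elim _ _
        exact h (e ▸ ha)
      rw [this]
      simp
  | succ n ih =>
    set Dk : ℕ → Set (Fin n → ℕ) := fun k => {a | (Fin.cons k a : Fin (n + 1) → ℕ) ∈ D} with hDk
    have hlow : ∀ k, IsLowerSet (Dk k) := by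
      intro k a b hab ha
      refine hD ?_ ha
      intro j
      refine Fin.cases ?_ (fun j => ?_) j
      · simp
      · simpa using hab j
    have hmono : ∀ k l, k ≤ l → Dk l ⊆ Dk k := by
      intro k l hkl a ha
      refine hD ?_ ha
      intro j
      refine Fin.cases ?_ (fun j => ?_) j
      · simpa using hkl
      · simp
    obtain ⟨K, hK⟩ := chain_stab Dk hlow hmono
    have hsum : (fun m : ι → ℕ => (cnt c D m : ℚ)) =
        ∑ k ∈ range K, (fun m : ι → ℕ => if k ≤ m (c 0) then
          (fun m => (cnt (fun j => c j.succ) (Dk k) m : ℚ)) (Function.update m (c 0) (m (c 0) - k)) else 0) +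
        (fun m : ι → ℕ => ∑ k ∈ Icc K (m (c 0)),
          (fun m => (cnt (fun j => c j.succ) (Dk K) m : ℚ)) (Function.update m (c 0) (m (c 0) - k))) := by
      funext m
      rw [cnt_succ, Pi.add_apply, Finset.sum_apply]
      push_cast
      rw [← Finset.sum_filter, ← Finset.sum_filter_add_sum_filter_not (range (m (c 0) + 1)) (· < K)]
      congr 1
      · refine Finset.sum_congr ?_ fun k _ => rfl
        ext k
        simp only [Finset.mem_filter, Finset.mem_range]
        omega
      · refine Finset.sum_congr ?_ fun k hk => ?_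
        · ext k
          simp only [Finset.mem_filter, Finset.mem_range, Finset.mem_Icc]
          omega
        · have : K ≤ k := (Finset.mem_Icc.mp hk).1
          rw [show ({a | (Fin.cons k a : Fin (n + 1) → ℕ) ∈ D} : Set (Fin n → ℕ)) = Dk K from hK k this]
    rw [hsum]
    refine (GFun ι).add_mem ?_ ?_
    · refine Submodule.sum_mem _ fun k _ => ?_
      exact GFun_shift (c 0) k (ih (fun j => c j.succ) (Dk k) (hlow k))
    · exact GFun_sum (c 0) K (ih (fun j => c j.succ) (Dk K) (hlow K))

end Count

section Final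

open MvPolynomial

lemma eval_map_cast {ι : Type*} (P : MvPolynomial ι ℚ) (m : ι → ℕ) :
    eval (fun i => (m i : ℝ)) (MvPolynomial.map (algebraMap ℚ ℝ) P) =
      ((eval (fun i => (m i : ℚ)) P : ℚ) : ℝ) := by
  induction P using MvPolynomial.induction_on with
  | C a => simp
  | add p q hp hq => simp only [map_add, hp, hq]; push_cast; rfl
  | mul_X p i hp => simp only [map_mul, hp, MvPolynomial.map_X, eval_X]; push_cast; rfl

end Final

end EurHuh.HB

namespace EurHuh

open MvPolynomial HB

open Classical in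
theorem exists_count_poly {σ ι : Type*} [Fintype σ] [Fintype ι] (g : σ → ι) (E : Set (σ → ℕ))
    (hE : IsLowerSet E) :
    ∃ (H : MvPolynomial ι ℝ) (N : ℕ), ∀ m : ι → ℕ, (∀ i, N ≤ m i) →
      (Nat.card {α : σ → ℕ // α ∈ E ∧ ∀ i, ∑ s ∈ Finset.univ.filter (fun s => g s = i), α s = m i} : ℝ)
        = eval (fun i => (m i : ℝ)) H := by
  let e := Fintype.equivFin σ
  let c : Fin (Fintype.card σ) → ι := fun j => g (e.symm j)
  let D : Set (Fin (Fintype.card σ) → ℕ) := {a | (fun s => a (e s)) ∈ E}
  have hD : IsLowerSet D := by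
    intro a b hab ha
    exact hE (fun s => hab (e s)) ha
  obtain ⟨P, N, hP⟩ := GFun_poly (cnt_mem_GFun c D hD)
  refine ⟨MvPolynomial.map (algebraMap ℚ ℝ) P, N, fun m hm => ?_⟩
  rw [eval_map_cast, ← hP m hm]
  have h1 : Nat.card {α : σ → ℕ // α ∈ E ∧
      ∀ i, ∑ s ∈ Finset.univ.filter (fun s => g s = i), α s = m i} = cnt c D m := by
    rw [cnt]
    have h2 : ∀ α : σ → ℕ, (α ∈ E ∧
        ∀ i, ∑ s ∈ Finset.univ.filter (fun s => g s = i), α s = m i) ↔
        ((Equiv.arrowCongr e (Equiv.refl ℕ)) α : Fin (Fintype.card σ) → ℕ) ∈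
          (expos c m).filter (· ∈ D) := by
      intro α
      rw [Finset.mem_filter, mem_expos, and_comm]
      have h3 : ∀ i, mdeg c ((Equiv.arrowCongr e (Equiv.refl ℕ)) α) i =
          ∑ s ∈ Finset.univ.filter (fun s => g s = i), α s := by
        intro i
        rw [mdeg, Finset.sum_filter]
        rw [← Equiv.sum_comp e]
        refine Finset.sum_congr rfl fun s _ => ?_
        simp [c, Equiv.arrowCongr]
      refine and_congr ?_ ?_
      · constructor
        · intro h
          funext i
          rw [h3, h i]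
        · intro h i
          rw [← h3, h]
      · simp only [D, Set.mem_ofPred_eq, Equiv.arrowCongr]
        simp
    rw [Nat.card_congr (Equiv.subtypeEquiv (Equiv.arrowCongr e (Equiv.refl ℕ)) h2),
      Nat.card_eq_fintype_card, Fintype.card_coe]
  rw [h1]
  push_cast
  rfl



end EurHuh
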