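import Mathlib

/-!
M12: the contradiction.

Variables: `0 = H`, `1, …, 5 = a, b, c, d, e`, `6 = Δ`. Notation `[μ]` for the coefficient of the
monomial `μ` in `P`; `[x y z u Δ]` etc. Letters have degree at most one in `P`.
(1) From `h1` and `hp` (coefficient of `0^3 a x`): `C0 = r x * [0^3 a]_{G1}` for `x = c, d, e`, so
`r 3 = r 4 = r 5 =: r`; in the same way `r' 1 = r' 2 = r' 5 =: r'` (not needed beyond this).
From `h3` at `w_d = 0` against `h1` at `x = c`: `α G1 = r G1`, and `G1 ≠ 0`, so `α = r > 0`.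
(2) Limits of `hLC`: if `P = P_0 + w_x P_1` then replacing `w, w'` by `w + M e_x`, `w' + M e_x` and
`M → ∞` gives `4^4 P_1(w) P_1(w') ≤ P_1(w + w')^2`. So for each three letters `x, y, z` with `u, v` the
others, the quadratic form `q = [xyz]` in `w_0, w_u, w_v, w_Δ` satisfies `4^2 q(w) q(w') ≤ q(w+w')^2` on the
orthant, whence (`w' → t w'`, `t^2 = q(w)/q(w')`) `B(w,w')^2 ≥ q(w) q(w')`, `B` the polar form, `q = B(w,w)`.
At `w_Δ = 0` `q = C0 (w_0 + w_u)(w_0 + w_v)`, with kernel vector `k = (-1, 1, 1)`. Let `h = (2,2,2)`,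
`ε = ±1`: `(q(h) + η B(h,Δ) + ε η B(k,Δ))^2 ≥ q(h) (q(h) + 2 η B(h,Δ) + η^2 q(Δ))`, `η → 0+`:
`ε B(k,Δ) ≥ 0`, so `B(k,Δ) = 0`: `[xyzuΔ] + [xyzvΔ] = [xyz0Δ]`.
(3) Let `m_x = [all letters but x, Δ]`, `T_xyz = [xyz0Δ]`. By (2) `T_xyz = m_u + m_v`. By `h1`,
`T_abx = r [ab0Δ]_{G1}` is the same for `x = c, d, e`, so `m_c = m_d = m_e`; by `h2`, `T_cdx` is the same for
`x = a, b, e`, so `m_a = m_b = m_e`. So all `T_xyz` are equal, `= T`.
(4) `h3`, coefficient of `c d`: `[abcd0] = C0 = ρ [ab0Δ]_{G1}` (as `∂_Δ` at `Δ = 0`) `= ρ T / r`;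
`[acd00] = C0 = ρ [a00Δ]_{G1}`; `T_acd = [acd0Δ] = 2 ρ [a0ΔΔ]_{G1}`.
(5) Let `f(w_0, w_Δ) = [ac](w_0, w_Δ) = A w_0^3 + B w_0^2 w_Δ + E w_0 w_Δ^2 + D w_Δ^3`. By `h1` (x = c)
`A = C0`, `B = r [a00Δ]_{G1} = r C0/ρ =: θ C0` with `θ = r/ρ > 0`, `E = r [a0ΔΔ]_{G1} = r T/(2ρ) = θ T / 2`, and
`T = r C0/ρ = θ C0`, so `E = θ^2 C0 / 2`. As in (2) `4^3 f(w) f(w') ≤ f(w+w')^2` on the orthant. With
`x = θ τ` small, `w = (1, τ)`, `w' = (1 + x/3, 0)`, up to `O(x^3)`: `f(w) f(w')/C0^2 = 1 + 2x + (11/6) x^2`,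
`(f(w+w')/(8 C0))^2 = 1 + 2 x + (7/4) x^2`, a contradiction as `11/6 > 7/4`.
-/

namespace EurHuh

open MvPolynomial

/-- the basis generating polynomial of the morphism as a function of `w : Fin 7 → ℝ` (the last
variable is not used) -/
def pw (w : Fin 7 → ℝ) : ℝ :=
  w 1 * w 2 * w 3 * w 4 * w 5
  + w 0 * (w 1 * w 2 * w 3 * w 4 + w 1 * w 2 * w 3 * w 5 + w 1 * w 2 * w 4 * w 5
      + w 1 * w 3 * w 4 * w 5 + w 2 * w 3 * w 4 * w 5)
  + w 0 ^ 2 * (w 1 * w 2 * w 3 + w 1 * w 2 * w 4 + w 1 * w 2 * w 5 + w 1 * w 3 * w 4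
      + w 1 * w 3 * w 5 + w 1 * w 4 * w 5 + w 2 * w 3 * w 4 + w 2 * w 3 * w 5 + w 2 * w 4 * w 5
      + w 3 * w 4 * w 5)
  + w 0 ^ 3 * (w 1 * w 3 + w 1 * w 4 + w 1 * w 5 + w 2 * w 3 + w 2 * w 4 + w 2 * w 5
      + w 3 * w 5 + w 4 * w 5)

/-! ### Auxiliary lemmas -/

/-- coordinate vectors -/
def ev (i : Fin 7) : Fin 7 → ℝ := Pi.single i 1

lemma pderiv_comm' (i j : Fin 7) (p : MvPolynomial (Fin 7) ℝ) :
    pderiv i (pderiv j p) = pderiv j (pderiv i p) := by
  ext m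
  rw [coeff_pderiv, coeff_pderiv, coeff_pderiv, coeff_pderiv]
  by_cases h : i = j
  · subst h; rfl
  · have h' : ¬ j = i := fun h' => h h'.symm
    have e : m + Finsupp.single i 1 + Finsupp.single j 1 =
        m + Finsupp.single j 1 + Finsupp.single i 1 := by abel
    rw [e]
    simp only [Finsupp.add_apply, Finsupp.single_apply, h, h', if_false, add_zero]
    ring

lemma degreeOf_pderiv (i j : Fin 7) (p : MvPolynomial (Fin 7) ℝ) :
    (pderiv i p).degreeOf j ≤ p.degreeOf j := by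
  rw [degreeOf_le_iff]
  intro m hm
  rw [mem_support_iff, coeff_pderiv] at hm
  have h1 : m + Finsupp.single i 1 ∈ p.support := by
    rw [mem_support_iff]
    intro h0
    rw [h0, zero_mul] at hm
    exact hm rfl
  have h2 := monomial_le_degreeOf j h1
  refine le_trans ?_ h2
  simp

/-- derivative of the evaluation in one variable -/
lemma hasDeriv_eval {n : ℕ} (i : Fin n) (w : Fin n → ℝ) (t : ℝ) (p : MvPolynomial (Fin n) ℝ) :
    HasDerivAt (fun τ : ℝ => eval (Function.update w i τ) p)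
      (eval (Function.update w i t) (pderiv i p)) t := by
  induction p using MvPolynomial.induction_on with
  | C a => simpa using hasDerivAt_const t a
  | add p q hp hq =>
    simp only [map_add]
    exact hp.add hq
  | mul_X p j hp =>
    simp only [map_mul, eval_X, pderiv_mul, map_add]
    have hX : HasDerivAt (fun τ : ℝ => Function.update w i τ j)
        (eval (Function.update w i t) (pderiv i (X j : MvPolynomial (Fin n) ℝ))) t := by
      by_cases h : j = i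
      · subst h
        simpa using hasDerivAt_id' t
      · rw [pderiv_X_of_ne h]
        simpa [Function.update_of_ne h] using hasDerivAt_const t (w j)
    exact hp.mul hX

lemma update_eq_add (w : Fin 7 → ℝ) (i : Fin 7) (τ : ℝ) :
    Function.update w i (w i + τ) = w + τ • ev i := by
  funext j
  by_cases h : j = i
  · subst h; simp [ev]
  · simp [ev, Function.update_of_ne h, Pi.single_apply, h]

/-- the directional form of `hasDeriv_eval` -/
lemma hasDeriv_dir (i : Fin 7) (w : Fin 7 → ℝ) (t : ℝ) (p : MvPolynomial (Fin 7) ℝ) :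
    HasDerivAt (fun τ : ℝ => eval (w + τ • ev i) p) (eval (w + t • ev i) (pderiv i p)) t := by
  have h := hasDeriv_eval i w (w i + t) p
  have h2 : HasDerivAt (fun τ : ℝ => w i + τ) 1 t := by
    simpa using (hasDerivAt_id t).const_add (w i)
  have h3 := HasDerivAt.comp t h h2
  rw [update_eq_add, mul_one] at h3
  refine h3.congr_of_eventuallyEq (Filter.Eventually.of_forall fun τ => ?_)
  simp only [Function.comp, update_eq_add]

/-- two functions with the same derivative and the same value at zero -/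
lemma eq_of_deriv {f g f' : ℝ → ℝ} (hf : ∀ t, HasDerivAt f (f' t) t)
    (hg : ∀ t, HasDerivAt g (f' t) t) (h0 : f 0 = g 0) (t : ℝ) : f t = g t := by
  have h : ∀ t, HasDerivAt (fun t => f t - g t) 0 t := fun t => by
    simpa using (hf t).fun_sub (hg t)
  have h1 := is_const_of_deriv_eq_zero (fun t => (h t).differentiableAt) (fun t => (h t).deriv) t 0
  simp only [h0, sub_self] at h1
  linarith

/-- linear dependence on a variable of degree at most one -/
lemma pderiv_pderiv_zero {p : MvPolynomial (Fin 7) ℝ} {x : Fin 7} (h : p.degreeOf x ≤ 1) :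
    pderiv x (pderiv x p) = 0 := by
  ext m
  rw [coeff_pderiv, coeff_pderiv, coeff_zero]
  have : coeff (m + Finsupp.single x 1 + Finsupp.single x 1) p = 0 := by
    by_contra hne
    have h1 := monomial_le_degreeOf x (mem_support_iff.mpr hne)
    simp at h1
    omega
  rw [this]; simp

lemma aff {p : MvPolynomial (Fin 7) ℝ} {x : Fin 7} (h : p.degreeOf x ≤ 1) (w : Fin 7 → ℝ)
    (M : ℝ) : eval (w + M • ev x) p = eval w p + M * eval w (pderiv x p) := by
  have h1 : ∀ t : ℝ, eval (w + t • ev x) (pderiv x p) = eval w (pderiv x p) := by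
    intro t
    refine eq_of_deriv (f := fun t => eval (w + t • ev x) (pderiv x p))
      (g := fun _ => eval w (pderiv x p)) (f' := fun _ => 0) (fun t => ?_)
      (fun t => hasDerivAt_const t _) (by simp) t
    have := hasDeriv_dir x w t (pderiv x p)
    rwa [pderiv_pderiv_zero h, map_zero] at this
  refine eq_of_deriv (f := fun t => eval (w + t • ev x) p)
    (g := fun t => eval w p + t * eval w (pderiv x p)) (f' := fun _ => eval w (pderiv x p))
    (fun t => ?_) (fun t => ?_) (by simp) M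
  · have := hasDeriv_dir x w t p
    rwa [h1] at this
  · simpa using ((hasDerivAt_id t).mul_const (eval w (pderiv x p))).const_add (eval w p)

lemma aff_one {p : MvPolynomial (Fin 7) ℝ} {x : Fin 7} (h : p.degreeOf x ≤ 1) (w : Fin 7 → ℝ) :
    eval w (pderiv x p) = eval (w + ev x) p - eval w p := by
  have := aff h w 1
  rw [one_smul, one_mul] at this
  linarith

/-- log-concavity with exponent `k` -/
def LCk (k : ℕ) (p : MvPolynomial (Fin 7) ℝ) : Prop :=
  ∀ w w' : Fin 7 → ℝ, (∀ i, 0 ≤ w i) → (∀ i, 0 ≤ w' i) →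
    4 ^ k * (eval w p * eval w' p) ≤ (eval (w + w') p) ^ 2

lemma limit_nonneg {f : ℝ → ℝ} (hf : Continuous f) (h : ∀ t : ℝ, 0 < t → 0 ≤ f t) : 0 ≤ f 0 := by
  have t1 := (hf.tendsto 0).mono_left (nhdsWithin_le_nhds (s := Set.Ioi (0 : ℝ)))
  refine ge_of_tendsto t1 ?_
  filter_upwards [self_mem_nhdsWithin] with s hs
  exact h s hs

lemma LCk.desc {k : ℕ} {p : MvPolynomial (Fin 7) ℝ} (hp : LCk (k + 1) p) {x : Fin 7}
    (h : p.degreeOf x ≤ 1) : LCk k (pderiv x p) := by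
  intro w w' hw hw'
  set A := eval w p
  set a := eval w (pderiv x p)
  set A' := eval w' p
  set a' := eval w' (pderiv x p)
  set B := eval (w + w') p
  set b := eval (w + w') (pderiv x p)
  have key : ∀ s : ℝ, 0 < s →
      0 ≤ (s * B + 2 * b) ^ 2 - 4 ^ (k + 1) * ((s * A + a) * (s * A' + a')) := by
    intro s hs
    have hex : ∀ i, 0 ≤ (s⁻¹ • ev x) i := by
      intro i
      by_cases hi : i = x
      · subst hi; simp [ev, hs.le]
      · simp [ev, Pi.single_apply, hi]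
    have h1 := hp (w + s⁻¹ • ev x) (w' + s⁻¹ • ev x) (fun i => add_nonneg (hw i) (hex i))
      (fun i => add_nonneg (hw' i) (hex i))
    have e : (w + s⁻¹ • ev x) + (w' + s⁻¹ • ev x) = (w + w') + (2 * s⁻¹) • ev x := by
      rw [two_mul, add_smul]; abel
    rw [e, aff h, aff h, aff h] at h1
    have hs2 : 0 < s ^ 2 := by positivity
    have h2 := mul_le_mul_of_nonneg_left h1 hs2.le
    have e1 : s ^ 2 * (4 ^ (k + 1) * ((A + s⁻¹ * a) * (A' + s⁻¹ * a'))) =
        4 ^ (k + 1) * ((s * A + a) * (s * A' + a')) := by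
      field_simp
    have e2 : s ^ 2 * (B + 2 * s⁻¹ * b) ^ 2 = (s * B + 2 * b) ^ 2 := by
      field_simp
    rw [e1, e2] at h2
    linarith
  have hc : Continuous fun s : ℝ =>
      (s * B + 2 * b) ^ 2 - 4 ^ (k + 1) * ((s * A + a) * (s * A' + a')) := by fun_prop
  have h0 := limit_nonneg hc key
  simp only [zero_mul, zero_add] at h0
  have : (4 : ℝ) ^ (k + 1) = 4 * 4 ^ k := by ring
  rw [this] at h0
  nlinarith

/-- linear forms -/
lemma eval_linear_fa {l : MvPolynomial (Fin 7) ℝ} (hl : l.IsHomogeneous 1) (w : Fin 7 → ℝ) :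
    eval w l = ∑ i, w i * coeff 0 (pderiv i l) := by
  have h := congrArg (eval w) hl.sum_X_mul_pderiv
  rw [one_smul, map_sum] at h
  rw [← h]
  refine Finset.sum_congr rfl fun i _ => ?_
  have h0 : (pderiv i l).IsHomogeneous 0 := hl.pderiv
  rw [← totalDegree_zero_iff_isHomogeneous, totalDegree_eq_zero_iff_eq_C] at h0
  rw [map_mul, eval_X]
  conv_lhs => rw [h0]
  rw [eval_C]

/-- the expansion of a quadratic form in one direction -/
lemma eval_quad {q : MvPolynomial (Fin 7) ℝ} (hq : q.IsHomogeneous 2) (z : Fin 7 → ℝ) (τ : ℝ) :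
    eval (z + τ • ev 6) q = eval z q + τ * (∑ i, z i * coeff 0 (pderiv i (pderiv 6 q))) +
      τ ^ 2 * (coeff 0 (pderiv 6 (pderiv 6 q)) / 2) := by
  have hl : (pderiv 6 q).IsHomogeneous 1 := hq.pderiv
  refine eq_of_deriv (f := fun τ => eval (z + τ • ev 6) q)
    (g := fun τ => eval z q + τ * (∑ i, z i * coeff 0 (pderiv i (pderiv 6 q))) +
      τ ^ 2 * (coeff 0 (pderiv 6 (pderiv 6 q)) / 2))
    (f' := fun τ => eval (z + τ • ev 6) (pderiv 6 q)) (fun t => hasDeriv_dir 6 z t q)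
    (fun t => ?_) (by simp) τ
  have e : eval (z + t • ev 6) (pderiv 6 q) =
      (∑ i, z i * coeff 0 (pderiv i (pderiv 6 q))) + 2 * t *
        (coeff 0 (pderiv 6 (pderiv 6 q)) / 2) := by
    rw [eval_linear_fa hl]
    simp only [Pi.add_apply, Pi.smul_apply, smul_eq_mul, add_mul, Finset.sum_add_distrib]
    congr 1
    rw [Finset.sum_eq_single 6]
    · simp [ev]; ring
    · intro j _ hj
      simp [ev, Pi.single_apply, hj]
    · simp
  rw [e]
  have h1 : HasDerivAt (fun τ : ℝ => eval z q +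
      τ * (∑ i, z i * coeff 0 (pderiv i (pderiv 6 q))))
      (∑ i, z i * coeff 0 (pderiv i (pderiv 6 q))) t := by
    simpa using ((hasDerivAt_id t).mul_const
      (∑ i, z i * coeff 0 (pderiv i (pderiv 6 q)))).const_add (eval z q)
  have h2 : HasDerivAt (fun τ : ℝ => τ ^ 2 * (coeff 0 (pderiv 6 (pderiv 6 q)) / 2))
      (2 * t * (coeff 0 (pderiv 6 (pderiv 6 q)) / 2)) t := by
    simpa using (hasDerivAt_pow 2 t).mul_const (coeff 0 (pderiv 6 (pderiv 6 q)) / 2)
  exact h1.add h2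

/-- the kernel relation -/
lemma kernel_rel {q : MvPolynomial (Fin 7) ℝ} (hq : q.IsHomogeneous 2) (hLC : LCk 2 q) {C0 : ℝ}
    (hC : 0 < C0) {u v : Fin 7} (hu0 : u ≠ 0) (hv0 : v ≠ 0) (huv : u ≠ v) (hu6 : u ≠ 6)
    (hv6 : v ≠ 6)
    (hform : ∀ α β γ : ℝ, eval (α • ev 0 + β • ev u + γ • ev v) q = C0 * ((α + β) * (α + γ))) :
    coeff 0 (pderiv 0 (pderiv 6 q)) =
      coeff 0 (pderiv u (pderiv 6 q)) + coeff 0 (pderiv v (pderiv 6 q)) := by
  set c0 := coeff 0 (pderiv 0 (pderiv 6 q)) with hc0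
  set cu := coeff 0 (pderiv u (pderiv 6 q)) with hcu
  set cv := coeff 0 (pderiv v (pderiv 6 q)) with hcv
  set κ := coeff 0 (pderiv 6 (pderiv 6 q)) / 2 with hκ
  have hev : ∀ α β γ τ : ℝ, eval (α • ev 0 + β • ev u + γ • ev v + τ • ev 6) q =
      C0 * ((α + β) * (α + γ)) + τ * (α * c0 + β * cu + γ * cv) + τ ^ 2 * κ := by
    intro α β γ τ
    rw [eval_quad hq, hform]
    congr 3
    have : ∀ i : Fin 7, (α • ev 0 + β • ev u + γ • ev v) i * coeff 0 (pderiv i (pderiv 6 q)) =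
        (if i = 0 then α * c0 else 0) + (if i = u then β * cu else 0) +
          (if i = v then γ * cv else 0) := by
      intro i
      by_cases h1 : i = 0
      · subst h1
        simp [ev, Pi.single_apply, hu0.symm, hv0.symm, hc0]
      · by_cases h2 : i = u
        · subst h2
          simp [ev, Pi.single_apply, huv, h1, hcu]
        · by_cases h3 : i = v
          · subst h3
            simp [ev, Pi.single_apply, h1, h2, hcv]
          · simp [ev, Pi.single_apply, h1, h2, h3]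
    simp only [this, Finset.sum_add_distrib, Finset.sum_ite_eq', Finset.mem_univ, if_true]
  have hnn : ∀ α β γ τ : ℝ, 0 ≤ α → 0 ≤ β → 0 ≤ γ → 0 ≤ τ →
      ∀ i, 0 ≤ (α • ev 0 + β • ev u + γ • ev v + τ • ev 6) i := by
    intro α β γ τ h1 h2 h3 h4 i
    have hs : ∀ j, 0 ≤ ev j i := by
      intro j
      unfold ev
      rw [Pi.single_apply]
      split_ifs <;> norm_num
    simp only [Pi.add_apply, Pi.smul_apply, smul_eq_mul]
    have := mul_nonneg h1 (hs 0)
    have := mul_nonneg h2 (hs u)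
    have := mul_nonneg h3 (hs v)
    have := mul_nonneg h4 (hs 6)
    linarith
  -- first direction
  have k1 : 0 ≤ 32 * C0 * (-c0 + cu + cv) := by
    have hc : Continuous fun τ : ℝ => 32 * C0 * (-c0 + cu + cv) +
        τ * ((c0 + 3 * cu + 3 * cv + τ * κ) ^ 2 - 32 * C0 * κ) := by fun_prop
    have := limit_nonneg hc (fun τ hτ => by
      have h := hLC _ _ (hnn 0 2 2 0 le_rfl zero_le_two zero_le_two le_rfl)
        (hnn 1 1 1 τ zero_le_one zero_le_one zero_le_one hτ.le)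
      have e : ((0 : ℝ) • ev 0 + (2 : ℝ) • ev u + (2 : ℝ) • ev v + (0 : ℝ) • ev 6) +
          ((1 : ℝ) • ev 0 + (1 : ℝ) • ev u + (1 : ℝ) • ev v + τ • ev 6) =
          (1 : ℝ) • ev 0 + (3 : ℝ) • ev u + (3 : ℝ) • ev v + τ • ev 6 := by
        funext i
        simp only [Pi.add_apply, Pi.smul_apply, smul_eq_mul]
        ring
      rw [e, hev, hev, hev] at h
      have h2 : 0 ≤ τ * (32 * C0 * (-c0 + cu + cv) +
          τ * ((c0 + 3 * cu + 3 * cv + τ * κ) ^ 2 - 32 * C0 * κ)) := by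
        nlinarith [h]
      exact nonneg_of_mul_nonneg_right h2 hτ)
    simpa using this
  have k2 : 0 ≤ 32 * C0 * (c0 - cu - cv) := by
    have hc : Continuous fun τ : ℝ => 32 * C0 * (c0 - cu - cv) +
        τ * ((3 * c0 + cu + cv + τ * κ) ^ 2 - 32 * C0 * κ) := by fun_prop
    have := limit_nonneg hc (fun τ hτ => by
      have h := hLC _ _ (hnn 2 0 0 0 zero_le_two le_rfl le_rfl le_rfl)
        (hnn 1 1 1 τ zero_le_one zero_le_one zero_le_one hτ.le)
      have e : ((2 : ℝ) • ev 0 + (0 : ℝ) • ev u + (0 : ℝ) • ev v + (0 : ℝ) • ev 6) +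
          ((1 : ℝ) • ev 0 + (1 : ℝ) • ev u + (1 : ℝ) • ev v + τ • ev 6) =
          (3 : ℝ) • ev 0 + (1 : ℝ) • ev u + (1 : ℝ) • ev v + τ • ev 6 := by
        funext i
        simp only [Pi.add_apply, Pi.smul_apply, smul_eq_mul]
        ring
      rw [e, hev, hev, hev] at h
      have h2 : 0 ≤ τ * (32 * C0 * (c0 - cu - cv) +
          τ * ((3 * c0 + cu + cv + τ * κ) ^ 2 - 32 * C0 * κ)) := by
        nlinarith [h]
      exact nonneg_of_mul_nonneg_right h2 hτ)
    simpa using this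
  have k1' : 0 ≤ -c0 + cu + cv := by
    by_contra hcon
    push Not at hcon
    nlinarith
  have k2' : 0 ≤ c0 - cu - cv := by
    by_contra hcon
    push Not at hcon
    nlinarith
  linarith

/-- iterated derivatives -/
noncomputable def dl (l : List (Fin 7)) (p : MvPolynomial (Fin 7) ℝ) : MvPolynomial (Fin 7) ℝ :=
  l.foldr (fun i p => pderiv i p) p

lemma dl_perm {l l' : List (Fin 7)} (h : l.Perm l') (p : MvPolynomial (Fin 7) ℝ) :
    dl l p = dl l' p := by
  induction h with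
  | nil => rfl
  | cons x _ ih => simp only [dl, List.foldr_cons] at ih ⊢; rw [ih]
  | swap x y l => simp only [dl, List.foldr_cons]; exact pderiv_comm' _ _ _
  | trans _ _ ih1 ih2 => exact ih1.trans ih2

lemma diff2 {p : MvPolynomial (Fin 7) ℝ} {x y : Fin 7} (hx : p.degreeOf x ≤ 1)
    (hy : p.degreeOf y ≤ 1) (w : Fin 7 → ℝ) :
    eval w (pderiv x (pderiv y p)) = eval (w + ev x + ev y) p - eval (w + ev x) p -
      (eval (w + ev y) p - eval w p) := by
  rw [aff_one ((degreeOf_pderiv _ _ _).trans hx), aff_one hy, aff_one hy]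

lemma diff3 {p : MvPolynomial (Fin 7) ℝ} {x y z : Fin 7} (hx : p.degreeOf x ≤ 1)
    (hy : p.degreeOf y ≤ 1) (hz : p.degreeOf z ≤ 1) (w : Fin 7 → ℝ) :
    eval w (pderiv x (pderiv y (pderiv z p))) =
      (eval (w + ev x + ev y + ev z) p - eval (w + ev x + ev y) p) -
      (eval (w + ev x + ev z) p - eval (w + ev x) p) -
      ((eval (w + ev y + ev z) p - eval (w + ev y) p) -
        (eval (w + ev z) p - eval w p)) := by
  rw [diff2 ((degreeOf_pderiv _ _ _).trans hx) ((degreeOf_pderiv _ _ _).trans hy), aff_one hz,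
    aff_one hz, aff_one hz, aff_one hz]

lemma diff4 {p : MvPolynomial (Fin 7) ℝ} {x y z u : Fin 7} (hx : p.degreeOf x ≤ 1)
    (hy : p.degreeOf y ≤ 1) (hz : p.degreeOf z ≤ 1) (hu : p.degreeOf u ≤ 1) (w : Fin 7 → ℝ) :
    eval w (pderiv x (pderiv y (pderiv z (pderiv u p)))) =
      eval (w + ev x) (pderiv y (pderiv z (pderiv u p))) -
        eval w (pderiv y (pderiv z (pderiv u p))) := by
  rw [aff_one]
  exact (degreeOf_pderiv _ _ _).trans ((degreeOf_pderiv _ _ _).trans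
    ((degreeOf_pderiv _ _ _).trans hx))

/-- the derivative in the last variable -/
lemma hasDeriv_last (a b c t : ℝ) (p : MvPolynomial (Fin 4) ℝ) :
    HasDerivAt (fun τ : ℝ => eval ![a, b, c, τ] p) (eval ![a, b, c, t] (pderiv 3 p)) t := by
  have h := hasDeriv_eval 3 ![a, b, c, 0] t p
  have e : ∀ τ : ℝ, Function.update ![a, b, c, 0] 3 τ = ![a, b, c, τ] := by
    intro τ
    funext i
    fin_cases i <;> simp [Function.update]
  simpa only [e] using h

/-- symmetric functions of three faces sharing a common factor -/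
lemma equal_faces {P : MvPolynomial (Fin 7) ℝ} (hhom : P.IsHomogeneous 5)
    {C0 : ℝ} (hC : 0 < C0) {y z : Fin 7} (g2 : ℝ → ℝ → ℝ) (r : Fin 7 → ℝ) (s : Set (Fin 7))
    (hr : ∀ i, 0 < r i)
    (hg : ∀ x ∈ s, ∀ α τ : ℝ, eval (α • ev 0 + τ • ev 6) (pderiv y (pderiv z (pderiv x P))) =
      r x * g2 α τ)
    (h0 : ∀ x ∈ s, ∀ α : ℝ, eval (α • ev 0) (pderiv y (pderiv z (pderiv x P))) = C0 * (α * α))
    {x x' : Fin 7} (hx : x ∈ s) (hx' : x' ∈ s) :
    r x = r x' ∧ coeff 0 (pderiv 0 (pderiv 6 (pderiv y (pderiv z (pderiv x P))))) =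
      coeff 0 (pderiv 0 (pderiv 6 (pderiv y (pderiv z (pderiv x' P))))) ∧
      ∀ α τ : ℝ, r x * g2 α τ = C0 * (α * α) + τ * (α *
        coeff 0 (pderiv 0 (pderiv 6 (pderiv y (pderiv z (pderiv x P)))))) +
        τ ^ 2 * (coeff 0 (pderiv 6 (pderiv 6 (pderiv y (pderiv z (pderiv x P))))) / 2) := by
  have hq : ∀ x : Fin 7, (pderiv y (pderiv z (pderiv x P))).IsHomogeneous 2 := fun x =>
    hhom.pderiv.pderiv.pderiv
  have key : ∀ x ∈ s, ∀ α τ : ℝ, r x * g2 α τ = C0 * (α * α) + τ * (α *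
        coeff 0 (pderiv 0 (pderiv 6 (pderiv y (pderiv z (pderiv x P)))))) +
        τ ^ 2 * (coeff 0 (pderiv 6 (pderiv 6 (pderiv y (pderiv z (pderiv x P))))) / 2) := by
    intro x hx α τ
    rw [← hg x hx, eval_quad (hq x), h0 x hx]
    congr 3
    rw [Finset.sum_eq_single 0]
    · simp [ev]
    · intro j _ hj
      simp [ev, hj]
    · simp
  have k1 := key x hx
  have k2 := key x' hx'
  have hrr : r x = r x' := by
    have a1 := k1 1 0
    have a2 := k2 1 0
    simp only [zero_mul, mul_one, add_zero, ne_eq, OfNat.ofNat_ne_zero, not_false_eq_true,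
      zero_pow] at a1 a2
    have hne : g2 1 0 ≠ 0 := by
      intro h0
      rw [h0, mul_zero] at a1
      exact hC.ne a1
    have : (r x - r x') * g2 1 0 = 0 := by rw [sub_mul, a1, a2, sub_self]
    rcases mul_eq_zero.mp this with h | h
    · linarith
    · exact absurd h hne
  refine ⟨hrr, ?_, k1⟩
  have a1 := k1 1 1
  have a2 := k1 1 (-1)
  have b1 := k2 1 1
  have b2 := k2 1 (-1)
  rw [hrr] at a1 a2
  linarith

/-- third differences in terms of `pw` -/
lemma d3_pw {P : MvPolynomial (Fin 7) ℝ} {C0 : ℝ}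
    (hp : ∀ w : Fin 7 → ℝ, w 6 = 0 → eval w P = C0 * pw w) {x y z : Fin 7}
    (hx : P.degreeOf x ≤ 1) (hy : P.degreeOf y ≤ 1) (hz : P.degreeOf z ≤ 1) (hx6 : x ≠ 6)
    (hy6 : y ≠ 6) (hz6 : z ≠ 6) (w : Fin 7 → ℝ) (hw : w 6 = 0) :
    eval w (pderiv x (pderiv y (pderiv z P))) =
      C0 * ((pw (w + ev x + ev y + ev z) - pw (w + ev x + ev y)) -
      (pw (w + ev x + ev z) - pw (w + ev x)) -
      ((pw (w + ev y + ev z) - pw (w + ev y)) - (pw (w + ev z) - pw w))) := by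
  have ex : ev x 6 = 0 := by simp [ev, hx6.symm]
  have ey : ev y 6 = 0 := by simp [ev, hy6.symm]
  have ez : ev z 6 = 0 := by simp [ev, hz6.symm]
  have a1 := hp (w + ev x + ev y + ev z) (by simp only [Pi.add_apply, hw, ex, ey, ez, add_zero])
  have a2 := hp (w + ev x + ev y) (by simp only [Pi.add_apply, hw, ex, ey, add_zero])
  have a3 := hp (w + ev x + ev z) (by simp only [Pi.add_apply, hw, ex, ez, add_zero])
  have a4 := hp (w + ev x) (by simp only [Pi.add_apply, hw, ex, add_zero])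
  have a5 := hp (w + ev y + ev z) (by simp only [Pi.add_apply, hw, ey, ez, add_zero])
  have a6 := hp (w + ev y) (by simp only [Pi.add_apply, hw, ey, add_zero])
  have a7 := hp (w + ev z) (by simp only [Pi.add_apply, hw, ez, add_zero])
  have a8 := hp w hw
  rw [diff3 hx hy hz, a1, a2, a3, a4, a5, a6, a7, a8]
  ring

lemma d2_pw {P : MvPolynomial (Fin 7) ℝ} {C0 : ℝ}
    (hp : ∀ w : Fin 7 → ℝ, w 6 = 0 → eval w P = C0 * pw w) {x y : Fin 7}
    (hx : P.degreeOf x ≤ 1) (hy : P.degreeOf y ≤ 1) (hx6 : x ≠ 6)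
    (hy6 : y ≠ 6) (w : Fin 7 → ℝ) (hw : w 6 = 0) :
    eval w (pderiv x (pderiv y P)) =
      C0 * ((pw (w + ev x + ev y) - pw (w + ev x)) - (pw (w + ev y) - pw w)) := by
  have ex : ev x 6 = 0 := by simp [ev, hx6.symm]
  have ey : ev y 6 = 0 := by simp [ev, hy6.symm]
  have a2 := hp (w + ev x + ev y) (by simp only [Pi.add_apply, hw, ex, ey, add_zero])
  have a4 := hp (w + ev x) (by simp only [Pi.add_apply, hw, ex, add_zero])
  have a6 := hp (w + ev y) (by simp only [Pi.add_apply, hw, ey, add_zero])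
  have a8 := hp w hw
  rw [diff2 hx hy, a2, a4, a6, a8]
  ring

/-- second differences on the face `w 3 = w 4 = w 5 = 0` -/
lemma face12 {Q : MvPolynomial (Fin 7) ℝ} {G : MvPolynomial (Fin 4) ℝ} {c : ℝ}
    (h1 : Q.degreeOf 1 ≤ 1) (h2 : Q.degreeOf 2 ≤ 1)
    (h : ∀ w : Fin 7 → ℝ, w 3 = 0 → w 4 = 0 → w 5 = 0 →
      eval w Q = c * eval ![w 0, w 1, w 2, w 6] G) (α τ : ℝ) :
    eval (α • ev 0 + τ • ev 6) (pderiv 1 (pderiv 2 Q)) =
      c * (eval ![α, 1, 1, τ] G - eval ![α, 1, 0, τ] G -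
        (eval ![α, 0, 1, τ] G - eval ![α, 0, 0, τ] G)) := by
  have a1 := h (α • ev 0 + τ • ev 6 + ev 1 + ev 2) (by simp [ev]) (by simp [ev]) (by simp [ev])
  have a2 := h (α • ev 0 + τ • ev 6 + ev 1) (by simp [ev]) (by simp [ev]) (by simp [ev])
  have a3 := h (α • ev 0 + τ • ev 6 + ev 2) (by simp [ev]) (by simp [ev]) (by simp [ev])
  have a4 := h (α • ev 0 + τ • ev 6) (by simp [ev]) (by simp [ev]) (by simp [ev])
  simp [ev] at a1 a2 a3 a4
  rw [diff2 h1 h2]
  simp only [ev]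
  rw [a1, a2, a3, a4]
  ring

/-- second differences on the face `w 1 = w 2 = w 5 = 0` -/
lemma face34 {Q : MvPolynomial (Fin 7) ℝ} {G : MvPolynomial (Fin 4) ℝ} {c : ℝ}
    (h1 : Q.degreeOf 3 ≤ 1) (h2 : Q.degreeOf 4 ≤ 1)
    (h : ∀ w : Fin 7 → ℝ, w 1 = 0 → w 2 = 0 → w 5 = 0 →
      eval w Q = c * eval ![w 0, w 3, w 4, w 6] G) (α τ : ℝ) :
    eval (α • ev 0 + τ • ev 6) (pderiv 3 (pderiv 4 Q)) =
      c * (eval ![α, 1, 1, τ] G - eval ![α, 1, 0, τ] G -
        (eval ![α, 0, 1, τ] G - eval ![α, 0, 0, τ] G)) := by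
  have a1 := h (α • ev 0 + τ • ev 6 + ev 3 + ev 4) (by simp [ev]) (by simp [ev]) (by simp [ev])
  have a2 := h (α • ev 0 + τ • ev 6 + ev 3) (by simp [ev]) (by simp [ev]) (by simp [ev])
  have a3 := h (α • ev 0 + τ • ev 6 + ev 4) (by simp [ev]) (by simp [ev]) (by simp [ev])
  have a4 := h (α • ev 0 + τ • ev 6) (by simp [ev]) (by simp [ev]) (by simp [ev])
  simp [ev] at a1 a2 a3 a4
  rw [diff2 h1 h2]
  simp only [ev]
  rw [a1, a2, a3, a4]
  ring

/-- first differences on the face `w 3 = w 4 = w 5 = 0` -/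
lemma face1 {Q : MvPolynomial (Fin 7) ℝ} {G : MvPolynomial (Fin 4) ℝ} {c : ℝ}
    (h1 : Q.degreeOf 1 ≤ 1)
    (h : ∀ w : Fin 7 → ℝ, w 3 = 0 → w 4 = 0 → w 5 = 0 →
      eval w Q = c * eval ![w 0, w 1, w 2, w 6] G) (α τ : ℝ) :
    eval (α • ev 0 + τ • ev 6) (pderiv 1 Q) =
      c * (eval ![α, 1, 0, τ] G - eval ![α, 0, 0, τ] G) := by
  have a2 := h (α • ev 0 + τ • ev 6 + ev 1) (by simp [ev]) (by simp [ev]) (by simp [ev])
  have a4 := h (α • ev 0 + τ • ev 6) (by simp [ev]) (by simp [ev]) (by simp [ev])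
  simp [ev] at a2 a4
  rw [aff_one h1]
  simp only [ev]
  rw [a2, a4]
  ring

theorem final_contra (P : MvPolynomial (Fin 7) ℝ) (hhom : P.IsHomogeneous 5)
    (hlet : ∀ i : Fin 7, i ≠ 0 → i ≠ 6 → P.degreeOf i ≤ 1)
    (hnn : ∀ w : Fin 7 → ℝ, (∀ i, 0 ≤ w i) → 0 ≤ eval w P)
    (hLC : ∀ w w' : Fin 7 → ℝ, (∀ i, 0 ≤ w i) → (∀ i, 0 ≤ w' i) →
      4 ^ 5 * (eval w P * eval w' P) ≤ (eval (w + w') P) ^ 2)
    (C0 : ℝ) (hC : 0 < C0) (hp : ∀ w : Fin 7 → ℝ, w 6 = 0 → eval w P = C0 * pw w)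
    (G1 G2 : MvPolynomial (Fin 4) ℝ) (hG1 : G1.IsHomogeneous 4) (hG2 : G2.IsHomogeneous 4)
    (r r' : Fin 7 → ℝ) (hr : ∀ i, 0 < r i) (hr' : ∀ i, 0 < r' i)
    (h1 : ∀ x : Fin 7, (x = 3 ∨ x = 4 ∨ x = 5) → ∀ w : Fin 7 → ℝ,
      (∀ i : Fin 7, (i = 3 ∨ i = 4 ∨ i = 5) → i ≠ x → w i = 0) →
        eval w P = r x * w x * eval ![w 0, w 1, w 2, w 6] G1)
    (h2 : ∀ x : Fin 7, (x = 1 ∨ x = 2 ∨ x = 5) → ∀ w : Fin 7 → ℝ,
      (∀ i : Fin 7, (i = 1 ∨ i = 2 ∨ i = 5) → i ≠ x → w i = 0) →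
        eval w P = r' x * w x * eval ![w 0, w 3, w 4, w 6] G2)
    (ρ α β : ℝ) (hρ : 0 < ρ)
    (h3 : ∀ w : Fin 7 → ℝ, w 5 = 0 → eval w P =
      ρ * w 3 * w 4 * eval ![w 0, w 1, w 2, w 6] (pderiv 3 G1) +
        (α * w 3 + β * w 4) * eval ![w 0, w 1, w 2, w 6] G1) : False := by
  have hd : ∀ i : Fin 7, i ≠ 0 → i ≠ 6 → P.degreeOf i ≤ 1 := hlet
  have d1 := hd 1 (by decide) (by decide)
  have d2 := hd 2 (by decide) (by decide)
  have d3 := hd 3 (by decide) (by decide)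
  have d4 := hd 4 (by decide) (by decide)
  have d5 := hd 5 (by decide) (by decide)
  have LC5 : LCk 5 P := hLC
  have LC2 : ∀ x y z : Fin 7, P.degreeOf x ≤ 1 → P.degreeOf y ≤ 1 → P.degreeOf z ≤ 1 →
      LCk 2 (pderiv x (pderiv y (pderiv z P))) := fun x y z hx hy hz =>
    ((LC5.desc hz).desc ((degreeOf_pderiv _ _ _).trans hy)).desc
      ((degreeOf_pderiv _ _ _).trans ((degreeOf_pderiv _ _ _).trans hx))
  have hq : ∀ x y z : Fin 7, (pderiv x (pderiv y (pderiv z P))).IsHomogeneous 2 := fun x y z =>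
    hhom.pderiv.pderiv.pderiv
  -- the six kernel relations
  have K123 := kernel_rel (hq 1 2 3) (LC2 1 2 3 d1 d2 d3) hC (u := 4) (v := 5) (by decide)
    (by decide) (by decide) (by decide) (by decide) (fun α β γ => by
      refine (d3_pw hp d1 d2 d3 (by decide) (by decide) (by decide) _ (by simp [ev])).trans ?_
      congr 1
      simp [pw, ev] <;> ring)
  have K124 := kernel_rel (hq 1 2 4) (LC2 1 2 4 d1 d2 d4) hC (u := 3) (v := 5) (by decide)
    (by decide) (by decide) (by decide) (by decide) (fun α β γ => by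
      refine (d3_pw hp d1 d2 d4 (by decide) (by decide) (by decide) _ (by simp [ev])).trans ?_
      congr 1
      simp [pw, ev] <;> ring)
  have K125 := kernel_rel (hq 1 2 5) (LC2 1 2 5 d1 d2 d5) hC (u := 3) (v := 4) (by decide)
    (by decide) (by decide) (by decide) (by decide) (fun α β γ => by
      refine (d3_pw hp d1 d2 d5 (by decide) (by decide) (by decide) _ (by simp [ev])).trans ?_
      congr 1
      simp [pw, ev] <;> ring)
  have K341 := kernel_rel (hq 3 4 1) (LC2 3 4 1 d3 d4 d1) hC (u := 2) (v := 5) (by decide)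
    (by decide) (by decide) (by decide) (by decide) (fun α β γ => by
      refine (d3_pw hp d3 d4 d1 (by decide) (by decide) (by decide) _ (by simp [ev])).trans ?_
      congr 1
      simp [pw, ev] <;> ring)
  have K342 := kernel_rel (hq 3 4 2) (LC2 3 4 2 d3 d4 d2) hC (u := 1) (v := 5) (by decide)
    (by decide) (by decide) (by decide) (by decide) (fun α β γ => by
      refine (d3_pw hp d3 d4 d2 (by decide) (by decide) (by decide) _ (by simp [ev])).trans ?_
      congr 1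
      simp [pw, ev] <;> ring)
  have K345 := kernel_rel (hq 3 4 5) (LC2 3 4 5 d3 d4 d5) hC (u := 1) (v := 2) (by decide)
    (by decide) (by decide) (by decide) (by decide) (fun α β γ => by
      refine (d3_pw hp d3 d4 d5 (by decide) (by decide) (by decide) _ (by simp [ev])).trans ?_
      congr 1
      simp [pw, ev] <;> ring)
  -- identifications of the coefficients
  have mm : ∀ {l l' : List (Fin 7)}, l.Perm l' → coeff 0 (dl l P) = coeff 0 (dl l' P) :=
    fun h => by rw [dl_perm h]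
  have p1 := mm (l := [4, 6, 1, 2, 3]) (l' := [3, 6, 1, 2, 4]) (by decide)
  have p2 := mm (l := [5, 6, 1, 2, 3]) (l' := [3, 6, 1, 2, 5]) (by decide)
  have p3 := mm (l := [5, 6, 1, 2, 4]) (l' := [4, 6, 1, 2, 5]) (by decide)
  have p4 := mm (l := [4, 6, 1, 2, 3]) (l' := [2, 6, 3, 4, 1]) (by decide)
  have p5 := mm (l := [4, 6, 1, 2, 3]) (l' := [1, 6, 3, 4, 2]) (by decide)
  have p6 := mm (l := [5, 6, 3, 4, 1]) (l' := [1, 6, 3, 4, 5]) (by decide)
  have p7 := mm (l := [5, 6, 3, 4, 2]) (l' := [2, 6, 3, 4, 5]) (by decide)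
  have p8 := mm (l := [0, 6, 3, 4, 1]) (l' := [0, 6, 1, 3, 4]) (by decide)
  simp only [dl, List.foldr_cons, List.foldr_nil] at p1 p2 p3 p4 p5 p6 p7 p8
  -- the faces `x = c, d, e`
  have E1 : ∀ x : Fin 7, (x = 3 ∨ x = 4 ∨ x = 5) → ∀ w : Fin 7 → ℝ, w 3 = 0 → w 4 = 0 →
      w 5 = 0 → eval w (pderiv x P) = r x * eval ![w 0, w 1, w 2, w 6] G1 := by
    intro x hx w w3 w4 w5
    have hdx : P.degreeOf x ≤ 1 := by
      rcases hx with rfl | rfl | rfl
      · exact d3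
      · exact d4
      · exact d5
    rw [aff_one hdx, h1 x hx (w + ev x) ?_, h1 x hx w ?_]
    · rcases hx with rfl | rfl | rfl <;> simp [ev, w3, w4, w5]
    · intro i hi _
      rcases hi with rfl | rfl | rfl <;> assumption
    · intro i hi hix
      rcases hi with rfl | rfl | rfl <;> simp [ev, hix, w3, w4, w5]
  have E2 : ∀ x : Fin 7, (x = 1 ∨ x = 2 ∨ x = 5) → ∀ w : Fin 7 → ℝ, w 1 = 0 → w 2 = 0 →
      w 5 = 0 → eval w (pderiv x P) = r' x * eval ![w 0, w 3, w 4, w 6] G2 := by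
    intro x hx w w1 w2 w5
    have hdx : P.degreeOf x ≤ 1 := by
      rcases hx with rfl | rfl | rfl
      · exact d1
      · exact d2
      · exact d5
    rw [aff_one hdx, h2 x hx (w + ev x) ?_, h2 x hx w ?_]
    · rcases hx with rfl | rfl | rfl <;> simp [ev, w1, w2, w5]
    · intro i hi _
      rcases hi with rfl | rfl | rfl <;> assumption
    · intro i hi hix
      rcases hi with rfl | rfl | rfl <;> simp [ev, hix, w1, w2, w5]
  have F1 : ∀ x ∈ ({x | x = 3 ∨ x = 4 ∨ x = 5} : Set (Fin 7)), ∀ α τ : ℝ,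
      eval (α • ev 0 + τ • ev 6) (pderiv 1 (pderiv 2 (pderiv x P))) =
      r x * (eval ![α, 1, 1, τ] G1 - eval ![α, 1, 0, τ] G1 -
        (eval ![α, 0, 1, τ] G1 - eval ![α, 0, 0, τ] G1)) := fun x hx α τ =>
    face12 ((degreeOf_pderiv _ _ _).trans d1) ((degreeOf_pderiv _ _ _).trans d2) (E1 x hx) α τ
  have F2 : ∀ x ∈ ({x | x = 1 ∨ x = 2 ∨ x = 5} : Set (Fin 7)), ∀ α τ : ℝ,
      eval (α • ev 0 + τ • ev 6) (pderiv 3 (pderiv 4 (pderiv x P))) =
      r' x * (eval ![α, 1, 1, τ] G2 - eval ![α, 1, 0, τ] G2 -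
        (eval ![α, 0, 1, τ] G2 - eval ![α, 0, 0, τ] G2)) := fun x hx α τ =>
    face34 ((degreeOf_pderiv _ _ _).trans d3) ((degreeOf_pderiv _ _ _).trans d4) (E2 x hx) α τ
  have Z1 : ∀ x ∈ ({x | x = 3 ∨ x = 4 ∨ x = 5} : Set (Fin 7)), ∀ α : ℝ,
      eval (α • ev 0) (pderiv 1 (pderiv 2 (pderiv x P))) = C0 * (α * α) := by
    rintro x (rfl | rfl | rfl) α
    · refine (d3_pw hp d1 d2 d3 (by decide) (by decide) (by decide) _ (by simp [ev])).trans ?_
      congr 1
      simp [pw, ev] <;> ring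
    · refine (d3_pw hp d1 d2 d4 (by decide) (by decide) (by decide) _ (by simp [ev])).trans ?_
      congr 1
      simp [pw, ev] <;> ring
    · refine (d3_pw hp d1 d2 d5 (by decide) (by decide) (by decide) _ (by simp [ev])).trans ?_
      congr 1
      simp [pw, ev] <;> ring
  have Z2 : ∀ x ∈ ({x | x = 1 ∨ x = 2 ∨ x = 5} : Set (Fin 7)), ∀ α : ℝ,
      eval (α • ev 0) (pderiv 3 (pderiv 4 (pderiv x P))) = C0 * (α * α) := by
    rintro x (rfl | rfl | rfl) α
    · refine (d3_pw hp d3 d4 d1 (by decide) (by decide) (by decide) _ (by simp [ev])).trans ?_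
      congr 1
      simp [pw, ev] <;> ring
    · refine (d3_pw hp d3 d4 d2 (by decide) (by decide) (by decide) _ (by simp [ev])).trans ?_
      congr 1
      simp [pw, ev] <;> ring
    · refine (d3_pw hp d3 d4 d5 (by decide) (by decide) (by decide) _ (by simp [ev])).trans ?_
      congr 1
      simp [pw, ev] <;> ring
  obtain ⟨r34, T34, G123⟩ := equal_faces hhom hC _ r _ hr F1 Z1 (x := 3) (x' := 4) (by simp)
    (by simp)
  obtain ⟨r35, T35, -⟩ := equal_faces hhom hC _ r _ hr F1 Z1 (x := 3) (x' := 5) (by simp)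
    (by simp)
  obtain ⟨-, T12, -⟩ := equal_faces hhom hC _ r' _ hr' F2 Z2 (x := 1) (x' := 2) (by simp)
    (by simp)
  obtain ⟨-, T15, -⟩ := equal_faces hhom hC _ r' _ hr' F2 Z2 (x := 1) (x' := 5) (by simp)
    (by simp)
  set T := coeff 0 (pderiv 0 (pderiv 6 (pderiv 1 (pderiv 2 (pderiv 3 P))))) with hT
  have hTT : coeff 0 (pderiv 0 (pderiv 6 (pderiv 1 (pderiv 3 (pderiv 4 P))))) = T := by
    rw [← p8]
    linarith
  -- the mixed face
  have E3 : ∀ w : Fin 7 → ℝ, w 3 = 0 → w 4 = 0 → w 5 = 0 →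
      eval w (pderiv 3 (pderiv 4 P)) = ρ * eval ![w 0, w 1, w 2, w 6] (pderiv 3 G1) := by
    intro w w3 w4 w5
    rw [diff2 d3 d4, h3 _ (by simp [ev, w5]), h3 _ (by simp [ev, w5]), h3 _ (by simp [ev, w5]),
      h3 _ w5]
    simp [ev, w3, w4]
    ring
  have C1 : C0 * r 3 = ρ * T := by
    have e1 : eval ((1 : ℝ) • ev 0 + (0 : ℝ) • ev 6)
        (pderiv 1 (pderiv 2 (pderiv 3 (pderiv 4 P)))) = C0 := by
      rw [diff4 d1 d2 d3 d4,
        d3_pw hp d2 d3 d4 (by decide) (by decide) (by decide) _ (by simp [ev]),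
        d3_pw hp d2 d3 d4 (by decide) (by decide) (by decide) _ (by simp [ev])]
      simp [pw, ev]
      ring
    have e2 : eval ((1 : ℝ) • ev 0 + (0 : ℝ) • ev 6)
        (pderiv 1 (pderiv 2 (pderiv 3 (pderiv 4 P)))) =
        ρ * (eval ![1, 1, 1, 0] (pderiv 3 G1) - eval ![1, 1, 0, 0] (pderiv 3 G1) -
        (eval ![1, 0, 1, 0] (pderiv 3 G1) - eval ![1, 0, 0, 0] (pderiv 3 G1))) :=
      face12 (((degreeOf_pderiv _ _ _).trans (degreeOf_pderiv _ _ _)).trans d1)
        (((degreeOf_pderiv _ _ _).trans (degreeOf_pderiv _ _ _)).trans d2) E3 1 0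
    have hder : HasDerivAt (fun τ : ℝ => r 3 * (eval ![1, 1, 1, τ] G1 - eval ![1, 1, 0, τ] G1 -
        (eval ![1, 0, 1, τ] G1 - eval ![1, 0, 0, τ] G1)))
        (r 3 * (eval ![1, 1, 1, 0] (pderiv 3 G1) - eval ![1, 1, 0, 0] (pderiv 3 G1) -
        (eval ![1, 0, 1, 0] (pderiv 3 G1) - eval ![1, 0, 0, 0] (pderiv 3 G1)))) 0 :=
      (((hasDeriv_last 1 1 1 0 G1).sub (hasDeriv_last 1 1 0 0 G1)).sub
        ((hasDeriv_last 1 0 1 0 G1).sub (hasDeriv_last 1 0 0 0 G1))).const_mul (r 3)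
    have hder2 : HasDerivAt (fun τ : ℝ => C0 * (1 * 1) + τ * (1 * T) + τ ^ 2 *
        (coeff 0 (pderiv 6 (pderiv 6 (pderiv 1 (pderiv 2 (pderiv 3 P))))) / 2))
        (T + 0) 0 := by
      have a1 : HasDerivAt (fun τ : ℝ => C0 * (1 * 1) + τ * (1 * T)) T 0 := by
        simpa using ((hasDerivAt_id (0 : ℝ)).mul_const (1 * T)).const_add (C0 * (1 * 1))
      have a2 : HasDerivAt (fun τ : ℝ => τ ^ 2 *
          (coeff 0 (pderiv 6 (pderiv 6 (pderiv 1 (pderiv 2 (pderiv 3 P))))) / 2)) 0 0 := by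
        simpa using (hasDerivAt_pow 2 (0 : ℝ)).mul_const
          (coeff 0 (pderiv 6 (pderiv 6 (pderiv 1 (pderiv 2 (pderiv 3 P))))) / 2)
      exact a1.add a2
    have hfun : (fun τ : ℝ => r 3 * (eval ![1, 1, 1, τ] G1 - eval ![1, 1, 0, τ] G1 -
        (eval ![1, 0, 1, τ] G1 - eval ![1, 0, 0, τ] G1))) =
        fun τ : ℝ => C0 * (1 * 1) + τ * (1 * T) + τ ^ 2 *
        (coeff 0 (pderiv 6 (pderiv 6 (pderiv 1 (pderiv 2 (pderiv 3 P))))) / 2) := by
      funext τ
      exact G123 1 τ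
    rw [hfun] at hder
    have h := hder.unique hder2
    rw [e1] at e2
    rw [e2, add_zero] at *
    linear_combination ρ * h
  -- the cubic form
  set κ := coeff 0 (pderiv 6 (pderiv 6 (pderiv 1 (pderiv 3 (pderiv 4 P))))) / 2 with hκ
  have q134 : ∀ α τ : ℝ, eval (α • ev 0 + τ • ev 6) (pderiv 1 (pderiv 3 (pderiv 4 P))) =
      C0 * (α * α) + τ * (α * T) + τ ^ 2 * κ := by
    intro α τ
    rw [eval_quad (hq 1 3 4)]
    have z : eval (α • ev 0) (pderiv 1 (pderiv 3 (pderiv 4 P))) = C0 * (α * α) := by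
      refine (d3_pw hp d1 d3 d4 (by decide) (by decide) (by decide) _ (by simp [ev])).trans ?_
      congr 1
      simp [pw, ev] <;> ring
    rw [z]
    congr 3
    rw [Finset.sum_eq_single 0]
    · rw [hTT]; simp [ev]
    · intro j _ hj
      simp [ev, hj]
    · simp
  set θ := r 3 / ρ with hθ
  have hθpos : 0 < θ := div_pos (hr 3) hρ
  have hTθ : T = θ * C0 := by
    rw [hθ]; field_simp; linarith
  have cubic : ∀ α τ : ℝ, eval (α • ev 0 + τ • ev 6) (pderiv 1 (pderiv 3 P)) =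
      C0 * α ^ 3 + θ * C0 * α ^ 2 * τ + θ ^ 2 * C0 / 2 * α * τ ^ 2 + θ * κ / 3 * τ ^ 3 := by
    intro α τ
    have f1 : ∀ τ : ℝ, eval (α • ev 0 + τ • ev 6) (pderiv 1 (pderiv 3 P)) =
        r 3 * (eval ![α, 1, 0, τ] G1 - eval ![α, 0, 0, τ] G1) := fun τ =>
      face1 ((degreeOf_pderiv _ _ _).trans d1) (E1 3 (Or.inl rfl)) α τ
    have f2 : ∀ τ : ℝ, C0 * (α * α) + τ * (α * T) + τ ^ 2 * κ =
        ρ * (eval ![α, 1, 0, τ] (pderiv 3 G1) - eval ![α, 0, 0, τ] (pderiv 3 G1)) := by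
      intro τ
      rw [← q134]
      exact face1 (((degreeOf_pderiv _ _ _).trans (degreeOf_pderiv _ _ _)).trans d1) E3 α τ
    refine eq_of_deriv (f := fun τ => eval (α • ev 0 + τ • ev 6) (pderiv 1 (pderiv 3 P)))
      (g := fun τ => C0 * α ^ 3 + θ * C0 * α ^ 2 * τ + θ ^ 2 * C0 / 2 * α * τ ^ 2 +
        θ * κ / 3 * τ ^ 3)
      (f' := fun τ => θ * (C0 * (α * α) + τ * (α * T) + τ ^ 2 * κ)) (fun t => ?_) (fun t => ?_)
      ?_ τ
    · have hd1 : HasDerivAt (fun τ : ℝ => r 3 * (eval ![α, 1, 0, τ] G1 - eval ![α, 0, 0, τ] G1))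
          (r 3 * (eval ![α, 1, 0, t] (pderiv 3 G1) - eval ![α, 0, 0, t] (pderiv 3 G1))) t :=
        ((hasDeriv_last α 1 0 t G1).sub (hasDeriv_last α 0 0 t G1)).const_mul (r 3)
      have e : r 3 * (eval ![α, 1, 0, t] (pderiv 3 G1) - eval ![α, 0, 0, t] (pderiv 3 G1)) =
          θ * (C0 * (α * α) + t * (α * T) + t ^ 2 * κ) := by
        rw [f2 t, hθ]
        field_simp
      rw [e] at hd1
      refine hd1.congr_of_eventuallyEq (Filter.Eventually.of_forall fun τ => ?_)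
      exact f1 τ
    · have a1 : HasDerivAt (fun τ : ℝ => θ * C0 * α ^ 2 * τ) (θ * C0 * α ^ 2) t := by
        simpa using (hasDerivAt_id t).const_mul (θ * C0 * α ^ 2)
      have a2 : HasDerivAt (fun τ : ℝ => θ ^ 2 * C0 / 2 * α * τ ^ 2)
          (θ ^ 2 * C0 / 2 * α * (2 * t)) t := by
        simpa using (hasDerivAt_pow 2 t).const_mul (θ ^ 2 * C0 / 2 * α)
      have a3 : HasDerivAt (fun τ : ℝ => θ * κ / 3 * τ ^ 3) (θ * κ / 3 * (3 * t ^ 2)) t := by
        simpa using (hasDerivAt_pow 3 t).const_mul (θ * κ / 3)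
      have a := ((a1.const_add (C0 * α ^ 3)).add a2).add a3
      have e : θ * C0 * α ^ 2 + θ ^ 2 * C0 / 2 * α * (2 * t) + θ * κ / 3 * (3 * t ^ 2) =
          θ * (C0 * (α * α) + t * (α * T) + t ^ 2 * κ) := by
        rw [hTθ]; ring
      rw [e] at a
      exact a
    · rw [d2_pw hp d1 d3 (by decide) (by decide) _ (by simp [ev])]
      simp [pw, ev] <;> ring
  -- the final inequality
  have LC3 : LCk 3 (pderiv 1 (pderiv 3 P)) :=
    (LC5.desc d3).desc ((degreeOf_pderiv _ _ _).trans d1)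
  set D := 27 * (θ * κ / 3) / θ ^ 3 with hD
  have hc : Continuous fun t : ℝ => -48 * C0 ^ 2 + t * (C0 ^ 2 * (-72 + 81 * t + 171 * t ^ 2 +
      289 / 4 * t ^ 3) + C0 * D * (-48 - 144 * t - 138 * t ^ 2 - 47 * t ^ 3) +
      D ^ 2 * t ^ 3) := by fun_prop
  have hfin := limit_nonneg hc (fun t ht => by
    have hev : ∀ (j i : Fin 7), 0 ≤ ev j i := by
      intro j i
      unfold ev
      rw [Pi.single_apply]
      split_ifs <;> norm_num
    have hτ : 0 < 3 * t / θ := by positivity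
    have h := LC3 ((1 : ℝ) • ev 0 + (3 * t / θ) • ev 6) ((1 + t) • ev 0 + (0 : ℝ) • ev 6)
      (fun i => by
        simp only [Pi.add_apply, Pi.smul_apply, smul_eq_mul]
        have := mul_nonneg hτ.le (hev 6 i)
        have := hev 0 i
        linarith)
      (fun i => by
        simp only [Pi.add_apply, Pi.smul_apply, smul_eq_mul]
        have := mul_nonneg (by linarith : (0 : ℝ) ≤ 1 + t) (hev 0 i)
        linarith)
    have e : ((1 : ℝ) • ev 0 + (3 * t / θ) • ev 6) + ((1 + t) • ev 0 + (0 : ℝ) • ev 6) =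
        (2 + t) • ev 0 + (3 * t / θ) • ev 6 := by
      funext i
      simp only [Pi.add_apply, Pi.smul_apply, smul_eq_mul]
      ring
    rw [e, cubic, cubic, cubic] at h
    have c1 : C0 * 1 ^ 3 + θ * C0 * 1 ^ 2 * (3 * t / θ) + θ ^ 2 * C0 / 2 * 1 * (3 * t / θ) ^ 2 +
        θ * κ / 3 * (3 * t / θ) ^ 3 = C0 * (1 + 3 * t + 9 / 2 * t ^ 2) + D * t ^ 3 := by
      rw [hD]; field_simp; ring
    have c2 : C0 * (2 + t) ^ 3 + θ * C0 * (2 + t) ^ 2 * (3 * t / θ) +
        θ ^ 2 * C0 / 2 * (2 + t) * (3 * t / θ) ^ 2 + θ * κ / 3 * (3 * t / θ) ^ 3 =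
        C0 * (8 + 24 * t + 27 * t ^ 2 + 17 / 2 * t ^ 3) + D * t ^ 3 := by
      rw [hD]; field_simp; ring
    rw [c1, c2] at h
    have h2 : 0 ≤ t ^ 2 * (-48 * C0 ^ 2 + t * (C0 ^ 2 * (-72 + 81 * t + 171 * t ^ 2 +
      289 / 4 * t ^ 3) + C0 * D * (-48 - 144 * t - 138 * t ^ 2 - 47 * t ^ 3) +
      D ^ 2 * t ^ 3)) := by
      have e3 : t ^ 2 * (-48 * C0 ^ 2 + t * (C0 ^ 2 * (-72 + 81 * t + 171 * t ^ 2 +
        289 / 4 * t ^ 3) + C0 * D * (-48 - 144 * t - 138 * t ^ 2 - 47 * t ^ 3) +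
        D ^ 2 * t ^ 3)) = (C0 * (8 + 24 * t + 27 * t ^ 2 + 17 / 2 * t ^ 3) + D * t ^ 3) ^ 2 -
        4 ^ 3 * ((C0 * (1 + 3 * t + 9 / 2 * t ^ 2) + D * t ^ 3) *
          (C0 * (1 + t) ^ 3 + θ * C0 * (1 + t) ^ 2 * 0 + θ ^ 2 * C0 / 2 * (1 + t) * 0 ^ 2 +
            θ * κ / 3 * 0 ^ 3)) := by ring
      rw [e3]
      linarith
    exact nonneg_of_mul_nonneg_right h2 (by positivity))
  simp only [zero_mul, add_zero] at hfin
  have := sq_pos_of_pos hC
  linarith

end EurHuh
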