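import Pool.Agent.Work.EurHuh.Defs
import Pool.Agent.Work.EurHuh.DownSet

/-!
M2: the multigraded Hilbert function `dim ∏ V_i^(m_i)` is eventually polynomial.

Proof. Let `y : Fin N → F`, `g : Fin N → ι` list finite spanning sets of all the `V i`. So
`prd V m` is the span of the monomials `y^α` of multidegree `m` (`∑_{g s = i} α s = m i`).
Call `α` standard if `y^α` is not in the span of the `y^β` with `β` of the same multidegree,
`β < α` in the lexicographic order. The standard monomials of multidegree `m` are a basis of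
`prd V m`. The set of standard `α` is a lower set: if `γ ≤ α` and
`y^γ = ∑ c_β y^β` (`β < γ` lex, same multidegree) then multiply by `y^(α - γ)`.
Apply `exists_count_poly`.
-/

set_option linter.unusedSectionVars false

namespace EurHuh.HB

open Submodule Module Finset

section StdMon

variable {K : Type*} [Field K] {A : Type*} [AddCommGroup A] [Module K A]

open Classical in
/-- the dimension of a span is the number of vectors which are not in the span of the smaller
ones -/
lemma finrank_span_eq_card {T : Type*} [LinearOrder T] (v : T → A) (S : Finset T) :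
    finrank K (span K (v '' (S : Set T))) =
      (S.filter (fun t => v t ∉ span K (v '' {s | s ∈ S ∧ s < t}))).card := by
  induction S using Finset.induction_on_max with
  | empty =>
    rw [Finset.coe_empty, Set.image_empty, Submodule.span_empty, finrank_bot]
    simp
  | insert x S hx ih =>
    have hxS : x ∉ S := fun h => lt_irrefl _ (hx x h)
    have h1 : (insert x S).filter (fun t => v t ∉ span K (v '' {s | s ∈ insert x S ∧ s < t})) =
        if v x ∈ span K (v '' (S : Set T)) then
          S.filter (fun t => v t ∉ span K (v '' {s | s ∈ S ∧ s < t}))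
        else insert x (S.filter (fun t => v t ∉ span K (v '' {s | s ∈ S ∧ s < t}))) := by
      have hset : ∀ t ∈ S, {s | s ∈ insert x S ∧ s < t} = {s | s ∈ S ∧ s < t} := by
        intro t ht
        ext s
        simp only [Finset.mem_insert, Set.mem_ofPred_eq]
        constructor
        · rintro ⟨rfl | h, h2⟩
          · exact absurd (hx t ht) (not_lt.mpr h2.le)
          · exact ⟨h, h2⟩
        · rintro ⟨h, h2⟩
          exact ⟨Or.inr h, h2⟩
      have hsetx : {s | s ∈ insert x S ∧ s < x} = (S : Set T) := by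
        ext s
        simp only [Finset.mem_insert, Set.mem_ofPred_eq, Finset.mem_coe]
        constructor
        · rintro ⟨rfl | h, h2⟩
          · exact absurd h2 (lt_irrefl _)
          · exact h
        · intro h
          exact ⟨Or.inr h, hx s h⟩
      ext t
      rw [Finset.mem_filter, Finset.mem_insert]
      split_ifs with hmem
      · rw [Finset.mem_filter]
        constructor
        · rintro ⟨rfl | h, h2⟩
          · rw [hsetx] at h2
            exact absurd hmem h2
          · rw [hset t h] at h2
            exact ⟨h, h2⟩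
        · rintro ⟨h, h2⟩
          rw [← hset t h] at h2
          exact ⟨Or.inr h, h2⟩
      · rw [Finset.mem_insert, Finset.mem_filter]
        constructor
        · rintro ⟨rfl | h, h2⟩
          · exact Or.inl rfl
          · rw [hset t h] at h2
            exact Or.inr ⟨h, h2⟩
        · rintro (rfl | ⟨h, h2⟩)
          · exact ⟨Or.inl rfl, by rw [hsetx]; exact hmem⟩
          · rw [← hset t h] at h2
            exact ⟨Or.inr h, h2⟩
    rw [h1, Finset.coe_insert, Set.image_insert_eq, Submodule.span_insert]
    have hfin : FiniteDimensional K (span K (v '' (S : Set T))) :=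
      FiniteDimensional.span_of_finite K ((Finset.finite_toSet S).image v)
    split_ifs with hmem
    · rw [← ih, sup_eq_right.mpr ((Submodule.span_singleton_le_iff_mem _ _).mpr hmem)]
    · have hv : v x ≠ 0 := fun h => hmem (by rw [h]; exact zero_mem _)
      rw [Finset.card_insert_of_notMem (fun h => hxS (Finset.mem_filter.mp h).1), ← ih]
      have h2 := Submodule.finrank_sup_add_finrank_inf_eq (span K {v x})
        (span K (v '' (S : Set T)))
      have h3 : span K {v x} ⊓ span K (v '' (S : Set T)) = ⊥ := by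
        rw [inf_comm]
        exact disjoint_iff.mp ((Submodule.disjoint_span_singleton' hv).mpr hmem)
      rw [h3, finrank_bot, finrank_span_singleton hv] at h2
      omega

end StdMon

section Hilb

variable {K : Type*} [Field K] {A : Type*} [CommRing A] [Algebra K A]
variable {ι : Type*} [Fintype ι] [DecidableEq ι]

/-- monomials in a finite family of elements -/
def mon {n : ℕ} (g : Fin n → A) (a : Fin n → ℕ) : A := ∏ j, g j ^ a j

lemma mon_add {n : ℕ} (g : Fin n → A) (a b : Fin n → ℕ) : mon g (a + b) = mon g a * mon g b := by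
  simp [mon, pow_add, Finset.prod_mul_distrib]

lemma mon_single {n : ℕ} (g : Fin n → A) (j : Fin n) : mon g (Pi.single j 1) = g j := by
  rw [mon, Finset.prod_eq_single j]
  · simp
  · intro k _ hk
    simp [Pi.single_eq_of_ne hk]
  · simp

lemma mdeg_add {n : ℕ} (c : Fin n → ι) (a b : Fin n → ℕ) : mdeg c (a + b) = mdeg c a + mdeg c b := by
  funext i
  simp only [mdeg, Pi.add_apply, ← Finset.sum_add_distrib]
  refine Finset.sum_congr rfl fun j _ => ?_
  split_ifs <;> simp

lemma mdeg_single {n : ℕ} (c : Fin n → ι) (j : Fin n) :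
    mdeg c (Pi.single j 1) = Pi.single (c j) 1 := by
  funext i
  rw [mdeg, Finset.sum_eq_single j]
  · by_cases h : c j = i
    · subst h; simp
    · rw [if_neg h, Pi.single_eq_of_ne (Ne.symm h)]
  · intro k _ hk
    rw [Pi.single_eq_of_ne hk]
    simp
  · simp

/-- the span of the monomials of a given degree -/
def Wm (K : Type*) [Field K] [Algebra K A] {n : ℕ} (g : Fin n → A) (c : Fin n → ι) (m : ι → ℕ) :
    Submodule K A :=
  span K (mon g '' {a | mdeg c a = m})

lemma Wm_zero {n : ℕ} (g : Fin n → A) (c : Fin n → ι) : Wm K g c 0 = 1 := by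
  have : {a : Fin n → ℕ | mdeg c a = 0} = {0} := by
    ext a
    simp only [Set.mem_ofPred_eq, Set.mem_singleton_iff]
    constructor
    · intro h
      funext j
      have := le_mdeg c a j
      rw [h] at this
      simpa using this
    · rintro rfl
      funext i
      simp [mdeg]
  rw [Wm, this, Set.image_singleton, Submodule.one_eq_span]
  simp [mon]

lemma Wm_succ {n : ℕ} (g : Fin n → A) (c : Fin n → ι) (m : ι → ℕ) (i : ι) :
    Wm K g c (m + Pi.single i 1) = Wm K g c m * span K (g '' {j | c j = i}) := by
  rw [Wm, Wm, Submodule.span_mul_span]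
  congr 1
  ext x
  simp only [Set.mem_image, Set.mem_mul, Set.mem_ofPred_eq]
  constructor
  · rintro ⟨a, ha, rfl⟩
    have h1 : ∃ j, c j = i ∧ 0 < a j := by
      by_contra hcon
      push Not at hcon
      have h2 : mdeg c a i = 0 := by
        rw [mdeg]
        refine Finset.sum_eq_zero fun j _ => ?_
        split_ifs with h
        · exact Nat.le_zero.mp (hcon j h)
        · rfl
      rw [ha] at h2
      simp at h2
    obtain ⟨j, hj, hpos⟩ := h1
    have h3 : a = (a - Pi.single j 1) + Pi.single j 1 := by
      funext k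
      simp only [Pi.add_apply, Pi.sub_apply]
      by_cases hk : k = j
      · subst hk
        simp only [Pi.single_eq_same]
        omega
      · simp [Pi.single_eq_of_ne hk]
    refine ⟨mon g (a - Pi.single j 1), ⟨a - Pi.single j 1, ?_, rfl⟩, g j, ⟨j, hj, rfl⟩, ?_⟩
    · have h4 := mdeg_add c (a - Pi.single j 1) (Pi.single j 1)
      rw [← h3, ha, mdeg_single, hj] at h4
      exact (add_right_cancel h4).symm
    · rw [← mon_single g j, ← mon_add, ← h3]
  · rintro ⟨y, ⟨a, ha, rfl⟩, z, ⟨j, hj, rfl⟩, rfl⟩
    refine ⟨a + Pi.single j 1, ?_, ?_⟩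
    · rw [mdeg_add, mdeg_single, ha, hj]
    · rw [mon_add, mon_single]

lemma prod_pow_single (V : ι → Submodule K A) (m : ι → ℕ) (i : ι) :
    ∏ k, V k ^ (m + Pi.single i 1 : ι → ℕ) k = (∏ k, V k ^ m k) * V i := by
  have h1 : ∀ k, V k ^ (m + Pi.single i 1 : ι → ℕ) k = V k ^ m k * (if k = i then V i else 1) := by
    intro k
    by_cases hk : k = i
    · subst hk
      simp [pow_succ]
    · simp [Pi.single_eq_of_ne hk, hk]
  rw [Finset.prod_congr rfl fun k _ => h1 k, Finset.prod_mul_distrib]
  simp

lemma prod_eq_Wm {n : ℕ} (g : Fin n → A) (c : Fin n → ι) (V : ι → Submodule K A)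
    (hV : ∀ i, V i = span K (g '' {j | c j = i})) (m : ι → ℕ) :
    ∏ i, V i ^ m i = Wm K g c m := by
  induction h : ∑ i, m i using Nat.strong_induction_on generalizing m with
  | _ s ih =>
    by_cases hm : m = 0
    · subst hm
      rw [Wm_zero]
      simp
    · have h1 : ∃ i, 0 < m i := by
        by_contra hcon
        push Not at hcon
        exact hm (funext fun i => Nat.le_zero.mp (hcon i))
      obtain ⟨i, hi⟩ := h1
      have h3 : m = (m - Pi.single i 1) + Pi.single i 1 := by
        funext k
        simp only [Pi.add_apply, Pi.sub_apply]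
        by_cases hk : k = i
        · subst hk
          simp only [Pi.single_eq_same]
          omega
        · simp [Pi.single_eq_of_ne hk]
      have h4 : ∑ k, (m - Pi.single i 1 : ι → ℕ) k < s := by
        rw [← h]
        refine Finset.sum_lt_sum (fun k _ => by simp) ⟨i, Finset.mem_univ i, ?_⟩
        simp only [Pi.sub_apply, Pi.single_eq_same]
        omega
      have h5 := ih _ h4 (m - Pi.single i 1) rfl
      rw [h3, prod_pow_single, Wm_succ, h5, hV i]

variable {r n : ℕ}

/-- index set of the generators -/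
abbrev Idx (r n : ℕ) := Fin r ×ₗ Lex (Fin n → ℕ)

/-- the index -/
def mkI (k : Fin r) (a : Fin n → ℕ) : Idx r n := toLex (k, toLex a)

lemma mkI_lt {k l : Fin r} {a b : Fin n → ℕ} :
    mkI l b < mkI k a ↔ l < k ∨ l = k ∧ toLex b < toLex a := by
  rw [mkI, mkI, Prod.Lex.toLex_lt_toLex]

/-- the vectors `q k * g ^ a` -/
def vec (q : Fin r → A) (g : Fin n → A) (p : Idx r n) : A :=
  q (ofLex p).1 * mon g (ofLex (ofLex p).2)

lemma vec_mkI (q : Fin r → A) (g : Fin n → A) (k : Fin r) (a : Fin n → ℕ) :
    vec q g (mkI k a) = q k * mon g a := rfl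

/-- the vectors smaller than a given one, of the same degree -/
def smaller (c : Fin n → ι) (k : Fin r) (a : Fin n → ℕ) : Set (Idx r n) :=
  {p | ∃ l b, p = mkI l b ∧ mdeg c b = mdeg c a ∧ mkI l b < mkI k a}

/-- the standard monomials -/
def Std (K : Type*) [Field K] [Algebra K A] (q : Fin r → A) (g : Fin n → A) (c : Fin n → ι)
    (k : Fin r) : Set (Fin n → ℕ) :=
  {a | q k * mon g a ∉ span K (vec q g '' smaller c k a)}

lemma Std_lower (q : Fin r → A) (g : Fin n → A) (c : Fin n → ι) (k : Fin r) :
    IsLowerSet (Std K q g c k) := by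
  intro b a hab hb ha
  -- `a ≤ b`, `a` is not standard
  apply hb
  obtain ⟨e, rfl⟩ : ∃ e, b = a + e := ⟨b - a, by
    funext j
    have h0 : a j ≤ b j := hab j
    simp only [Pi.add_apply, Pi.sub_apply]
    omega⟩
  have h1 : q k * mon g (a + e) = LinearMap.mulRight K (mon g e) (q k * mon g a) := by
    simp [mon_add, mul_assoc]
  rw [h1]
  have h2 := Submodule.mem_map_of_mem (f := LinearMap.mulRight K (mon g e)) ha
  rw [Submodule.map_span] at h2
  refine Submodule.span_mono ?_ h2
  rintro _ ⟨_, ⟨p, ⟨l, b, rfl, hdeg, hlt⟩, rfl⟩, rfl⟩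
  refine ⟨mkI l (b + e), ⟨l, b + e, rfl, ?_, ?_⟩, ?_⟩
  · rw [mdeg_add, mdeg_add, hdeg]
  · rw [mkI_lt] at hlt ⊢
    rcases hlt with h | ⟨h, h'⟩
    · exact Or.inl h
    · refine Or.inr ⟨h, ?_⟩
      have : toLex b + toLex e < toLex a + toLex e := by gcongr
      exact this
  · rw [vec_mkI, vec_mkI, mon_add]
    simp [mul_assoc]

lemma finrank_eq_sum_cnt (q : Fin r → A) (g : Fin n → A) (c : Fin n → ι) (m : ι → ℕ) :
    finrank K (span K (Set.range q) * Wm K g c m : Submodule K A) =
      ∑ k, cnt c (Std K q g c k) m := by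
  classical
  set S : Finset (Idx r n) := (univ ×ˢ expos c m).image (fun p => mkI p.1 p.2) with hS
  have hmem : ∀ (l : Fin r) (b : Fin n → ℕ), mkI l b ∈ S ↔ mdeg c b = m := by
    intro l b
    rw [hS, Finset.mem_image]
    constructor
    · rintro ⟨⟨l', b'⟩, h1, h2⟩
      rw [Finset.mem_product, mem_expos] at h1
      have h3 : (l', toLex b') = (l, toLex b) := toLex.injective h2
      have h4 : b' = b := toLex.injective (Prod.ext_iff.mp h3).2
      rw [← h4]
      exact h1.2
    · intro h
      exact ⟨(l, b), by rw [Finset.mem_product, mem_expos]; exact ⟨Finset.mem_univ _, h⟩, rfl⟩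
  have h1 : (span K (Set.range q) * Wm K g c m : Submodule K A) =
      span K (vec q g '' (S : Set (Idx r n))) := by
    rw [Wm, Submodule.span_mul_span]
    congr 1
    ext x
    simp only [Set.mem_mul, Set.mem_range, Set.mem_image, Finset.mem_coe, Set.mem_ofPred_eq]
    constructor
    · rintro ⟨_, ⟨k, rfl⟩, _, ⟨a, ha, rfl⟩, rfl⟩
      exact ⟨mkI k a, (hmem k a).mpr ha, rfl⟩
    · rintro ⟨p, hp, rfl⟩
      have hp' : mkI (ofLex p).1 (ofLex (ofLex p).2) = p := rfl
      rw [← hp', hmem] at hp
      exact ⟨q (ofLex p).1, ⟨_, rfl⟩, mon g (ofLex (ofLex p).2), ⟨_, hp, rfl⟩, rfl⟩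
  rw [h1, finrank_span_eq_card]
  have h2 : S.filter (fun t => vec q g t ∉ span K (vec q g '' {s | s ∈ S ∧ s < t})) =
      ((univ : Finset (Fin r)).sigma fun k => (expos c m).filter (· ∈ Std K q g c k)).image
        (fun p => mkI p.1 p.2) := by
    ext p
    have hp' : mkI (ofLex p).1 (ofLex (ofLex p).2) = p := rfl
    rw [← hp']
    generalize (ofLex p).1 = k
    generalize ofLex (ofLex p).2 = a
    rw [Finset.mem_filter, hmem, Finset.mem_image]
    have h3 : mdeg c a = m → {s | s ∈ S ∧ s < mkI k a} = smaller c k a := by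
      intro ha
      ext s
      have hs' : mkI (ofLex s).1 (ofLex (ofLex s).2) = s := rfl
      rw [← hs']
      generalize (ofLex s).1 = l
      generalize ofLex (ofLex s).2 = b
      simp only [Set.mem_ofPred_eq, hmem, smaller]
      constructor
      · rintro ⟨h, h'⟩
        exact ⟨l, b, rfl, by rw [h, ha], h'⟩
      · rintro ⟨l', b', h, h', h''⟩
        have h3 : (l, toLex b) = (l', toLex b') := toLex.injective h
        have h4 : b = b' := toLex.injective (Prod.ext_iff.mp h3).2
        refine ⟨by rw [h4, h', ha], by rw [h]; exact h''⟩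
    constructor
    · rintro ⟨ha, hstd⟩
      refine ⟨⟨k, a⟩, ?_, rfl⟩
      rw [Finset.mem_sigma, Finset.mem_filter, mem_expos]
      refine ⟨Finset.mem_univ _, ha, ?_⟩
      rw [h3 ha, vec_mkI] at hstd
      exact hstd
    · rintro ⟨⟨l, b⟩, hlb, heq⟩
      have h4 : (l, toLex b) = (k, toLex a) := toLex.injective heq
      have h5 : b = a := toLex.injective (Prod.ext_iff.mp h4).2
      have h6 : l = k := (Prod.ext_iff.mp h4).1
      subst h5 h6
      rw [Finset.mem_sigma, Finset.mem_filter, mem_expos] at hlb
      refine ⟨hlb.2.1, ?_⟩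
      rw [h3 hlb.2.1, vec_mkI]
      exact hlb.2.2
  rw [h2, Finset.card_image_of_injective, Finset.card_sigma]
  · rfl
  · rintro ⟨l, b⟩ ⟨k, a⟩ heq
    have h4 : (l, toLex b) = (k, toLex a) := toLex.injective heq
    have h5 : b = a := toLex.injective (Prod.ext_iff.mp h4).2
    have h6 : l = k := (Prod.ext_iff.mp h4).1
    subst h5 h6
    rfl

lemma exists_gen (V : ι → Submodule K A) (hV : ∀ i, (V i).FG) :
    ∃ (n : ℕ) (g : Fin n → A) (c : Fin n → ι), ∀ i, V i = span K (g '' {j | c j = i}) := by
  choose S hS using hV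
  let e := Fintype.equivFin (Σ i, (S i : Set A))
  refine ⟨_, fun j => ((e.symm j).2 : A), fun j => (e.symm j).1, fun i => ?_⟩
  rw [← hS i]
  congr 1
  ext x
  simp only [Set.mem_image, Set.mem_ofPred_eq, Finset.mem_coe]
  constructor
  · intro hx
    exact ⟨e ⟨i, ⟨x, hx⟩⟩, by simp, by rw [Equiv.symm_apply_apply]⟩
  · rintro ⟨j, rfl, rfl⟩
    exact (e.symm j).2.2

/-- Multigraded Hilbert functions are in the class of sums of products of eventually
polynomial functions. -/
theorem hilbert_mem_GFun (Q : Submodule K A) (hQ : Q.FG) (V : ι → Submodule K A)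
    (hV : ∀ i, (V i).FG) :
    (fun m : ι → ℕ => (finrank K (Q * ∏ i, V i ^ m i : Submodule K A) : ℚ)) ∈ GFun ι := by
  obtain ⟨n, g, c, hg⟩ := exists_gen V hV
  obtain ⟨r, q, hq⟩ := Submodule.fg_iff_exists_fin_generating_family.mp hQ
  have h1 : (fun m : ι → ℕ => (finrank K (Q * ∏ i, V i ^ m i : Submodule K A) : ℚ)) =
      ∑ k, fun m : ι → ℕ => (cnt c (Std K q g c k) m : ℚ) := by
    funext m
    rw [prod_eq_Wm g c V hg, ← hq, finrank_eq_sum_cnt, Finset.sum_apply]
    push_cast
    rfl
  rw [h1]
  exact Submodule.sum_mem _ fun k _ => cnt_mem_GFun c _ (Std_lower q g c k)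

omit [DecidableEq ι] in
/-- Multigraded Hilbert polynomials: for finite dimensional subspaces `V i` and `Q` of a
commutative algebra over a field, `dim (Q * ∏ V i ^ m i)` is a polynomial in the `m i`, for
all `m i` large. -/
theorem exists_hilbert (Q : Submodule K A) (hQ : Q.FG) (V : ι → Submodule K A)
    (hV : ∀ i, (V i).FG) :
    ∃ (P : MvPolynomial ι ℚ) (N : ℕ), ∀ m : ι → ℕ, (∀ i, N ≤ m i) →
      (finrank K (Q * ∏ i, V i ^ m i : Submodule K A) : ℚ) =
        MvPolynomial.eval (fun i => (m i : ℚ)) P := by
  classical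
  exact GFun_poly (hilbert_mem_GFun Q hQ V hV)

end Hilb

end EurHuh.HB

namespace EurHuh

open Submodule Module MvPolynomial HB

theorem exists_hilb {K F ι : Type*} [Field K] [Field F] [Algebra K F] [Fintype ι]
    (V : ι → Submodule K F) (hV : ∀ i, (V i).FG) :
    ∃ (H : MvPolynomial ι ℝ) (N : ℕ), ∀ m : ι → ℕ, (∀ i, N ≤ m i) →
      (finrank K (prd V m) : ℝ) = eval (fun i => (m i : ℝ)) H := by
  obtain ⟨P, N, hP⟩ := exists_hilbert (K := K) (1 : Submodule K F) (by
    rw [Submodule.one_eq_span]; exact Submodule.fg_span (Set.finite_singleton _)) V hV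
  refine ⟨MvPolynomial.map (algebraMap ℚ ℝ) P, N, fun m hm => ?_⟩
  rw [eval_map_cast, ← hP m hm, one_mul, prd]
  push_cast
  rfl



end EurHuh
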