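import Pool.Agent.Work.EurHuh.Basic

/-!
M10: the relation between `c` and `d`.

Write `k = kY`, relatively algebraically closed in `F`; `c` is transcendental over `M' ⊇ k` and `d` is
algebraic over `k(c)`.
(1) There is a nonzero `S ∈ k[X][Y]` with `S(c, d) = 0`.
(2) Let `Q'` be a prime factor of `S` in `M'[X][Y]` with `Q'(c, d) = 0`. By Gauss' lemma `Q'` divides
every `G ∈ M'[X][Y]` with `G(c, d) = 0`.
(3) Normalize one coefficient of `Q'` (the leading one after the substitution `Y = X ^ N`) to `1`. The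
coefficients are those of the monic factor `Q'(X, X ^ N)` of `S(X, X ^ N) ∈ k[X]`, so they are
algebraic over `k`, and lie in `k`.
-/

namespace EurHuh

open Module Submodule Polynomial

section General

variable {L F : Type*} [Field L] [Field F] [Algebra L F]

/-- evaluation of a polynomial in two variables -/
noncomputable def ev2 (L : Type*) {F : Type*} [Field L] [Field F] [Algebra L F] (c d : F) :
    L[X][X] →+* F :=
  Polynomial.eval₂RingHom (Polynomial.aeval (R := L) c).toRingHom d

theorem evalEval_map (c d : F) (G : L[X][X]) :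
    evalEval c d (G.map (mapRingHom (algebraMap L F))) = ev2 L c d G := by
  rw [evalEval, eval_map, ← coe_evalRingHom, Polynomial.hom_eval₂, ev2, coe_eval₂RingHom]
  congr 1
  · ext x
    · simp
    · simp
  · simp

/-- the relation ideal is principal -/
theorem exists_prime_relation (c d : F) (hc : Transcendental L c) (S : L[X][X]) (hS : S ≠ 0)
    (hS0 : ev2 L c d S = 0) :
    ∃ Q : L[X][X], Q ≠ 0 ∧ ev2 L c d Q = 0 ∧ ∀ G : L[X][X], ev2 L c d G = 0 → Q ∣ G := by
  have hφ : Function.Injective (Polynomial.aeval (R := L) c).toRingHom := by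
    intro x y hxy
    exact (transcendental_iff_injective.mp hc) hxy
  let I : Ideal L[X][X] := RingHom.ker (ev2 L c d)
  have hI : I.IsPrime := RingHom.ker_isPrime _
  have hI0 : I ≠ ⊥ := by
    intro h
    apply hS
    have : S ∈ I := hS0
    rw [h] at this
    exact this
  obtain ⟨Q, hQI, hQ⟩ := hI.exists_mem_prime_of_ne_bot hI0
  have hQ0 : ev2 L c d Q = 0 := hQI
  have hirr := hQ.irreducible
  have hdeg : Q.natDegree ≠ 0 := by
    intro h
    rw [Polynomial.natDegree_eq_zero] at h
    obtain ⟨b, hb⟩ := h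
    rw [← hb, ev2, coe_eval₂RingHom, eval₂_C] at hQ0
    have : b = 0 := by
      apply hφ
      rw [hQ0, map_zero]
    apply hQ.ne_zero
    rw [← hb, this, C_0]
  have hprim : Q.IsPrimitive := hirr.isPrimitive hdeg
  refine ⟨Q, hQ.ne_zero, hQ0, fun G hG => ?_⟩
  let E := FractionRing L[X]
  let ψ : E →+* F := IsFractionRing.lift (A := L[X]) (K := E) hφ
  have hψ : ψ.comp (algebraMap L[X] E) = (Polynomial.aeval (R := L) c).toRingHom := by
    ext x
    · simp [ψ]
    · simp [ψ]
  have hev : ∀ P : L[X][X], eval₂ ψ d (P.map (algebraMap L[X] E)) = ev2 L c d P := by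
    intro P
    rw [eval₂_map, hψ]
    rfl
  have hirrE : Irreducible (Q.map (algebraMap L[X] E)) :=
    (hprim.irreducible_iff_irreducible_map_fraction_map (K := E)).mp hirr
  apply hprim.dvd_of_fraction_map_dvd_fraction_map (K := E)
  by_contra hnd
  obtain ⟨u, v, huv⟩ := hirrE.coprime_iff_not_dvd.mpr hnd
  have h1 := congrArg (eval₂ ψ d) huv
  rw [eval₂_add, eval₂_mul, eval₂_mul, hev, hev, hQ0, hG, mul_zero, mul_zero, add_zero,
    eval₂_one] at h1
  exact zero_ne_one h1

end General

section Kron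

variable {R : Type*} [CommRing R]

theorem kron_coeff (P : R[X][X]) (N : ℕ) (hN : ∀ i, (P.coeff i).natDegree < N) (i j : ℕ)
    (hj : j < N) : (eval (X ^ N) P).coeff (N * i + j) = (P.coeff i).coeff j := by
  rw [eval_eq_sum_range, finsetSum_coeff]
  have h1 : ∀ i' : ℕ, i' ≠ i → (P.coeff i' * (X ^ N) ^ i').coeff (N * i + j) = 0 := by
    intro i' hi'
    rw [← pow_mul, coeff_mul_X_pow']
    split_ifs with h
    · apply coeff_eq_zero_of_natDegree_lt
      have h2 : i' < i := by
        rcases Nat.lt_or_gt_of_ne hi' with h3 | h3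
        · exact h3
        · exfalso
          have : N * (i + 1) ≤ N * i' := Nat.mul_le_mul_left N h3
          rw [Nat.mul_succ] at this
          omega
      have h3 : N * (i' + 1) ≤ N * i := Nat.mul_le_mul_left N h2
      rw [Nat.mul_succ] at h3
      have := hN i'
      omega
    · rfl
  have h2 : (P.coeff i * (X ^ N) ^ i).coeff (N * i + j) = (P.coeff i).coeff j := by
    rw [← pow_mul, coeff_mul_X_pow', if_pos (Nat.le_add_right _ _)]
    congr 1
    omega
  by_cases hi : i ∈ Finset.range (P.natDegree + 1)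
  · rw [Finset.sum_eq_single i (fun i' _ h => h1 i' h) (fun h => absurd hi h), h2]
  · rw [Finset.sum_eq_zero]
    · have : P.coeff i = 0 := by
        apply coeff_eq_zero_of_natDegree_lt
        simpa using hi
      rw [this, coeff_zero]
    · intro i' hi'
      apply h1
      rintro rfl
      exact hi hi'

theorem exists_bound (P : R[X][X]) : ∃ N, ∀ i, (P.coeff i).natDegree < N := by
  refine ⟨P.support.sup (fun i => (P.coeff i).natDegree) + 1, fun i => ?_⟩
  rw [Nat.lt_succ_iff]
  by_cases hi : i ∈ P.support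
  · exact Finset.le_sup (f := fun i => (P.coeff i).natDegree) hi
  · rw [notMem_support_iff.mp hi]; simp

end Kron

variable {K F : Type*} [Field K] [Field F] [Algebra K F]

/-- descent of the coefficients of a normalized factor -/
theorem coeff_descent {k : Type*} [Field k] [Algebra k F] (S : k[X][X]) (hS : S ≠ 0) (Q : F[X][X])
    (hQ : Q ≠ 0) (hd : Q ∣ S.map (mapRingHom (algebraMap k F))) :
    ∃ i₀ j₀, (Q.coeff i₀).coeff j₀ ≠ 0 ∧
      ∀ i j, IsAlgebraic k (((Q.coeff i₀).coeff j₀)⁻¹ * (Q.coeff i).coeff j) := by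
  classical
  obtain ⟨N1, hN1⟩ := exists_bound Q
  obtain ⟨N2, hN2⟩ := exists_bound S
  set N := max N1 N2 with hN
  have hQN : ∀ i, (Q.coeff i).natDegree < N := fun i => (hN1 i).trans_le (le_max_left _ _)
  have hSN : ∀ i, (S.coeff i).natDegree < N := fun i => (hN2 i).trans_le (le_max_right _ _)
  have hNpos : 0 < N := lt_of_le_of_lt (Nat.zero_le _) (hQN 0)
  have hQk : eval (X ^ N) Q ≠ 0 := by
    intro h
    apply hQ
    ext i j
    rw [coeff_zero, coeff_zero]
    by_cases hj : j < N
    · rw [← kron_coeff Q N hQN i j hj, h, coeff_zero]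
    · exact coeff_eq_zero_of_natDegree_lt (lt_of_lt_of_le (hQN i) (not_lt.mp hj))
  have hSk : eval (X ^ N) S ≠ 0 := by
    intro h
    apply hS
    ext i j
    rw [coeff_zero, coeff_zero]
    by_cases hj : j < N
    · rw [← kron_coeff S N hSN i j hj, h, coeff_zero]
    · exact coeff_eq_zero_of_natDegree_lt (lt_of_lt_of_le (hSN i) (not_lt.mp hj))
  set q := eval (X ^ N) Q with hq
  set s := eval (X ^ N) S with hs
  have hqs : q ∣ s.map (algebraMap k F) := by
    have h1 : s.map (algebraMap k F) = eval (X ^ N) (S.map (mapRingHom (algebraMap k F))) := by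
      rw [hs, eval_map, ← coe_mapRingHom, ← Polynomial.eval₂_at_apply]
      simp
    rw [h1]
    obtain ⟨R, hR⟩ := hd
    rw [hR, eval_mul]
    exact dvd_mul_right _ _
  set n := q.natDegree
  have hlead : q.leadingCoeff = (Q.coeff (n / N)).coeff (n % N) := by
    rw [← kron_coeff Q N hQN (n / N) (n % N) (Nat.mod_lt _ hNpos), Nat.div_add_mod]
    rfl
  refine ⟨n / N, n % N, ?_, ?_⟩
  · rw [← hlead]; exact leadingCoeff_ne_zero.mpr hQk
  · intro i j
    rw [← hlead]
    by_cases hj : j < N
    · rw [← kron_coeff Q N hQN i j hj]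
      have h2 : q.leadingCoeff⁻¹ * q.coeff (N * i + j) =
          (C q.leadingCoeff⁻¹ * q).coeff (N * i + j) := by rw [coeff_C_mul]
      change IsAlgebraic k (q.leadingCoeff⁻¹ * q.coeff (N * i + j))
      rw [h2]
      apply IsIntegral.isAlgebraic
      apply isIntegral_coeff_of_dvd (C s.leadingCoeff⁻¹ * s)
      · exact Polynomial.monic_C_mul_of_mul_leadingCoeff_eq_one
          (inv_mul_cancel₀ (leadingCoeff_ne_zero.mpr hSk))
      · exact Polynomial.monic_C_mul_of_mul_leadingCoeff_eq_one
          (inv_mul_cancel₀ (leadingCoeff_ne_zero.mpr hQk))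
      · rw [Polynomial.map_mul]
        obtain ⟨R, hR⟩ := hqs
        rw [hR]
        refine ⟨map (algebraMap k F) (C s.leadingCoeff⁻¹) * C q.leadingCoeff * R, ?_⟩
        have h3 : (C q.leadingCoeff⁻¹ : F[X]) * C q.leadingCoeff = 1 := by
          rw [← C_mul, inv_mul_cancel₀ (leadingCoeff_ne_zero.mpr hQk), C_1]
        linear_combination (-(map (algebraMap k F) (C s.leadingCoeff⁻¹) * q * R)) * h3
    · rw [coeff_eq_zero_of_natDegree_lt (lt_of_lt_of_le (hQN i) (not_lt.mp hj)), mul_zero]
      exact isAlgebraic_zero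

/-- a nonzero relation -/
theorem exists_rel {k : Type*} [Field k] [Algebra k F] (c d : F)
    (hd : IsAlgebraic (IntermediateField.adjoin k {c}) d) :
    ∃ S : k[X][X], S ≠ 0 ∧ ev2 k c d S = 0 := by
  have hd' : IsAlgebraic (Algebra.adjoin k {c}) d := by
    open scoped IntermediateField.algebraAdjoinAdjoin in
    exact (IsFractionRing.isAlgebraic_iff (Algebra.adjoin k {c}) (IntermediateField.adjoin k {c})
      F).mpr hd
  obtain ⟨p, hp, hp0⟩ := hd'
  let θ : k[X] →+* Algebra.adjoin k {c} :=
    ((Polynomial.aeval (R := k) (⟨c, Algebra.self_mem_adjoin_singleton k c⟩ :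
      Algebra.adjoin k {c})) : k[X] →ₐ[k] Algebra.adjoin k {c}).toRingHom
  have hθ : Function.Surjective θ := by
    rintro ⟨y, hy⟩
    rw [Algebra.adjoin_singleton_eq_range_aeval] at hy
    obtain ⟨g, hg⟩ := hy
    refine ⟨g, Subtype.ext ?_⟩
    refine Eq.trans ?_ hg
    change ((Algebra.adjoin k {c}).val (aeval _ g)) = _
    rw [← Polynomial.aeval_algHom_apply]
    rfl
  obtain ⟨S, hS⟩ := Polynomial.map_surjective θ hθ p
  refine ⟨S, ?_, ?_⟩
  · rintro rfl
    apply hp
    rw [← hS, Polynomial.map_zero]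
  · rw [← hS, aeval_def, eval₂_map] at hp0
    have h1 : (algebraMap (Algebra.adjoin k {c}) F).comp θ =
        (Polynomial.aeval (R := k) c).toRingHom := by
      ext x
      · simp [θ]
      · simp [θ]
    rw [h1] at hp0
    exact hp0

/-- a polynomial in two variables with coefficients in a subfield is a map -/
theorem exists_lift (M : IntermediateField K F) (G : F[X][X])
    (hG : ∀ i j, (G.coeff i).coeff j ∈ M) :
    ∃ G' : M[X][X], G'.map (mapRingHom (algebraMap M F)) = G := by
  have h1 : G ∈ (mapRingHom (mapRingHom (algebraMap M F))).range := by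
    rw [mem_map_range]
    intro i
    rw [mem_map_range]
    intro j
    exact ⟨⟨_, hG i j⟩, rfl⟩
  obtain ⟨G', hG'⟩ := h1
  exact ⟨G', hG'⟩

theorem exists_relation (kY M' : IntermediateField K F) (h : kY ≤ M')
    (hcl : ∀ y : F, IsAlgebraic kY y → y ∈ kY) (c d : F) (hc : Transcendental M' c)
    (hd : IsAlgebraic (IntermediateField.adjoin K ((kY : Set F) ∪ {c})) d) :
    ∃ Q : F[X][X], (∀ i j, (Q.coeff i).coeff j ∈ kY) ∧ (∃ i j, (Q.coeff i).coeff j = 1) ∧
      evalEval c d Q = 0 ∧
      ∀ M : IntermediateField K F, (∀ i j, (Q.coeff i).coeff j ∈ M) → M ≤ M' →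
        ∀ G : F[X][X], (∀ i j, (G.coeff i).coeff j ∈ M) → evalEval c d G = 0 → Q ∣ G := by
  have hd' : IsAlgebraic (IntermediateField.adjoin kY {c}) d := by
    have h1 : (IntermediateField.adjoin kY {c}).restrictScalars K =
        IntermediateField.adjoin K ((kY : Set F) ∪ {c}) :=
      IntermediateField.restrictScalars_adjoin K kY {c}
    rw [← h1] at hd
    exact hd
  obtain ⟨S, hS, hS0⟩ := exists_rel (k := kY) c d hd'
  let SF : F[X][X] := S.map (mapRingHom (algebraMap kY F))
  have hSF : SF ≠ 0 := by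
    intro h0
    apply hS
    have hinj : Function.Injective (mapRingHom (algebraMap kY F)) :=
      map_injective _ (algebraMap kY F).injective
    exact (Polynomial.map_eq_zero_iff hinj).mp h0
  have hSFc : ∀ i j, (SF.coeff i).coeff j ∈ M' := by
    intro i j
    simp only [SF, coeff_map, coe_mapRingHom]
    exact h ((S.coeff i).coeff j).2
  obtain ⟨S', hS'⟩ := exists_lift M' SF hSFc
  have hS'0 : S' ≠ 0 := by
    rintro rfl
    apply hSF
    rw [← hS', Polynomial.map_zero]
  have hS'e : ev2 M' c d S' = 0 := by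
    rw [← evalEval_map, hS']
    change evalEval c d (S.map (mapRingHom (algebraMap kY F))) = 0
    rw [evalEval_map, hS0]
  obtain ⟨Q', hQ', hQ'e, hdiv⟩ := exists_prime_relation c d hc S' hS'0 hS'e
  let QF : F[X][X] := Q'.map (mapRingHom (algebraMap M' F))
  have hQF : QF ≠ 0 := by
    intro h0
    apply hQ'
    have hinj : Function.Injective (mapRingHom (algebraMap M' F)) :=
      map_injective _ (algebraMap M' F).injective
    exact (Polynomial.map_eq_zero_iff hinj).mp h0
  have hQFS : QF ∣ S.map (mapRingHom (algebraMap kY F)) := by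
    have h1 := hdiv S' hS'e
    have h2 := Polynomial.map_dvd (mapRingHom (algebraMap M' F)) h1
    rw [hS'] at h2
    exact h2
  obtain ⟨i₀, j₀, hne, hal⟩ := coeff_descent S hS QF hQF hQFS
  set lam : F := (QF.coeff i₀).coeff j₀ with hlam
  have hcoef : ∀ i j, ((C (C lam⁻¹) * QF).coeff i).coeff j = lam⁻¹ * (QF.coeff i).coeff j := by
    intro i j
    rw [coeff_C_mul, coeff_C_mul]
  refine ⟨C (C lam⁻¹) * QF, ?_, ⟨i₀, j₀, ?_⟩, ?_, ?_⟩
  · intro i j
    rw [hcoef]
    exact hcl _ (hal i j)
  · rw [hcoef, ← hlam, inv_mul_cancel₀ hne]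
  · have h1 : evalEval c d QF = 0 := by
      change evalEval c d (Q'.map (mapRingHom (algebraMap M' F))) = 0
      rw [evalEval_map, hQ'e]
    rw [evalEval_mul, h1, mul_zero]
  · intro M _ hM G hG hG0
    obtain ⟨G', hG'⟩ := exists_lift M' G (fun i j => hM (hG i j))
    have h1 : ev2 M' c d G' = 0 := by
      rw [← evalEval_map, hG', hG0]
    have h2 := Polynomial.map_dvd (mapRingHom (algebraMap M' F)) (hdiv G' h1)
    rw [hG'] at h2
    have h3 : IsUnit (C (C lam⁻¹) : F[X][X]) := by
      rw [isUnit_C, isUnit_C, isUnit_iff_ne_zero]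
      exact inv_ne_zero hne
    exact (h3.mul_left_dvd).mpr h2

end EurHuh
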