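import Pool.Agent.Work.EurHuh.DVGood
import Pool.Agent.Work.EurHuh.DVExists
import Pool.Agent.Work.EurHuh.Face

/-!
E4, E5: log-concavity of the volume polynomial.

`good_all`: induction on `n` over all fields `F`. For `n = 0` the field `F` is finite dimensional over
`K` (`adjoin K ∅ = ⊥`); take `Q = ⊤` (or `Q = 1`). Step: `exists_DV` and `DV.good`.

`vol_lc`: let `F' = K(⋃ V_i)`, a function field of transcendence degree `n` (`fnField_adjoin`), and `Q`
the space of `Good K F' n`, mapped to `F`. By `common_denom` `g Q ⊆ prd V (m0, …, m0)`, `g ≠ 0`. The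
spaces `prd V m` lie in `F'`. So
`4^n * dim (prd V m) * dim (prd V m') ≤ dim (prd V (m + m' + m0)) ^ 2`. For `w`, `w'` positive integer
vectors take `m = l w`, `m' = l w'`, divide by `l^(2n)` and let `l → ∞`. By homogeneity the
inequality holds for positive rational vectors and by continuity for all `w, w' ≥ 0`.
-/

namespace EurHuh

open Module Submodule MvPolynomial

universe u v

theorem good_all {K : Type u} [Field K] [PerfectField K] : ∀ (n : ℕ) {F : Type v} [Field F]
    [Algebra K F], FnField K F n → Good K F n := by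
  intro n
  induction n with
  | zero =>
    intro F _ _ ⟨x, _, hfd⟩
    have hrange : Set.range x = ∅ := by
      rw [Set.range_eq_empty_iff]
      infer_instance
    rw [hrange, IntermediateField.adjoin_empty] at hfd
    have hKF : FiniteDimensional K F :=
      FiniteDimensional.trans K (⊥ : IntermediateField K F) F
    refine ⟨⊤, Module.Finite.iff_fg.mp (inferInstance), ?_⟩
    intro V W _ _
    rw [pow_zero, one_mul]
    by_cases hV : V = ⊥
    · subst hV
      simp
    by_cases hW : W = ⊥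
    · subst hW
      simp
    obtain ⟨a, ha, ha0⟩ := Submodule.exists_mem_ne_zero_of_ne_bot hV
    obtain ⟨b, hb, hb0⟩ := Submodule.exists_mem_ne_zero_of_ne_bot hW
    have htop : V * W * (⊤ : Submodule K F) = ⊤ := by
      rw [eq_top_iff]
      intro f _
      have : f = a * b * ((a * b)⁻¹ * f) := by
        field_simp
      rw [this]
      exact Submodule.mul_mem_mul (Submodule.mul_mem_mul ha hb) Submodule.mem_top
    rw [htop, pow_two, finrank_top]
    exact Nat.mul_le_mul (Submodule.finrank_le V) (Submodule.finrank_le W)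
  | succ n ih =>
    intro F _ _ h
    obtain ⟨L, _, _, hL, ⟨D⟩⟩ := exists_DV h
    exact D.good (ih hL)

section

variable {K : Type u} {F : Type v} [Field K] [PerfectField K] [Field F] [Algebra K F]
  {ι : Type*} [Fintype ι]

omit [PerfectField K] in
lemma prd_le_adjoin_lc (V : ι → Submodule K F) (m : ι → ℕ) :
    prd V m ≤ Subalgebra.toSubmodule
      (IntermediateField.adjoin K (⋃ i, (V i : Set F))).toSubalgebra := by
  set S := (IntermediateField.adjoin K (⋃ i, (V i : Set F))).toSubalgebra with hS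
  have h1 : ∀ i, V i ≤ Subalgebra.toSubmodule S := by
    intro i x hx
    exact IntermediateField.subset_adjoin K _ (Set.mem_iUnion.mpr ⟨i, hx⟩)
  have h2 : ∀ i, V i ^ m i ≤ Subalgebra.toSubmodule S := by
    intro i
    induction m i with
    | zero =>
      rw [pow_zero, Submodule.one_le]
      exact S.one_mem
    | succ k ih =>
      rw [pow_succ, Submodule.mul_le]
      intro a ha b hb
      exact S.mul_mem (ih ha) (h1 i hb)
  unfold prd
  classical
  have h3 : ∀ s : Finset ι, ∏ i ∈ s, V i ^ m i ≤ Subalgebra.toSubmodule S := by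
    intro s
    induction s using Finset.induction_on with
    | empty =>
      rw [Finset.prod_empty, Submodule.one_le]
      exact S.one_mem
    | insert i s hi ih =>
      rw [Finset.prod_insert hi, Submodule.mul_le]
      intro a ha b hb
      exact S.mul_mem (h2 i ha) (ih hb)
  exact h3 Finset.univ

theorem dim_ineq (V : ι → Submodule K F) (hV : Adm K V) {n : ℕ}
    (hn : rk K (⋃ i, (V i : Set F)) = n) :
    ∃ m0 : ℕ, ∀ m m' : ι → ℕ, 4 ^ n * (finrank K (prd V m) * finrank K (prd V m')) ≤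
      (finrank K (prd V (m + m' + fun _ => m0))) ^ 2 := by
  set E := IntermediateField.adjoin K (⋃ i, (V i : Set F)) with hE
  obtain ⟨Q', hQ', hgood⟩ := good_all n (fnField_adjoin V (fun i => (hV i).1) hn)
  set f : E →ₗ[K] F := E.val.toLinearMap with hf
  have hfinj : Function.Injective f := Subtype.val_injective
  have hQfg : (Q'.map f).FG := hQ'.map f
  obtain ⟨g, m0, hg0, _, hg⟩ := common_denom V hV (Q'.map f) hQfg (by
    rintro _ ⟨b, _, rfl⟩
    exact b.2)
  refine ⟨m0, fun m m' => ?_⟩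
  have key : ∀ k : ι → ℕ, ∃ U : Submodule K E, U.FG ∧ U.map f = prd V k := by
    intro k
    refine ⟨(prd V k).comap f, ?_, ?_⟩
    · apply Submodule.fg_of_fg_map_injective f hfinj
      rw [Submodule.map_comap_eq]
      exact fg_of_le (prd_fg (fun i => (hV i).1) k) inf_le_right
    · rw [Submodule.map_comap_eq, inf_eq_right]
      intro x hx
      exact ⟨⟨x, prd_le_adjoin_lc V k hx⟩, rfl⟩
  obtain ⟨U, hU, hU2⟩ := key m
  obtain ⟨U', hU', hU'2⟩ := key m'
  have h1 := hgood U U' hU hU'
  have e1 : finrank K (prd V m) = finrank K U := by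
    rw [← hU2]; exact finrank_map_of_inj f hfinj U
  have e2 : finrank K (prd V m') = finrank K U' := by
    rw [← hU'2]; exact finrank_map_of_inj f hfinj U'
  have e3 : finrank K (U * U' * Q' : Submodule K E) =
      finrank K (prd V m * prd V m' * Q'.map f : Submodule K F) := by
    rw [← finrank_map_of_inj f hfinj (U * U' * Q'), hf, Submodule.map_mul, Submodule.map_mul,
      ← hf, hU2, hU'2]
  rw [e1, e2]
  refine h1.trans (Nat.pow_le_pow_left ?_ 2)
  rw [e3, ← finrank_map_mulLeft hg0]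
  refine finrank_le_of_le (prd_fg (fun i => (hV i).1) _) ?_
  rw [prd_add, prd_add, Submodule.map_le_iff_le_comap, Submodule.mul_le]
  intro a ha b hb
  rw [Submodule.mem_comap, LinearMap.mulLeft_apply]
  have : g * (a * b) = a * (g * b) := by ring
  rw [this]
  exact Submodule.mul_mem_mul ha (hg b hb)

omit [Fintype ι] in
lemma eval_mul_homog {n : ℕ} {P : MvPolynomial ι ℝ} (hP : P.IsHomogeneous n) (c : ℝ)
    (w : ι → ℝ) : eval (fun i => c * w i) P = c ^ n * eval w P := by
  rw [eval_eq, eval_eq, Finset.mul_sum]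
  refine Finset.sum_congr rfl fun d hd => ?_
  have hdeg : d.degree = n := by
    have := hP (mem_support_iff.mp hd)
    rwa [Finsupp.degree_eq_weight_one]
  have : ∏ i ∈ d.support, (c * w i) ^ d i = c ^ n * ∏ i ∈ d.support, w i ^ d i := by
    simp only [mul_pow, Finset.prod_mul_distrib]
    congr 1
    rw [Finset.prod_pow_eq_pow_sum, ← hdeg]
    rfl
  rw [this]
  ring

theorem vol_lc_nat (V : ι → Submodule K F) (hV : Adm K V) {n : ℕ}
    (hn : rk K (⋃ i, (V i : Set F)) = n) {P : MvPolynomial ι ℝ} (hP : IsVol K n V P)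
    (w w' : ι → ℕ) (hw : ∀ i, 0 < w i) (hw' : ∀ i, 0 < w' i) :
    4 ^ n * (eval (fun i => (w i : ℝ)) P * eval (fun i => (w' i : ℝ)) P) ≤
      (eval (fun i => ((w i + w' i : ℕ) : ℝ)) P) ^ 2 := by
  obtain ⟨m0, hm0⟩ := dim_ineq V hV hn
  have t1 := hP.tendsto w hw
  have t2 := hP.tendsto w' hw'
  have t3 := hP.tendsto (fun i => w i + w' i) (fun i => Nat.add_pos_left (hw i) _)
  have t4 : Filter.Tendsto (fun l : ℕ => ((l + m0 : ℕ) : ℝ) / (l : ℝ)) Filter.atTop (nhds 1) := by
    have : Filter.Tendsto (fun l : ℕ => 1 + (m0 : ℝ) / (l : ℝ)) Filter.atTop (nhds (1 + 0)) :=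
      tendsto_const_nhds.add (tendsto_const_div_atTop_nhds_zero_nat _)
    rw [add_zero] at this
    refine this.congr' ?_
    filter_upwards [Filter.eventually_gt_atTop 0] with l hl
    have : (l : ℝ) ≠ 0 := by positivity
    push_cast
    field_simp
  have t5 : Filter.Tendsto (fun l : ℕ =>
      (finrank K (prd V (fun i => (l + m0) * (w i + w' i))) : ℝ) / ((l + m0 : ℕ) : ℝ) ^ n)
      Filter.atTop (nhds (eval (fun i => ((w i + w' i : ℕ) : ℝ)) P)) :=
    t3.comp (Filter.tendsto_add_atTop_nat m0)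
  have t6 := (t5.mul (t4.pow n)).pow 2
  rw [one_pow, mul_one] at t6
  have t7 := (t1.mul t2).const_mul ((4 : ℝ) ^ n)
  refine le_of_tendsto_of_tendsto t7 t6 ?_
  filter_upwards [Filter.eventually_gt_atTop 0] with l hl
  have hlpos : (0 : ℝ) < l := by exact_mod_cast hl
  have h1 := hm0 (fun i => l * w i) (fun i => l * w' i)
  have h2 : finrank K (prd V ((fun i => l * w i) + (fun i => l * w' i) + fun _ => m0)) ≤
      finrank K (prd V (fun i => (l + m0) * (w i + w' i))) := by
    refine finrank_le_of_le (prd_fg (fun i => (hV i).1) _) (prd_mono hV ?_)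
    intro i
    simp only [Pi.add_apply]
    have := hw i
    nlinarith [Nat.zero_le m0, Nat.zero_le (w' i)]
  have h3 : (4 : ℝ) ^ n * ((finrank K (prd V (fun i => l * w i)) : ℝ) *
      (finrank K (prd V (fun i => l * w' i)) : ℝ)) ≤
      (finrank K (prd V (fun i => (l + m0) * (w i + w' i))) : ℝ) ^ 2 := by
    exact_mod_cast h1.trans (Nat.pow_le_pow_left h2 2)
  have e1 : (4 : ℝ) ^ n * ((finrank K (prd V (fun i => l * w i)) : ℝ) / (l : ℝ) ^ n *
      ((finrank K (prd V (fun i => l * w' i)) : ℝ) / (l : ℝ) ^ n)) =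
      ((4 : ℝ) ^ n * ((finrank K (prd V (fun i => l * w i)) : ℝ) *
      (finrank K (prd V (fun i => l * w' i)) : ℝ))) / ((l : ℝ) ^ n) ^ 2 := by
    field_simp
  have hlm : (0 : ℝ) < ((l + m0 : ℕ) : ℝ) := by exact_mod_cast Nat.add_pos_left hl m0
  have e2 : ((finrank K (prd V (fun i => (l + m0) * (w i + w' i))) : ℝ) /
      ((l + m0 : ℕ) : ℝ) ^ n * (((l + m0 : ℕ) : ℝ) / (l : ℝ)) ^ n) ^ 2 =
      (finrank K (prd V (fun i => (l + m0) * (w i + w' i))) : ℝ) ^ 2 / ((l : ℝ) ^ n) ^ 2 := by
    rw [div_pow]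
    field_simp
  rw [e1, e2]
  exact div_le_div_of_nonneg_right h3 (by positivity)

end

theorem vol_lc {K : Type u} {F : Type v} [Field K] [PerfectField K] [Field F] [Algebra K F]
    {ι : Type*} [Fintype ι] (V : ι → Submodule K F) (hV : Adm K V) {n : ℕ}
    (hn : rk K (⋃ i, (V i : Set F)) = n) {P : MvPolynomial ι ℝ} (hP : IsVol K n V P)
    (w w' : ι → ℝ) (hw : ∀ i, 0 ≤ w i) (hw' : ∀ i, 0 ≤ w' i) :
    4 ^ n * (eval w P * eval w' P) ≤ (eval (w + w') P) ^ 2 := by
  have hhom := hP.isHomogeneous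
  -- approximation by integer vectors
  let A : (ι → ℝ) → ℕ → ι → ℕ := fun z k i => ⌊z i * k⌋₊ + 1
  have hA : ∀ z : ι → ℝ, (∀ i, 0 ≤ z i) →
      Filter.Tendsto (fun k : ℕ => fun i => (k : ℝ)⁻¹ * (A z k i : ℝ)) Filter.atTop (nhds z) := by
    intro z hz
    rw [tendsto_pi_nhds]
    intro i
    have h1 : Filter.Tendsto (fun k : ℕ => ((⌊z i * (k : ℝ)⌋₊ : ℝ)) / (k : ℝ)) Filter.atTop
        (nhds (z i)) := (tendsto_nat_floor_mul_div_atTop (hz i)).comp tendsto_natCast_atTop_atTop
    have h2 := h1.add (tendsto_const_div_atTop_nhds_zero_nat (1 : ℝ))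
    rw [add_zero] at h2
    refine h2.congr fun k => ?_
    simp only [A]
    push_cast
    ring
  have c := MvPolynomial.continuous_eval P
  have t1 := (c.tendsto w).comp (hA w hw)
  have t2 := (c.tendsto w').comp (hA w' hw')
  have t3 := (c.tendsto (w + w')).comp ((hA w hw).add (hA w' hw'))
  refine le_of_tendsto_of_tendsto ((t1.mul t2).const_mul (4 ^ n)) (t3.pow 2) ?_
  filter_upwards [Filter.eventually_gt_atTop 0] with k hk
  have hkpos : (0 : ℝ) < k := by exact_mod_cast hk
  have h := vol_lc_nat V hV hn hP (A w k) (A w' k) (fun i => Nat.succ_pos _)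
    (fun i => Nat.succ_pos _)
  simp only [Function.comp]
  have e3 : ((fun i => (k : ℝ)⁻¹ * (A w k i : ℝ)) + fun i => (k : ℝ)⁻¹ * (A w' k i : ℝ)) =
      fun i => (k : ℝ)⁻¹ * ((A w k i + A w' k i : ℕ) : ℝ) := by
    funext i
    simp only [Pi.add_apply]
    push_cast
    ring
  rw [e3, eval_mul_homog hhom, eval_mul_homog hhom, eval_mul_homog hhom]
  have hk2 : 0 ≤ (((k : ℝ)⁻¹) ^ n) ^ 2 := by positivity
  calc (4 : ℝ) ^ n * (((k : ℝ)⁻¹) ^ n * eval (fun i => (A w k i : ℝ)) P *
        (((k : ℝ)⁻¹) ^ n * eval (fun i => (A w' k i : ℝ)) P))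
      = (((k : ℝ)⁻¹) ^ n) ^ 2 * (4 ^ n * (eval (fun i => (A w k i : ℝ)) P *
        eval (fun i => (A w' k i : ℝ)) P)) := by ring
    _ ≤ (((k : ℝ)⁻¹) ^ n) ^ 2 * (eval (fun i => ((A w k i + A w' k i : ℕ) : ℝ)) P) ^ 2 :=
      mul_le_mul_of_nonneg_left h hk2
    _ = _ := by ring

end EurHuh
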