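import Pool.Agent.Work.EurHuh.Face

/-!
M6: a member of rank one may be replaced by a pencil.

Let `V i0` have rank one and `x ∈ V i0` transcendental. Consider the family `V''` on `Option ι`:
`V'' none = ⟨1, x⟩`, `V'' (some i) = V i`, of the same rank `n`, with Hilbert polynomial `H''` (total
degree at most `n`). The union of `V i0` and `⟨1, x⟩` has rank one, so by `hilb_degree` `H''` has
degree at most one in the pair of variables `some i0`, `none` together:
`H'' = H0(m) + j * H1(m) + l * H2(m)`, where `m` are the exponents of the other members, `j` that of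
`V i0`, `l` that of `⟨1, x⟩`. Let `B_m = ∏_{i ≠ i0} V_i ^ m_i`, `E = K(V i0) ⊇ K(x)`, and
`dim (V i0 ^ j) = a * j + const` for large `j`, with `a > 0` (`IsVol` of the one-member family, rank one).
For fixed `m`, `l` (large), by `slice_tendsto` for the family `{V i0}` and `B = B_m * ⟨1,x⟩^l`:
`H1(m) = a * dim_E (E * B_m * ⟨1,x⟩^l) = a * dim_E (E * B_m)`.
For fixed `m`, `j`, by `slice_tendsto` for the family `{⟨1, x⟩}` and `B = B_m * V i0 ^ j`:
`H2(m) = dim_{K(x)} (K(x) * B_m * V i0 ^ j)`, and `K(x) * V i0 ^ j = E` for `j` large (`E` is finite over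
`K(x)` and generated by `V i0` as a ring over `K(x)`), so
`H2(m) = dim_{K(x)} (E * B_m) = [E : K(x)] * dim_E (E * B_m)`.
So `H1 = ρ * H2` with `ρ = a / [E : K(x)] > 0`, at all large `m`, hence as polynomials, and the same
holds for the degree `n - 1` parts `P1 = ρ * P2` where `P'' = P0 + w_{i0} P1 + w_none P2`.
By `vol_face` (`V` and `V'` are both subfamilies of `V''` of rank `n`) `P = e1⁻¹ P''(w_none = 0)`,
`P' = e2⁻¹ P''(w_{some i0} = 0)`. So `e1 * P(w) = P0 + w_{i0} ρ P2 = e2 * P'(w_{i0} ↦ ρ w_{i0})`.
-/

namespace EurHuh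

open Module Submodule MvPolynomial Filter Topology

variable {K F : Type*} [Field K] [Field F] [Algebra K F]

/-! ### polynomials which are affine in two variables together -/

theorem eval_monomial_eq {σ : Type*} {t : σ →₀ ℕ} {i j : σ} (hi : t i = 0) (hj : t j = 0) (a : ℝ)
    {c c' : σ → ℝ} (hc : ∀ k, k ≠ i → k ≠ j → c k = c' k) :
    eval c (monomial t a) = eval c' (monomial t a) := by
  rw [eval_monomial, eval_monomial]
  congr 1
  apply Finsupp.prod_congr
  intro k hk
  rw [hc k]
  · rintro rfl
    exact (Finsupp.mem_support_iff.mp hk) hi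
  · rintro rfl
    exact (Finsupp.mem_support_iff.mp hk) hj

theorem pderiv_monomial_zero {σ : Type*} {t : σ →₀ ℕ} {i : σ} (hi : t i = 0) (a : ℝ) :
    pderiv i (monomial t a) = 0 := by
  rw [pderiv_monomial, hi, Nat.cast_zero, mul_zero, map_zero]

theorem affine_pair {σ : Type*} (H : MvPolynomial σ ℝ) {i j : σ} (hij : i ≠ j)
    (hH : ∀ s ∈ H.support, s i + s j ≤ 1) {c c' : σ → ℝ} (hc : ∀ k, k ≠ i → k ≠ j → c k = c' k) :
    eval c H = eval c' H + (c i - c' i) * eval c' (pderiv i H) +
      (c j - c' j) * eval c' (pderiv j H) := by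
  classical
  have hone : ∀ (t : σ →₀ ℕ) (a : ℝ) (i j : σ), i ≠ j → t i = 0 → t j = 0 →
      (∀ k, k ≠ i → k ≠ j → c k = c' k) →
      eval c (monomial (t + Finsupp.single i 1) a) =
        eval c' (monomial (t + Finsupp.single i 1) a) +
        (c i - c' i) * eval c' (pderiv i (monomial (t + Finsupp.single i 1) a)) ∧
      eval c' (pderiv j (monomial (t + Finsupp.single i 1) a)) = 0 := by
    intro t a i j hij hi hj hc
    have h1 : monomial (t + Finsupp.single i 1) a = monomial t a * (X i : MvPolynomial σ ℝ) := by
      rw [X, monomial_mul, mul_one]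
    rw [h1, pderiv_mul, pderiv_mul, pderiv_monomial_zero hi, pderiv_monomial_zero hj,
      pderiv_X_self, pderiv_X_of_ne hij, map_mul, map_mul, eval_X, eval_X,
      eval_monomial_eq hi hj a hc]
    constructor
    · rw [zero_mul, zero_add, mul_one]
      ring
    · rw [zero_mul, mul_zero, zero_add, map_zero]
  rw [H.as_sum]
  simp only [map_sum, Finset.mul_sum, ← Finset.sum_add_distrib]
  refine Finset.sum_congr rfl fun s hs => ?_
  have hle := hH s hs
  have hcases : (s i = 0 ∧ s j = 0) ∨ (s i = 1 ∧ s j = 0) ∨ (s i = 0 ∧ s j = 1) := by omega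
  rcases hcases with ⟨h1, h2⟩ | ⟨h1, h2⟩ | ⟨h1, h2⟩
  · rw [pderiv_monomial_zero h1, pderiv_monomial_zero h2, eval_monomial_eq h1 h2 _ hc, map_zero]
    ring
  · obtain ⟨t, rfl⟩ : ∃ t : σ →₀ ℕ, s = t + Finsupp.single i 1 := by
      refine ⟨s - Finsupp.single i 1, ?_⟩
      ext k
      by_cases hk : k = i
      · subst hk
        simp [h1]
      · simp [Ne.symm hk]
    have ht1 : t i = 0 := by simpa using h1
    have ht2 : t j = 0 := by simpa [hij] using h2
    have := hone t (coeff (t + Finsupp.single i 1) H) i j hij ht1 ht2 hc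
    rw [this.2, this.1]
    ring
  · obtain ⟨t, rfl⟩ : ∃ t : σ →₀ ℕ, s = t + Finsupp.single j 1 := by
      refine ⟨s - Finsupp.single j 1, ?_⟩
      ext k
      by_cases hk : k = j
      · subst hk
        simp [h2]
      · simp [Ne.symm hk]
    have ht1 : t j = 0 := by simpa using h2
    have ht2 : t i = 0 := by simpa [hij.symm] using h1
    have := hone t (coeff (t + Finsupp.single j 1) H) j i hij.symm ht1 ht2
      (fun k h h' => hc k h' h)
    rw [this.2, this.1]
    ring

theorem pderiv_homogeneousComponent {σ : Type*} (H : MvPolynomial σ ℝ) (i : σ) (n : ℕ) :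
    pderiv i (homogeneousComponent (n + 1) H) = homogeneousComponent n (pderiv i H) := by
  ext s
  rw [coeff_pderiv, coeff_homogeneousComponent, coeff_homogeneousComponent, coeff_pderiv]
  have h1 : (s + Finsupp.single i 1).degree = s.degree + 1 := by
    rw [map_add, Finsupp.degree_single]
  rw [h1]
  by_cases h : s.degree = n
  · rw [if_pos (by omega), if_pos h]
  · rw [if_neg (by omega), if_neg h, zero_mul]

theorem eval_linear {σ : Type*} [Fintype σ] {P : MvPolynomial σ ℝ} (hP : P.IsHomogeneous 1) :
    ∃ k : σ → ℝ, ∀ w : σ → ℝ, eval w P = ∑ i, w i * k i := by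
  have h1 := hP.sum_X_mul_pderiv
  rw [one_smul] at h1
  refine ⟨fun i => coeff 0 (pderiv i P), fun w => ?_⟩
  conv_lhs => rw [← h1]
  rw [map_sum]
  refine Finset.sum_congr rfl fun i _ => ?_
  rw [map_mul, eval_X]
  congr 1
  have h2 : (pderiv i P).totalDegree = 0 := by
    have := (hP.pderiv (i := i)).totalDegree_le
    simpa using this
  rw [totalDegree_eq_zero_iff_eq_C] at h2
  conv_lhs => rw [h2]
  rw [eval_C]

/-! ### a pencil and its rank -/

theorem rk_pen {x : F} (hx : Transcendental K x) : rk K (pen K x : Set F) = 1 := by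
  have h := rk_eq_of_basis (K := K) (S := (pen K x : Set F)) (r := 1) (fun _ => x)
    (fun _ => mem_pen x) ((algebraicIndependent_unique_type_iff (R := K)).mpr hx) (by
      intro y hy
      have h1 : pen K x ≤ Subalgebra.toSubmodule
          (IntermediateField.adjoin K (Set.range fun _ : Fin 1 => x)).toSubalgebra := by
        apply pen_le
        · exact (IntermediateField.adjoin K (Set.range fun _ : Fin 1 => x)).one_mem
        · exact IntermediateField.subset_adjoin K _ ⟨0, rfl⟩
      exact isAlgebraic_algebraMap (⟨y, h1 hy⟩ :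
        IntermediateField.adjoin K (Set.range fun _ : Fin 1 => x)))
  exact_mod_cast h

theorem prd_extend' {ι κ : Type*} [Fintype ι] [Fintype κ] (V : ι → Submodule K F)
    (j : κ → ι) (hj : Function.Injective j) (m : κ → ℕ) (c : ι → ℕ) :
    prd V (Function.extend j m c) = prd (fun k => V (j k)) m *
      prd V (Function.extend j (fun _ => 0) c) := by
  have h1 : Function.extend j m c = Function.extend j m (fun _ => 0) +
      Function.extend j (fun _ => 0) c := by
    funext i
    rw [Pi.add_apply]
    by_cases h : ∃ k, j k = i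
    · obtain ⟨k, rfl⟩ := h
      rw [hj.extend_apply, hj.extend_apply, hj.extend_apply, add_zero]
    · rw [Function.extend_apply' _ _ _ h, Function.extend_apply' _ _ _ h,
        Function.extend_apply' _ _ _ h, zero_add]
  rw [h1, prd_add]
  congr 1
  unfold prd
  symm
  apply Fintype.prod_of_injective j hj
  · intro i hi
    have h : ¬ ∃ k, j k = i := fun ⟨k, hk⟩ => hi ⟨k, hk⟩
    rw [Function.extend_apply' _ _ _ h, pow_zero]
  · intro k
    rw [hj.extend_apply]

/-- linear relation between the derivatives -/
theorem deriv_relation {κ : Type*} [Fintype κ] (W : κ → Submodule K F) (hW : Adm K W)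
    (j : Bool → κ) (hj : Function.Injective j)
    (hr : rk K (⋃ b, (W (j b) : Set F)) = 1) (ht : rk K (W (j true) : Set F) = 1)
    (hf : rk K (W (j false) : Set F) = 1) {H : MvPolynomial κ ℝ} {N : ℕ}
    (hH : ∀ m : κ → ℕ, (∀ i, N ≤ m i) → (finrank K (prd W m) : ℝ) = eval (fun i => (m i : ℝ)) H)
    (hdeg : ∀ s ∈ H.support, s (j true) + s (j false) ≤ 1) :
    ∃ a b : ℝ, 0 < a ∧ 0 < b ∧ C b * pderiv (j true) H = C a * pderiv (j false) H := by
  classical
  have hU : Adm K (fun b => W (j b)) := fun b => hW (j b)
  have hr' : rk K (⋃ b, (W (j b) : Set F)) = ((1 : ℕ) : ℕ∞) := by exact_mod_cast hr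
  obtain ⟨P, hP⟩ := exists_vol (fun b => W (j b)) hU hr'
  obtain ⟨k, hk⟩ := eval_linear hP.isHomogeneous
  have hkpos : ∀ b : Bool, 0 < k b := by
    intro b
    have hrb : rk K (⋃ _ : Unit, (W (j b) : Set F)) = ((1 : ℕ) : ℕ∞) := by
      rw [Set.iUnion_const]
      cases b
      · exact_mod_cast hf
      · exact_mod_cast ht
    have hUb : Adm K (fun _ : Unit => W (j b)) := fun _ => hW (j b)
    obtain ⟨Pb, hPb⟩ := exists_vol (fun _ : Unit => W (j b)) hUb hrb
    obtain ⟨e, he, hface⟩ := vol_face (fun b => W (j b)) hU (fun _ : Unit => b)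
      (fun _ _ _ => rfl) hr' hrb hP hPb
    have h1 := hface (fun c => if c = b then 1 else 0) (by
      intro i hi
      rw [if_neg]
      rintro rfl
      exact hi ⟨(), rfl⟩)
    rw [hk, Finset.sum_eq_single b] at h1
    · rw [if_pos rfl, one_mul] at h1
      rw [h1]
      exact mul_pos he (IsVol.pos hUb hrb hPb _ (fun _ => one_pos))
    · intro c _ hc
      rw [if_neg hc, zero_mul]
    · intro h
      exact absurd (Finset.mem_univ b) h
  refine ⟨k true, k false, hkpos true, hkpos false, ?_⟩
  apply eq_of_eval_large _ _ N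
  intro m hm
  rw [map_mul, map_mul, eval_C, eval_C]
  set B := prd W (Function.extend j (fun _ => 0) m) with hBdef
  have hB : B.FG := prd_fg (fun i => (hW i).1) _
  set δ := finrank (IntermediateField.adjoin K (⋃ b, (W (j b) : Set F)))
        (span (IntermediateField.adjoin K (⋃ b, (W (j b) : Set F))) (B : Set F)) with hδ
  have hij : j true ≠ j false := fun h => Bool.noConfusion (hj h)
  -- limit for positive weights
  have hw : ∀ w : Bool → ℕ, (∀ b, 0 < w b) →
      (w true : ℝ) * eval (fun i => (m i : ℝ)) (pderiv (j true) H) +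
        (w false : ℝ) * eval (fun i => (m i : ℝ)) (pderiv (j false) H) =
      (δ : ℝ) * ((w true : ℝ) * k true + (w false : ℝ) * k false) := by
    intro w hw
    have h1 := slice_tendsto (fun b => W (j b)) hU hr' hP B hB w hw
    rw [hk, Fintype.sum_bool] at h1
    refine tendsto_nhds_unique ?_ h1
    have h2 : Tendsto (fun l : ℕ => (eval (fun i => (m i : ℝ)) H -
        (m (j true) : ℝ) * eval (fun i => (m i : ℝ)) (pderiv (j true) H) -
        (m (j false) : ℝ) * eval (fun i => (m i : ℝ)) (pderiv (j false) H)) / (l : ℝ) +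
        ((w true : ℝ) * eval (fun i => (m i : ℝ)) (pderiv (j true) H) +
        (w false : ℝ) * eval (fun i => (m i : ℝ)) (pderiv (j false) H))) atTop
        (𝓝 (0 + ((w true : ℝ) * eval (fun i => (m i : ℝ)) (pderiv (j true) H) +
        (w false : ℝ) * eval (fun i => (m i : ℝ)) (pderiv (j false) H)))) :=
      (tendsto_const_div_atTop_nhds_zero_nat _).add tendsto_const_nhds
    rw [zero_add] at h2
    refine h2.congr' ?_
    filter_upwards [eventually_gt_atTop N] with l hl
    have hl0 : (l : ℝ) ≠ 0 := by
      have : 0 < l := by omega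
      exact_mod_cast this.ne'
    rw [hBdef, ← prd_extend' W j hj, hH]
    · have h3 := affine_pair H hij hdeg
        (c := fun i => ((Function.extend j (fun b => l * w b) m i : ℕ) : ℝ))
        (c' := fun i => (m i : ℝ)) (by
          intro i h4 h5
          rw [Function.extend_apply']
          rintro ⟨b, rfl⟩
          cases b
          · exact h5 rfl
          · exact h4 rfl)
      rw [h3, hj.extend_apply, hj.extend_apply, pow_one, Nat.cast_mul, Nat.cast_mul]
      field_simp
      ring
    · intro i
      by_cases h : ∃ b, j b = i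
      · obtain ⟨b, rfl⟩ := h
        rw [hj.extend_apply]
        have := hw b
        nlinarith
      · rw [Function.extend_apply' _ _ _ h]
        exact hm i
  have e1 := hw (fun _ => 1) (fun _ => one_pos)
  have e2 := hw (fun b => if b then 2 else 1) (fun b => by cases b <;> simp)
  simp only [Nat.cast_one, one_mul, if_true, Bool.false_eq_true, if_false, Nat.cast_ofNat] at e1 e2
  have g1 : eval (fun i => (m i : ℝ)) (pderiv (j true) H) = δ * k true := by
    linear_combination e2 - e1
  have g2 : eval (fun i => (m i : ℝ)) (pderiv (j false) H) = δ * k false := by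
    linear_combination 2 * e1 - e2
  rw [g1, g2]
  ring

theorem vol_replace {ι : Type*} [Fintype ι] [DecidableEq ι] (V V' : ι → Submodule K F)
    (hV : Adm K V) (i0 : ι) (hV' : ∀ i, i ≠ i0 → V' i = V i) (x : F) (hx0 : V' i0 = pen K x)
    (hx : x ∈ V i0) (hxt : Transcendental K x) (h1 : rk K (V i0 : Set F) = 1) {n : ℕ}
    (hn : rk K (⋃ i, (V i : Set F)) = n) {P P' : MvPolynomial ι ℝ} (hP : IsVol K n V P)
    (hP' : IsVol K n V' P') :
    ∃ e ρ : ℝ, 0 < e ∧ 0 < ρ ∧ ∀ w : ι → ℝ,
      eval w P = e * eval (Function.update w i0 (ρ * w i0)) P' := by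
  classical
  -- the common family
  set W : Option ι → Submodule K F := fun o => o.elim (pen K x) V with hWdef
  have hW : Adm K W := by
    intro o
    cases o with
    | none => exact ⟨pen_fg x, one_mem_pen x⟩
    | some i => exact hV i
  have hpen : pen K x ≤ V i0 := pen_le (hV i0).2 hx
  have hpen1 : rk K (pen K x : Set F) = 1 := rk_pen hxt
  have hUn : (⋃ o, (W o : Set F)) = ⋃ i, (V i : Set F) := by
    apply subset_antisymm
    · apply Set.iUnion_subset
      intro o
      cases o with
      | none => exact Set.Subset.trans hpen (Set.subset_iUnion (fun i => (V i : Set F)) i0)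
      | some i => exact Set.subset_iUnion (fun i => (V i : Set F)) i
    · apply Set.iUnion_subset
      intro i
      exact Set.subset_iUnion (fun o => (W o : Set F)) (some i)
  have hnW : rk K (⋃ o, (W o : Set F)) = n := by rw [hUn]; exact hn
  obtain ⟨R, hR⟩ := exists_vol W hW hnW
  obtain ⟨H, N, hdeg, hcomp, hH⟩ := id hR
  -- the rank is positive
  have hn1 : 1 ≤ n := by
    have h2 : rk K (V i0 : Set F) ≤ rk K (⋃ i, (V i : Set F)) :=
      rk_mono (Set.subset_iUnion (fun i => (V i : Set F)) i0)
    rw [h1, hn] at h2
    exact_mod_cast h2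
  obtain ⟨n', rfl⟩ : ∃ n', n = n' + 1 := ⟨n - 1, by omega⟩
  -- the pair of members of rank one
  let jj : Bool → Option ι := fun b => if b then some i0 else none
  have hjj : Function.Injective jj := by
    intro b b' h
    cases b <;> cases b' <;> simp [jj] at h ⊢
  have hUj : (⋃ b, (W (jj b) : Set F)) = (V i0 : Set F) := by
    apply subset_antisymm
    · apply Set.iUnion_subset
      intro b
      cases b
      · exact hpen
      · exact Set.Subset.refl _
    · exact Set.subset_iUnion (fun b => (W (jj b) : Set F)) true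
  have hJ : ∀ s ∈ H.support, s (some i0) + s none ≤ 1 := by
    intro s hs
    have h2 : rk K (⋃ i ∈ ({some i0, none} : Finset (Option ι)), (W i : Set F)) ≤ (1 : ℕ) := by
      have h3 : (⋃ i ∈ ({some i0, none} : Finset (Option ι)), (W i : Set F)) ⊆ (V i0 : Set F) := by
        apply Set.iUnion₂_subset
        intro i hi
        rw [Finset.mem_insert, Finset.mem_singleton] at hi
        rcases hi with rfl | rfl
        · exact Set.Subset.refl _
        · exact hpen
      have h4 := rk_mono (K := K) h3
      rw [h1] at h4
      exact_mod_cast h4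
    have h5 := hilb_degree W hW H N hH {some i0, none} h2 s hs
    rwa [Finset.sum_pair (by simp)] at h5
  obtain ⟨a, b, ha, hb, hab⟩ := deriv_relation W hW jj hjj (by rw [hUj]; exact h1) h1 hpen1 hH hJ
  have hRJ : ∀ s ∈ R.support, s (some i0) + s none ≤ 1 := by
    intro s hs
    apply hJ s
    rw [MvPolynomial.mem_support_iff] at hs ⊢
    rw [← hcomp, coeff_homogeneousComponent] at hs
    intro h0
    apply hs
    rw [h0, ite_self]
  have hRab : C b * pderiv (some i0) R = C a * pderiv none R := by
    rw [← hcomp, pderiv_homogeneousComponent, pderiv_homogeneousComponent,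
      ← homogeneousComponent_C_mul, ← homogeneousComponent_C_mul]
    exact congrArg (homogeneousComponent n') hab
  -- the second face
  let j' : ι → Option ι := fun i => if i = i0 then none else some i
  have hj' : Function.Injective j' := by
    intro i i' h
    by_cases hi : i = i0 <;> by_cases hi' : i' = i0 <;> simp_all [j']
  have hVW : V' = fun i => W (j' i) := by
    funext i
    by_cases hi : i = i0
    · subst hi
      rw [hx0]
      simp [j', hWdef]
    · rw [hV' i hi]
      simp [j', hWdef, hi]
  have hn' : rk K (⋃ i, (W (j' i) : Set F)) = ((n' + 1 : ℕ) : ℕ∞) := by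
    rw [← hn]
    symm
    have hVW' : ∀ i, W (j' i) = V' i := fun i => (congrFun hVW i).symm
    apply rk_eq_of_algebraic
    · apply Set.iUnion_subset
      intro i
      rw [hVW']
      by_cases hi : i = i0
      · subst hi
        rw [hx0]
        exact Set.Subset.trans hpen (Set.subset_iUnion (fun i => (V i : Set F)) i)
      · rw [hV' i hi]
        exact Set.subset_iUnion (fun i => (V i : Set F)) i
    · intro y hy
      obtain ⟨i, hi⟩ := Set.mem_iUnion.mp hy
      by_cases hi0 : i = i0
      · subst hi0
        have h2 := algebraic_of_rk_eq (K := K) (S := (pen K x : Set F)) (T := (V i : Set F))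
          (r := 1) hpen (by exact_mod_cast hpen1) (by exact_mod_cast h1) y hi
        rw [← mem_closure_iff] at h2 ⊢
        refine Matroid.closure_subset_closure _ ?_ h2
        have h3 := Set.subset_iUnion (fun k => (W (j' k) : Set F)) i
        simp only [hVW', hx0] at h3
        simpa only [hVW'] using h3
      · have h2 : y ∈ (W (j' i) : Set F) := by
          rw [hVW', hV' i hi0]
          exact hi
        exact isAlgebraic_algebraMap (⟨y, IntermediateField.subset_adjoin K _
          (Set.mem_iUnion.mpr ⟨i, h2⟩)⟩ :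
          IntermediateField.adjoin K (⋃ i, (W (j' i) : Set F)))
  rw [hVW] at hP'
  obtain ⟨e1, he1, hf1⟩ := vol_face W hW (some : ι → Option ι) (Option.some_injective _) hnW hn
    hR hP
  obtain ⟨e2, he2, hf2⟩ := vol_face W hW j' hj' hnW hn' hR hP'
  refine ⟨e2 / e1, a / b, div_pos he2 he1, div_pos ha hb, fun w => ?_⟩
  -- the two points
  let c : Option ι → ℝ := fun o => o.elim 0 w
  let c' : Option ι → ℝ := fun o => o.elim (a / b * w i0) (fun i => if i = i0 then 0 else w i)
  have g1 : eval c R = e1 * eval w P := by
    rw [hf1 c]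
    · rfl
    · intro o ho
      cases o with
      | none => rfl
      | some i => exact absurd ⟨i, rfl⟩ ho
  have g2 : eval c' R = e2 * eval (Function.update w i0 (a / b * w i0)) P' := by
    rw [hf2 c']
    · congr 3
      funext i
      by_cases hi : i = i0
      · subst hi
        simp [j', c']
      · simp [j', c', hi]
    · intro o ho
      cases o with
      | none => exact absurd ⟨i0, by simp [j']⟩ ho
      | some i =>
        by_cases hi : i = i0
        · simp [c', hi]
        · exact absurd ⟨i, by simp [j', hi]⟩ ho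
  have g3 := affine_pair R (i := some i0) (j := none) (by simp) hRJ (c := c) (c' := c') (by
    intro o ho1 ho2
    cases o with
    | none => exact absurd rfl ho2
    | some i =>
      have hi : i ≠ i0 := fun h => ho1 (by rw [h])
      simp [c, c', hi])
  have g4 := congrArg (eval c') hRab
  rw [map_mul, map_mul, eval_C, eval_C] at g4
  have g5 : c (some i0) - c' (some i0) = w i0 := by simp [c, c']
  have g6 : c none - c' none = -(a / b * w i0) := by simp [c, c']
  rw [g5, g6] at g3
  have g7 : eval c' (pderiv (some i0) R) = a / b * eval c' (pderiv none R) := by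
    field_simp
    linear_combination g4
  rw [g7] at g3
  have g8 : eval c R = eval c' R := by
    rw [g3]
    ring
  rw [g1, g2] at g8
  rw [div_mul_eq_mul_div, ← g8, mul_div_cancel_left₀ _ he1.ne']

end EurHuh
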