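import Mathlib

/-!
The effect of a shift of one variable on a polynomial, up to terms of degree two less.
-/

namespace EurHuh

open MvPolynomial

variable {ι : Type*}

/-- zero or of small total degree -/
def Low (k n : ℕ) (P : MvPolynomial ι ℝ) : Prop := P = 0 ∨ P.totalDegree + k ≤ n

theorem Low.zero (k n : ℕ) : Low k n (0 : MvPolynomial ι ℝ) := Or.inl rfl

theorem Low.mono {k k' n n' : ℕ} {P : MvPolynomial ι ℝ} (h : Low k n P) (hk : k' ≤ k)
    (hn : n ≤ n') : Low k' n' P := by
  rcases h with h | h
  · exact Or.inl h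
  · right; omega

theorem Low.add {k n : ℕ} {P R : MvPolynomial ι ℝ} (hP : Low k n P) (hR : Low k n R) :
    Low k n (P + R) := by
  rcases hP with rfl | hP
  · rwa [zero_add]
  rcases hR with rfl | hR
  · rw [add_zero]; exact Or.inr hP
  right
  have := totalDegree_add P R
  rcases le_total P.totalDegree R.totalDegree with h | h
  · rw [max_eq_right h] at this; omega
  · rw [max_eq_left h] at this; omega

theorem Low.mul {k k' n n' : ℕ} {P R : MvPolynomial ι ℝ} (hP : Low k n P) (hR : Low k' n' R) :
    Low (k + k') (n + n') (P * R) := by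
  rcases hP with rfl | hP
  · rw [zero_mul]; exact Low.zero _ _
  rcases hR with rfl | hR
  · rw [mul_zero]; exact Low.zero _ _
  right
  have := totalDegree_mul P R
  omega

theorem Low.const (a : ℝ) : Low 0 0 (C a : MvPolynomial ι ℝ) := by
  right; simp

theorem Low.X (i : ι) : Low 0 1 (X i : MvPolynomial ι ℝ) := by
  right; simp

theorem Low.neg {k n : ℕ} {P : MvPolynomial ι ℝ} (hP : Low k n P) : Low k n (-P) := by
  have := (Low.const (ι := ι) (-1)).mul hP
  simpa using this

theorem Low.sub {k n : ℕ} {P R : MvPolynomial ι ℝ} (hP : Low k n P) (hR : Low k n R) :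
    Low k n (P - R) := by
  rw [sub_eq_add_neg]; exact hP.add hR.neg

theorem Low.sum {α : Type*} (s : Finset α) (f : α → MvPolynomial ι ℝ) {k n : ℕ}
    (h : ∀ a ∈ s, Low k n (f a)) : Low k n (∑ a ∈ s, f a) := by
  classical
  induction s using Finset.induction_on with
  | empty => rw [Finset.sum_empty]; exact Low.zero _ _
  | insert a s ha ih =>
    rw [Finset.sum_insert ha]
    exact (h a (by simp)).add (ih fun b hb => h b (by simp [hb]))

theorem Low.rename {τ : Type*} {k n : ℕ} {P : MvPolynomial ι ℝ} (hP : Low k n P) (f : ι → τ) :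
    Low k n (rename f P) := by
  rcases hP with rfl | hP
  · rw [map_zero]; exact Low.zero _ _
  · right
    have := totalDegree_rename_le f P
    omega

theorem Low.totalDegree_le {n : ℕ} {P : MvPolynomial ι ℝ} (hP : Low 0 n P) : P.totalDegree ≤ n := by
  rcases hP with rfl | hP
  · simp
  · omega

theorem Low.pred {k n j : ℕ} {P : MvPolynomial ι ℝ} (hP : Low (k + j) (n + j) P) : Low k n P := by
  rcases hP with h | h
  · exact Or.inl h
  · right; omega

theorem Low.component {n : ℕ} {P : MvPolynomial ι ℝ} (hP : Low 0 n P) :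
    homogeneousComponent (n + 1) P = 0 :=
  homogeneousComponent_eq_zero _ _ (Nat.lt_succ_of_le hP.totalDegree_le)

variable [DecidableEq ι]

/-- shift of the variable `i0` by one -/
noncomputable def shiftHom (i0 : ι) : MvPolynomial ι ℝ →ₐ[ℝ] MvPolynomial ι ℝ :=
  aeval fun i => X i - C (if i = i0 then 1 else 0)

theorem eval_shiftHom (i0 : ι) (x : ι → ℝ) (P : MvPolynomial ι ℝ) :
    eval x (shiftHom i0 P) = eval (fun i => x i - if i = i0 then 1 else 0) P := by
  induction P using MvPolynomial.induction_on with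
  | C a => simp [shiftHom]
  | add p q hp hq => simp only [map_add, hp, hq]
  | mul_X p i hp =>
    rw [map_mul, map_mul, hp, map_mul]
    congr 1
    rw [shiftHom, aeval_X, map_sub, eval_X, eval_C, eval_X]

/-- the statement about the shift -/
def Sh (i0 : ι) (n : ℕ) (P : MvPolynomial ι ℝ) : Prop :=
  Low 0 n P ∧ Low 1 n (pderiv i0 P) ∧
    ∃ R, Low 2 n R ∧ shiftHom i0 P = P - pderiv i0 P + R

theorem Sh.one (i0 : ι) : Sh i0 0 (1 : MvPolynomial ι ℝ) := by
  refine ⟨by simpa using Low.const (ι := ι) 1, ?_, 0, Low.zero _ _, ?_⟩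
  · rw [pderiv_one]; exact Low.zero _ _
  · rw [map_one, pderiv_one, sub_zero, add_zero]

theorem Sh.mul_X {i0 : ι} {n : ℕ} {P : MvPolynomial ι ℝ} (h : Sh i0 n P) (j : ι) :
    Sh i0 (n + 1) (P * X j) := by
  obtain ⟨h0, h1, R, h2, h3⟩ := h
  have hd : pderiv i0 (P * X j) = pderiv i0 P * X j + P * C (if j = i0 then 1 else 0) := by
    rw [pderiv_mul, pderiv_X]
    congr 2
    by_cases hj : j = i0
    · subst hj; simp
    · rw [if_neg hj, C_0, Pi.single_eq_of_ne hj]
  refine ⟨?_, ?_, ?_⟩
  · simpa using h0.mul (Low.X j)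
  · rw [hd]
    refine Low.add ?_ ?_
    · simpa using h1.mul (Low.X j)
    · have := h0.mul (Low.const (ι := ι) (if j = i0 then 1 else 0))
      rcases this with h | h
      · exact Or.inl h
      · right; omega
  · refine ⟨pderiv i0 P * C (if j = i0 then 1 else 0) +
      R * (X j - C (if j = i0 then 1 else 0)), ?_, ?_⟩
    · refine Low.add ?_ ?_
      · have := h1.mul (Low.const (ι := ι) (if j = i0 then 1 else 0))
        rcases this with h | h
        · exact Or.inl h
        · right; omega
      · have h4 : Low 0 1 (X j - C (if j = i0 then 1 else 0) : MvPolynomial ι ℝ) :=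
          (Low.X j).sub ((Low.const _).mono le_rfl (Nat.zero_le _))
        exact h2.mul h4
    · rw [map_mul, h3, hd]
      have : shiftHom i0 (X j : MvPolynomial ι ℝ) = X j - C (if j = i0 then 1 else 0) := by
        rw [shiftHom, aeval_X]
      rw [this]
      ring

theorem Sh.add {i0 : ι} {n : ℕ} {P Q : MvPolynomial ι ℝ} (h : Sh i0 n P) (h' : Sh i0 n Q) :
    Sh i0 n (P + Q) := by
  obtain ⟨h0, h1, R, h2, h3⟩ := h
  obtain ⟨h0', h1', R', h2', h3'⟩ := h'
  refine ⟨h0.add h0', ?_, R + R', h2.add h2', ?_⟩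
  · rw [map_add]; exact h1.add h1'
  · rw [map_add, map_add, h3, h3']; ring

theorem Sh.mono {i0 : ι} {n n' : ℕ} {P : MvPolynomial ι ℝ} (h : Sh i0 n P) (hn : n ≤ n') :
    Sh i0 n' P := by
  obtain ⟨h0, h1, R, h2, h3⟩ := h
  exact ⟨h0.mono le_rfl hn, h1.mono le_rfl hn, R, h2.mono le_rfl hn, h3⟩

theorem Sh.C_mul {i0 : ι} {n : ℕ} {P : MvPolynomial ι ℝ} (h : Sh i0 n P) (a : ℝ) :
    Sh i0 n (C a * P) := by
  obtain ⟨h0, h1, R, h2, h3⟩ := h
  refine ⟨by simpa using (Low.const a).mul h0, ?_, C a * R, by simpa using (Low.const a).mul h2, ?_⟩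
  · rw [pderiv_C_mul]
    have := (Low.const (ι := ι) a).mul h1
    simpa using this
  · rw [map_mul, h3, pderiv_C_mul]
    have : shiftHom i0 (C a : MvPolynomial ι ℝ) = C a := by
      rw [shiftHom, algHom_C]; rfl
    rw [this]; ring

theorem Sh.zero (i0 : ι) (n : ℕ) : Sh i0 n (0 : MvPolynomial ι ℝ) := by
  have := ((Sh.one i0).C_mul 0).mono (Nat.zero_le n)
  simpa using this

theorem Sh.sum {α : Type*} (s : Finset α) (f : α → MvPolynomial ι ℝ) {i0 : ι} {n : ℕ}
    (h : ∀ a ∈ s, Sh i0 n (f a)) : Sh i0 n (∑ a ∈ s, f a) := by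
  classical
  induction s using Finset.induction_on with
  | empty => rw [Finset.sum_empty]; exact Sh.zero _ _
  | insert a s ha ih =>
    rw [Finset.sum_insert ha]
    exact (h a (by simp)).add (ih fun b hb => h b (by simp [hb]))

theorem sh_monomial (i0 : ι) : ∀ (d : ℕ) (s : ι →₀ ℕ), s.degree = d →
    Sh i0 d (monomial s (1 : ℝ)) := by
  intro d
  induction d with
  | zero =>
    intro s hs
    have : s = 0 := (Finsupp.degree_eq_zero_iff s).mp hs
    rw [this]
    exact Sh.one i0
  | succ d ih =>
    intro s hs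
    have hs0 : s ≠ 0 := by
      rintro rfl
      simp at hs
    obtain ⟨j, hj⟩ := Finsupp.ne_iff.mp hs0
    have h1 : s - Finsupp.single j 1 + Finsupp.single j 1 = s := by
      apply tsub_add_cancel_of_le
      rw [Finsupp.single_le_iff]
      exact Nat.one_le_iff_ne_zero.mpr hj
    have h2 : (s - Finsupp.single j 1).degree = d := by
      have := congrArg Finsupp.degree h1
      rw [map_add, Finsupp.degree_single, hs] at this
      omega
    have h3 := (ih _ h2).mul_X j
    rw [X, monomial_mul, h1, mul_one] at h3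
    exact h3

theorem sh_of_totalDegree (i0 : ι) {n : ℕ} (H : MvPolynomial ι ℝ) (hH : H.totalDegree ≤ n) :
    Sh i0 n H := by
  rw [H.as_sum]
  apply Sh.sum
  intro s hs
  have h1 : s.degree ≤ n := by
    have := le_totalDegree hs
    rw [Finsupp.degree_apply]
    exact this.trans hH
  have h2 := ((sh_monomial i0 _ s rfl).mono h1).C_mul (coeff s H)
  rwa [C_mul_monomial, mul_one] at h2

omit [DecidableEq ι] in
/-- the derivative and homogeneous components -/
theorem component_pderiv (i0 : ι) {n : ℕ} (H : MvPolynomial ι ℝ) (h : 1 ≤ n) :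
    homogeneousComponent (n - 1) (pderiv i0 H) = pderiv i0 (homogeneousComponent n H) := by
  conv_lhs => rw [← sum_homogeneousComponent H, map_sum, map_sum]
  have h1 : ∀ d, homogeneousComponent (n - 1) (pderiv i0 (homogeneousComponent d H)) =
      if d = n then pderiv i0 (homogeneousComponent d H) else 0 := by
    intro d
    by_cases hd : d = 0
    · subst hd
      rw [if_neg (by omega), homogeneousComponent_zero, pderiv_C, map_zero]
    · rw [homogeneousComponent_of_mem ((homogeneousComponent_isHomogeneous d H).pderiv (i := i0))]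
      by_cases hdn : d = n
      · rw [if_pos (by omega), if_pos hdn]
      · rw [if_neg (by omega), if_neg hdn]
  simp only [h1]
  by_cases hn : n ∈ Finset.range (H.totalDegree + 1)
  · rw [Finset.sum_eq_single_of_mem n hn]
    · rw [if_pos rfl]
    · intro d _ hd; rw [if_neg hd]
  · rw [homogeneousComponent_eq_zero n H (by simpa using hn), map_zero]
    apply Finset.sum_eq_zero
    intro d hd
    rw [if_neg]
    rintro rfl
    exact hn hd

end EurHuh
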