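import Pool.Agent.Work.EurHuh.SatDiv
import Pool.Agent.Work.EurHuh.Vol
import Pool.Agent.Work.EurHuh.VolMult
import Pool.Agent.Work.EurHuh.BiPol
import Pool.Agent.Work.EurHuh.ShiftPoly

/-!
M8b: volume polynomial of `(A, ⟨1,c⟩, ⟨1,d⟩)`.

`vol_sat`: let `α = deg_Y Q`, `β = deg_X Q` (`Y` is evaluated at `d`, `X` at `c`), `W = A i0 = cont Q`. The
space `prd A (m + e) * ⟨1,c⟩^p * ⟨1,d⟩^q` is the image under the evaluation `X ↦ c`, `Y ↦ d` of the space of
polynomials of bidegree at most `(p, q)` with coefficients in `prd A (m + e)`, of dimension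
`(p+1)(q+1) D(m+e)`, `D(m) = dim prd A m`. By `uniform_div` for `m i0 ≥ l0` the kernel is
`Q *` (polynomials of bidegree at most `(p-β, q-α)` with coefficients in `prd A m`). So for `p ≥ β`,
`q ≥ α`: `dim = (p+1)(q+1) D(m+e) - (p+1-β)(q+1-α) D(m)` (`count_formula`).
-/

namespace EurHuh

open Module Submodule

variable {K F : Type*} [Field K] [Field F] [Algebra K F]

open MvPolynomial in
theorem vol_sat {ι : Type*} [Fintype ι] [DecidableEq ι] (A : ι → Submodule K F)
    (hA : Adm K A) (i0 : ι) (Q : Polynomial (Polynomial F)) (hQ : Q ≠ 0) (hW : A i0 = cont K Q)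
    (c d : F) (hQ0 : Polynomial.evalEval c d Q = 0)
    (hker : ∀ G : Polynomial (Polynomial F),
      (∀ i j, (G.coeff i).coeff j ∈ IntermediateField.adjoin K (⋃ i, (A i : Set F))) →
        Polynomial.evalEval c d G = 0 → Q ∣ G)
    {n : ℕ} {G : MvPolynomial ι ℝ} (hG : IsVol K n A G) :
    ∃ α β : ℕ, IsVol K (n + 1) (Sum.elim A ![pen K c, pen K d])
      (X (Sum.inr 0) * X (Sum.inr 1) * rename Sum.inl (pderiv i0 G) +
        (C (α : ℝ) * X (Sum.inr 0) + C (β : ℝ) * X (Sum.inr 1)) * rename Sum.inl G) := by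
  obtain ⟨H, N, h1, rfl, h3⟩ := hG
  obtain ⟨l0, hl0⟩ := uniform_div A hA i0 Q hQ hW c d hker
  set α := Q.natDegree with hα
  set β := (Polynomial.Bivariate.swap Q).natDegree with hβ
  obtain ⟨hH0, hH1, R, hR, hτ⟩ := sh_of_totalDegree i0 H h1
  set P : MvPolynomial (ι ⊕ Fin 2) ℝ := X (Sum.inr 0) with hP
  set Y : MvPolynomial (ι ⊕ Fin 2) ℝ := X (Sum.inr 1) with hY
  set r : MvPolynomial ι ℝ →ₐ[ℝ] MvPolynomial (ι ⊕ Fin 2) ℝ := rename Sum.inl with hr
  set a : MvPolynomial (ι ⊕ Fin 2) ℝ := C (α : ℝ) with ha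
  set b : MvPolynomial (ι ⊕ Fin 2) ℝ := C (β : ℝ) with hb
  let Lw : MvPolynomial (ι ⊕ Fin 2) ℝ := (P + Y + 1) * r (pderiv i0 H) - (P + 1) * (Y + 1) * r R +
    (a + b - a * b) * r H + (a * (P + 1) + b * (Y + 1) - a * b) * (r R - r (pderiv i0 H))
  have hdec : (P + 1) * (Y + 1) * r H - (P + 1 - b) * (Y + 1 - a) * r (shiftHom i0 H) =
      (P * Y * r (pderiv i0 H) + (a * P + b * Y) * r H) + Lw := by
    rw [hτ, map_add, map_sub]
    simp only [Lw]
    ring
  -- degrees
  have lP : Low 0 1 P := Low.X _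
  have lY : Low 0 1 Y := Low.X _
  have l1 : Low 0 0 (1 : MvPolynomial (ι ⊕ Fin 2) ℝ) := by simpa using Low.const (ι := ι ⊕ Fin 2) 1
  have la : Low 0 0 a := Low.const _
  have lb : Low 0 0 b := Low.const _
  have lP1 : Low 0 1 (P + 1) := lP.add (l1.mono le_rfl (Nat.zero_le _))
  have lY1 : Low 0 1 (Y + 1) := lY.add (l1.mono le_rfl (Nat.zero_le _))
  have lab : Low 0 0 (a * b) := la.mul lb
  have lH : Low 0 n (r H) := hH0.rename _
  have lD : Low 1 n (r (pderiv i0 H)) := hH1.rename _
  have lR : Low 2 n (r R) := hR.rename _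
  have lLw : Low 0 n Lw := by
    refine Low.add (Low.add (Low.sub ?_ ?_) ?_) ?_
    · have h5 : Low 0 1 (P + Y + 1) := (lP.add lY).add (l1.mono le_rfl (Nat.zero_le _))
      have h6 := h5.mul lD
      exact Low.pred (j := 1) (h6.mono (by omega) (by omega))
    · have h6 := (lP1.mul lY1).mul lR
      exact Low.pred (j := 2) (h6.mono (by omega) (by omega))
    · have h6 := ((la.add lb).sub lab).mul lH
      exact h6.mono (by omega) (by omega)
    · have h5 : Low 0 1 (a * (P + 1) + b * (Y + 1) - a * b) :=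
        (((la.mul lP1).mono le_rfl (by omega)).add ((lb.mul lY1).mono le_rfl (by omega))).sub
          (lab.mono le_rfl (Nat.zero_le _))
      have h6 := h5.mul ((lR.mono (by omega) le_rfl).sub lD : Low 1 n (r R - r (pderiv i0 H)))
      exact Low.pred (j := 1) (h6.mono (by omega) (by omega))
  have lA : Low 0 (n + 1) (P * Y * r (pderiv i0 H)) := by
    have h6 := (lP.mul lY).mul lD
    exact Low.pred (j := 1) (h6.mono (by omega) (by omega))
  have lB : Low 0 (n + 1) ((a * P + b * Y) * r H) := by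
    have h5 : Low 0 1 (a * P + b * Y) :=
      ((la.mul lP).mono le_rfl (by omega)).add ((lb.mul lY).mono le_rfl (by omega))
    exact (h5.mul lH).mono le_rfl (by omega)
  -- components
  have cA : homogeneousComponent (n + 1) (P * Y * r (pderiv i0 H)) =
      P * Y * r (pderiv i0 (homogeneousComponent n H)) := by
    rcases Nat.eq_zero_or_pos n with rfl | hn
    · have h5 : pderiv i0 H = 0 := by
        rcases hH1 with h | h
        · exact h
        · omega
      rw [h5, homogeneousComponent_zero, pderiv_C, map_zero, mul_zero, map_zero]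
    · have h5 : (P * Y).IsHomogeneous 2 := (isHomogeneous_X ℝ _).mul (isHomogeneous_X ℝ _)
      have h6 : n + 1 = 2 + (n - 1) := by omega
      rw [h6, homogeneousComponent_mul_of_isHomogeneous h5, hr, homogeneousComponent_rename,
        component_pderiv i0 H hn]
  have cB : homogeneousComponent (n + 1) ((a * P + b * Y) * r H) =
      (a * P + b * Y) * r (homogeneousComponent n H) := by
    have h5 : (a * P + b * Y).IsHomogeneous 1 := by
      have e1 : (a * P).IsHomogeneous (0 + 1) := (isHomogeneous_C _ _).mul (isHomogeneous_X ℝ _)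
      have e2 : (b * Y).IsHomogeneous (0 + 1) := (isHomogeneous_C _ _).mul (isHomogeneous_X ℝ _)
      exact e1.add e2
    rw [add_comm n 1, homogeneousComponent_mul_of_isHomogeneous h5, hr, homogeneousComponent_rename]
  refine ⟨α, β, (P + 1) * (Y + 1) * r H - (P + 1 - b) * (Y + 1 - a) * r (shiftHom i0 H),
    max (max (N + 1) (l0 + 1)) (max α β), ?_, ?_, ?_⟩
  · rw [hdec]
    exact ((lA.add lB).add (lLw.mono le_rfl (Nat.le_succ _))).totalDegree_le
  · rw [hdec, map_add, map_add, cA, cB, lLw.component, add_zero]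
  · intro m hm
    set m0 : ι → ℕ := fun i => m (Sum.inl i) with hm0
    set m' : ι → ℕ := m0 - Pi.single i0 1 with hm'
    set p := m (Sum.inr 0) with hp
    set q := m (Sum.inr 1) with hq
    have hN : ∀ i, N + 1 ≤ m0 i := fun i =>
      (le_trans (le_max_left _ _) (le_max_left _ _)).trans (hm (Sum.inl i))
    have hl : l0 + 1 ≤ m0 i0 :=
      (le_trans (le_max_right _ _) (le_max_left _ _)).trans (hm (Sum.inl i0))
    have hαq : α ≤ q := (le_trans (le_max_left _ _) (le_max_right _ _)).trans (hm (Sum.inr 1))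
    have hβp : β ≤ p := (le_trans (le_max_right _ _) (le_max_right _ _)).trans (hm (Sum.inr 0))
    have hmm : m' + Pi.single i0 1 = m0 := by
      funext i
      by_cases hi : i = i0
      · subst hi
        simp only [hm', Pi.add_apply, Pi.sub_apply, Pi.single_eq_same]
        have := hN i
        omega
      · simp [hm', Pi.single_eq_of_ne hi]
    have hm'N : ∀ i, N ≤ m' i := by
      intro i
      by_cases hi : i = i0
      · subst hi
        simp only [hm', Pi.sub_apply, Pi.single_eq_same]
        have := hN i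
        omega
      · simp only [hm', Pi.sub_apply, Pi.single_eq_of_ne hi]
        have := hN i
        omega
    have hm'l : l0 ≤ m' i0 := by
      simp only [hm', Pi.sub_apply, Pi.single_eq_same]
      omega
    have hcount := count_formula A hA i0 Q hQ hW c d hQ0 m'
      (fun G hG hG0 => hl0 m' hm'l G hG hG0) p q hβp hαq
    rw [hmm] at hcount
    have hprd : prd (Sum.elim A ![pen K c, pen K d]) m = prd A m0 * pen K c ^ p * pen K d ^ q := by
      unfold prd
      rw [Fintype.prod_sum_type, Fin.prod_univ_two, ← mul_assoc]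
      rfl
    rw [hprd]
    have e1 : eval (fun i => (m i : ℝ)) (r H) = (finrank K (prd A m0) : ℝ) := by
      rw [hr, eval_rename, h3 m0 (fun i => (Nat.le_succ N).trans (hN i))]
      rfl
    have e2 : eval (fun i => (m i : ℝ)) (r (shiftHom i0 H)) = (finrank K (prd A m') : ℝ) := by
      rw [hr, eval_rename, eval_shiftHom, h3 m' hm'N]
      congr 2
      funext i
      by_cases hi : i = i0
      · subst hi
        have h5 := hN i
        simp only [Function.comp_apply, if_true, hm', Pi.sub_apply, Pi.single_eq_same]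
        rw [Nat.cast_sub (by omega)]
        simp [hm0]
      · simp [hm', Pi.single_eq_of_ne hi, hi, hm0]
    have e3 : ((p - β : ℕ) : ℝ) = (p : ℝ) - β := Nat.cast_sub hβp
    have e4 : ((q - α : ℕ) : ℝ) = (q : ℝ) - α := Nat.cast_sub hαq
    have hc' : (finrank K (prd A m0 * pen K c ^ p * pen K d ^ q : Submodule K F) : ℝ) +
        ((p : ℝ) - β + 1) * ((q : ℝ) - α + 1) * (finrank K (prd A m') : ℝ) =
        ((p : ℝ) + 1) * ((q : ℝ) + 1) * (finrank K (prd A m0) : ℝ) := by
      have := congrArg (Nat.cast : ℕ → ℝ) hcount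
      push_cast at this
      rw [e3, e4] at this
      exact this
    simp only [map_sub, map_mul, map_add, map_one, e1, e2]
    have e5 : eval (fun i => (m i : ℝ)) P = (p : ℝ) := by rw [hP, eval_X]
    have e6 : eval (fun i => (m i : ℝ)) Y = (q : ℝ) := by rw [hY, eval_X]
    have e7 : eval (fun i => (m i : ℝ)) a = (α : ℝ) := by rw [ha, eval_C]
    have e8 : eval (fun i => (m i : ℝ)) b = (β : ℝ) := by rw [hb, eval_C]
    rw [e5, e6, e7, e8]
    linarith

end EurHuh
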