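import Pool.Agent.Work.EurHuh.Ranks
import Pool.Agent.Work.EurHuh.Face
import Pool.Agent.Work.EurHuh.Replace
import Pool.Agent.Work.EurHuh.LC
import Pool.Agent.Work.EurHuh.VolSat
import Pool.Agent.Work.EurHuh.Irr
import Pool.Agent.Work.EurHuh.FinalAlg

/-!
The main theorem.
-/

namespace EurHuh

open Module Submodule MvPolynomial

section Aux

variable {K L : Type*} [Field K] [Field L] [Algebra K L]

lemma aeval_exP (w : Fin 7 → ℝ) (v : Option (Fin 5) → ℝ) (h0 : v none = w 0)
    (h1 : v (some 0) = w 1) (h2 : v (some 1) = w 2) (h3 : v (some 2) = w 3)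
    (h4 : v (some 3) = w 4) (h5 : v (some 4) = w 5) : aeval v exP = pw w := by
  rw [ex_eval, Fin.prod_univ_five, h0, h1, h2, h3, h4, h5, pw]
  ring

lemma cont_fg (Q : Polynomial (Polynomial L)) : (cont K Q).FG := by
  refine Submodule.fg_span ?_
  have h1 : {x | ∃ i j, (Q.coeff i).coeff j = x} ⊆
      {0} ∪ ⋃ i ∈ Q.support, ((Q.coeff i).coeff '' ((Q.coeff i).support : Set ℕ)) := by
    rintro x ⟨i, j, rfl⟩
    by_cases h : (Q.coeff i).coeff j = 0
    · left; exact h
    · right
      have hi : i ∈ Q.support := by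
        rw [Polynomial.mem_support_iff]
        intro h0
        rw [h0] at h
        simp at h
      exact Set.mem_biUnion hi ⟨j, by simpa using h, rfl⟩
  refine Set.Finite.subset ?_ h1
  refine (Set.finite_singleton _).union ?_
  exact Set.Finite.biUnion (Finset.finite_toSet _) fun i _ => (Finset.finite_toSet _).image _

lemma coe_pen_subset (x : L) : (pen K x : Set L) ⊆ cl K ({x} : Set L) := by
  intro y hy
  refine pen_le (K := K) (S := (cl K ({x} : Set L)).toSubalgebra.toSubmodule) ?_ ?_ hy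
  · exact one_mem (cl K ({x} : Set L))
  · exact subset_cl (K := K) ({x} : Set L) rfl

/-- replacing one member of rank one by a pencil does not change the rank -/
lemma rk_replace {ι : Type*} {V V' : ι → Submodule K L} {i0 : ι}
    (hV' : ∀ i, i ≠ i0 → V' i = V i) {x : L} (hx0 : V' i0 = pen K x) (hx : x ∈ V i0)
    (hxt : Transcendental K x) (h1 : rk K (V i0 : Set L) = 1) :
    rk K (⋃ i, (V' i : Set L)) = rk K (⋃ i, (V i : Set L)) := by
  classical
  refine rk_eq_of_cl ?_ ?_
  · refine Set.iUnion_subset fun i => ?_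
    by_cases hi : i = i0
    · subst hi
      rw [hx0]
      refine (coe_pen_subset x).trans ?_
      refine SetLike.coe_subset_coe.mpr (cl_mono ?_)
      exact Set.singleton_subset_iff.mpr (Set.mem_iUnion.mpr ⟨i, hx⟩)
    · rw [hV' i hi]
      exact (Set.subset_iUnion (fun i => (V i : Set L)) i).trans (subset_cl _)
  · refine Set.iUnion_subset fun i => ?_
    by_cases hi : i = i0
    · subst hi
      refine (subset_cl_singleton h1 hx hxt).trans ?_
      refine SetLike.coe_subset_coe.mpr (cl_mono ?_)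
      refine Set.singleton_subset_iff.mpr (Set.mem_iUnion.mpr ⟨i, ?_⟩)
      rw [hx0]
      exact mem_pen x
    · rw [← hV' i hi]
      exact (Set.subset_iUnion (fun i => (V' i : Set L)) i).trans (subset_cl _)

lemma adm_replace {ι : Type*} {V V' : ι → Submodule K L} (hV : Adm K V) {i0 : ι}
    (hV' : ∀ i, i ≠ i0 → V' i = V i) {x : L} (hx0 : V' i0 = pen K x) : Adm K V' := by
  classical
  intro i
  by_cases hi : i = i0
  · subst hi
    rw [hx0]
    exact ⟨pen_fg x, one_mem_pen x⟩
  · rw [hV' i hi]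
    exact hV i

end Aux

universe u

/-- the configuration produced by a representation of the example -/
theorem main_contra {K L : Type u} [Field K] [PerfectField K] [Field L] [Algebra K L]
    {V : Option (Fin 5) → Submodule K L} (hV : Adm K V)
    (hn : rk K (⋃ i, (V i : Set L)) = 5) {P : MvPolynomial (Option (Fin 5)) ℝ}
    (hP : IsVol K 5 V P) {c : ℝ} (hc : 0 < c)
    (hPc : ∀ w : Option (Fin 5) → ℝ, eval w P = c * aeval w exP) : False := by
  obtain ⟨r1, r02, r001, r023, r0abx, r0cdx⟩ := rank_facts hV hn hP hc hPc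
  choose ξ hξ hξt using fun i : Fin 5 => exists_transcendental (r1 i)
  -- abbreviations for the sets
  set S0 : Set L := (↑(V none) : Set L) with hS0
  set Sab : Set L := (↑(V none) : Set L) ∪ ↑(V (some 0)) ∪ ↑(V (some 1)) with hSab
  set Scd : Set L := (↑(V none) : Set L) ∪ ↑(V (some 2)) ∪ ↑(V (some 3)) with hScd
  have hVcl : ∀ i : Fin 5, (V (some i) : Set L) ⊆ cl K ({ξ i} : Set L) := fun i =>
    subset_cl_singleton (r1 i) (hξ i) (hξt i)
  -- `ξ x` is not algebraic over `Sab`, `x ∉ {a, b}`
  have hab : ∀ i : Fin 5, i ≠ 0 → i ≠ 1 → ξ i ∉ cl K Sab := by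
    intro i h0 h1 hmem
    have h2 : rk K (Sab ∪ V (some i)) = rk K Sab := by
      refine rk_eq_of_subset_cl Set.subset_union_left (Set.union_subset (subset_cl _) ?_)
      refine (hVcl i).trans (SetLike.coe_subset_coe.mpr (cl_le ?_))
      exact Set.singleton_subset_iff.mpr hmem
    rw [r0abx i h0 h1, r001] at h2
    exact absurd h2 (by decide)
  have hcd : ∀ i : Fin 5, i ≠ 2 → i ≠ 3 → ξ i ∉ cl K Scd := by
    intro i h0 h1 hmem
    have h2 : rk K (Scd ∪ V (some i)) = rk K Scd := by
      refine rk_eq_of_subset_cl Set.subset_union_left (Set.union_subset (subset_cl _) ?_)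
      refine (hVcl i).trans (SetLike.coe_subset_coe.mpr (cl_le ?_))
      exact Set.singleton_subset_iff.mpr hmem
    rw [r0cdx i h0 h1, r023] at h2
    exact absurd h2 (by decide)
  have h0ab : S0 ⊆ Sab := fun x hx => Or.inl (Or.inl hx)
  have h0cd : S0 ⊆ Scd := fun x hx => Or.inl (Or.inl hx)
  -- the relation
  have hd : IsAlgebraic (IntermediateField.adjoin K ((cl K S0 : Set L) ∪ {ξ 2})) (ξ 3) := by
    have h1 : (Scd : Set L) ⊆ cl K (V none ∪ V (some 2) : Set L) := by
      refine subset_cl_of_rk_eq (r := 4) ?_ (by simpa using r02) (by simpa using r023)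
      exact Set.subset_union_left
    have h2 : ξ 3 ∈ cl K (V none ∪ V (some 2) : Set L) := h1 (Or.inr (hξ 3))
    have h3 : (V none ∪ V (some 2) : Set L) ⊆ cl K ((cl K S0 : Set L) ∪ {ξ 2}) := by
      refine Set.union_subset ?_ ?_
      · exact (subset_cl _).trans ((Set.subset_union_left).trans (subset_cl _))
      · exact (hVcl 2).trans (SetLike.coe_subset_coe.mpr (cl_mono Set.subset_union_right))
    exact mem_cl.mp (cl_le h3 h2)
  obtain ⟨Q, hQk, hQ1, hQ0, hQker⟩ := exists_relation (cl K S0) (cl K Sab) (cl_mono h0ab)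
    (fun y hy => mem_cl_of_isAlgebraic hy) (ξ 2) (ξ 3)
    (transcendental_of_notMem (hab 2 (by decide) (by decide))) hd
  have hQne : Q ≠ 0 := by
    obtain ⟨i, j, hij⟩ := hQ1
    rintro rfl
    simp at hij
  set D : Submodule K L := cont K Q with hD
  have hD1 : (1 : L) ∈ D := by
    obtain ⟨i, j, hij⟩ := hQ1
    exact subset_span ⟨i, j, hij⟩
  have hDk : (D : Set L) ⊆ cl K S0 := by
    have : D ≤ (cl K S0).toSubalgebra.toSubmodule := by
      rw [hD, cont, span_le]
      rintro x ⟨i, j, rfl⟩
      exact hQk i j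
    exact this
  have hQD : ∀ i j, (Q.coeff i).coeff j ∈ D := fun i j => subset_span ⟨i, j, rfl⟩
  -- the family of seven
  let U : Fin 7 → Submodule K L := ![V none, V (some 0), V (some 1), V (some 2), V (some 3),
    V (some 4), D]
  have hU : Adm K U := by
    intro i
    fin_cases i
    · exact hV none
    · exact hV (some 0)
    · exact hV (some 1)
    · exact hV (some 2)
    · exact hV (some 3)
    · exact hV (some 4)
    · exact ⟨cont_fg Q, hD1⟩
  have hUS0 : (U 0 : Set L) = S0 := rfl
  -- rank of subfamilies of `U` containing the member `0`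
  have hrkU : rk K (⋃ i, (U i : Set L)) = 5 := by
    rw [← hn]
    refine rk_eq_of_cl ?_ ?_
    · refine Set.iUnion_subset fun i => ?_
      have h : ∀ o, (V o : Set L) ⊆ cl K (⋃ i, (V i : Set L)) := fun o =>
        (Set.subset_iUnion (fun i => (V i : Set L)) o).trans (subset_cl _)
      fin_cases i
      · exact h none
      · exact h (some 0)
      · exact h (some 1)
      · exact h (some 2)
      · exact h (some 3)
      · exact h (some 4)
      · exact hDk.trans (SetLike.coe_subset_coe.mpr (cl_mono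
          (Set.subset_iUnion (fun i => (V i : Set L)) none)))
    · refine Set.iUnion_subset fun o => ?_
      have h : ∀ i, (U i : Set L) ⊆ cl K (⋃ i, (U i : Set L)) := fun i =>
        (Set.subset_iUnion (fun i => (U i : Set L)) i).trans (subset_cl _)
      rcases o with _ | o
      · exact h 0
      · fin_cases o
        · exact h 1
        · exact h 2
        · exact h 3
        · exact h 4
        · exact h 5
  obtain ⟨R, hR⟩ := exists_vol U hU hrkU
  -- face 0
  obtain ⟨e0, he0, hF0⟩ : ∃ e : ℝ, 0 < e ∧ ∀ w : Fin 7 → ℝ, w 6 = 0 → eval w R = e * pw w := by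
    let j : Option (Fin 5) → Fin 7 := fun o => o.elim 0 (fun i => i.castSucc.succ)
    have hj : Function.Injective j := by
      have : ∀ o o' : Option (Fin 5), j o = j o' → o = o' := by decide
      exact fun o o' h => this o o' h
    have hUj : (fun k => U (j k)) = V := by
      funext o
      rcases o with _ | o
      · rfl
      · fin_cases o <;> rfl
    obtain ⟨e, he, h⟩ := vol_face U hU j hj hrkU (by
      have : (⋃ k, (U (j k) : Set L)) = ⋃ i, (V i : Set L) := by
        rw [← hUj]
      rw [this]; exact hn) hR (P' := P) (by rw [hUj]; exact hP)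
    refine ⟨e * c, mul_pos he hc, fun w hw => ?_⟩
    rw [h w (fun i hi => ?_), hPc, mul_assoc]
    · congr 2
      exact aeval_exP w _ rfl rfl rfl rfl rfl rfl
    · have : ∀ i : Fin 7, i ≠ 6 → ∃ o, j o = i := by decide
      by_contra hne
      have h6 : i ≠ 6 := by
        rintro rfl
        exact hne hw
      exact hi (this i h6)
  -- general faces with one letter
  have face : ∀ (q : Fin 4 → Fin 7) (x : Fin 7) (z : Fin 5), U x = V (some z) →
      Function.Injective q → (∀ k, q k ≠ x) →
      rk K ((⋃ k, (U (q k) : Set L)) ∪ U x) = 5 →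
      ξ z ∉ cl K (⋃ k, (U (q k) : Set L)) →
      ∀ G : MvPolynomial (Fin 4) ℝ, IsVol K 4 (fun k => U (q k)) G →
      ∃ r : ℝ, 0 < r ∧ ∀ w : Fin 7 → ℝ, (∀ i, i ≠ x → (∀ k, q k ≠ i) → w i = 0) →
        eval w R = r * w x * eval (fun k => w (q k)) G := by
    intro q x z hxz hq hqx h5 hnot G hG
    let j : Option (Fin 4) → Fin 7 := fun o => o.elim x q
    have hj : Function.Injective j := by
      intro o o' h
      rcases o with _ | o <;> rcases o' with _ | o'
      · rfl
      · exact absurd h.symm (hqx o')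
      · exact absurd h (hqx o)
      · exact congrArg some (hq h)
    let V1 : Option (Fin 4) → Submodule K L := fun o => U (j o)
    let V2 : Option (Fin 4) → Submodule K L := fun o => o.elim (pen K (ξ z)) (fun k => U (q k))
    have hV2 : ∀ o, o ≠ none → V2 o = V1 o := by
      intro o ho
      rcases o with _ | o
      · exact absurd rfl ho
      · rfl
    have hV1adm : Adm K V1 := fun o => hU (j o)
    have hV2adm : Adm K V2 := adm_replace hV1adm (i0 := none) hV2 rfl
    have hA : Adm K (fun k => U (q k)) := fun k => hU (q k)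
    have htr : Transcendental (IntermediateField.adjoin K (⋃ k, (U (q k) : Set L))) (ξ z) := by
      intro h
      exact hnot (mem_cl.mpr h)
    have hvol2 := vol_mult (fun k => U (q k)) hA (ξ z) htr hG
    have hzmem : ξ z ∈ V1 none := by
      change ξ z ∈ U x
      rw [hxz]
      exact hξ z
    have hrkone : rk K (V1 none : Set L) = 1 := by
      change rk K (U x : Set L) = 1
      rw [hxz]
      exact r1 z
    have hrk1 : rk K (⋃ o, (V1 o : Set L)) = 5 := by
      rw [Set.iUnion_option, Set.union_comm]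
      exact h5
    obtain ⟨P1, hP1⟩ := exists_vol V1 hV1adm hrk1
    obtain ⟨e1, he1, hf1⟩ := vol_face U hU j hj hrkU hrk1 hR hP1
    obtain ⟨e2, ρ, he2, hρ, hf2⟩ := vol_replace V1 V2 hV1adm none hV2 (ξ z) rfl hzmem (hξt z)
      hrkone hrk1 hP1 hvol2
    refine ⟨e1 * e2 * ρ, by positivity, fun w hw => ?_⟩
    rw [hf1 w (fun i hi => hw i (fun h => hi ⟨none, h.symm⟩) (fun k h => hi ⟨some k, h⟩)), hf2,
      map_mul, eval_X, eval_rename]
    have h5 : (Function.update (fun k => w (j k)) none (ρ * w (j none)) ∘ some) =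
        fun k => w (q k) := by
      funext k
      simp [j]
    rw [h5, Function.update_self]
    change e1 * (e2 * (ρ * w x * _)) = _
    ring
  -- the two families of rank four
  let qab : Fin 4 → Fin 7 := ![0, 1, 2, 6]
  let qcd : Fin 4 → Fin 7 := ![0, 3, 4, 6]
  have hqab : Function.Injective qab := by
    have : ∀ k k' : Fin 4, qab k = qab k' → k = k' := by decide
    exact fun k k' h => this k k' h
  have hqcd : Function.Injective qcd := by
    have : ∀ k k' : Fin 4, qcd k = qcd k' → k = k' := by decide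
    exact fun k k' h => this k k' h
  have hUab : (⋃ k, (U (qab k) : Set L)) = Sab ∪ D := by
    ext y
    rw [Set.mem_iUnion]
    constructor
    · rintro ⟨k, hk⟩
      fin_cases k
      · exact Or.inl (Or.inl (Or.inl hk))
      · exact Or.inl (Or.inl (Or.inr hk))
      · exact Or.inl (Or.inr hk)
      · exact Or.inr hk
    · rintro (((hy | hy) | hy) | hy)
      · exact ⟨0, hy⟩
      · exact ⟨1, hy⟩
      · exact ⟨2, hy⟩
      · exact ⟨3, hy⟩
  have hUcd : (⋃ k, (U (qcd k) : Set L)) = Scd ∪ D := by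
    ext y
    rw [Set.mem_iUnion]
    constructor
    · rintro ⟨k, hk⟩
      fin_cases k
      · exact Or.inl (Or.inl (Or.inl hk))
      · exact Or.inl (Or.inl (Or.inr hk))
      · exact Or.inl (Or.inr hk)
      · exact Or.inr hk
    · rintro (((hy | hy) | hy) | hy)
      · exact ⟨0, hy⟩
      · exact ⟨1, hy⟩
      · exact ⟨2, hy⟩
      · exact ⟨3, hy⟩
  have hDS : ∀ S : Set L, S0 ⊆ S → (D : Set L) ⊆ cl K S := fun S h =>
    hDk.trans (SetLike.coe_subset_coe.mpr (cl_mono h))
  have hclD : ∀ S : Set L, S0 ⊆ S → cl K (S ∪ D) ≤ cl K S := fun S h =>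
    cl_le (Set.union_subset (subset_cl S) (hDS S h))
  have hrkD : ∀ S : Set L, S0 ⊆ S → rk K (S ∪ D) = rk K S := fun S h =>
    rk_eq_of_subset_cl Set.subset_union_left (Set.union_subset (subset_cl S) (hDS S h))
  have hrkDT : ∀ S T : Set L, S0 ⊆ S → rk K ((S ∪ D) ∪ T) = rk K (S ∪ T) := by
    intro S T h
    refine rk_eq_of_subset_cl (Set.union_subset_union_left T Set.subset_union_left) ?_
    refine Set.union_subset (Set.union_subset ?_ ?_) ?_
    · exact Set.subset_union_left.trans (subset_cl _)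
    · exact hDS _ (h.trans Set.subset_union_left)
    · exact Set.subset_union_right.trans (subset_cl _)
  have hAab : Adm K (fun k => U (qab k)) := fun k => hU (qab k)
  have hAcd : Adm K (fun k => U (qcd k)) := fun k => hU (qcd k)
  have hrab : rk K (⋃ k, (U (qab k) : Set L)) = 4 := by
    rw [hUab, hrkD _ h0ab]; exact r001
  have hrcd : rk K (⋃ k, (U (qcd k) : Set L)) = 4 := by
    rw [hUcd, hrkD _ h0cd]; exact r023
  obtain ⟨G1, hG1⟩ := exists_vol (fun k => U (qab k)) hAab hrab
  obtain ⟨G2, hG2⟩ := exists_vol (fun k => U (qcd k)) hAcd hrcd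
  -- faces of the first kind
  have face1 : ∀ (x : Fin 7), (x = 3 ∨ x = 4 ∨ x = 5) → ∃ r : ℝ, 0 < r ∧ ∀ w : Fin 7 → ℝ,
      (∀ i : Fin 7, (i = 3 ∨ i = 4 ∨ i = 5) → i ≠ x → w i = 0) →
        eval w R = r * w x * eval ![w 0, w 1, w 2, w 6] G1 := by
    intro x hx
    have hz : ∃ z : Fin 5, U x = V (some z) ∧ z ≠ 0 ∧ z ≠ 1 := by
      rcases hx with rfl | rfl | rfl
      · exact ⟨2, rfl, by decide, by decide⟩
      · exact ⟨3, rfl, by decide, by decide⟩
      · exact ⟨4, rfl, by decide, by decide⟩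
    obtain ⟨z, hxz, hz0, hz1⟩ := hz
    obtain ⟨r, hr, h⟩ := face qab x z hxz hqab (by
        have : ∀ x : Fin 7, (x = 3 ∨ x = 4 ∨ x = 5) → ∀ k, qab k ≠ x := by decide
        exact this x hx) (by
        rw [hUab, hrkDT _ _ h0ab, hxz]; exact r0abx z hz0 hz1) (by
        rw [hUab]
        exact fun h => hab z hz0 hz1 (hclD _ h0ab h)) G1 hG1
    refine ⟨r, hr, fun w hw => ?_⟩
    rw [h w (fun i hix hik => hw i ?_ hix)]
    · have h5 : (fun k => w (qab k)) = ![w 0, w 1, w 2, w 6] := by
        funext k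
        fin_cases k <;> rfl
      rw [h5]
    · have : ∀ i : Fin 7, (∀ k, qab k ≠ i) → (i = 3 ∨ i = 4 ∨ i = 5) := by decide
      exact this i hik
  have face2 : ∀ (x : Fin 7), (x = 1 ∨ x = 2 ∨ x = 5) → ∃ r : ℝ, 0 < r ∧ ∀ w : Fin 7 → ℝ,
      (∀ i : Fin 7, (i = 1 ∨ i = 2 ∨ i = 5) → i ≠ x → w i = 0) →
        eval w R = r * w x * eval ![w 0, w 3, w 4, w 6] G2 := by
    intro x hx
    have hz : ∃ z : Fin 5, U x = V (some z) ∧ z ≠ 2 ∧ z ≠ 3 := by
      rcases hx with rfl | rfl | rfl
      · exact ⟨0, rfl, by decide, by decide⟩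
      · exact ⟨1, rfl, by decide, by decide⟩
      · exact ⟨4, rfl, by decide, by decide⟩
    obtain ⟨z, hxz, hz0, hz1⟩ := hz
    obtain ⟨r, hr, h⟩ := face qcd x z hxz hqcd (by
        have : ∀ x : Fin 7, (x = 1 ∨ x = 2 ∨ x = 5) → ∀ k, qcd k ≠ x := by decide
        exact this x hx) (by
        rw [hUcd, hrkDT _ _ h0cd, hxz]; exact r0cdx z hz0 hz1) (by
        rw [hUcd]
        exact fun h => hcd z hz0 hz1 (hclD _ h0cd h)) G2 hG2
    refine ⟨r, hr, fun w hw => ?_⟩
    rw [h w (fun i hix hik => hw i ?_ hix)]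
    · have h5 : (fun k => w (qcd k)) = ![w 0, w 3, w 4, w 6] := by
        funext k
        fin_cases k <;> rfl
      rw [h5]
    · have : ∀ i : Fin 7, (∀ k, qcd k ≠ i) → (i = 1 ∨ i = 2 ∨ i = 5) := by decide
      exact this i hik
  -- the relation face
  obtain ⟨ρ, α, β, hρ, hF3⟩ : ∃ ρ α β : ℝ, 0 < ρ ∧ ∀ w : Fin 7 → ℝ, w 5 = 0 → eval w R =
      ρ * w 3 * w 4 * eval ![w 0, w 1, w 2, w 6] (pderiv 3 G1) +
        (α * w 3 + β * w 4) * eval ![w 0, w 1, w 2, w 6] G1 := by
    let A : Fin 4 → Submodule K L := fun k => U (qab k)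
    let j : Fin 4 ⊕ Fin 2 → Fin 7 := Sum.elim qab ![3, 4]
    have hj : Function.Injective j := by
      have : ∀ o o' : Fin 4 ⊕ Fin 2, j o = j o' → o = o' := by decide
      exact fun o o' h => this o o' h
    let W1 : Fin 4 ⊕ Fin 2 → Submodule K L := fun o => U (j o)
    let W2 : Fin 4 ⊕ Fin 2 → Submodule K L := Sum.elim A ![pen K (ξ 2), V (some 3)]
    let W3 : Fin 4 ⊕ Fin 2 → Submodule K L := Sum.elim A ![pen K (ξ 2), pen K (ξ 3)]
    have hW2 : ∀ o, o ≠ Sum.inr 0 → W2 o = W1 o := by
      rintro (k | k) ho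
      · rfl
      · fin_cases k
        · exact absurd rfl ho
        · rfl
    have hW3 : ∀ o, o ≠ Sum.inr 1 → W3 o = W2 o := by
      rintro (k | k) ho
      · rfl
      · fin_cases k
        · rfl
        · exact absurd rfl ho
    have hW1adm : Adm K W1 := fun o => hU (j o)
    have hW2adm : Adm K W2 := adm_replace hW1adm (i0 := Sum.inr 0) hW2 rfl
    have hrW1 : rk K (⋃ o, (W1 o : Set L)) = 5 := by
      refine le_antisymm ?_ ?_
      · rw [← hrkU]
        exact rk_mono (Set.iUnion_subset fun o => Set.subset_iUnion (fun i => (U i : Set L)) (j o))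
      · rw [← r0abx 2 (by decide) (by decide)]
        refine rk_mono ?_
        rintro y (((hy | hy) | hy) | hy)
        · exact Set.mem_iUnion.mpr ⟨Sum.inl 0, hy⟩
        · exact Set.mem_iUnion.mpr ⟨Sum.inl 1, hy⟩
        · exact Set.mem_iUnion.mpr ⟨Sum.inl 2, hy⟩
        · exact Set.mem_iUnion.mpr ⟨Sum.inr 0, hy⟩
    have hrW2 : rk K (⋃ o, (W2 o : Set L)) = 5 := by
      rw [rk_replace (V := W1) (V' := W2) (i0 := Sum.inr 0) hW2 rfl (hξ 2) (hξt 2) (r1 2), hrW1]
    obtain ⟨P1, hP1⟩ := exists_vol W1 hW1adm hrW1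
    obtain ⟨P2, hP2⟩ := exists_vol W2 hW2adm hrW2
    obtain ⟨α, β, hP3⟩ := vol_sat A hAab 3 Q hQne rfl (ξ 2) (ξ 3) hQ0 (by
      intro G hG hG0
      refine hQker (IntermediateField.adjoin K (⋃ i, (A i : Set L))) ?_ ?_ G hG hG0
      · intro i j
        exact IntermediateField.subset_adjoin K _ (Set.mem_iUnion.mpr ⟨3, hQD i j⟩)
      · refine (adjoin_le_cl _).trans ?_
        rw [hUab]
        exact hclD _ h0ab) hG1
    obtain ⟨e1, he1, hf1⟩ := vol_face U hU j hj hrkU hrW1 hR hP1
    obtain ⟨e2, ρ2, he2, hρ2, hf2⟩ := vol_replace W1 W2 hW1adm (Sum.inr 0) hW2 (ξ 2) rfl (hξ 2)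
      (hξt 2) (r1 2) hrW1 hP1 hP2
    obtain ⟨e3, ρ3, he3, hρ3, hf3⟩ := vol_replace W2 W3 hW2adm (Sum.inr 1) hW3 (ξ 3) rfl (hξ 3)
      (hξt 3) (r1 3) hrW2 hP2 hP3
    refine ⟨e1 * e2 * e3 * ρ2 * ρ3, e1 * e2 * e3 * ρ2 * α, e1 * e2 * e3 * ρ3 * β, by positivity,
      fun w hw => ?_⟩
    rw [hf1 w (fun i hi => ?_), hf2, hf3]
    · simp only [map_add, map_mul, eval_X, eval_C, eval_rename]
      have h5 : (Function.update (Function.update (fun k => w (j k)) (Sum.inr 0)
          (ρ2 * w (j (Sum.inr 0)))) (Sum.inr 1) (ρ3 * (Function.update (fun k => w (j k))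
          (Sum.inr 0) (ρ2 * w (j (Sum.inr 0)))) (Sum.inr 1)) ∘ Sum.inl) =
          ![w 0, w 1, w 2, w 6] := by
        funext k
        fin_cases k <;> rfl
      rw [h5, Function.update_self, Function.update_of_ne (by simp), Function.update_self,
        Function.update_of_ne (by simp)]
      change e1 * (e2 * (e3 * (ρ2 * w 3 * (ρ3 * w 4) * _ + (_ * (ρ2 * w 3) + _ * (ρ3 * w 4)) * _)))
        = _
      ring
    · have : ∀ i : Fin 7, i ≠ 5 → ∃ o, j o = i := by decide
      by_contra hne
      have h6 : i ≠ 5 := by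
        rintro rfl
        exact hne hw
      exact hi (this i h6)
  -- conclusion
  choose! r hr hF1 using face1
  choose! r' hr' hF2 using face2
  have hlet : ∀ i : Fin 7, i ≠ 0 → i ≠ 6 → R.degreeOf i ≤ 1 := by
    intro i h0 h6
    have hone : rk K (⋃ k ∈ ({i} : Finset (Fin 7)), (U k : Set L)) = 1 := by
      have h1 : rk K (U i : Set L) = 1 := by
        have h := r1
        fin_cases i
        · exact absurd rfl h0
        · exact h 0
        · exact h 1
        · exact h 2
        · exact h 3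
        · exact h 4
        · exact absurd rfl h6
      simpa using h1
    obtain ⟨h, -⟩ := hR.rank hU hrkU {i} (r := 1) (by simpa using hone)
    rw [MvPolynomial.degreeOf_le_iff]
    intro s hs
    simpa using h s hs
  refine final_contra R hR.isHomogeneous hlet (fun w hw => hR.nonneg w hw)
    (fun w w' hw hw' => vol_lc U hU hrkU hR w w' hw hw') e0 he0 hF0 G1 G2 hG1.isHomogeneous
    hG2.isHomogeneous (fun x => if x = 3 ∨ x = 4 ∨ x = 5 then r x else 1)
    (fun x => if x = 1 ∨ x = 2 ∨ x = 5 then r' x else 1) ?_ ?_ ?_ ?_ ρ α β hρ hF3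
  · intro i
    split_ifs with h
    · exact hr i h
    · exact one_pos
  · intro i
    split_ifs with h
    · exact hr' i h
    · exact one_pos
  · intro x hx w hw
    rw [if_pos hx]
    exact hF1 x hx w hw
  · intro x hx w hw
    rw [if_pos hx]
    exact hF2 x hx w hw

/-- The Eur-Huh conjecture fails for semiample divisors, over every algebraically closed field
of characteristic zero (closedness is not used). -/
theorem main {K : Type u} [Field K] [PerfectField K] :
    RealizableTriple K (Matroid.freeOn (Set.univ : Set (Fin 5))) exM' exφ ∧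
      ¬ IsSemiampleVolumePolynomial K
        (basisPoly (Matroid.freeOn (Set.univ : Set (Fin 5))) exM' exφ) := by
  refine ⟨ex_realizable K, fun h => ?_⟩
  obtain ⟨L, _, _, V, P, C, hV, hrk, hP, hC, hPC⟩ := semiample_vol h exP_hom exP_ne
  exact main_contra hV hrk hP hC hPC

end EurHuh
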