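import Pool.Agent.Work.EurHuh.Defs

/-!
M0: facts on transcendence degrees (`rk`), from `AlgebraicIndependent.matroid`.
-/

namespace EurHuh

open Module Submodule IntermediateField

variable {K F : Type*} [Field K] [Field F] [Algebra K F]

theorem mem_closure_iff (S : Set F) (y : F) :
    y ∈ (AlgebraicIndependent.matroid K F).closure S ↔ IsAlgebraic (adjoin K S) y := by
  rw [AlgebraicIndependent.matroid_closure_eq, SetLike.mem_coe, Subalgebra.mem_algebraicClosure]
  exact IntermediateField.isAlgebraic_adjoin_iff.symm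

theorem rk_mono {S T : Set F} (h : S ⊆ T) : rk K S ≤ rk K T :=
  (AlgebraicIndependent.matroid K F).eRk_mono h

/-- adding elements algebraic over `K(S)` does not change the rank -/
theorem rk_eq_of_algebraic {S T : Set F} (h : S ⊆ T) (h' : ∀ y ∈ T, IsAlgebraic (adjoin K S) y) :
    rk K T = rk K S := by
  apply le_antisymm _ (rk_mono h)
  have h1 : T ⊆ (AlgebraicIndependent.matroid K F).closure S := fun y hy =>
    (mem_closure_iff S y).2 (h' y hy)
  calc rk K T ≤ rk K ((AlgebraicIndependent.matroid K F).closure S) := rk_mono h1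
    _ = rk K S := (AlgebraicIndependent.matroid K F).eRk_closure_eq S

/-- if the rank does not increase, the larger set is algebraic over the smaller one -/
theorem algebraic_of_rk_eq {S T : Set F} (h : S ⊆ T) {r : ℕ} (hS : rk K S = r) (hT : rk K T = r) :
    ∀ y ∈ T, IsAlgebraic (adjoin K S) y := by
  intro y hy
  rw [← mem_closure_iff]
  have hfin : (AlgebraicIndependent.matroid K F).IsRkFinite S := by
    rw [← Matroid.eRk_lt_top_iff]
    exact lt_of_eq_of_lt hS (ENat.natCast_lt_top r)
  have h1 := hfin.closure_eq_closure_of_subset_of_eRk_ge_eRk h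
    (by
      change rk K T ≤ rk K S
      rw [hS, hT])
  rw [h1]
  exact (AlgebraicIndependent.matroid K F).mem_closure_of_mem hy (Set.subset_univ _)

omit [Field F] in
theorem equiv_of_encard {I : Set F} {r : ℕ} (h : I.encard = r) : Nonempty (Fin r ≃ I) := by
  have hf : I.Finite := Set.finite_of_encard_eq_coe h
  have : Finite I := hf
  have h2 : Nat.card I = r := by
    have := hf.cast_ncard_eq
    rw [h] at this
    exact_mod_cast this
  exact ⟨(Finite.equivFinOfCardEq h2).symm⟩

theorem exists_basis {S : Set F} {r : ℕ} (h : rk K S = r) :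
    ∃ x : Fin r → F, (∀ i, x i ∈ S) ∧ AlgebraicIndependent K x ∧
      ∀ y ∈ S, IsAlgebraic (adjoin K (Set.range x)) y := by
  obtain ⟨I, hI⟩ := (AlgebraicIndependent.matroid K F).exists_isBasis S (Set.subset_univ _)
  have hc : I.encard = r := by rw [hI.encard_eq_eRk]; exact h
  obtain ⟨e⟩ := equiv_of_encard hc
  have hI' := AlgebraicIndependent.matroid_isBasis_iff.1 hI
  have hr : Set.range (fun i => (e i : F)) = I := by
    have : (fun i => (e i : F)) = Subtype.val ∘ e := rfl
    rw [this, Set.range_comp, e.surjective.range_eq, Set.image_univ, Subtype.range_val]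
  refine ⟨fun i => (e i : F), fun i => hI.subset (e i).2, ?_, ?_⟩
  · exact (algebraicIndependent_equiv' e rfl).2 hI'.1
  · intro y hy
    rw [hr]
    exact IntermediateField.isAlgebraic_adjoin_iff.2 (hI'.2.2 y hy)

theorem exists_basis_extend {S T : Set F} (hST : S ⊆ T) {r n : ℕ} (hS : rk K S = r)
    (hT : rk K T = n) :
    r ≤ n ∧ ∃ (x : Fin r → F) (y : Fin (n - r) → F), (∀ i, x i ∈ S) ∧ (∀ i, y i ∈ T \ S) ∧
      AlgebraicIndependent K (Sum.elim x y) := by
  obtain ⟨I, J, hI, hJ, hIJ⟩ :=
    (AlgebraicIndependent.matroid K F).exists_isBasis_subset_isBasis hST (Set.subset_univ _)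
  have hcI : I.encard = r := by rw [hI.encard_eq_eRk]; exact hS
  have hcJ : J.encard = n := by rw [hJ.encard_eq_eRk]; exact hT
  have hle : r ≤ n := by
    have := Set.encard_le_encard hIJ
    rw [hcI, hcJ] at this
    exact_mod_cast this
  refine ⟨hle, ?_⟩
  have hcd : (J \ I).encard = (n - r : ℕ) := by
    have h1 := Set.encard_sdiff_add_encard_of_subset hIJ
    rw [hcI, hcJ] at h1
    have hf : (J \ I).Finite := (Set.finite_of_encard_eq_coe hcJ).subset Set.sdiff_subset
    rw [← hf.cast_ncard_eq] at h1 ⊢
    have h2 : (J \ I).ncard + r = n := by exact_mod_cast h1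
    have : (J \ I).ncard = n - r := by omega
    rw [this]
  obtain ⟨e⟩ := equiv_of_encard hcI
  obtain ⟨f⟩ := equiv_of_encard hcd
  refine ⟨fun i => (e i : F), fun i => (f i : F), fun i => hI.subset (e i).2, fun i => ⟨hJ.subset (f i).2.1, ?_⟩, ?_⟩
  · intro hmem
    have h1 : (AlgebraicIndependent.matroid K F).Indep (insert (f i : F) I) :=
      hJ.indep.subset (Set.insert_subset (f i).2.1 hIJ)
    have h2 := hI.eq_of_subset_indep h1 (Set.subset_insert _ _) (Set.insert_subset hmem hI.subset)
    have h3 : (f i : F) ∈ insert (f i : F) I := Set.mem_insert _ _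
    rw [← h2] at h3
    exact (f i).2.2 h3
  · have hJ' := AlgebraicIndependent.matroid_isBasis_iff.1 hJ
    classical
    have g : Fin r ⊕ Fin (n - r) ≃ J := (Equiv.sumCongr e f).trans (Equiv.Set.sumDiffSubset hIJ)
    refine (algebraicIndependent_equiv' ((Equiv.sumCongr e f).trans (Equiv.Set.sumDiffSubset hIJ)) ?_).2 hJ'.1
    funext i
    rcases i with i | i
    · simp
    · simp

theorem rk_eq_of_basis {S : Set F} {r : ℕ} (x : Fin r → F) (hx : ∀ i, x i ∈ S)
    (hi : AlgebraicIndependent K x) (ha : ∀ y ∈ S, IsAlgebraic (adjoin K (Set.range x)) y) :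
    rk K S = r := by
  have hsub : Set.range x ⊆ S := by
    rintro _ ⟨i, rfl⟩
    exact hx i
  rw [rk_eq_of_algebraic hsub ha]
  have h1 : (AlgebraicIndependent.matroid K F).Indep (Set.range x) := by
    rw [AlgebraicIndependent.matroid_indep_iff]
    exact (algebraicIndependent_subtype_range hi.injective).2 hi
  have h2 := h1.eRk_eq_encard
  unfold rk
  rw [h2, ← Set.image_univ, hi.injective.encard_image]
  simp

/-- every nonempty finite dimensional space has finite rank -/
theorem rk_lt_top {ι : Type*} [Finite ι] (V : ι → Submodule K F) (hV : ∀ i, (V i).FG) :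
    ∃ n : ℕ, rk K (⋃ i, (V i : Set F)) = n := by
  choose s hs using hV
  have h1 : (⋃ i, (s i : Set F)) ⊆ ⋃ i, (V i : Set F) := by
    apply Set.iUnion_mono
    intro i
    rw [← hs i]
    exact subset_span
  have h2 : rk K (⋃ i, (V i : Set F)) = rk K (⋃ i, (s i : Set F)) := by
    apply rk_eq_of_algebraic h1
    intro y hy
    rw [Set.mem_iUnion] at hy
    obtain ⟨i, hy⟩ := hy
    have : y ∈ adjoin K (⋃ i, (s i : Set F)) := by
      have h3 : V i ≤ Subalgebra.toSubmodule (adjoin K (⋃ i, (s i : Set F))).toSubalgebra := by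
        rw [← hs i, span_le]
        intro z hz
        exact subset_adjoin K _ (Set.mem_iUnion.2 ⟨i, hz⟩)
      exact h3 hy
    exact isAlgebraic_algebraMap (⟨y, this⟩ : adjoin K (⋃ i, (s i : Set F)))
  have hf : (⋃ i, (s i : Set F)).Finite := Set.finite_iUnion fun i => (s i).finite_toSet
  have h3 : rk K (⋃ i, (s i : Set F)) ≤ (⋃ i, (s i : Set F)).encard :=
    (AlgebraicIndependent.matroid K F).eRk_le_encard _
  have h4 : rk K (⋃ i, (s i : Set F)) < ⊤ := lt_of_le_of_lt h3 hf.encard_lt_top
  rw [h2]
  obtain ⟨n, hn⟩ := ENat.ne_top_iff_exists.1 h4.ne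
  exact ⟨n, hn.symm⟩

/-- the rank may be computed in a subfield -/
theorem rk_image (E : IntermediateField K F) (S : Set E) :
    rk K ((fun y : E => (y : F)) '' S) = rk K S := by
  have hinj : Function.Injective (fun y : E => (y : F)) := Subtype.val_injective
  have h1 : (AlgebraicIndependent.matroid K F).comap (fun y : E => (y : F)) =
      AlgebraicIndependent.matroid K E := by
    apply Matroid.ext_indep
    · rfl
    · intro I _
      rw [Matroid.comap_indep_iff_of_injOn hinj.injOn, AlgebraicIndependent.matroid_indep_iff,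
        AlgebraicIndependent.matroid_indep_iff]
      unfold AlgebraicIndepOn
      have h2 : AlgebraicIndependent K (fun i : I => id (i : E)) ↔
          AlgebraicIndependent K ((E.val) ∘ (fun i : I => id (i : E))) :=
        (AlgHom.algebraicIndependent_iff E.val E.val.injective).symm
      rw [h2]
      exact (algebraicIndependent_equiv' (Equiv.Set.imageOfInjOn _ _ hinj.injOn) rfl).symm
  unfold rk
  rw [← h1, Matroid.eRk_comap]

/-- a finitely generated field extension of transcendence degree `n` is a function field -/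
theorem fnField_adjoin {ι : Type*} [Finite ι] (V : ι → Submodule K F) (hV : ∀ i, (V i).FG) {n : ℕ}
    (h : rk K (⋃ i, (V i : Set F)) = n) :
    FnField K (adjoin K (⋃ i, (V i : Set F))) n := by
  set U : Set F := ⋃ i, (V i : Set F) with hU
  set E := adjoin K U with hE
  have hUE : U ⊆ E := subset_adjoin K U
  set S' : Set E := {y | (y : F) ∈ U} with hS'
  have himg : (fun y : E => (y : F)) '' S' = U := by
    ext y
    constructor
    · rintro ⟨z, hz, rfl⟩
      exact hz
    · intro hy
      exact ⟨⟨y, hUE hy⟩, hy, rfl⟩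
  have hrk : rk K S' = n := by
    rw [← rk_image, himg, h]
  obtain ⟨x, hx, hi, ha⟩ := exists_basis hrk
  refine ⟨x, hi, ?_⟩
  choose s hs using hV
  set L := adjoin K (Set.range x) with hL
  set T : Set E := {y | ∃ i, (y : F) ∈ s i} with hT
  have hTS : T ⊆ S' := by
    rintro y ⟨i, hy⟩
    refine Set.mem_iUnion.2 ⟨i, ?_⟩
    rw [← hs i]
    exact subset_span hy
  have hTfin : T.Finite := by
    have h1 : (⋃ i, (s i : Set F)).Finite := Set.finite_iUnion fun i => (s i).finite_toSet
    refine (h1.preimage (f := fun y : E => (y : F)) Subtype.val_injective.injOn).subset ?_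
    rintro y ⟨i, hy⟩
    exact Set.mem_iUnion.2 ⟨i, hy⟩
  have : Finite T := hTfin
  have hfd : FiniteDimensional L (adjoin L T) :=
    finiteDimensional_adjoin fun y hy => (ha y (hTS hy)).isIntegral
  have htop : adjoin L T = ⊤ := by
    rw [eq_top_iff]
    intro e _
    have h1 : adjoin K U ≤ ((adjoin L T).restrictScalars K).map E.val := by
      rw [adjoin_le_iff]
      intro y hy
      obtain ⟨i, hy⟩ := Set.mem_iUnion.1 hy
      have h3 : V i ≤ Subalgebra.toSubmodule
          (((adjoin L T).restrictScalars K).map E.val).toSubalgebra := by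
        rw [← hs i, span_le]
        intro z hz
        have hzU : z ∈ U := by
          refine Set.mem_iUnion.2 ⟨i, ?_⟩
          rw [← hs i]
          exact subset_span hz
        refine ⟨⟨z, hUE hzU⟩, ?_, rfl⟩
        exact subset_adjoin L T ⟨i, hz⟩
      exact h3 hy
    obtain ⟨e', he', hee⟩ := h1 e.2
    have : e' = e := Subtype.val_injective hee
    rw [← this]
    exact he'
  rw [htop] at hfd
  exact Module.Finite.equiv (IntermediateField.topEquiv (F := L) (E := E)).toLinearEquiv

end EurHuh
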