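import Pool.Agent.Work.EurHuh.Transport
import Pool.Agent.Work.EurHuh.Clos

/-!
The ranks of the members of a family whose volume polynomial is the example.
-/

namespace EurHuh

open Module Submodule MvPolynomial

/-- the exponent of the monomial of `T` -/
def expT (T : Finset (Fin 5)) : Option (Fin 5) → ℕ
  | none => 5 - T.card
  | some i => if i ∈ T then 1 else 0

noncomputable def expF (T : Finset (Fin 5)) : Option (Fin 5) →₀ ℕ :=
  Finsupp.equivFunOnFinite.symm (expT T)

lemma expF_apply (T : Finset (Fin 5)) (o : Option (Fin 5)) : expF T o = expT T o := rfl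

lemma expF_inj {T T' : Finset (Fin 5)} (h : expF T = expF T') : T = T' := by
  ext i
  have := DFunLike.congr_fun h (some i)
  simp only [expF_apply, expT] at this
  by_cases h1 : i ∈ T <;> by_cases h2 : i ∈ T' <;> simp_all

noncomputable abbrev exP : MvPolynomial (Option (Fin 5)) ℚ :=
  basisPoly (Matroid.freeOn (Set.univ : Set (Fin 5))) exM' exφ

lemma exP_eq : exP = ∑ T ∈ Finset.univ.filter (fun T : Finset (Fin 5) => 2 ≤ (T.image exφ).card),
    monomial (expF T) 1 := by
  classical
  unfold exP basisPoly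
  refine Finset.sum_congr ?_ ?_
  · ext T
    simp only [Finset.mem_filter, Finset.mem_univ, true_and]
    exact ex_morphismBasis T
  · intro T _
    rw [MvPolynomial.monomial_eq, Finsupp.prod_fintype _ _ (by simp)]
    rw [C_1, one_mul, Fintype.prod_option]
    congr 1
    · rw [← Finset.prod_subset (Finset.subset_univ T)]
      · refine Finset.prod_congr rfl fun i hi => ?_
        simp [expF_apply, expT, hi]
      · intro i _ hi
        simp [expF_apply, expT, hi]

lemma exP_coeff (s : Option (Fin 5) →₀ ℕ) :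
    coeff s exP ≠ 0 ↔ ∃ T : Finset (Fin 5), 2 ≤ (T.image exφ).card ∧ s = expF T := by
  classical
  rw [exP_eq, coeff_sum]
  simp only [coeff_monomial]
  constructor
  · intro h
    obtain ⟨T, hT, hT2⟩ := Finset.exists_ne_zero_of_sum_ne_zero h
    rw [Finset.mem_filter] at hT
    refine ⟨T, hT.2, ?_⟩
    by_contra hne
    exact hT2 (if_neg fun h => hne h.symm)
  · rintro ⟨T, hT, rfl⟩
    rw [Finset.sum_eq_single T]
    · simp
    · intro T' _ hne
      exact if_neg fun h => hne (expF_inj h)
    · intro h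
      exact absurd (Finset.mem_filter.mpr ⟨Finset.mem_univ T, hT⟩ : T ∈ Finset.univ.filter
        (fun T : Finset (Fin 5) => 2 ≤ (T.image exφ).card)) h

lemma exP_ne : exP ≠ 0 := by
  intro h
  have := (exP_coeff (expF Finset.univ)).mpr ⟨Finset.univ, by decide, rfl⟩
  rw [h] at this
  simp at this

lemma exP_hom : exP.IsHomogeneous 5 := by
  intro s hs
  obtain ⟨T, -, rfl⟩ := (exP_coeff s).mp hs
  rw [Finsupp.weight_apply, Finsupp.sum_fintype _ _ (by simp), Fintype.sum_option]
  simp only [expF_apply, expT, Pi.one_apply, smul_eq_mul, mul_one]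
  rw [Finset.sum_ite_mem]
  simp only [Finset.univ_inter, Finset.sum_const, smul_eq_mul, mul_one]
  have := Finset.card_le_univ T
  simp at this
  omega

variable {K L : Type*} [Field K] [Field L] [Algebra K L]

lemma support_eq {P : MvPolynomial (Option (Fin 5)) ℝ} {c : ℝ} (hc : 0 < c)
    (hP : ∀ w : Option (Fin 5) → ℝ, eval w P = c * aeval w exP) (s : Option (Fin 5) →₀ ℕ) :
    s ∈ P.support ↔ ∃ T : Finset (Fin 5), 2 ≤ (T.image exφ).card ∧ s = expF T := by
  have h1 : P = C c * MvPolynomial.map (algebraMap ℚ ℝ) exP := by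
    apply MvPolynomial.funext
    intro w
    rw [hP, map_mul, eval_C, MvPolynomial.eval_map, MvPolynomial.aeval_def]
  rw [MvPolynomial.mem_support_iff, h1, coeff_C_mul, coeff_map, ← exP_coeff]
  constructor
  · intro h h0
    exact h (by rw [h0]; simp)
  · intro h h0
    rcases mul_eq_zero.mp h0 with h2 | h2
    · exact hc.ne' h2
    · exact h ((map_eq_zero _).mp h2)

/-- the ranks are read off from the polynomial -/
lemma rank_of_exP {V : Option (Fin 5) → Submodule K L} (hV : Adm K V)
    (hn : rk K (⋃ i, (V i : Set L)) = 5) {P : MvPolynomial (Option (Fin 5)) ℝ}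
    (hP : IsVol K 5 V P) {c : ℝ} (hc : 0 < c)
    (hPc : ∀ w : Option (Fin 5) → ℝ, eval w P = c * aeval w exP) (J : Finset (Option (Fin 5)))
    (r : ℕ) (h1 : ∀ T : Finset (Fin 5), 2 ≤ (T.image exφ).card → ∑ i ∈ J, expT T i ≤ r)
    (h2 : ∃ T : Finset (Fin 5), 2 ≤ (T.image exφ).card ∧ ∑ i ∈ J, expT T i = r) :
    rk K (⋃ i ∈ J, (V i : Set L)) = r := by
  have hle : rk K (⋃ i ∈ J, (V i : Set L)) ≤ 5 := by
    rw [← hn]
    exact rk_mono (Set.iUnion₂_subset fun i _ => Set.subset_iUnion (fun i => (V i : Set L)) i)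
  obtain ⟨r', hr'⟩ : ∃ r' : ℕ, rk K (⋃ i ∈ J, (V i : Set L)) = r' := by
    have : rk K (⋃ i ∈ J, (V i : Set L)) ≠ ⊤ := ne_top_of_le_ne_top (by simp) hle
    exact ⟨_, (ENat.natCast_toNat this).symm⟩
  obtain ⟨h3, s, hs, hs'⟩ := hP.rank hV hn J hr'
  rw [hr']
  have h4 : r' ≤ r := by
    obtain ⟨T, hT, rfl⟩ := (support_eq hc hPc s).mp hs
    rw [← hs']
    exact h1 T hT
  have h5 : r ≤ r' := by
    obtain ⟨T, hT, hT'⟩ := h2
    rw [← hT']
    exact h3 (expF T) ((support_eq hc hPc _).mpr ⟨T, hT, rfl⟩)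
  exact_mod_cast le_antisymm h4 h5

/-- all rank facts which are used -/
theorem rank_facts {V : Option (Fin 5) → Submodule K L} (hV : Adm K V)
    (hn : rk K (⋃ i, (V i : Set L)) = 5) {P : MvPolynomial (Option (Fin 5)) ℝ}
    (hP : IsVol K 5 V P) {c : ℝ} (hc : 0 < c)
    (hPc : ∀ w : Option (Fin 5) → ℝ, eval w P = c * aeval w exP) :
    (∀ i : Fin 5, rk K (V (some i) : Set L) = 1) ∧
    rk K (V none ∪ V (some 2) : Set L) = 4 ∧
    rk K (V none ∪ V (some 0) ∪ V (some 1) : Set L) = 4 ∧
    rk K (V none ∪ V (some 2) ∪ V (some 3) : Set L) = 4 ∧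
    (∀ i : Fin 5, i ≠ 0 → i ≠ 1 →
      rk K (V none ∪ V (some 0) ∪ V (some 1) ∪ V (some i) : Set L) = 5) ∧
    (∀ i : Fin 5, i ≠ 2 → i ≠ 3 →
      rk K (V none ∪ V (some 2) ∪ V (some 3) ∪ V (some i) : Set L) = 5) := by
  have key := rank_of_exP hV hn hP hc hPc
  refine ⟨?_, ?_, ?_, ?_, ?_, ?_⟩
  · intro i
    have := key {some i} 1 (by
      intro T _
      simp only [Finset.sum_singleton, expT]
      split_ifs <;> simp) ⟨Finset.univ, by decide, by simp [expT]⟩
    simpa using this
  · have := key {none, some 2} 4 (by decide) (by decide)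
    simpa [Set.union_assoc] using this
  · have := key {none, some 0, some 1} 4 (by decide) (by decide)
    simpa [Set.union_assoc] using this
  · have := key {none, some 2, some 3} 4 (by decide) (by decide)
    simpa [Set.union_assoc] using this
  · intro i h0 h1
    have := key {none, some 0, some 1, some i} 5 (by revert i; decide) (by revert i; decide)
    simpa [Set.union_assoc] using this
  · intro i h0 h1
    have := key {none, some 2, some 3, some i} 5 (by revert i; decide) (by revert i; decide)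
    simpa [Set.union_assoc] using this

end EurHuh
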