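import Pool.Agent.Work.EurHuh.Basic

/-!
Dedekind-Mertens lemma for spans of coefficients, one variable.
-/

namespace EurHuh

open Module Submodule Polynomial

variable {K F : Type*} [Field K] [Field F] [Algebra K F]

/-- the span of the coefficients of a polynomial -/
def con (K : Type*) {F : Type*} [Field K] [Field F] [Algebra K F] (f : F[X]) : Submodule K F :=
  span K {x | ∃ i, f.coeff i = x}

lemma coeff_mem_con (f : F[X]) (i : ℕ) : f.coeff i ∈ con K f := subset_span ⟨i, rfl⟩

lemma con_le {f : F[X]} {P : Submodule K F} (h : ∀ i, f.coeff i ∈ P) : con K f ≤ P := by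
  rw [con, span_le]
  rintro x ⟨i, rfl⟩
  exact h i

theorem dm_one (f : F[X]) : ∀ (n : ℕ) (g : F[X]), (∀ k, n < k → g.coeff k = 0) →
    con K f ^ (n + 1) * con K g ≤ con K f ^ n * con K (f * g) := by
  intro n
  induction n with
  | zero =>
    intro g hg
    rw [zero_add, pow_one, pow_zero, one_mul, Submodule.mul_le]
    intro a ha x hx
    refine span_induction (p := fun a _ => a * x ∈ con K (f * g)) ?_ (by simp) ?_ ?_ ha
    · rintro _ ⟨i, rfl⟩
      refine span_induction (p := fun x _ => f.coeff i * x ∈ con K (f * g)) ?_ (by simp) ?_ ?_ hx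
      · rintro _ ⟨k, rfl⟩
        rcases Nat.eq_zero_or_pos k with rfl | hk
        · have : f.coeff i * g.coeff 0 = (f * g).coeff i := by
            rw [eq_C_of_natDegree_eq_zero (p := g)]
            · simp
            · exact Nat.le_zero.mp (natDegree_le_iff_coeff_eq_zero.mpr hg)
          rw [this]
          exact coeff_mem_con _ _
        · rw [hg k hk, mul_zero]
          exact zero_mem _
      · intro y z _ _ hy hz
        rw [mul_add]; exact add_mem hy hz
      · intro r y _ hy
        rw [mul_smul_comm]; exact smul_mem _ _ hy
    · intro y z _ _ hy hz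
      rw [add_mul]; exact add_mem hy hz
    · intro r y _ hy
      rw [smul_mul_assoc]; exact smul_mem _ _ hy
  | succ n ih =>
    intro g hg
    set b : F := g.coeff (n + 1) with hb
    set g' : F[X] := g - monomial (n + 1) b with hg'
    set A : Submodule K F := con K f with hA
    set C : Submodule K F := con K (f * g) with hC
    have hcoef : ∀ k, k ≠ n + 1 → g'.coeff k = g.coeff k := by
      intro k hk
      rw [hg', coeff_sub, coeff_monomial, if_neg (Ne.symm hk), sub_zero]
    have hcoef1 : g'.coeff (n + 1) = 0 := by
      rw [hg', coeff_sub, coeff_monomial, if_pos rfl, hb, sub_self]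
    have hdeg : ∀ k, n < k → g'.coeff k = 0 := by
      intro k hk
      rcases eq_or_ne k (n + 1) with rfl | hk'
      · exact hcoef1
      · rw [hcoef k hk']
        exact hg k (by omega)
    have ih' := ih g' hdeg
    -- step (ii)
    have hC' : con K (f * g') ≤ C ⊔ A * span K {b} := by
      apply con_le
      intro k
      have : f * g' = f * g - f * monomial (n + 1) b := by rw [hg', mul_sub]
      rw [this, coeff_sub]
      refine sub_mem (mem_sup_left (coeff_mem_con _ _)) (mem_sup_right ?_)
      rw [← C_mul_X_pow_eq_monomial, ← mul_assoc, coeff_mul_X_pow']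
      split_ifs with h
      · rw [coeff_mul_C]
        exact Submodule.mul_mem_mul (coeff_mem_con _ _) (mem_span_singleton_self b)
      · exact zero_mem _
    have h2 : A ^ (n + 1) * con K g' ≤ A ^ n * C ⊔ A ^ (n + 1) * span K {b} := by
      refine ih'.trans ?_
      calc A ^ n * con K (f * g') ≤ A ^ n * (C ⊔ A * span K {b}) := by gcongr
        _ = A ^ n * C ⊔ A ^ (n + 1) * span K {b} := by
          rw [Submodule.mul_sup, ← mul_assoc, ← pow_succ]
    -- step (iv)
    have h4 : ∀ (k i : ℕ), f.natDegree < i + k → ∀ x ∈ A ^ (n + 1),
        x * (f.coeff i * b) ∈ A ^ (n + 1) * C := by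
      intro k
      induction k with
      | zero =>
        intro i hi x _
        rw [coeff_eq_zero_of_natDegree_lt (by simpa using hi)]
        simp
      | succ k ihk =>
        intro i hi x hx
        have hmem : (i, n + 1) ∈ Finset.HasAntidiagonal.antidiagonal (i + (n + 1)) := by simp
        have e1 : (f * g).coeff (i + (n + 1)) = f.coeff i * b +
            ∑ p ∈ (Finset.HasAntidiagonal.antidiagonal (i + (n + 1))).erase (i, n + 1),
              f.coeff p.1 * g.coeff p.2 := by
          rw [coeff_mul, ← Finset.add_sum_erase _ _ hmem]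
        have e2 : x * (f.coeff i * b) = x * (f * g).coeff (i + (n + 1)) -
            ∑ p ∈ (Finset.HasAntidiagonal.antidiagonal (i + (n + 1))).erase (i, n + 1),
              x * (f.coeff p.1 * g.coeff p.2) := by
          rw [e1, mul_add, Finset.mul_sum]; ring
        rw [e2]
        refine sub_mem (Submodule.mul_mem_mul hx (coeff_mem_con _ _)) (sum_mem fun p hp => ?_)
        obtain ⟨hp1, hp2⟩ := Finset.mem_erase.mp hp
        rw [Finset.HasAntidiagonal.mem_antidiagonal] at hp2
        rcases lt_trichotomy p.2 (n + 1) with h | h | h
        · have hi' : i < p.1 := by omega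
          have h5 : x * g.coeff p.2 ∈ A ^ n * C ⊔ A ^ (n + 1) * span K {b} := by
            apply h2
            rw [← hcoef p.2 h.ne]
            exact Submodule.mul_mem_mul hx (coeff_mem_con _ _)
          obtain ⟨y, hy, z, hz, hyz⟩ := mem_sup.mp h5
          have e3 : x * (f.coeff p.1 * g.coeff p.2) = f.coeff p.1 * y + f.coeff p.1 * z := by
            rw [← mul_add, hyz]; ring
          rw [e3]
          refine add_mem ?_ ?_
          · have := Submodule.mul_mem_mul (coeff_mem_con (K := K) f p.1) hy
            rw [← mul_assoc, ← hA, ← pow_succ'] at this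
            exact this
          · rw [mem_mul_span_singleton] at hz
            obtain ⟨z', hz', rfl⟩ := hz
            have := ihk p.1 (by omega) z' hz'
            convert this using 1
            ring
        · exfalso
          apply hp1
          ext
          · simp; omega
          · simpa using h
        · rw [hg p.2 h]
          simp
    -- conclusion
    have h6 : A ^ (n + 1 + 1) * span K {b} ≤ A ^ (n + 1) * C := by
      rw [Submodule.mul_le]
      intro y hy z hz
      rw [mem_span_singleton] at hz
      obtain ⟨r, rfl⟩ := hz
      rw [mul_smul_comm]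
      refine smul_mem _ _ ?_
      rw [pow_succ] at hy
      refine Submodule.mul_induction_on hy ?_ ?_
      · intro x hx a ha
        refine span_induction (p := fun a _ => x * a * b ∈ A ^ (n + 1) * C) ?_ (by simp) ?_ ?_ ha
        · rintro _ ⟨i, rfl⟩
          rw [mul_assoc]
          exact h4 (f.natDegree + 1) i (by omega) x hx
        · intro u v _ _ hu hv
          rw [mul_add, add_mul]; exact add_mem hu hv
        · intro r u _ hu
          rw [mul_smul_comm, smul_mul_assoc]; exact smul_mem _ _ hu
      · intro u v hu hv
        rw [add_mul]; exact add_mem hu hv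
    have h7 : con K g ≤ con K g' ⊔ span K {b} := by
      apply con_le
      intro k
      rcases eq_or_ne k (n + 1) with rfl | hk
      · exact mem_sup_right (mem_span_singleton_self _)
      · rw [← hcoef k hk]
        exact mem_sup_left (coeff_mem_con _ _)
    calc A ^ (n + 1 + 1) * con K g ≤ A ^ (n + 1 + 1) * (con K g' ⊔ span K {b}) := by gcongr
      _ = A ^ (n + 1 + 1) * con K g' ⊔ A ^ (n + 1 + 1) * span K {b} := Submodule.mul_sup _ _ _
      _ ≤ A ^ (n + 1) * C := by
        refine sup_le ?_ h6
        rw [pow_succ' A (n + 1), mul_assoc]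
        calc A * (A ^ (n + 1) * con K g') ≤ A * (A ^ n * C ⊔ A ^ (n + 1) * span K {b}) := by gcongr
          _ = A ^ (n + 1) * C ⊔ A ^ (n + 1 + 1) * span K {b} := by
            rw [Submodule.mul_sup, ← mul_assoc, ← mul_assoc, ← pow_succ', ← pow_succ']
          _ ≤ A ^ (n + 1) * C := sup_le le_rfl h6

end EurHuh
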