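import Pool.Agent.Work.EurHuh.SatA

/-!
Dedekind-Mertens lemma for spans of coefficients, two variables (Kronecker substitution).
-/

namespace EurHuh

open Module Submodule Polynomial

variable {K F : Type*} [Field K] [Field F] [Algebra K F]

/-- the span of the coefficients of a bivariate polynomial -/
def cont (K : Type*) {F : Type*} [Field K] [Field F] [Algebra K F] (G : F[X][X]) :
    Submodule K F :=
  span K {x | ∃ i j, (G.coeff i).coeff j = x}

lemma coeff_mem_cont (G : F[X][X]) (i j : ℕ) : (G.coeff i).coeff j ∈ cont K G :=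
  subset_span ⟨i, j, rfl⟩

lemma cont_le {G : F[X][X]} {P : Submodule K F} (h : ∀ i j, (G.coeff i).coeff j ∈ P) :
    cont K G ≤ P := by
  rw [cont, span_le]
  rintro x ⟨i, j, rfl⟩
  exact h i j

/-- the Kronecker substitution `Y ↦ X ^ D` -/
noncomputable def kro (F : Type*) [Field F] (D : ℕ) : F[X][X] →+* F[X] := evalRingHom (X ^ D)

lemma kro_coeff (D : ℕ) (G : F[X][X]) (hG : ∀ j, (G.coeff j).natDegree < D) (i j : ℕ)
    (hi : i < D) : (kro F D G).coeff (i + D * j) = (G.coeff j).coeff i := by
  rw [kro, coe_evalRingHom, eval_eq_sum, Polynomial.sum, finsetSum_coeff]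
  rw [Finset.sum_eq_single j]
  · rw [← pow_mul, coeff_mul_X_pow]
  · intro k _ hk
    rw [← pow_mul, coeff_mul_X_pow']
    split_ifs with h
    · have h1 := hG k
      apply coeff_eq_zero_of_natDegree_lt
      refine lt_of_lt_of_le h1 ?_
      rcases lt_or_gt_of_ne hk with hlt | hgt
      · have : D * (k + 1) ≤ D * j := Nat.mul_le_mul_left _ hlt
        rw [mul_add] at this
        omega
      · exfalso
        have : D * (j + 1) ≤ D * k := Nat.mul_le_mul_left _ hgt
        rw [mul_add] at this
        omega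
    · rfl
  · intro h
    rw [notMem_support_iff.mp h]
    simp

lemma con_kro (D : ℕ) (G : F[X][X]) (hG : ∀ j, (G.coeff j).natDegree < D) :
    con K (kro F D G) = cont K G := by
  have hD : 0 < D := lt_of_le_of_lt (Nat.zero_le _) (hG 0)
  apply le_antisymm
  · apply con_le
    intro n
    have : n = n % D + D * (n / D) := (Nat.mod_add_div n D).symm
    rw [this, kro_coeff D G hG _ _ (Nat.mod_lt _ hD)]
    exact coeff_mem_cont _ _ _
  · apply cont_le
    intro i j
    rcases lt_or_ge j D with h | h
    · rw [← kro_coeff D G hG j i h]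
      exact coeff_mem_con _ _
    · rw [coeff_eq_zero_of_natDegree_lt (lt_of_lt_of_le (hG i) h)]
      exact zero_mem _

lemma exists_bound_sb (G : F[X][X]) : ∃ D, ∀ j, (G.coeff j).natDegree < D := by
  refine ⟨(G.support.sup fun j => (G.coeff j).natDegree) + 1, fun j => ?_⟩
  by_cases hj : j ∈ G.support
  · exact Nat.lt_succ_of_le (Finset.le_sup (f := fun j => (G.coeff j).natDegree) hj)
  · rw [notMem_support_iff.mp hj]
    simp

theorem dedekind_mertens (Q g : F[X][X]) :
    ∃ N : ℕ, cont K Q ^ (N + 1) * cont K g ≤ cont K Q ^ N * cont K (Q * g) := by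
  obtain ⟨D1, h1⟩ := exists_bound_sb Q
  obtain ⟨D2, h2⟩ := exists_bound_sb g
  obtain ⟨D3, h3⟩ := exists_bound_sb (Q * g)
  have h1' : ∀ j, (Q.coeff j).natDegree < D1 + D2 + D3 := fun j => by have := h1 j; omega
  have h2' : ∀ j, (g.coeff j).natDegree < D1 + D2 + D3 := fun j => by have := h2 j; omega
  have h3' : ∀ j, ((Q * g).coeff j).natDegree < D1 + D2 + D3 := fun j => by have := h3 j; omega
  refine ⟨(kro F (D1 + D2 + D3) g).natDegree, ?_⟩
  have := dm_one (K := K) (kro F (D1 + D2 + D3) Q) (kro F (D1 + D2 + D3) g).natDegree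
    (kro F (D1 + D2 + D3) g) (fun k hk => coeff_eq_zero_of_natDegree_lt hk)
  rw [← map_mul, con_kro _ _ h1', con_kro _ _ h2', con_kro _ _ h3'] at this
  exact this

end EurHuh
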