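import Pool.Agent.Work.EurHuh.SatB

/-!
M8a: Dedekind-Mertens and uniform division by the relation `Q`.

`dedekind_mertens` is proved in `SatB`.

`uniform_div`: let `S` be the `K`-subalgebra of `MvPolynomial ι F[X][X]` generated by `T_i * a`
(`a` in a finite spanning set of `A i`) and the two variables `s`, `t` (constants in the `T_i`): it
consists of the `∑_m T^m G_m` with all coefficients of `G_m` in `prd A m`; it is a finitely generated
`K`-algebra, so Noetherian. The kernel `I` of the evaluation `s ↦ c`, `t ↦ d` on `S` is generated by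
finitely many elements, whose components `G_j` satisfy `G_j(c,d) = 0`, so
`G_j = Q g_j` by `hker` (the coefficients of `G_j` lie in the field `K(⋃ A_i)`). Let `N_j` be the number of
`dedekind_mertens` for `g_j`: `W^(N_j+1) cont(g_j) ⊆ W^(N_j) cont(G_j) ⊆ W^(N_j) prd A m_j`. Let `l0` be
larger than all `m_j i0 + N_j + 1`. If `G` is as in the statement then `G = ∑ a_j G_j`, the
coefficients of `a_j` in `prd A (m + e - m_j)` (`e` the unit vector of `i0`; `a_j = 0` unless
`m_j ≤ m + e`). Since `(m + e - m_j) i0 ≥ N_j + 1`, `prd A (m + e - m_j) = prd A (m + e - m_j - (N_j+1) e) *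
W^(N_j+1)`, so the coefficients of `a_j g_j` lie in `prd A (m + e - m_j - (N_j+1) e) * W^(N_j) *
prd A m_j = prd A m`. And `G = Q * ∑ a_j g_j`.
-/

namespace EurHuh

open Module Submodule Polynomial

variable {K F : Type*} [Field K] [Field F] [Algebra K F]

/-- bivariate polynomials with all coefficients in `P` -/
def CM (P : Submodule K F) : Submodule K F[X][X] where
  carrier := {G | ∀ i j, (G.coeff i).coeff j ∈ P}
  zero_mem' := by intro i j; simp
  add_mem' := by
    intro a b ha hb i j
    rw [coeff_add, coeff_add]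
    exact add_mem (ha i j) (hb i j)
  smul_mem' := by
    intro r a ha i j
    rw [coeff_smul, coeff_smul]
    exact P.smul_mem r (ha i j)

lemma mem_CM {P : Submodule K F} {G : F[X][X]} :
    G ∈ CM P ↔ ∀ i j, (G.coeff i).coeff j ∈ P := Iff.rfl

lemma CM_mono {P P' : Submodule K F} (h : P ≤ P') : CM P ≤ CM P' :=
  fun _ hG i j => h (hG i j)

lemma CM_mul {P P' : Submodule K F} {G G' : F[X][X]} (h : G ∈ CM P) (h' : G' ∈ CM P') :
    G * G' ∈ CM (P * P') := by
  intro i j
  rw [coeff_mul, finsetSum_coeff]
  refine sum_mem fun p _ => ?_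
  rw [coeff_mul]
  exact sum_mem fun q _ => Submodule.mul_mem_mul (h _ _) (h' _ _)

lemma mem_CM_cont (G : F[X][X]) : G ∈ CM (cont K G) := fun i j => coeff_mem_cont G i j

lemma cont_le_of_mem {P : Submodule K F} {G : F[X][X]} (h : G ∈ CM P) : cont K G ≤ P :=
  cont_le h

lemma CC_mem_CM {P : Submodule K F} {x : F} (hx : x ∈ P) : (C (C x) : F[X][X]) ∈ CM P := by
  intro i j
  rw [coeff_C]
  split_ifs
  · rw [coeff_C]
    split_ifs
    · exact hx
    · exact zero_mem _
  · rw [coeff_zero]
    exact zero_mem _

variable {ι : Type*} [Fintype ι]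

lemma prd_single [DecidableEq ι] (A : ι → Submodule K F) (i : ι) (n : ℕ) :
    prd A (Pi.single i n) = A i ^ n := by
  unfold prd
  rw [Finset.prod_eq_single i]
  · simp
  · intro j _ hj; simp [Pi.single_eq_of_ne hj]
  · simp

lemma prd_le_adjoin_sd (A : ι → Submodule K F) (m : ι → ℕ) {x : F} (hx : x ∈ prd A m) :
    x ∈ IntermediateField.adjoin K (⋃ i, (A i : Set F)) := by
  set E := IntermediateField.adjoin K (⋃ i, (A i : Set F)) with hE
  have h0 : ∀ i, A i ≤ E.toSubalgebra.toSubmodule := fun i y hy =>
    IntermediateField.subset_adjoin K _ (Set.mem_iUnion.mpr ⟨i, hy⟩)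
  have h1 : ∀ (i : ι) (n : ℕ), A i ^ n ≤ E.toSubalgebra.toSubmodule := by
    intro i n
    induction n with
    | zero =>
      rw [pow_zero, Submodule.one_le]
      exact one_mem E
    | succ n ih =>
      rw [pow_succ]
      exact (mul_le_mul' ih (h0 i)).trans
        (Submodule.mul_le.mpr fun x hx y hy => E.mul_mem hx hy)
  have h2 : ∀ s : Finset ι, ∏ i ∈ s, A i ^ m i ≤ E.toSubalgebra.toSubmodule := by
    classical
    intro s
    induction s using Finset.induction_on with
    | empty =>
      rw [Finset.prod_empty, Submodule.one_le]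
      exact one_mem E
    | insert a s ha ih =>
      rw [Finset.prod_insert ha]
      exact (mul_le_mul' (h1 a _) ih).trans
        (Submodule.mul_le.mpr fun x hx y hy => E.mul_mem hx hy)
  exact h2 Finset.univ hx

/-- the Noetherian argument -/
theorem noeth_ker {B B' ι : Type*} [CommRing B] [Algebra K B] [CommRing B'] (φ : B →+* B')
    (S : Subalgebra K (MvPolynomial ι B)) (hS : Algebra.FiniteType K S) :
    ∃ g : Finset (MvPolynomial ι B), (∀ x ∈ g, x ∈ S ∧ ∀ b, φ (MvPolynomial.coeff b x) = 0) ∧
      ∀ (a : ι →₀ ℕ) (G : B), MvPolynomial.monomial a G ∈ S → φ G = 0 →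
        ∃ f : MvPolynomial ι B → MvPolynomial ι B, (∀ x, f x ∈ S) ∧
          MvPolynomial.monomial a G = ∑ x ∈ g, f x * x := by
  classical
  have : IsNoetherianRing S := Algebra.FiniteType.isNoetherianRing K S
  let ψ : S →+* MvPolynomial ι B' := (MvPolynomial.map φ).comp S.val.toRingHom
  have hfg : (RingHom.ker ψ).FG := IsNoetherian.noetherian _
  obtain ⟨g, hg⟩ := hfg
  have hgker : ∀ x ∈ g, ∀ b, φ (MvPolynomial.coeff b (x : MvPolynomial ι B)) = 0 := by
    intro x hx b
    have : x ∈ RingHom.ker ψ := by rw [← hg]; exact subset_span hx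
    rw [RingHom.mem_ker] at this
    have h2 := congrArg (MvPolynomial.coeff b) this
    simpa [ψ, MvPolynomial.coeff_map] using h2
  refine ⟨g.image Subtype.val, ?_, ?_⟩
  · intro x hx
    obtain ⟨y, hy, rfl⟩ := Finset.mem_image.mp hx
    exact ⟨y.2, hgker y hy⟩
  · intro a G hGS hG
    have hker' : (⟨MvPolynomial.monomial a G, hGS⟩ : S) ∈ RingHom.ker ψ := by
      rw [RingHom.mem_ker]
      simp only [ψ, RingHom.comp_apply]
      change MvPolynomial.map φ (MvPolynomial.monomial a G) = 0
      rw [MvPolynomial.map_monomial, hG, map_zero]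
    rw [← hg, Submodule.mem_span_finset] at hker'
    obtain ⟨f, -, hf⟩ := hker'
    refine ⟨fun x => if h : x ∈ S then (f ⟨x, h⟩ : MvPolynomial ι B) else 0, ?_, ?_⟩
    · intro x
      dsimp only
      split_ifs with h
      · exact (f ⟨x, h⟩).2
      · exact zero_mem S
    · have h1 := congrArg (Subtype.val) hf
      rw [Finset.sum_image (fun x _ y _ h => Subtype.ext h)]
      have h2 : MvPolynomial.monomial a G =
          ∑ x ∈ g, (f x : MvPolynomial ι B) * (x : MvPolynomial ι B) := by
        simpa using h1.symm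
      rw [h2]
      refine Finset.sum_congr rfl fun x _ => ?_
      dsimp only
      rw [dif_pos x.2]

theorem uniform_div {ι : Type*} [Fintype ι] [DecidableEq ι] (A : ι → Submodule K F)
    (hA : Adm K A) (i0 : ι) (Q : F[X][X]) (hQ : Q ≠ 0) (hW : A i0 = cont K Q) (c d : F)
    (hker : ∀ G : F[X][X],
      (∀ i j, (G.coeff i).coeff j ∈ IntermediateField.adjoin K (⋃ i, (A i : Set F))) →
        evalEval c d G = 0 → Q ∣ G) :
    ∃ l0 : ℕ, ∀ m : ι → ℕ, l0 ≤ m i0 → ∀ G : F[X][X],
      (∀ i j, (G.coeff i).coeff j ∈ prd A (m + Pi.single i0 1)) → evalEval c d G = 0 →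
        ∃ g : F[X][X], (∀ i j, (g.coeff i).coeff j ∈ prd A m) ∧ G = Q * g := by
  classical
  choose s hs using fun i => (hA i).1
  -- generators
  let G1 : Set (MvPolynomial ι F[X][X]) :=
    ⋃ i, (fun x : F => MvPolynomial.monomial (Finsupp.single i 1) (Polynomial.C (Polynomial.C x))) '' (s i : Set F)
  let G2 : Set (MvPolynomial ι F[X][X]) :=
    {MvPolynomial.C (Polynomial.C (Polynomial.X : F[X])), MvPolynomial.C (Polynomial.X : F[X][X])}
  have hfin : (G1 ∪ G2).Finite :=
    (Set.finite_iUnion fun i => (s i).finite_toSet.image _).union (Set.toFinite _)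
  let S : Subalgebra K (MvPolynomial ι F[X][X]) := Algebra.adjoin K (G1 ∪ G2)
  have hGS : G1 ∪ G2 ⊆ S := Algebra.subset_adjoin
  have hR0 : (1 : F) ∈ prd A (0 : ι → ℕ) := by rw [prd_zero]; exact Submodule.one_le.mp le_rfl
  -- Claim 1
  have c1 : ∀ x ∈ S, ∀ a : ι →₀ ℕ, MvPolynomial.coeff a x ∈ CM (prd A a) := by
    intro x hx
    induction hx using Algebra.adjoin_induction with
    | mem x hx =>
      intro a
      rcases hx with hx | hx
      · obtain ⟨i, y, hy, rfl⟩ := Set.mem_iUnion.mp hx
        simp only [MvPolynomial.coeff_monomial]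
        split_ifs with h
        · subst h
          apply CC_mem_CM
          apply le_prd hA (i := i) (by simp)
          rw [← hs i]
          exact subset_span hy
        · exact zero_mem _
      · rcases hx with rfl | rfl
        · rw [MvPolynomial.coeff_C]
          split_ifs with h
          · subst h
            intro i j
            rw [Polynomial.coeff_C]
            split_ifs
            · rw [Polynomial.coeff_X]
              split_ifs
              · exact hR0
              · exact zero_mem _
            · rw [Polynomial.coeff_zero]; exact zero_mem _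
          · exact zero_mem _
        · rw [MvPolynomial.coeff_C]
          split_ifs with h
          · subst h
            intro i j
            rw [Polynomial.coeff_X]
            split_ifs
            · rw [Polynomial.coeff_one]
              split_ifs
              · exact hR0
              · exact zero_mem _
            · rw [Polynomial.coeff_zero]; exact zero_mem _
          · exact zero_mem _
    | algebraMap r =>
      intro a
      have : algebraMap K (MvPolynomial ι F[X][X]) r =
          MvPolynomial.monomial 0 (Polynomial.C (Polynomial.C (algebraMap K F r))) := by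
        rw [IsScalarTower.algebraMap_apply K F[X][X] (MvPolynomial ι F[X][X])]
        rfl
      rw [this, MvPolynomial.coeff_monomial]
      split_ifs with h
      · subst h
        apply CC_mem_CM
        change algebraMap K F r ∈ prd A (0 : ι → ℕ)
        rw [prd_zero]
        exact Submodule.mem_one.mpr ⟨r, rfl⟩
      · exact zero_mem _
    | add x y _ _ hx hy =>
      intro a
      rw [MvPolynomial.coeff_add]
      exact add_mem (hx a) (hy a)
    | mul x y _ _ hx hy =>
      intro a
      rw [MvPolynomial.coeff_mul]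
      refine sum_mem fun p hp => ?_
      rw [Finset.HasAntidiagonal.mem_antidiagonal] at hp
      have : prd A a = prd A p.1 * prd A p.2 := by
        rw [← prd_add, ← hp, Finsupp.coe_add]
      rw [this]
      exact CM_mul (hx _) (hy _)
  -- Claim 2
  let cc : F →ₗ[K] F[X][X] :=
    { toFun := fun x => Polynomial.C (Polynomial.C x)
      map_add' := by intro x y; simp
      map_smul' := by
        intro r x
        simp only [RingHom.id_apply]
        rw [Polynomial.smul_C, Polynomial.smul_C] }
  let T : (ι →₀ ℕ) → Submodule K F := fun a =>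
    (Subalgebra.toSubmodule S).comap
      (((MvPolynomial.monomial a : F[X][X] →ₗ[F[X][X]] MvPolynomial ι F[X][X]).restrictScalars K).comp cc)
  have hT : ∀ a x, x ∈ T a ↔ MvPolynomial.monomial a (Polynomial.C (Polynomial.C x)) ∈ S := by
    intro a x
    simp [T, cc]
  have hTT : ∀ a b, T a * T b ≤ T (a + b) := by
    intro a b
    rw [Submodule.mul_le]
    intro m hm n hn
    rw [hT] at hm hn ⊢
    rw [Polynomial.C_mul, Polynomial.C_mul, ← MvPolynomial.monomial_mul]
    exact mul_mem hm hn
  have hT0 : (1 : Submodule K F) ≤ T 0 := by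
    rw [Submodule.one_le, hT]
    simp
  have hTpow : ∀ (a : ι →₀ ℕ) (X : Submodule K F), X ≤ T a → ∀ n, X ^ n ≤ T (n • a) := by
    intro a X hX n
    induction n with
    | zero => simpa using hT0
    | succ n ih =>
      rw [pow_succ, succ_nsmul]
      exact (mul_le_mul' ih hX).trans (hTT _ _)
  have hTA : ∀ i, A i ≤ T (Finsupp.single i 1) := by
    intro i
    rw [← hs i, span_le]
    intro q hq
    rw [SetLike.mem_coe, hT]
    exact hGS (Or.inl (Set.mem_iUnion.mpr ⟨i, q, hq, rfl⟩))
  have hTprod : ∀ (a : ι → ℕ) (t : Finset ι),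
      ∏ i ∈ t, A i ^ a i ≤ T (∑ i ∈ t, Finsupp.single i (a i)) := by
    intro a t
    induction t using Finset.induction_on with
    | empty => simpa using hT0
    | insert i t hi ih =>
      rw [Finset.prod_insert hi, Finset.sum_insert hi]
      have h1 := hTpow _ _ (hTA i) (a i)
      rw [Finsupp.smul_single, smul_eq_mul, mul_one] at h1
      exact (mul_le_mul' h1 ih).trans (hTT _ _)
  have hTprd : ∀ a : ι →₀ ℕ, prd A a ≤ T a := by
    intro a
    have := hTprod a Finset.univ
    rwa [Finsupp.univ_sum_single] at this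
  have hX : ∀ n, MvPolynomial.C (Polynomial.C ((Polynomial.X : F[X]) ^ n)) ∈ S := by
    intro n
    rw [Polynomial.C_pow, MvPolynomial.C_pow]
    exact pow_mem (hGS (Or.inr (Or.inl rfl))) n
  have hY : ∀ n, MvPolynomial.C ((Polynomial.X : F[X][X]) ^ n) ∈ S := by
    intro n
    rw [MvPolynomial.C_pow]
    exact pow_mem (hGS (Or.inr (Or.inr rfl))) n
  have c2 : ∀ (a : ι →₀ ℕ) (G : F[X][X]), G ∈ CM (prd A a) → MvPolynomial.monomial a G ∈ S := by
    intro a G hG
    have h1 : ∀ i, MvPolynomial.monomial a (Polynomial.C (G.coeff i)) ∈ S := by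
      intro i
      conv => enter [2, 2, 2]; rw [(G.coeff i).as_sum_support_C_mul_X_pow]
      rw [map_sum, map_sum]
      refine sum_mem fun j _ => ?_
      rw [Polynomial.C_mul, mul_comm, ← MvPolynomial.C_mul_monomial]
      exact mul_mem (hX j) ((hT _ _).mp (hTprd a (hG i j)))
    rw [G.as_sum_support_C_mul_X_pow, map_sum]
    refine sum_mem fun i _ => ?_
    rw [mul_comm, ← MvPolynomial.C_mul_monomial]
    exact mul_mem (hY i) (h1 i)
  -- Noetherian
  obtain ⟨g, hgker, hgen⟩ := noeth_ker (K := K) (evalEvalRingHom c d) S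
    (Algebra.FiniteType.adjoin_of_finite hfin)
  -- quotients by Q
  have hN : ∀ G : F[X][X], ∃ N : ℕ, (∀ i j, (G.coeff i).coeff j ∈
      IntermediateField.adjoin K (⋃ i, (A i : Set F))) → evalEval c d G = 0 →
        ∃ q, G = Q * q ∧ cont K Q ^ (N + 1) * cont K q ≤ cont K Q ^ N * cont K G := by
    intro G
    by_cases h : (∀ i j, (G.coeff i).coeff j ∈
      IntermediateField.adjoin K (⋃ i, (A i : Set F))) ∧ evalEval c d G = 0
    · obtain ⟨q, hq⟩ := hker G h.1 h.2
      obtain ⟨N, hN⟩ := dedekind_mertens (K := K) Q q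
      refine ⟨N, fun _ _ => ⟨q, hq, ?_⟩⟩
      rw [hq]
      exact hN
    · exact ⟨0, fun h1 h2 => absurd ⟨h1, h2⟩ h⟩
  choose N hN using hN
  let L0 : ℕ := g.sup (fun x => x.support.sup fun b => b i0 + N (MvPolynomial.coeff b x))
  have hL0 : ∀ x ∈ g, ∀ b, MvPolynomial.coeff b x ≠ 0 →
      b i0 + N (MvPolynomial.coeff b x) ≤ L0 := by
    intro x hx b hb
    refine le_trans ?_ (Finset.le_sup (f := fun x : MvPolynomial ι F[X][X] =>
      x.support.sup fun b => b i0 + N (MvPolynomial.coeff b x)) hx)
    exact Finset.le_sup (f := fun b : ι →₀ ℕ => b i0 + N (MvPolynomial.coeff b x))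
      (by rwa [MvPolynomial.mem_support_iff])
  refine ⟨L0, ?_⟩
  intro m hm G hG hGe
  let a : ι →₀ ℕ := Finsupp.equivFunOnFinite.symm (m + Pi.single i0 1)
  have ha : ⇑a = m + Pi.single i0 1 := by simp [a]
  obtain ⟨f, hfS, hval⟩ := hgen a G (c2 a G (by rw [ha]; exact hG)) hGe
  have hcoef : G = ∑ x ∈ g, ∑ p ∈ Finset.HasAntidiagonal.antidiagonal a,
      MvPolynomial.coeff p.1 (f x) * MvPolynomial.coeff p.2 x := by
    have := congrArg (MvPolynomial.coeff a) hval
    rw [MvPolynomial.coeff_monomial, if_pos rfl, MvPolynomial.coeff_sum] at this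
    rw [this]
    exact Finset.sum_congr rfl fun x _ => MvPolynomial.coeff_mul _ _ _
  have key : G ∈ (CM (prd A m)).map (LinearMap.mulLeft K Q) := by
    rw [hcoef]
    refine sum_mem fun x hx => sum_mem fun p hp => ?_
    rw [Finset.HasAntidiagonal.mem_antidiagonal] at hp
    by_cases hc : MvPolynomial.coeff p.2 x = 0
    · rw [hc, mul_zero]; exact zero_mem _
    have h1 := c1 _ (hfS x) p.1
    have h2 := c1 _ (hgker x hx).1 p.2
    have h3 := (hgker x hx).2 p.2
    have h4 := hL0 x hx p.2 hc
    obtain ⟨q, hq, hq'⟩ := hN (MvPolynomial.coeff p.2 x)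
      (fun i j => prd_le_adjoin_sd A _ (h2 i j)) h3
    generalize N (MvPolynomial.coeff p.2 x) = n at *
    refine ⟨MvPolynomial.coeff p.1 (f x) * q, ?_, ?_⟩
    · have hp' : ∀ i, p.1 i + p.2 i = m i + (Pi.single i0 1 : ι → ℕ) i := by
        intro i
        have := congrArg (fun b : ι →₀ ℕ => b i) hp
        simpa [ha] using this
      have hn : n + 1 ≤ p.1 i0 := by
        have := hp' i0
        rw [Pi.single_eq_same] at this
        omega
      let p' : ι → ℕ := fun i => p.1 i - (Pi.single i0 (n + 1) : ι → ℕ) i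
      have e1 : ⇑p.1 = p' + Pi.single i0 (n + 1) := by
        funext i
        simp only [p', Pi.add_apply]
        by_cases hi : i = i0
        · subst hi; rw [Pi.single_eq_same]; omega
        · rw [Pi.single_eq_of_ne hi]; omega
      have e2 : p' + (Pi.single i0 n + ⇑p.2) = m := by
        funext i
        have := hp' i
        simp only [p', Pi.add_apply]
        by_cases hi : i = i0
        · subst hi; rw [Pi.single_eq_same] at *; rw [Pi.single_eq_same]; omega
        · rw [Pi.single_eq_of_ne hi] at *; rw [Pi.single_eq_of_ne hi]; omega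
      have h5 : MvPolynomial.coeff p.1 (f x) * q ∈ CM (prd A p.1 * cont K q) :=
        CM_mul h1 (mem_CM_cont q)
      refine CM_mono ?_ h5
      calc prd A p.1 * cont K q = prd A p' * (cont K Q ^ (n + 1) * cont K q) := by
            rw [e1, prd_add, prd_single, hW, mul_assoc]
        _ ≤ prd A p' * (cont K Q ^ n * cont K (MvPolynomial.coeff p.2 x)) := by
            gcongr
        _ ≤ prd A p' * (cont K Q ^ n * prd A p.2) := by
            gcongr
            exact cont_le_of_mem h2
        _ = prd A m := by
            rw [← hW, ← prd_single, ← prd_add, ← prd_add, e2]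
    · rw [LinearMap.mulLeft_apply, hq]
      ring
  obtain ⟨y, hy, hy2⟩ := key
  exact ⟨y, hy, by simpa using hy2.symm⟩

end EurHuh
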