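import Mathlib

/-!
The definitions of the hand-in, the example and its basis generating polynomial.
-/

namespace EurHuh

open Module Filter Topology MvPolynomial

universe u v w

/-- The family `v` of vectors spans `V`, and its linear matroid is `M` (on the whole type). -/
def Realizes (K : Type u) [Field K] {α : Type v} (M : Matroid α) {V : Type u} [AddCommGroup V]
    [Module K V] (v : α → V) : Prop :=
  M.E = Set.univ ∧ Submodule.span K (Set.range v) = ⊤ ∧
    ∀ I : Set α, M.Indep I ↔ LinearIndepOn K v I

/-- The triple `M`, `M'`, `φ` is realizable over `K`. -/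
def RealizableTriple (K : Type u) [Field K] {F : Type v} {F' : Type w} (M : Matroid F)
    (M' : Matroid F') (φ : F → F') : Prop :=
  ∃ (V V' : Type u) (_ : AddCommGroup V) (_ : Module K V) (_ : AddCommGroup V')
    (_ : Module K V') (v : F → V) (v' : F' → V') (Φ : V →ₗ[K] V'),
    Realizes K M v ∧ Realizes K M' v' ∧ ∀ s, Φ (v s) = v' (φ s)

/-- `T` is a basis of `φ`: it lies in a basis of `M` and `φ(T)` contains a basis of `M'`. -/
def IsMorphismBasis {F : Type v} {F' : Type w} (M : Matroid F) (M' : Matroid F') (φ : F → F')
    (T : Finset F) : Prop :=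
  (∃ B, M.IsBase B ∧ (T : Set F) ⊆ B) ∧ ∃ B', M'.IsBase B' ∧ B' ⊆ φ '' (T : Set F)

open Classical in
/-- The homogeneous basis generating polynomial of `φ`; the variable `none` is `w_0`. -/
noncomputable def basisPoly {F : Type v} {F' : Type w} [Fintype F] (M : Matroid F)
    (M' : Matroid F') (φ : F → F') : MvPolynomial (Option F) ℚ :=
  ∑ T ∈ (Finset.univ : Finset (Finset F)).filter (fun T => IsMorphismBasis M M' φ T),
    X none ^ (Fintype.card F - T.card) * ∏ f ∈ T, X (some f)

/-- Volume polynomials of semiample divisors, in terms of function fields. -/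
def IsSemiampleVolumePolynomial (K : Type u) [Field K] {σ : Type v} [Fintype σ]
    (p : MvPolynomial σ ℚ) : Prop :=
  ∃ (d : ℕ) (L : Type u) (_ : Field L) (_ : Algebra K L)
    (_ : Algebra (FractionRing (MvPolynomial (Fin d) K)) L)
    (_ : IsScalarTower K (FractionRing (MvPolynomial (Fin d) K)) L)
    (_ : FiniteDimensional (FractionRing (MvPolynomial (Fin d) K)) L)
    (V : σ → Submodule K L) (b : ℕ),
    0 < b ∧ (∀ i, (V i).FG ∧ (1 : L) ∈ V i) ∧
    FiniteDimensional (IntermediateField.adjoin K (⋃ i, (V i : Set L))) L ∧
    ∀ w : σ → ℕ, (∀ i, 0 < w i) →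
      Tendsto (fun m : ℕ => ((d.factorial *
        finrank (IntermediateField.adjoin K (⋃ i, (V i : Set L))) L *
        finrank K (∏ i, (V i) ^ (m * w i) : Submodule K L) : ℕ) : ℝ) / ((b * m : ℕ) : ℝ) ^ d)
        atTop (𝓝 ((MvPolynomial.eval (fun i => (w i : ℚ)) p : ℚ) : ℝ))

/-! ### The example -/

/-- the uniform matroid of rank two on three elements -/
def exM' : Matroid (Fin 3) :=
  (IndepMatroid.ofFinite (E := Set.univ) Set.finite_univ (fun I : Set (Fin 3) => I.ncard ≤ 2)
    (by simp)
    (fun I J hJ hIJ => (Set.ncard_le_ncard hIJ (Set.toFinite _)).trans hJ)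
    (fun I J _ hJ hIJ => by
      obtain ⟨e, heJ, heI⟩ := Set.exists_mem_notMem_of_ncard_lt_ncard hIJ (Set.toFinite _)
      refine ⟨e, heJ, heI, ?_⟩
      rw [Set.ncard_insert_of_notMem heI (Set.toFinite _)]
      omega)
    (fun I _ => Set.subset_univ I)).matroid

/-- the map of the example -/
def exφ : Fin 5 → Fin 3 := ![0, 0, 1, 1, 2]

lemma exM'_indep (I : Set (Fin 3)) : exM'.Indep I ↔ I.ncard ≤ 2 := Iff.rfl

lemma exM'_E : exM'.E = Set.univ := rfl

lemma ex_basis_iff (S : Set (Fin 3)) :
    (∃ B', exM'.IsBase B' ∧ B' ⊆ S) ↔ 2 ≤ S.ncard := by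
  constructor
  · rintro ⟨B, hB, hBS⟩
    have h2 : B.ncard = 2 := by
      have h1 : B.ncard ≤ 2 := (exM'_indep B).mp hB.indep
      by_contra hne
      have hlt : B.ncard < (({0, 1} : Set (Fin 3))).ncard := by
        rw [Set.ncard_pair (by decide)]; omega
      obtain ⟨e, he, heB⟩ := Set.exists_mem_notMem_of_ncard_lt_ncard hlt (Set.toFinite _)
      have : exM'.Indep (insert e B) := by
        rw [exM'_indep, Set.ncard_insert_of_notMem heB (Set.toFinite _)]
        omega
      exact heB (hB.mem_of_insert_indep this)
    rw [← h2]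
    exact Set.ncard_le_ncard hBS (Set.toFinite _)
  · intro h
    obtain ⟨B, hBS, hB⟩ := Set.exists_subset_card_eq h
    refine ⟨B, ?_, hBS⟩
    have hBi : exM'.Indep B := (exM'_indep B).mpr hB.le
    obtain ⟨B', hB', hBB'⟩ := hBi.exists_isBase_superset
    have h2 : B'.ncard ≤ 2 := (exM'_indep B').mp hB'.indep
    have : B = B' := Set.eq_of_subset_of_ncard_le hBB' (by omega) (Set.toFinite _)
    rw [this]
    exact hB'

lemma ex_morphismBasis (T : Finset (Fin 5)) :
    IsMorphismBasis (Matroid.freeOn Set.univ) exM' exφ T ↔ 2 ≤ (T.image exφ).card := by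
  unfold IsMorphismBasis
  rw [ex_basis_iff]
  have h1 : (exφ '' (T : Set (Fin 5))).ncard = (T.image exφ).card := by
    rw [← Finset.coe_image, Set.ncard_coe_finset]
  rw [h1]
  constructor
  · exact fun h => h.2
  · intro h
    exact ⟨⟨Set.univ, by simp, Set.subset_univ _⟩, h⟩

lemma ex_filter : (Finset.univ.filter (fun T : Finset (Fin 5) => ¬ 2 ≤ (T.image exφ).card)) =
    {∅, {0}, {1}, {2}, {3}, {4}, {0, 1}, {2, 3}} := by
  decide

lemma ex_eval {R : Type*} [CommRing R] [Algebra ℚ R] (w : Option (Fin 5) → R) :
    aeval w (basisPoly (Matroid.freeOn Set.univ) exM' exφ) =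
      (∏ i : Fin 5, (w none + w (some i))) - (w none ^ 5 + w none ^ 4 * (w (some 0) + w (some 1)
        + w (some 2) + w (some 3) + w (some 4)) + w none ^ 3 * (w (some 0) * w (some 1) +
        w (some 2) * w (some 3))) := by
  classical
  have h1 : aeval w (basisPoly (Matroid.freeOn Set.univ) exM' exφ) =
      ∑ T ∈ Finset.univ.filter (fun T : Finset (Fin 5) => 2 ≤ (T.image exφ).card),
        w none ^ (5 - T.card) * ∏ f ∈ T, w (some f) := by
    unfold basisPoly
    rw [map_sum]
    refine Finset.sum_congr ?_ ?_
    · ext T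
      simp only [Finset.mem_filter, Finset.mem_univ, true_and]
      exact ex_morphismBasis T
    · intro T _
      simp
  have h2 : ∏ i : Fin 5, (w none + w (some i)) =
      ∑ T : Finset (Fin 5), w none ^ (5 - T.card) * ∏ f ∈ T, w (some f) := by
    have := Finset.prod_add (fun i : Fin 5 => w (some i)) (fun _ : Fin 5 => w none) Finset.univ
    rw [Finset.prod_congr rfl (fun i _ => add_comm (w none) (w (some i))), this,
      Finset.powerset_univ]
    refine Finset.sum_congr rfl fun T _ => ?_
    rw [Finset.prod_const, Finset.card_sdiff_of_subset (Finset.subset_univ _)]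
    simp [mul_comm]
  have h3 := Finset.sum_filter_add_sum_filter_not (Finset.univ : Finset (Finset (Fin 5)))
    (fun T : Finset (Fin 5) => 2 ≤ (T.image exφ).card)
    (fun T => w none ^ (5 - T.card) * ∏ f ∈ T, w (some f))
  rw [ex_filter] at h3
  rw [h1, h2, ← h3]
  have h4 : ∑ T ∈ ({∅, {0}, {1}, {2}, {3}, {4}, {0, 1}, {2, 3}} : Finset (Finset (Fin 5))),
      w none ^ (5 - T.card) * ∏ f ∈ T, w (some f) = w none ^ 5 + w none ^ 4 * (w (some 0) +
        w (some 1) + w (some 2) + w (some 3) + w (some 4)) + w none ^ 3 * (w (some 0) * w (some 1) +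
        w (some 2) * w (some 3)) := by
    repeat rw [Finset.sum_insert (by decide)]
    rw [Finset.sum_singleton]
    simp
    ring
  rw [h4]
  ring

lemma ex_realizable (K : Type u) [Field K] :
    RealizableTriple K (Matroid.freeOn (Set.univ : Set (Fin 5))) exM' exφ := by
  let v' : Fin 3 → (Fin 2 → K) := ![![1, 0], ![0, 1], ![1, 1]]
  refine ⟨Fin 5 → K, Fin 2 → K, inferInstance, inferInstance, inferInstance, inferInstance,
    Pi.basisFun K (Fin 5), v', (Pi.basisFun K (Fin 5)).constr K (fun s => v' (exφ s)), ?_, ?_, ?_⟩
  · refine ⟨rfl, (Pi.basisFun K (Fin 5)).span_eq, fun I => ?_⟩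
    simp only [Matroid.freeOn_indep_iff, Set.subset_univ, true_iff]
    exact (Pi.basisFun K (Fin 5)).linearIndependent.linearIndepOn I
  · refine ⟨rfl, ?_, fun I => ?_⟩
    · rw [eq_top_iff]
      rintro x -
      have h : x = x 0 • v' 0 + x 1 • v' 1 := by
        ext i
        fin_cases i <;> simp [v']
      rw [h]
      exact add_mem (Submodule.smul_mem _ _ (Submodule.subset_span ⟨0, rfl⟩))
        (Submodule.smul_mem _ _ (Submodule.subset_span ⟨1, rfl⟩))
    · rw [exM'_indep]
      have h01 : LinearIndepOn K v' {0, 1} := by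
        rw [LinearIndepOn.pair_iff _ (by decide)]
        intro a b hab
        have h0 := congrFun hab 0
        have h1 := congrFun hab 1
        simp [v'] at h0 h1
        exact ⟨h0, h1⟩
      have h02 : LinearIndepOn K v' {0, 2} := by
        rw [LinearIndepOn.pair_iff _ (by decide)]
        intro a b hab
        have h0 := congrFun hab 0
        have h1 := congrFun hab 1
        simp [v'] at h0 h1
        subst h1
        simpa using h0
      have h12 : LinearIndepOn K v' {1, 2} := by
        rw [LinearIndepOn.pair_iff _ (by decide)]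
        intro a b hab
        have h0 := congrFun hab 0
        have h1 := congrFun hab 1
        simp [v'] at h0 h1
        subst h0
        simpa using h1
      constructor
      · intro hI
        have hne : ∃ j, j ∉ I := by
          by_contra hcon
          push Not at hcon
          have : I = Set.univ := Set.eq_univ_of_forall hcon
          rw [this, Set.ncard_univ] at hI
          simp at hI
        obtain ⟨j, hj⟩ := hne
        fin_cases j
        · refine h12.mono fun i hi => ?_
          fin_cases i
          · exact absurd hi hj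
          · simp
          · simp
        · refine h02.mono fun i hi => ?_
          fin_cases i
          · simp
          · exact absurd hi hj
          · simp
        · refine h01.mono fun i hi => ?_
          fin_cases i
          · simp
          · simp
          · exact absurd hi hj
      · intro hI
        have h1 : LinearIndependent K (fun i : I => v' i) := hI
        have : Fintype I := Fintype.ofFinite I
        have h2 := h1.fintype_card_le_finrank
        rw [Module.finrank_fin_fun, ← Nat.card_eq_fintype_card] at h2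
        exact h2
  · intro s
    simp

end EurHuh
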